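import Pool.Agent.Lib.H18GB.GR1

/-!
# Project GB2: RES (canonical residue classes)
-/

namespace Pool.Agent.Lib.H18GB

open Finset Pool.Agent.Lib.Sieve

/-- avoiding fewer than `p` residues -/
private theorem res_avoid {p : ℕ} (hp : p.Prime) (s : Finset (ZMod p)) (hs : s.card < p) :
    ∃ r : ℤ, (r : ZMod p) ∉ s := by
  have : NeZero p := ⟨hp.ne_zero⟩
  obtain ⟨r, hr⟩ : ∃ r, r ∉ s := by
    by_contra hall
    push Not at hall
    have h1 : s = Finset.univ := Finset.eq_univ_iff_forall.mpr hall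
    rw [h1, Finset.card_univ, ZMod.card] at hs
    exact lt_irrefl _ hs
  refine ⟨(r.val : ℤ), ?_⟩
  rwa [Int.cast_natCast, ZMod.natCast_zmod_val]

private theorem res_dvd {p : ℕ} {a b : ℤ} (h : (p : ℤ) ∣ a) (hab : (a : ZMod p) = (b : ZMod p)) :
    (p : ℤ) ∣ b := by
  rw [← ZMod.intCast_zmod_eq_zero_iff_dvd] at h ⊢
  rw [← hab, h]

/-- Chinese remainder theorem with a property of the residues -/
private theorem res_gen {w W : ℕ} (hw : 11 ≤ w) (hW : IsW w W) (P : ℕ → ℤ → Prop)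
    (hP : ∀ p : ℕ, p.Prime → ∃ r : ℤ, P p r ∧ (p = 11 → ¬ (11 : ℤ) ∣ r + 1 ∧ ¬ (11 : ℤ) ∣ r + 2 ∧
      ¬ (11 : ℤ) ∣ r + 3))
    (hmod : ∀ (p : ℕ) (r r' : ℤ), (p : ℤ) ∣ r - r' → P p r → P p r') :
    ∃ v : ℕ, v + 3 < W ∧ ∀ p : ℕ, p.Prime → p ≤ w → P p v := by
  classical
  have hP' : ∀ p : ℕ, ∃ r : ℤ, p.Prime → P p r ∧ (p = 11 → ¬ (11 : ℤ) ∣ r + 1 ∧
      ¬ (11 : ℤ) ∣ r + 2 ∧ ¬ (11 : ℤ) ∣ r + 3) := by
    intro p
    by_cases hp : p.Prime
    · obtain ⟨r, hr⟩ := hP p hp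
      exact ⟨r, fun _ => hr⟩
    · exact ⟨0, fun h => absurd h hp⟩
  choose f hf using hP'
  obtain ⟨v, hv, hvr⟩ := hW.exists_res (fun p => (f p : ZMod p))
  have hd : ∀ p : ℕ, p.Prime → p ≤ w → (p : ℤ) ∣ f p - v := by
    intro p hp hpw
    have h1 := hvr p (mem_primesUpTo.mpr ⟨hp, hpw⟩)
    rw [← ZMod.intCast_zmod_eq_zero_iff_dvd]
    push_cast at h1 ⊢
    rw [h1, sub_self]
  refine ⟨v, ?_, fun p hp hpw => hmod p (f p) v (hd p hp hpw) (hf p hp).1⟩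
  have h11 : Nat.Prime 11 := by norm_num
  have hW11 : 11 ∣ W := (hW.2 11 h11).mpr hw
  obtain ⟨h1, h2, h3⟩ := (hf 11 h11).2 rfl
  have h4 := hd 11 h11 hw
  push_cast at h4
  omega

/-- the avoidance of a set of residues for `p ≥ 7` -/
private theorem res_big {p : ℕ} (hp : p.Prime) (h7 : 7 ≤ p) (a b c d e : ℤ) :
    ∃ r : ℤ, (¬ (p : ℤ) ∣ 2 * r + 3 ∧ ¬ (p : ℤ) ∣ a + r ∧ ¬ (p : ℤ) ∣ b + r ∧ ¬ (p : ℤ) ∣ c + r ∧
      ¬ (p : ℤ) ∣ d + r ∧ ¬ (p : ℤ) ∣ e + r) ∧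
      (p = 11 → ¬ (11 : ℤ) ∣ r + 1 ∧ ¬ (11 : ℤ) ∣ r + 2 ∧ ¬ (11 : ℤ) ∣ r + 3) := by
  classical
  have : Fact p.Prime := ⟨hp⟩
  have hcast : ∀ a : ℤ, (a : ZMod p) = 0 ↔ (p : ℤ) ∣ a := fun a =>
    ZMod.intCast_zmod_eq_zero_iff_dvd a p
  have h2u : (2 : ZMod p) ≠ 0 := by
    have := hcast 2
    push_cast at this
    rw [Ne, this]
    intro h
    have h7' : p ∣ 2 := by exact_mod_cast h
    have := Nat.le_of_dvd (by norm_num) h7'
    omega
  by_cases h11 : p = 11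
  · set s : Finset (ZMod p) := {-(3 / 2 : ZMod p), -(a : ZMod p), -(b : ZMod p), -(c : ZMod p),
      -(d : ZMod p), -(e : ZMod p)} ∪ {-1, -2, -3} with hs
    have hcard : s.card < p := by
      have h1 : s.card ≤ 6 + 3 :=
        (Finset.card_union_le _ _).trans (Nat.add_le_add Finset.card_le_six Finset.card_le_three)
      omega
    obtain ⟨r, hr⟩ := res_avoid hp s hcard
    simp only [hs, Finset.mem_union, Finset.mem_insert, Finset.mem_singleton, not_or] at hr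
    obtain ⟨⟨g1, g2, g3, g4, g5, g6⟩, g7, g8, g9⟩ := hr
    refine ⟨r, ⟨?_, ?_, ?_, ?_, ?_, ?_⟩, fun _ => ?_⟩
    · rw [← hcast]; push_cast; intro h; apply g1; field_simp; linear_combination h
    · rw [← hcast]; push_cast; intro h; apply g2; linear_combination h
    · rw [← hcast]; push_cast; intro h; apply g3; linear_combination h
    · rw [← hcast]; push_cast; intro h; apply g4; linear_combination h
    · rw [← hcast]; push_cast; intro h; apply g5; linear_combination h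
    · rw [← hcast]; push_cast; intro h; apply g6; linear_combination h
    · have h11' : (11 : ℤ) = (p : ℤ) := by rw [h11]; norm_num
      rw [h11']
      refine ⟨?_, ?_, ?_⟩
      · rw [← hcast]; push_cast; intro h; apply g7; linear_combination h
      · rw [← hcast]; push_cast; intro h; apply g8; linear_combination h
      · rw [← hcast]; push_cast; intro h; apply g9; linear_combination h
  · set s : Finset (ZMod p) := {-(3 / 2 : ZMod p), -(a : ZMod p), -(b : ZMod p), -(c : ZMod p),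
      -(d : ZMod p), -(e : ZMod p)} with hs
    have hcard : s.card < p := by
      have h1 : s.card ≤ 6 := Finset.card_le_six
      omega
    obtain ⟨r, hr⟩ := res_avoid hp s hcard
    simp only [hs, Finset.mem_insert, Finset.mem_singleton, not_or] at hr
    obtain ⟨g1, g2, g3, g4, g5, g6⟩ := hr
    refine ⟨r, ⟨?_, ?_, ?_, ?_, ?_, ?_⟩, fun h => absurd h h11⟩
    · rw [← hcast]; push_cast; intro h; apply g1; field_simp; linear_combination h
    · rw [← hcast]; push_cast; intro h; apply g2; linear_combination h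
    · rw [← hcast]; push_cast; intro h; apply g3; linear_combination h
    · rw [← hcast]; push_cast; intro h; apply g4; linear_combination h
    · rw [← hcast]; push_cast; intro h; apply g5; linear_combination h
    · rw [← hcast]; push_cast; intro h; apply g6; linear_combination h

private theorem res_coprime {w W : ℕ} (hW : IsW w W) {a : ℤ}
    (h : ∀ p : ℕ, p.Prime → p ≤ w → ¬ (p : ℤ) ∣ a) : IsCoprime a (W : ℤ) := by
  refine hW.isCoprime fun p hp => ?_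
  rw [Ne, ZMod.intCast_zmod_eq_zero_iff_dvd]
  exact h p (mem_primesUpTo.mp hp).1 (mem_primesUpTo.mp hp).2

private theorem res_cases {p : ℕ} (hp : p.Prime) : p = 2 ∨ p = 3 ∨ p = 5 ∨ 7 ≤ p := by
  have h1 := hp.two_le
  have h4 : p ≠ 4 := by
    rintro rfl
    exact absurd hp (by norm_num)
  have h6 : p ≠ 6 := by
    rintro rfl
    exact absurd hp (by norm_num)
  omega

/-- link classes with prescribed conditions at both ends -/
private theorem res_link {w W : ℕ} (hw : 11 ≤ w) (hW : IsW w W) (x x' : ℕ → ℤ)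
    (h2 : x 2 % 2 ≠ x' 2 % 2) (h3 : (3 : ℤ) ∣ x 3) (h3' : (3 : ℤ) ∣ x' 3)
    (h5 : ¬ ((x 5 % 5 = 2 ∨ x 5 % 5 = 3) ∧ (x' 5 % 5 = 2 ∨ x' 5 % 5 = 3))) :
    ∃ v0 : ℕ, v0 + 3 < W ∧ IsCoprime (2 * (v0 : ℤ) + 3) W ∧ ∀ p : ℕ, p.Prime → p ≤ w →
      ¬ (p : ℤ) ∣ x p + v0 ∧ ¬ (p : ℤ) ∣ x p - v0 ∧ ¬ (p : ℤ) ∣ x' p + (v0 + 3) ∧
      ¬ (p : ℤ) ∣ x' p - (v0 + 3) := by
  suffices hs : ∃ v : ℕ, v + 3 < W ∧ ∀ p : ℕ, p.Prime → p ≤ w → ¬ (p : ℤ) ∣ 2 * (v : ℤ) + 3 ∧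
      ¬ (p : ℤ) ∣ x p + v ∧ ¬ (p : ℤ) ∣ x p - v ∧ ¬ (p : ℤ) ∣ x' p + (v + 3) ∧
      ¬ (p : ℤ) ∣ x' p - (v + 3) by
    obtain ⟨v, hv, hvp⟩ := hs
    exact ⟨v, hv, res_coprime hW fun p hp hpw => (hvp p hp hpw).1, fun p hp hpw =>
      (hvp p hp hpw).2⟩
  refine res_gen hw hW (fun p r => ¬ (p : ℤ) ∣ 2 * r + 3 ∧
      ¬ (p : ℤ) ∣ x p + r ∧ ¬ (p : ℤ) ∣ x p - r ∧ ¬ (p : ℤ) ∣ x' p + (r + 3) ∧
      ¬ (p : ℤ) ∣ x' p - (r + 3)) ?_ ?_
  · intro p hp
    rcases res_cases hp with rfl | rfl | rfl | h7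
    · refine ⟨x 2 + 1, ⟨?_, ?_, ?_, ?_, ?_⟩, by omega⟩ <;> push_cast <;> omega
    · refine ⟨1, ⟨?_, ?_, ?_, ?_, ?_⟩, by omega⟩ <;> push_cast <;> first | omega | norm_num
    · have hx : x 5 % 5 = 0 ∨ x 5 % 5 = 1 ∨ x 5 % 5 = 2 ∨ x 5 % 5 = 3 ∨ x 5 % 5 = 4 := by omega
      have hx' : x' 5 % 5 = 0 ∨ x' 5 % 5 = 1 ∨ x' 5 % 5 = 2 ∨ x' 5 % 5 = 3 ∨ x' 5 % 5 = 4 := by
        omega
      have key : ∃ r : ℤ, (r = 0 ∨ r = 2 ∨ r = 3 ∨ r = 4) ∧ ¬ (5 : ℤ) ∣ 2 * r + 3 ∧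
          ¬ (5 : ℤ) ∣ x 5 + r ∧ ¬ (5 : ℤ) ∣ x 5 - r ∧ ¬ (5 : ℤ) ∣ x' 5 + (r + 3) ∧
          ¬ (5 : ℤ) ∣ x' 5 - (r + 3) := by
        by_cases c0 : ¬ (5 : ℤ) ∣ 2 * 0 + 3 ∧
          ¬ (5 : ℤ) ∣ x 5 + 0 ∧ ¬ (5 : ℤ) ∣ x 5 - 0 ∧ ¬ (5 : ℤ) ∣ x' 5 + (0 + 3) ∧
          ¬ (5 : ℤ) ∣ x' 5 - (0 + 3)
        · exact ⟨0, by omega, c0⟩
        by_cases c2 : ¬ (5 : ℤ) ∣ 2 * 2 + 3 ∧
          ¬ (5 : ℤ) ∣ x 5 + 2 ∧ ¬ (5 : ℤ) ∣ x 5 - 2 ∧ ¬ (5 : ℤ) ∣ x' 5 + (2 + 3) ∧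
          ¬ (5 : ℤ) ∣ x' 5 - (2 + 3)
        · exact ⟨2, by omega, c2⟩
        by_cases c3 : ¬ (5 : ℤ) ∣ 2 * 3 + 3 ∧
          ¬ (5 : ℤ) ∣ x 5 + 3 ∧ ¬ (5 : ℤ) ∣ x 5 - 3 ∧ ¬ (5 : ℤ) ∣ x' 5 + (3 + 3) ∧
          ¬ (5 : ℤ) ∣ x' 5 - (3 + 3)
        · exact ⟨3, by omega, c3⟩
        refine ⟨4, by omega, ?_⟩
        rcases hx with hx | hx | hx | hx | hx <;> rcases hx' with hx' | hx' | hx' | hx' | hx' <;>
          omega
      obtain ⟨r, -, hr⟩ := key
      exact ⟨r, by push_cast; exact hr, by omega⟩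
    · obtain ⟨r, ⟨g1, g2, g3, g4, g5, -⟩, g11⟩ := res_big hp h7 (x p) (- x p) (x' p + 3)
        (- x' p + 3) 0
      refine ⟨r, ⟨g1, g2, ?_, ?_, ?_⟩, g11⟩
      · intro h; apply g3; have := h.neg_right; rwa [neg_sub, sub_eq_neg_add] at this
      · intro h; apply g4; rwa [add_assoc, add_comm 3 r]
      · intro h; apply g5
        have := h.neg_right
        have e : -(x' p - (r + 3)) = - x' p + 3 + r := by ring
        rwa [e] at this
  · intro p r r' hd h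
    obtain ⟨h1, h2, h3, h4, h5⟩ := h
    refine ⟨fun h => h1 ?_, fun h => h2 ?_, fun h => h3 ?_, fun h => h4 ?_, fun h => h5 ?_⟩
    · have := dvd_add h (hd.mul_left 2)
      have e : 2 * r' + 3 + 2 * (r - r') = 2 * r + 3 := by ring
      rwa [e] at this
    · have := dvd_add h hd
      have e : x p + r' + (r - r') = x p + r := by ring
      rwa [e] at this
    · have := dvd_sub h hd
      have e : x p - r' - (r - r') = x p - r := by ring
      rwa [e] at this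
    · have := dvd_add h hd
      have e : x' p + (r' + 3) + (r - r') = x' p + (r + 3) := by ring
      rwa [e] at this
    · have := dvd_sub h hd
      have e : x' p - (r' + 3) - (r - r') = x' p - (r + 3) := by ring
      rwa [e] at this

/-- link classes with prescribed conditions at one end and flexible at the other one -/
private theorem res_flex {w W : ℕ} (hw : 11 ≤ w) (hW : IsW w W) (x : ℤ)
    (h3 : (3 : ℤ) ∣ x) :
    ∃ v0 : ℕ, v0 + 3 < W ∧ IsCoprime (2 * (v0 : ℤ) + 3) W ∧ ∀ p : ℕ, p.Prime → p ≤ w →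
      ¬ (p : ℤ) ∣ x + v0 ∧ ¬ (p : ℤ) ∣ x - v0 ∧ ∀ c : ℤ, (c = 0 ∨ c = 1) →
      (p = 2 → (c = 1 ↔ (2 : ℤ) ∣ x)) → (p = 3 → c = 0) → ¬ (p : ℤ) ∣ (v0 + 3) + c ∧
      ¬ (p : ℤ) ∣ (v0 + 3) - c := by
  suffices hs : ∃ v : ℕ, v + 3 < W ∧ ∀ p : ℕ, p.Prime → p ≤ w → ¬ (p : ℤ) ∣ 2 * (v : ℤ) + 3 ∧
      ¬ (p : ℤ) ∣ x + v ∧ ¬ (p : ℤ) ∣ x - v ∧ ∀ c : ℤ, (c = 0 ∨ c = 1) →
      (p = 2 → (c = 1 ↔ (2 : ℤ) ∣ x)) → (p = 3 → c = 0) → ¬ (p : ℤ) ∣ (v + 3) + c ∧
      ¬ (p : ℤ) ∣ (v + 3) - c by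
    obtain ⟨v, hv, hvp⟩ := hs
    exact ⟨v, hv, res_coprime hW fun p hp hpw => (hvp p hp hpw).1, fun p hp hpw =>
      (hvp p hp hpw).2⟩
  refine res_gen hw hW (fun p r => ¬ (p : ℤ) ∣ 2 * r + 3 ∧
      ¬ (p : ℤ) ∣ x + r ∧ ¬ (p : ℤ) ∣ x - r ∧ ∀ c : ℤ, (c = 0 ∨ c = 1) →
      (p = 2 → (c = 1 ↔ (2 : ℤ) ∣ x)) → (p = 3 → c = 0) → ¬ (p : ℤ) ∣ (r + 3) + c ∧
      ¬ (p : ℤ) ∣ (r + 3) - c) ?_ ?_
  · intro p hp
    rcases res_cases hp with rfl | rfl | rfl | h7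
    · refine ⟨x + 1, ⟨?_, ?_, ?_, ?_⟩, by omega⟩
      · push_cast; omega
      · push_cast; omega
      · push_cast; omega
      · intro c hc hc2 _
        have := hc2 rfl
        push_cast
        constructor <;> rcases hc with rfl | rfl <;> omega
    · refine ⟨1, ⟨?_, ?_, ?_, ?_⟩, by omega⟩
      · norm_num
      · push_cast; omega
      · push_cast; omega
      · intro c hc _ hc3
        have := hc3 rfl
        subst this
        constructor <;> norm_num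
    · by_cases hx : x % 5 = 0
      · refine ⟨4, ⟨?_, ?_, ?_, ?_⟩, by omega⟩
        · norm_num
        · push_cast; omega
        · push_cast; omega
        · intro c hc _ _
          constructor <;> rcases hc with rfl | rfl <;> norm_num
      · refine ⟨0, ⟨?_, ?_, ?_, ?_⟩, by omega⟩
        · norm_num
        · push_cast; omega
        · push_cast; omega
        · intro c hc _ _
          constructor <;> rcases hc with rfl | rfl <;> norm_num
    · obtain ⟨r, ⟨g1, g2, g3, g4, g5, g6⟩, g11⟩ := res_big hp h7 x (- x) 3 4 2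
      refine ⟨r, ⟨g1, g2, ?_, ?_⟩, g11⟩
      · intro h; apply g3; have := h.neg_right; rwa [neg_sub, sub_eq_neg_add] at this
      · intro c hc _ _
        rcases hc with rfl | rfl
        · constructor
          · intro h; apply g4; rwa [add_zero, add_comm r 3] at h
          · intro h; apply g4; rwa [sub_zero, add_comm r 3] at h
        · constructor
          · intro h; apply g5
            have e : r + 3 + 1 = 4 + r := by ring
            rwa [e] at h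
          · intro h; apply g6
            have e : r + 3 - 1 = 2 + r := by ring
            rwa [e] at h
  · intro p r r' hd h
    obtain ⟨h1, h2, h3, h4⟩ := h
    refine ⟨fun h => h1 ?_, fun h => h2 ?_, fun h => h3 ?_, fun c hc hc2 hc3 =>
      ⟨fun h => (h4 c hc hc2 hc3).1 ?_, fun h => (h4 c hc hc2 hc3).2 ?_⟩⟩
    · have := dvd_add h (hd.mul_left 2)
      have e : 2 * r' + 3 + 2 * (r - r') = 2 * r + 3 := by ring
      rwa [e] at this
    · have := dvd_add h hd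
      have e : x + r' + (r - r') = x + r := by ring
      rwa [e] at this
    · have := dvd_sub h hd
      have e : x - r' - (r - r') = x - r := by ring
      rwa [e] at this
    · have := dvd_add h hd
      have e : r' + 3 + c + (r - r') = r + 3 + c := by ring
      rwa [e] at this
    · have := dvd_add h hd
      have e : r' + 3 - c + (r - r') = r + 3 - c := by ring
      rwa [e] at this

/-- the class `0` or `1` -/
private theorem res_cy {w W : ℕ} (hW : IsW w W) (x : ℕ) : ∃ y : ℕ, y < W ∧ Comp W x y ∧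
    ∀ p : ℕ, p.Prime → p ≤ w → (p : ℤ) ∣ (y : ℤ) - (if p ∣ x then 1 else 0) := by
  classical
  obtain ⟨y, hy, hyr⟩ := hW.exists_res (fun p => (((if p ∣ x then 1 else 0 : ℤ)) : ZMod p))
  have hd : ∀ p : ℕ, p.Prime → p ≤ w → (p : ℤ) ∣ (y : ℤ) - (if p ∣ x then 1 else 0) := by
    intro p hp hpw
    have h1 := hyr p (mem_primesUpTo.mpr ⟨hp, hpw⟩)
    rw [← ZMod.intCast_zmod_eq_zero_iff_dvd, Int.cast_sub, h1, sub_self]
  refine ⟨y, hy, ⟨res_coprime hW fun p hp hpw => ?_, res_coprime hW fun p hp hpw => ?_⟩, hd⟩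
  · intro h
    have h1 := hd p hp hpw
    by_cases hx : p ∣ x
    · rw [if_pos hx] at h1
      have hx' : (p : ℤ) ∣ (x : ℤ) := Int.natCast_dvd_natCast.mpr hx
      have h2 : (p : ℤ) ∣ 1 := by
        have := dvd_sub (dvd_sub h hx') h1
        have e : (x : ℤ) + y - x - (y - 1) = 1 := by ring
        rwa [e] at this
      have := Int.natCast_dvd_natCast.mp (by exact_mod_cast h2 : (p : ℤ) ∣ ((1 : ℕ) : ℤ))
      have := Nat.le_of_dvd one_pos this
      have := hp.two_le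
      omega
    · rw [if_neg hx, sub_zero] at h1
      apply hx
      have := dvd_sub h h1
      rw [add_sub_cancel_right] at this
      exact Int.natCast_dvd_natCast.mp this
  · intro h
    have h1 := hd p hp hpw
    by_cases hx : p ∣ x
    · rw [if_pos hx] at h1
      have hx' : (p : ℤ) ∣ (x : ℤ) := Int.natCast_dvd_natCast.mpr hx
      have h2 : (p : ℤ) ∣ 1 := by
        have := dvd_sub (dvd_sub hx' h) h1
        have e : (x : ℤ) - (x - y) - (y - 1) = 1 := by ring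
        rwa [e] at this
      have := Int.natCast_dvd_natCast.mp (by exact_mod_cast h2 : (p : ℤ) ∣ ((1 : ℕ) : ℤ))
      have := Nat.le_of_dvd one_pos this
      have := hp.two_le
      omega
    · rw [if_neg hx, sub_zero] at h1
      apply hx
      have := dvd_add h h1
      rw [sub_add_cancel] at this
      exact Int.natCast_dvd_natCast.mp this

private theorem res_transfer {p : ℕ} {a y c : ℤ} (h : (p : ℤ) ∣ y - c) :
    (¬ (p : ℤ) ∣ a + c → ¬ (p : ℤ) ∣ a + y) ∧ (¬ (p : ℤ) ∣ a - c → ¬ (p : ℤ) ∣ a - y) := by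
  refine ⟨fun h1 h2 => h1 ?_, fun h1 h2 => h1 ?_⟩
  · have := dvd_sub h2 h
    have e : a + y - (y - c) = a + c := by ring
    rwa [e] at this
  · have := dvd_add h2 h
    have e : a - y + (y - c) = a - c := by ring
    rwa [e] at this

/-- Chunk RES1. `cy x0 = 0 mod p` if `p ∤ x0`, `= 1 mod p` if `p ∣ x0`. `cv x0` avoids, modulo `p ≥ 5`,
`± x0`, `- 3 / 2`, `- 3`, `- 3 ± 1` (modulo `5`: `- 3 / 2 = 1`, and `{1, 2, 3, ± x0}` is never
everything), and modulo `11` also `- 1, - 2, - 3` (so that `cv x0 + 3 < W`); mod `2` it has the parity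
opposite to `x0`, mod `3` it is `1`. Last part: avoid `± cy x0`, `- 3 ± cy x0'`, `- 3 / 2`: modulo `5`
the four cases `cy ∈ {0, 1}` leave a residue (`decide`). Model: `exists_link_comp` in `TY3a.lean`
(prefer to take the residues as naturals and `decide` for `p = 2, 3, 5`). -/
theorem canon {w W : ℕ} (hw : 11 ≤ w) (hW : IsW w W) : ∃ cy cv : ℕ → ℕ,
    (∀ x0 : ℕ, cy x0 < W ∧ Comp W x0 (cy x0)) ∧
    (∀ x0 : ℕ, (3 : ℤ) ∣ (x0 : ℤ) → cv x0 + 3 < W ∧ IsCoprime (2 * (cv x0 : ℤ) + 3) W ∧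
      Comp W x0 (cv x0) ∧ ∀ x0' : ℕ, ¬ (3 : ℤ) ∣ (x0' : ℤ) → (x0 : ℤ) % 2 = (x0' : ℤ) % 2 →
        Comp W (cv x0 + 3) (cy x0')) ∧
    (∀ x0 x0' : ℕ, ¬ (3 : ℤ) ∣ (x0 : ℤ) → ¬ (3 : ℤ) ∣ (x0' : ℤ) → (x0 : ℤ) % 2 ≠ (x0' : ℤ) % 2 →
      ∃ v0 : ℕ, v0 + 3 < W ∧ IsCoprime (2 * (v0 : ℤ) + 3) W ∧ Comp W v0 (cy x0) ∧
        Comp W (v0 + 3) (cy x0')) := by
  classical
  choose cy hcy1 hcy2 hcy3 using fun x : ℕ => res_cy hW x
  have hv : ∀ x : ℕ, ∃ v0 : ℕ, (3 : ℤ) ∣ (x : ℤ) → v0 + 3 < W ∧ IsCoprime (2 * (v0 : ℤ) + 3) W ∧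
      ∀ p : ℕ, p.Prime → p ≤ w →
      ¬ (p : ℤ) ∣ (x : ℤ) + v0 ∧ ¬ (p : ℤ) ∣ (x : ℤ) - v0 ∧ ∀ c : ℤ, (c = 0 ∨ c = 1) →
      (p = 2 → (c = 1 ↔ (2 : ℤ) ∣ (x : ℤ))) → (p = 3 → c = 0) → ¬ (p : ℤ) ∣ (v0 + 3) + c ∧
      ¬ (p : ℤ) ∣ (v0 + 3) - c := by
    intro x
    by_cases h3 : (3 : ℤ) ∣ (x : ℤ)
    · obtain ⟨v0, h⟩ := res_flex hw hW x h3
      exact ⟨v0, fun _ => h⟩
    · exact ⟨0, fun h => absurd h h3⟩
  choose cv hcv using hv
  refine ⟨cy, cv, fun x => ⟨hcy1 x, hcy2 x⟩, fun x h3 => ?_, fun x x' h3 h3' h2 => ?_⟩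
  · obtain ⟨g1, g2, g3⟩ := hcv x h3
    refine ⟨g1, g2, ⟨res_coprime hW fun p hp hpw => (g3 p hp hpw).1,
      res_coprime hW fun p hp hpw => (g3 p hp hpw).2.1⟩, fun x' h3' h2 => ?_⟩
    have hc : ∀ p : ℕ, p.Prime → p ≤ w → ¬ (p : ℤ) ∣ ((cv x : ℤ) + 3) + (if p ∣ x' then 1 else 0) ∧
        ¬ (p : ℤ) ∣ ((cv x : ℤ) + 3) - (if p ∣ x' then 1 else 0) := by
      intro p hp hpw
      refine (g3 p hp hpw).2.2 _ ?_ ?_ ?_
      · split_ifs <;> simp
      · rintro rfl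
        split_ifs with h <;> omega
      · rintro rfl
        rw [if_neg]
        omega
    exact ⟨res_coprime hW fun p hp hpw => (res_transfer (hcy3 x' p hp hpw)).1 (hc p hp hpw).1,
      res_coprime hW fun p hp hpw => (res_transfer (hcy3 x' p hp hpw)).2 (hc p hp hpw).2⟩
  · obtain ⟨v0, g1, g2, g3⟩ := res_link hw hW (fun p => if p ∣ x then 1 else 0)
      (fun p => if p ∣ x' then 1 else 0) (by split_ifs <;> omega)
      (by rw [if_neg (by omega)]; exact dvd_zero _)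
      (by rw [if_neg (by omega)]; exact dvd_zero _)
      (by split_ifs <;> omega)
    · refine ⟨v0, g1, g2, ⟨res_coprime hW fun p hp hpw => ?_, res_coprime hW fun p hp hpw => ?_⟩,
        ⟨res_coprime hW fun p hp hpw => ?_, res_coprime hW fun p hp hpw => ?_⟩⟩
      · refine (res_transfer (hcy3 x p hp hpw)).1 ?_
        have := (g3 p hp hpw).1
        rwa [add_comm] at this
      · refine (res_transfer (hcy3 x p hp hpw)).2 ?_
        have := (g3 p hp hpw).2.1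
        intro h
        apply this
        have := h.neg_right
        rwa [neg_sub] at this
      · refine (res_transfer (hcy3 x' p hp hpw)).1 ?_
        have := (g3 p hp hpw).2.2.1
        rwa [add_comm] at this
      · refine (res_transfer (hcy3 x' p hp hpw)).2 ?_
        have := (g3 p hp hpw).2.2.2
        intro h
        apply this
        have := h.neg_right
        rwa [neg_sub] at this

/-- Chunk RES2. Two multiples of `3` of opposite parities, not both `± 2` modulo `5`: there is a link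
class compatible with both. Modulo `5` avoid `± x0`, `2 ± x0'`, `1`. -/
theorem link_both {w W : ℕ} (hw : 11 ≤ w) (hW : IsW w W) (x0 x0' : ℤ) (h3 : (3 : ℤ) ∣ x0)
    (h3' : (3 : ℤ) ∣ x0') (h2 : x0 % 2 ≠ x0' % 2)
    (h5 : ¬ ((x0 % 5 = 2 ∨ x0 % 5 = 3) ∧ (x0' % 5 = 2 ∨ x0' % 5 = 3))) :
    ∃ v0 : ℕ, v0 + 3 < W ∧ IsCoprime (2 * (v0 : ℤ) + 3) W ∧ Comp W x0 v0 ∧ Comp W x0' (v0 + 3) := by
  obtain ⟨v0, g1, g2, g3⟩ := res_link hw hW (fun _ => x0) (fun _ => x0') h2 h3 h3' h5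
  exact ⟨v0, g1, g2, ⟨res_coprime hW fun p hp hpw => (g3 p hp hpw).1,
    res_coprime hW fun p hp hpw => (g3 p hp hpw).2.1⟩,
    ⟨res_coprime hW fun p hp hpw => (g3 p hp hpw).2.2.1,
    res_coprime hW fun p hp hpw => (g3 p hp hpw).2.2.2⟩⟩

end Pool.Agent.Lib.H18GB
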