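import Pool.Agent.Lib.H18GB2.BE1
import Pool.Agent.Lib.H18GB2.Res
import Pool.Agent.Lib.H18GB.TY3b
import Pool.Agent.Lib.H18GB.GR6

/-!
# Project GB2: BETA (almost all vertices are pairwise at distance at most `5`)
-/

namespace Pool.Agent.Lib.H18GB

open Finset Pool.Agent.Lib.Sieve Pool.Agent.Lib.GoldbachGraph

theorem beta_comp {W x0 x : ℕ} {y : ℤ} (h : Comp W x0 y) : Comp W ((x0 + W * x : ℕ) : ℤ) y := by
  constructor
  · have h1 := h.1.add_mul_left_left (x : ℤ)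
    have e : ((x0 + W * x : ℕ) : ℤ) + y = (x0 : ℤ) + y + W * x := by push_cast; ring
    rw [e]
    exact h1
  · have h1 := h.2.add_mul_left_left (x : ℤ)
    have e : ((x0 + W * x : ℕ) : ℤ) - y = (x0 : ℤ) - y + W * x := by push_cast; ring
    rw [e]
    exact h1

/-- the input of the assembly of BETA -/
structure BetaCtx (n w W N : ℕ) (cy cv : ℕ → ℕ) : Prop where
  g6 : Gr6Ctx n w W N (1 / 16)
  hw11 : 11 ≤ w
  cy1 : ∀ x0 : ℕ, cy x0 < W ∧ Comp W x0 (cy x0)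
  cv1 : ∀ x0 : ℕ, (3 : ℤ) ∣ (x0 : ℤ) → cv x0 + 3 < W ∧ IsCoprime (2 * (cv x0 : ℤ) + 3) W ∧
      Comp W x0 (cv x0) ∧ ∀ x0' : ℕ, ¬ (3 : ℤ) ∣ (x0' : ℤ) → (x0 : ℤ) % 2 = (x0' : ℤ) % 2 →
        Comp W (cv x0 + 3) (cy x0')
  lk : ∀ x0 x0' : ℕ, ¬ (3 : ℤ) ∣ (x0 : ℤ) → ¬ (3 : ℤ) ∣ (x0' : ℤ) → (x0 : ℤ) % 2 ≠ (x0' : ℤ) % 2 →
      ∃ v0 : ℕ, v0 + 3 < W ∧ IsCoprime (2 * (v0 : ℤ) + 3) W ∧ Comp W v0 (cy x0) ∧
        Comp W (v0 + 3) (cy x0')
  bd : ∀ X v0 z0 : ℕ, 2 ≤ X → X ≤ 2 * W * N → v0 + 3 < W → z0 < W →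
    IsCoprime (2 * (v0 : ℤ) + 3) W → Comp W X v0 → Comp W (v0 + 3) z0 → Typ2 w W N v0 X →
    ∀ B : Finset ℕ, B ⊆ Finset.Ico 1 N → 1 / 4 * (N : ℝ) ≤ B.card →
    ∃ v ∈ Finset.Ico 1 N, ∃ z ∈ B, (2 * (v0 + W * v) + 3).Prime ∧ hadj X (v0 + W * v) ∧
      hadj (v0 + 3 + W * v) (z0 + W * z)
  bs : ∀ X X' v0 y0' : ℕ, 2 ≤ X → X ≤ 2 * W * N → 1 ≤ X' → X' ≤ 2 * W * N →
    v0 + 3 < W → y0' < W → IsCoprime (2 * (v0 : ℤ) + 3) W → Comp W X v0 → Comp W (v0 + 3) y0' →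
    Comp W X' y0' → Typ2 w W N v0 X → 1 / 16 * (N : ℝ) ≤ Dw w W N X' y0' →
    ∃ v ∈ Finset.Ico 1 N, ∃ y ∈ Finset.Ico 1 N, (2 * (v0 + W * v) + 3).Prime ∧
      hadj X (v0 + W * v) ∧ hadj (v0 + 3 + W * v) (y0' + W * y) ∧ hadj (y0' + W * y) X'
  bl : ∀ X X' y0 y0' v0 : ℕ, 1 ≤ X → X ≤ 2 * W * N → 1 ≤ X' → X' ≤ 2 * W * N →
      y0 < W → y0' < W → v0 + 3 < W → IsCoprime (2 * (v0 : ℤ) + 3) W → Comp W X y0 →
      Comp W X' y0' → Comp W v0 y0 → Comp W (v0 + 3) y0' → 1 / 16 * (N : ℝ) ≤ Dw w W N X y0 →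
      1 / 16 * (N : ℝ) ≤ Dw w W N X' y0' →
      ∃ v ∈ Finset.Ico 1 N, ∃ y ∈ Finset.Ico 1 N, ∃ y' ∈ Finset.Ico 1 N,
        (2 * (v0 + W * v) + 3).Prime ∧ hadj X (y0 + W * y) ∧ hadj (y0 + W * y) (v0 + W * v) ∧
        hadj (v0 + 3 + W * v) (y0' + W * y') ∧ hadj (y0' + W * y') X'

/-- a typical vertex `x0 + W x` -/
structure BetaGood (w W N : ℕ) (cy cv : ℕ → ℕ) (x0 x : ℕ) : Prop where
  h0 : x0 < W
  hx : x ∈ Finset.Ico 1 N
  hD : 1 / 16 * (N : ℝ) ≤ Dw w W N (x0 + W * x) (cy x0)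
  hT : (3 : ℤ) ∣ (x0 : ℤ) → Typ2 w W N (cv x0) (x0 + W * x)

section

variable {n w W N : ℕ} {cy cv : ℕ → ℕ} (h : BetaCtx n w W N cy cv)

include h

theorem BetaCtx.mod {x0 x : ℕ} (_hg : BetaGood w W N cy cv x0 x) :
    (((x0 + W * x : ℕ) : ℤ) % 2 = (x0 : ℤ) % 2) ∧
    ((3 : ℤ) ∣ ((x0 + W * x : ℕ) : ℤ) ↔ (3 : ℤ) ∣ (x0 : ℤ)) := by
  have hw := h.hw11
  have h2 : (2 : ℤ) ∣ (W : ℤ) := by
    exact_mod_cast (h.g6.hW.2 2 Nat.prime_two).mpr (by omega)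
  have h3 : (3 : ℤ) ∣ (W : ℤ) := by
    exact_mod_cast (h.g6.hW.2 3 Nat.prime_three).mpr (by omega)
  push_cast
  constructor
  · have h4 : (2 : ℤ) ∣ (W : ℤ) * x := h2.mul_right _
    omega
  · have h4 : (3 : ℤ) ∣ (W : ℤ) * x := h3.mul_right _
    omega

theorem BetaCtx.good {x0 x : ℕ} (hg : BetaGood w W N cy cv x0 x) :
    gr6Good w W N (1 / 16) (x0 + W * x) (cy x0) :=
  ⟨(h.cy1 x0).1, beta_comp (h.cy1 x0).2, hg.hD⟩

theorem BetaCtx.memX {x0 x : ℕ} (hg : BetaGood w W N cy cv x0 x) :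
    x0 + W * x ∈ Finset.Icc 1 n := h.g6.mem hg.h0 hg.hx

theorem BetaCtx.bounds {x0 x : ℕ} (hg : BetaGood w W N cy cv x0 x) :
    2 ≤ x0 + W * x ∧ x0 + W * x ≤ 2 * W * N := by
  have hw := h.hw11
  have h1 := Finset.mem_Ico.mp hg.hx
  have h0 := hg.h0
  have h2 : W * (x + 1) ≤ W * N := Nat.mul_le_mul_left _ h1.2
  have h3 : W * 1 ≤ W * x := Nat.mul_le_mul_left _ h1.1
  have h4 : 2 ∣ W := (h.g6.hW.2 2 Nat.prime_two).mpr (by omega)
  have h5 : 2 ≤ W := Nat.le_of_dvd h.g6.hW.1 h4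
  have h6 : 2 * W * N = W * N + W * N := by ring
  rw [mul_add, mul_one] at h2
  omega

/-- both divisible by `3`, opposite parities -/
theorem BetaCtx.caseb {x0 x x0' x' : ℕ} (hg : BetaGood w W N cy cv x0 x)
    (hg' : BetaGood w W N cy cv x0' x') (h3 : (3 : ℤ) ∣ (x0 : ℤ)) (h3' : (3 : ℤ) ∣ (x0' : ℤ))
    (h2 : (x0 : ℤ) % 2 ≠ (x0' : ℤ) % 2) :
    (HG n).edist (x0 + W * x) (x0' + W * x') ≤ ((5 : ℕ) : ℕ∞) := by
  have hw3 : 3 ≤ w := by have := h.hw11; omega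
  have hN : (40 : ℝ) ≤ N := by exact_mod_cast h.g6.hN
  obtain ⟨a1, a2, a3, -⟩ := h.cv1 x0 h3
  have c1 := comp_parity hw3 h.g6.hW a3
  have c2 := comp_parity hw3 h.g6.hW (h.cy1 x0').2
  obtain ⟨z0, hz0, e1, e2⟩ := comp_common hw3 h.g6.hW ((cv x0 : ℤ) + 3) (cy x0' : ℤ) (by omega)
    (by constructor <;> intro e <;> omega)
  have s1 := h.g6.two (h.memX hg') (h.good hg') hz0 (comp_comm e2)
  have hb := h.bounds hg
  obtain ⟨v, hv, z, hz, hp, b1, b2⟩ := h.bd _ (cv x0) z0 hb.1 hb.2 a1 hz0 a2 (beta_comp a3) e1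
    (hg.hT h3) (gr6S n W N (x0' + W * x') z0 2) (gr6S_sub _ _ _ _ _ _) (by linarith)
  have hzI := gr6S_sub _ _ _ _ _ _ hz
  classical
  unfold gr6S at hz
  rw [Finset.mem_filter] at hz
  have m0 := h.memX hg
  have m1 := h.g6.mem (y0 := cv x0) (by omega) hv
  have m2 := h.g6.mem (y0 := cv x0 + 3) a1 hv
  have m3 := h.g6.mem hz0 hzI
  have e5 : cv x0 + 3 + W * v = cv x0 + W * v + 3 := by ring
  have t0 : (HG n).edist (x0 + W * x) (x0 + W * x) ≤ ((0 : ℕ) : ℕ∞) := by simp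
  have t1 := gr6_step (HG n) t0 (c := cv x0 + W * v) ⟨b1, m0, m1⟩
  have t2 := gr6_step (HG n) t1 (c := cv x0 + 3 + W * v) ⟨by rw [e5]; exact ty3_link hp, m1, m2⟩
  have t3 := gr6_step (HG n) t2 (c := z0 + W * z) ⟨b2, m2, m3⟩
  exact gr6_join (HG n) t3 (l := 2) hz.2

/-- the first one divisible by `3`, the second one not, same parity -/
theorem BetaCtx.casec {x0 x x0' x' : ℕ} (hg : BetaGood w W N cy cv x0 x)
    (hg' : BetaGood w W N cy cv x0' x') (h3 : (3 : ℤ) ∣ (x0 : ℤ)) (h3' : ¬ (3 : ℤ) ∣ (x0' : ℤ))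
    (h2 : (x0 : ℤ) % 2 = (x0' : ℤ) % 2) :
    (HG n).edist (x0 + W * x) (x0' + W * x') ≤ ((5 : ℕ) : ℕ∞) := by
  obtain ⟨a1, a2, a3, a4⟩ := h.cv1 x0 h3
  have hb := h.bounds hg
  have hb' := h.bounds hg'
  obtain ⟨v, hv, y, hy, hp, b1, b2, b3⟩ := h.bs _ _ (cv x0) (cy x0') hb.1 hb.2 (by omega) hb'.2 a1
    (h.cy1 x0').1 a2 (beta_comp a3) (a4 x0' h3' h2) (beta_comp (h.cy1 x0').2) (hg.hT h3) hg'.hD
  have m0 := h.memX hg
  have m1 := h.g6.mem (y0 := cv x0) (by omega) hv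
  have m2 := h.g6.mem (y0 := cv x0 + 3) a1 hv
  have m3 := h.g6.mem (h.cy1 x0').1 hy
  have m4 := h.memX hg'
  have e5 : cv x0 + 3 + W * v = cv x0 + W * v + 3 := by ring
  have t0 : (HG n).edist (x0 + W * x) (x0 + W * x) ≤ ((0 : ℕ) : ℕ∞) := by simp
  have t1 := gr6_step (HG n) t0 (c := cv x0 + W * v) ⟨b1, m0, m1⟩
  have t2 := gr6_step (HG n) t1 (c := cv x0 + 3 + W * v) ⟨by rw [e5]; exact ty3_link hp, m1, m2⟩
  have t3 := gr6_step (HG n) t2 (c := cy x0' + W * y) ⟨b2, m2, m3⟩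
  have t4 := gr6_step (HG n) t3 (c := x0' + W * x') ⟨b3, m3, m4⟩
  refine t4.trans ?_
  norm_num

/-- both prime to `3`, opposite parities -/
theorem BetaCtx.cased {x0 x x0' x' : ℕ} (hg : BetaGood w W N cy cv x0 x)
    (hg' : BetaGood w W N cy cv x0' x') (h3 : ¬ (3 : ℤ) ∣ (x0 : ℤ)) (h3' : ¬ (3 : ℤ) ∣ (x0' : ℤ))
    (h2 : (x0 : ℤ) % 2 ≠ (x0' : ℤ) % 2) :
    (HG n).edist (x0 + W * x) (x0' + W * x') ≤ ((5 : ℕ) : ℕ∞) := by
  obtain ⟨v0, a1, a2, a3, a4⟩ := h.lk x0 x0' h3 h3' h2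
  have hb := h.bounds hg
  have hb' := h.bounds hg'
  obtain ⟨v, hv, y, hy, y', hy', hp, b1, b2, b3, b4⟩ := h.bl _ _ (cy x0) (cy x0') v0
    (by omega) hb.2 (by omega) hb'.2 (h.cy1 x0).1 (h.cy1 x0').1 a1 a2 (beta_comp (h.cy1 x0).2)
    (beta_comp (h.cy1 x0').2) a3 a4 hg.hD hg'.hD
  have m0 := h.memX hg
  have m1 := h.g6.mem (h.cy1 x0).1 hy
  have m2 := h.g6.mem (y0 := v0) (by omega) hv
  have m3 := h.g6.mem (y0 := v0 + 3) a1 hv
  have m4 := h.g6.mem (h.cy1 x0').1 hy'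
  have m5 := h.memX hg'
  have e5 : v0 + 3 + W * v = v0 + W * v + 3 := by ring
  have t0 : (HG n).edist (x0 + W * x) (x0 + W * x) ≤ ((0 : ℕ) : ℕ∞) := by simp
  have t1 := gr6_step (HG n) t0 (c := cy x0 + W * y) ⟨b1, m0, m1⟩
  have t2 := gr6_step (HG n) t1 (c := v0 + W * v) ⟨b2, m1, m2⟩
  have t3 := gr6_step (HG n) t2 (c := v0 + 3 + W * v) ⟨by rw [e5]; exact ty3_link hp, m2, m3⟩
  have t4 := gr6_step (HG n) t3 (c := cy x0' + W * y') ⟨b3, m3, m4⟩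
  exact gr6_step (HG n) t4 (c := x0' + W * x') ⟨b4, m4, m5⟩

theorem BetaCtx.all {x0 x x0' x' : ℕ} (hg : BetaGood w W N cy cv x0 x)
    (hg' : BetaGood w W N cy cv x0' x') :
    (HG n).edist (x0 + W * x) (x0' + W * x') ≤ ((5 : ℕ) : ℕ∞) := by
  obtain ⟨p2, p3⟩ := h.mod hg
  obtain ⟨q2, q3⟩ := h.mod hg'
  by_cases h2 : (x0 : ℤ) % 2 = (x0' : ℤ) % 2
  · by_cases h3 : (3 : ℤ) ∣ (x0 : ℤ)
    · by_cases h3' : (3 : ℤ) ∣ (x0' : ℤ)
      · refine (h.g6.four (h.memX hg) (h.memX hg') (h.good hg) (h.good hg') (by rw [p2, q2, h2])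
          (by tauto)).trans ?_
        norm_num
      · exact h.casec hg hg' h3 h3' h2
    · by_cases h3' : (3 : ℤ) ∣ (x0' : ℤ)
      · rw [SimpleGraph.edist_comm]
        exact h.casec hg' hg h3' h3 h2.symm
      · refine (h.g6.four (h.memX hg) (h.memX hg') (h.good hg) (h.good hg') (by rw [p2, q2, h2])
          (by tauto)).trans ?_
        norm_num
  · by_cases h3 : (3 : ℤ) ∣ (x0 : ℤ)
    · by_cases h3' : (3 : ℤ) ∣ (x0' : ℤ)
      · exact h.caseb hg hg' h3 h3' h2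
      · exact h.g6.five (h.memX hg) (h.memX hg') (h.good hg) (h.good hg') (by rw [p2, q2]; exact h2)
          (by tauto)
    · by_cases h3' : (3 : ℤ) ∣ (x0' : ℤ)
      · exact h.g6.five (h.memX hg) (h.memX hg') (h.good hg) (h.good hg') (by rw [p2, q2]; exact h2)
          (by tauto)
      · exact h.cased hg hg' h3 h3' h2

end

open Classical in
/-- counting -/
theorem beta_count {w W N : ℕ} {cy cv : ℕ → ℕ} {δ : ℝ} (hN : 1 ≤ N)
    (hE1 : ∀ x0 : ℕ, x0 < W → (((Finset.Ico 1 N).filter fun x =>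
      Dw w W N (x0 + W * x) (cy x0) < N / 16).card : ℝ) ≤ δ * N)
    (hE2 : ∀ x0 : ℕ, x0 < W → (3 : ℤ) ∣ (x0 : ℤ) → (((Finset.Ico 1 N).filter fun x =>
      ¬ Typ2 w W N (cv x0) (x0 + W * x)).card : ℝ) ≤ δ * N) (hδ : 0 ≤ δ) (x0 : ℕ) (hx0 : x0 < W) :
    (1 - 2 * δ) * (N : ℝ) - 1 ≤ ((Finset.Ico 1 N).filter fun x =>
      BetaGood w W N cy cv x0 x).card := by
  have h1 := Finset.card_filter_add_card_filter_not (s := Finset.Ico 1 N)
    (fun x => BetaGood w W N cy cv x0 x)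
  rw [Nat.card_Ico] at h1
  have h2 : (((Finset.Ico 1 N).filter fun x => ¬ BetaGood w W N cy cv x0 x).card : ℝ) ≤
      2 * δ * N := by
    have hsub : ((Finset.Ico 1 N).filter fun x => ¬ BetaGood w W N cy cv x0 x) ⊆
        ((Finset.Ico 1 N).filter fun x => Dw w W N (x0 + W * x) (cy x0) < N / 16) ∪
        ((Finset.Ico 1 N).filter fun x => (3 : ℤ) ∣ (x0 : ℤ) ∧
          ¬ Typ2 w W N (cv x0) (x0 + W * x)) := by
      intro x hx
      rw [Finset.mem_filter] at hx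
      rw [Finset.mem_union, Finset.mem_filter, Finset.mem_filter]
      by_contra hcon
      push Not at hcon
      apply hx.2
      refine ⟨hx0, hx.1, ?_, fun h3 => hcon.2 hx.1 h3⟩
      have := hcon.1 hx.1
      linarith
    have h3 := (Finset.card_le_card hsub).trans (Finset.card_union_le _ _)
    have h4 : (((Finset.Ico 1 N).filter fun x => (3 : ℤ) ∣ (x0 : ℤ) ∧
          ¬ Typ2 w W N (cv x0) (x0 + W * x)).card : ℝ) ≤ δ * N := by
      by_cases h3 : (3 : ℤ) ∣ (x0 : ℤ)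
      · simp only [h3, true_and]
        exact hE2 x0 hx0 h3
      · simp only [h3, false_and, Finset.filter_false, Finset.card_empty, Nat.cast_zero]
        positivity
    have h5 := hE1 x0 hx0
    have h6 : (((Finset.Ico 1 N).filter fun x => ¬ BetaGood w W N cy cv x0 x).card : ℝ) ≤
        (((Finset.Ico 1 N).filter fun x => Dw w W N (x0 + W * x) (cy x0) < N / 16).card : ℝ) +
        (((Finset.Ico 1 N).filter fun x => (3 : ℤ) ∣ (x0 : ℤ) ∧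
          ¬ Typ2 w W N (cv x0) (x0 + W * x)).card : ℝ) := by exact_mod_cast h3
    linarith
  have h3 : (((Finset.Ico 1 N).filter fun x => BetaGood w W N cy cv x0 x).card : ℝ) +
      (((Finset.Ico 1 N).filter fun x => ¬ BetaGood w W N cy cv x0 x).card : ℝ) =
      ((N - 1 : ℕ) : ℝ) := by exact_mod_cast h1
  rw [Nat.cast_sub hN] at h3
  push_cast at h3
  linarith

/-- Chunk BETA. `W = primorial w`, `N = n / W`, `cy, cv` from `canon`. `Γ` = the `X = x0 + W x`,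
`1 ≤ x < N`, `x0 < W`, with `N / 16 ≤ Dw w W N X (cy x0)` and, if `3 ∣ x0`, `Typ2 w W N (cv x0) X`
(`typ1`, `typ2` with `ε / 4`; few `X` are lost outside `[W, W N)`). For `X, X' ∈ Γ`:
* same class: `Gr6Ctx.four`, `Gr6Ctx.five` (the context exists for every large `w`: take `gr6_ctx` as a
  model, or prove these two cases directly from `gr3`, `gr4`, `comp_common`);
* `3 ∣ X, 3 ∣ X'`, opposite parity: `z0` compatible with `cv x0 + 3` and `cy x0'` (`comp_common`), `B` =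
  the `z` at distance `2` from `X'` (almost all, `gr3`), `be_dense`: `3 + 2`;
* `3 ∣ X, 3 ∤ X'`, same parity: `canon` gives `Comp W (cv x0 + 3) (cy x0')`, `be_sparse`: `4`; and
  symmetrically;
* `3 ∤ X, 3 ∤ X'`, opposite parity: `v0` from `canon`, `be_links`: `5`. -/
theorem beta (ε : ℝ) (hε : 0 < ε) : ∃ n0 : ℕ, ∀ n : ℕ, n0 ≤ n → ∃ Γ : Finset ℕ,
    Γ ⊆ Finset.Icc 1 n ∧ (1 - ε) * n ≤ Γ.card ∧
    ∀ X ∈ Γ, ∀ X' ∈ Γ, (HG n).edist X X' ≤ 5 := by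
  classical
  obtain ⟨w1, h3⟩ := gr3 (1 / 16) (by norm_num)
  obtain ⟨w2, h4⟩ := gr4 (1 / 10) (by norm_num)
  obtain ⟨w3, h5⟩ := gr5
  obtain ⟨w4, h6⟩ := be_dense (1 / 4) (by norm_num)
  obtain ⟨w5, h7⟩ := be_sparse (1 / 16) (by norm_num)
  obtain ⟨w6, h8⟩ := be_links (1 / 16) (by norm_num)
  obtain ⟨w7, h9⟩ := typ1 (ε / 4) (by positivity)
  obtain ⟨w8, h10⟩ := typ2 (ε / 4) (by positivity)
  obtain ⟨w, hwd⟩ : ∃ w : ℕ, w = w1 + w2 + w3 + w4 + w5 + w6 + w7 + w8 + 11 := ⟨_, rfl⟩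
  have hW : IsW w (primorial w) := isW_primorial
  have hW0 := hW.1
  obtain ⟨N3, h3⟩ := h3 w (primorial w) (by omega) hW
  obtain ⟨N4, h4⟩ := h4 w (primorial w) (by omega) hW
  obtain ⟨N5, h5⟩ := h5 w (primorial w) (by omega) hW
  obtain ⟨N6, h6⟩ := h6 w (primorial w) (by omega) hW
  obtain ⟨N7, h7⟩ := h7 w (primorial w) (by omega) hW
  obtain ⟨N8, h8⟩ := h8 w (primorial w) (by omega) hW
  obtain ⟨N9, h9⟩ := h9 w (primorial w) (by omega) hW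
  obtain ⟨N10, h10⟩ := h10 w (primorial w) (by omega) hW
  obtain ⟨cy, cv, k1, k2, k3⟩ := canon (by omega : 11 ≤ w) hW
  obtain ⟨n1, hn1⟩ := exists_nat_ge (4 * (primorial w : ℝ) / ε)
  refine ⟨max n1 (primorial w * (N3 + N4 + N5 + N6 + N7 + N8 + N9 + N10 + 40)), fun n hn => ?_⟩
  have hnN : N3 + N4 + N5 + N6 + N7 + N8 + N9 + N10 + 40 ≤ n / primorial w := by
    rw [Nat.le_div_iff_mul_le hW0, mul_comm]
    exact (le_max_right _ _).trans hn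
  have hWn : primorial w * (n / primorial w) ≤ n := Nat.mul_div_le _ _
  have hWn2 : n < primorial w * (n / primorial w) + primorial w := by
    have := Nat.lt_mul_div_succ n hW0
    linarith
  have hnW : 4 * (primorial w : ℝ) ≤ ε * n := by
    have h11 : (4 * (primorial w : ℝ) / ε) ≤ n :=
      hn1.trans (by exact_mod_cast (le_max_left _ _).trans hn)
    rw [div_le_iff₀ hε] at h11
    linarith
  obtain ⟨N, hNdef⟩ : ∃ N : ℕ, N = n / primorial w := ⟨_, rfl⟩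
  rw [← hNdef] at hnN hWn hWn2
  obtain ⟨W, hWdef⟩ : ∃ W : ℕ, W = primorial w := ⟨_, rfl⟩
  rw [← hWdef] at hW hW0 hWn hWn2 hnW h3 h4 h5 h6 h7 h8 h9 h10 k1 k2 k3
  have hctx : BetaCtx n w W N cy cv := by
    refine ⟨⟨by omega, hW, hWn, ?_, by omega, by norm_num, h3 _ (by omega), h4 _ (by omega),
      h5 _ (by omega)⟩, by omega, k1, k2, k3, h6 _ (by omega), h7 _ (by omega), h8 _ (by omega)⟩
    have h12 : W * 1 ≤ W * N := Nat.mul_le_mul_left _ (by omega)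
    have h13 : 2 * W * N = W * N + W * N := by ring
    omega
  have hcount := beta_count (w := w) (W := W) (N := N) (cy := cy) (cv := cv) (δ := ε / 4)
    (by omega) (fun x0 hx0 => h9 N (by omega) x0 (cy x0) hx0 (k1 x0).1 (k1 x0).2)
    (fun x0 hx0 hx3 => h10 N (by omega) x0 (cv x0) hx0 (k2 x0 hx3).1 (k2 x0 hx3).2.1
      (k2 x0 hx3).2.2.1) (by positivity)
  obtain ⟨P, hP⟩ : ∃ P : Finset (ℕ × ℕ), P = (Finset.range W ×ˢ Finset.Ico 1 N).filter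
    (fun q => BetaGood w W N cy cv q.1 q.2) := ⟨_, rfl⟩
  have hPg : ∀ q ∈ P, BetaGood w W N cy cv q.1 q.2 := by
    intro q hq
    rw [hP] at hq
    exact (Finset.mem_filter.mp hq).2
  have hinj : Set.InjOn (fun q : ℕ × ℕ => q.1 + W * q.2) P := by
    intro q hq q' hq' he
    have g1 := (hPg q (Finset.mem_coe.mp hq)).h0
    have g2 := (hPg q' (Finset.mem_coe.mp hq')).h0
    have he' : q.1 + W * q.2 = q'.1 + W * q'.2 := he
    have e1 : (q.1 + W * q.2) % W = q.1 := by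
      rw [Nat.add_mul_mod_self_left, Nat.mod_eq_of_lt g1]
    have e2 : (q'.1 + W * q'.2) % W = q'.1 := by
      rw [Nat.add_mul_mod_self_left, Nat.mod_eq_of_lt g2]
    have e3 : q.1 = q'.1 := by rw [← e1, he', e2]
    have e4 : W * q.2 = W * q'.2 := by omega
    exact Prod.ext e3 (Nat.eq_of_mul_eq_mul_left hW0 e4)
  refine ⟨P.image (fun q => q.1 + W * q.2), ?_, ?_, ?_⟩
  · intro X hX
    obtain ⟨q, hq, rfl⟩ := Finset.mem_image.mp hX
    exact hctx.memX (hPg q hq)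
  · rw [Finset.card_image_of_injOn hinj]
    have hcard : P.card = ∑ x0 ∈ Finset.range W, ((Finset.Ico 1 N).filter fun x =>
        BetaGood w W N cy cv x0 x).card := by
      rw [hP, Finset.card_filter, Finset.sum_product]
      refine Finset.sum_congr rfl fun x0 _ => ?_
      rw [Finset.card_filter]
    have h14 : (W : ℝ) * ((1 - 2 * (ε / 4)) * (N : ℝ) - 1) ≤ P.card := by
      rw [hcard]
      push_cast
      calc (W : ℝ) * ((1 - 2 * (ε / 4)) * (N : ℝ) - 1) =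
          ∑ _x0 ∈ Finset.range W, ((1 - 2 * (ε / 4)) * (N : ℝ) - 1) := by
            rw [Finset.sum_const, Finset.card_range, nsmul_eq_mul]
        _ ≤ _ := Finset.sum_le_sum fun x0 hx0 => hcount x0 (Finset.mem_range.mp hx0)
    have h15 : (n : ℝ) ≤ W * N + W := by exact_mod_cast hWn2.le
    have h16 : (W : ℝ) * N ≤ n := by exact_mod_cast hWn
    have hWR : (0 : ℝ) < W := by exact_mod_cast hW0
    nlinarith
  · intro X hX X' hX'
    obtain ⟨q, hq, rfl⟩ := Finset.mem_image.mp hX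
    obtain ⟨q', hq', rfl⟩ := Finset.mem_image.mp hX'
    exact hctx.all (hPg q hq) (hPg q' hq')

end Pool.Agent.Lib.H18GB
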