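import Pool.Agent.Lib.H18GB2.DistL

/-!
# Project GB2: SHARP (sets of more than `3/5` of the vertices contain pairs at distance `5`)
-/

namespace Pool.Agent.Lib.H18GB

open Finset Pool.Agent.Goldbach

theorem sharp_count (n : ℕ) (T : Finset ℕ) (hT : T ⊆ Finset.range (n + 1)) (P : ℕ → Prop)
    [DecidablePred P] (R : Finset ℕ) (hP : ∀ x, P x → x % 30 ∈ R) :
    (T.filter P).card ≤ R.card * (n / 30 + 1) := by
  calc (T.filter P).card ≤ (R ×ˢ Finset.range (n / 30 + 1)).card := by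
        apply Finset.card_le_card_of_injOn (fun x => (x % 30, x / 30))
        · intro x hx
          rw [Finset.mem_coe, Finset.mem_filter] at hx
          have h1 := Finset.mem_range.mp (hT hx.1)
          simp only [Finset.mem_coe, Finset.mem_product, Finset.mem_range]
          exact ⟨hP x hx.2, by omega⟩
        · intro x _ y _ h
          simp only [Prod.mk.injEq] at h
          omega
    _ = R.card * (n / 30 + 1) := by rw [Finset.card_product, Finset.card_range]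

theorem sharp_split (n : ℕ) (T : Finset ℕ) (hT : T ⊆ Finset.range (n + 1)) (δ : ℝ)
    (h : 2 * δ * n + 3 / 5 * n + 18 < T.card) :
    ∃ U U' : Finset ℕ, U ⊆ T ∧ U' ⊆ T ∧ δ * n < U.card ∧ δ * n < U'.card ∧
      ∀ x ∈ U, ∀ y ∈ U', dd x y = 5 := by
  set T1 := T.filter (fun x => x % 2 = 1 ∧ x % 3 ≠ 0) with hT1
  set T2 := T.filter (fun x => x % 2 = 0 ∧ x % 3 ≠ 0) with hT2
  set T3 := T.filter (fun x => x % 2 = 0 ∧ x % 3 = 0 ∧ (x % 5 = 2 ∨ x % 5 = 3)) with hT3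
  set T4 := T.filter (fun x => x % 2 = 1 ∧ x % 3 = 0 ∧ (x % 5 = 2 ∨ x % 5 = 3)) with hT4
  set T5 := T.filter (fun x => x % 3 = 0 ∧ ¬ (x % 5 = 2 ∨ x % 5 = 3)) with hT5
  have hsub : T ⊆ T1 ∪ T2 ∪ T3 ∪ T4 ∪ T5 := by
    intro x hx
    simp only [hT1, hT2, hT3, hT4, hT5, Finset.mem_union, Finset.mem_filter]
    have h2 : x % 2 = 0 ∨ x % 2 = 1 := by omega
    by_cases h3 : x % 3 = 0
    · by_cases h5 : x % 5 = 2 ∨ x % 5 = 3
      · rcases h2 with h2 | h2
        · exact Or.inl (Or.inl (Or.inr ⟨hx, h2, h3, h5⟩))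
        · exact Or.inl (Or.inr ⟨hx, h2, h3, h5⟩)
      · exact Or.inr ⟨hx, h3, h5⟩
    · rcases h2 with h2 | h2
      · exact Or.inl (Or.inl (Or.inl (Or.inr ⟨hx, h2, h3⟩)))
      · exact Or.inl (Or.inl (Or.inl (Or.inl ⟨hx, h2, h3⟩)))
  have hcard : T.card ≤ T1.card + T2.card + T3.card + T4.card + T5.card := by
    refine (Finset.card_le_card hsub).trans ?_
    have a1 := Finset.card_union_le (T1 ∪ T2 ∪ T3 ∪ T4) T5
    have a2 := Finset.card_union_le (T1 ∪ T2 ∪ T3) T4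
    have a3 := Finset.card_union_le (T1 ∪ T2) T3
    have a4 := Finset.card_union_le T1 T2
    omega
  have c1 := sharp_count n T hT (fun x => x % 2 = 1 ∧ x % 3 ≠ 0)
    ((Finset.range 30).filter fun x => x % 2 = 1 ∧ x % 3 ≠ 0) (by
      intro x hx
      rw [Finset.mem_filter, Finset.mem_range]
      omega)
  have c2 := sharp_count n T hT (fun x => x % 2 = 0 ∧ x % 3 ≠ 0)
    ((Finset.range 30).filter fun x => x % 2 = 0 ∧ x % 3 ≠ 0) (by
      intro x hx
      rw [Finset.mem_filter, Finset.mem_range]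
      omega)
  have c3 := sharp_count n T hT (fun x => x % 2 = 0 ∧ x % 3 = 0 ∧ (x % 5 = 2 ∨ x % 5 = 3))
    ((Finset.range 30).filter fun x => x % 2 = 0 ∧ x % 3 = 0 ∧ (x % 5 = 2 ∨ x % 5 = 3)) (by
      intro x hx
      rw [Finset.mem_filter, Finset.mem_range]
      omega)
  have c4 := sharp_count n T hT (fun x => x % 2 = 1 ∧ x % 3 = 0 ∧ (x % 5 = 2 ∨ x % 5 = 3))
    ((Finset.range 30).filter fun x => x % 2 = 1 ∧ x % 3 = 0 ∧ (x % 5 = 2 ∨ x % 5 = 3)) (by
      intro x hx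
      rw [Finset.mem_filter, Finset.mem_range]
      omega)
  have c5 := sharp_count n T hT (fun x => x % 3 = 0 ∧ ¬ (x % 5 = 2 ∨ x % 5 = 3))
    ((Finset.range 30).filter fun x => x % 3 = 0 ∧ ¬ (x % 5 = 2 ∨ x % 5 = 3)) (by
      intro x hx
      rw [Finset.mem_filter, Finset.mem_range]
      omega)
  have d1 : ((Finset.range 30).filter fun x => x % 2 = 1 ∧ x % 3 ≠ 0).card = 10 := by decide
  have d2 : ((Finset.range 30).filter fun x => x % 2 = 0 ∧ x % 3 ≠ 0).card = 10 := by decide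
  have d3 : ((Finset.range 30).filter fun x =>
    x % 2 = 0 ∧ x % 3 = 0 ∧ (x % 5 = 2 ∨ x % 5 = 3)).card = 2 := by decide
  have d4 : ((Finset.range 30).filter fun x =>
    x % 2 = 1 ∧ x % 3 = 0 ∧ (x % 5 = 2 ∨ x % 5 = 3)).card = 2 := by decide
  have d5 : ((Finset.range 30).filter fun x =>
    x % 3 = 0 ∧ ¬ (x % 5 = 2 ∨ x % 5 = 3)).card = 6 := by decide
  rw [d1] at c1
  rw [d2] at c2
  rw [d3] at c3
  rw [d4] at c4
  rw [d5] at c5
  have hn : ((n / 30 : ℕ) : ℝ) ≤ n / 30 := by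
    have : n / 30 * 30 ≤ n := Nat.div_mul_le_self n 30
    have : ((n / 30 : ℕ) : ℝ) * 30 ≤ n := by exact_mod_cast this
    linarith
  have c1' : (T1.card : ℝ) ≤ 10 * (n / 30 + 1) := by
    have : (T1.card : ℝ) ≤ 10 * (((n / 30 : ℕ) : ℝ) + 1) := by exact_mod_cast c1
    linarith
  have c2' : (T2.card : ℝ) ≤ 10 * (n / 30 + 1) := by
    have : (T2.card : ℝ) ≤ 10 * (((n / 30 : ℕ) : ℝ) + 1) := by exact_mod_cast c2
    linarith
  have c3' : (T3.card : ℝ) ≤ 2 * (n / 30 + 1) := by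
    have : (T3.card : ℝ) ≤ 2 * (((n / 30 : ℕ) : ℝ) + 1) := by exact_mod_cast c3
    linarith
  have c4' : (T4.card : ℝ) ≤ 2 * (n / 30 + 1) := by
    have : (T4.card : ℝ) ≤ 2 * (((n / 30 : ℕ) : ℝ) + 1) := by exact_mod_cast c4
    linarith
  have c5' : (T5.card : ℝ) ≤ 6 * (n / 30 + 1) := by
    have : (T5.card : ℝ) ≤ 6 * (((n / 30 : ℕ) : ℝ) + 1) := by exact_mod_cast c5
    linarith
  have hcard' : (T.card : ℝ) ≤ T1.card + T2.card + T3.card + T4.card + T5.card := by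
    exact_mod_cast hcard
  by_cases hA : δ * n < T1.card ∧ δ * n < T2.card
  · refine ⟨T1, T2, Finset.filter_subset _ _, Finset.filter_subset _ _, hA.1, hA.2, ?_⟩
    intro x hx y hy
    rw [hT1, Finset.mem_filter] at hx
    rw [hT2, Finset.mem_filter] at hy
    unfold dd
    rw [if_neg (by omega), if_neg (by omega), if_pos ⟨hx.2.2, hy.2.2⟩]
  by_cases hB : δ * n < T3.card ∧ δ * n < T4.card
  · refine ⟨T3, T4, Finset.filter_subset _ _, Finset.filter_subset _ _, hB.1, hB.2, ?_⟩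
    intro x hx y hy
    rw [hT3, Finset.mem_filter] at hx
    rw [hT4, Finset.mem_filter] at hy
    unfold dd
    rw [if_neg (by omega), if_pos ⟨hx.2.2.1, hy.2.2.1⟩, if_pos ⟨hx.2.2.2, hy.2.2.2⟩]
  exfalso
  rw [not_and_or, not_lt, not_lt] at hA hB
  rcases hA with hA | hA <;> rcases hB with hB | hB <;> linarith

/-- Every set of at least `(3/5 + ε) n` vertices contains two vertices at distance at least `5`. -/
theorem sharp (ε : ℝ) (hε : 0 < ε) : ∃ n0 : ℕ, ∀ n ≥ n0, ∀ V S : Set ℕ,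
    (∀ a ∈ V, Even a ∧ a ≤ 2 * n) → (∀ m ∈ S, m = 1 ∨ (m.Prime ∧ Odd m)) →
    ∀ Γ : Set V, (3 / 5 + ε) * n ≤ (Γ.ncard : ℝ) →
    ∃ a ∈ Γ, ∃ b ∈ Γ, 5 ≤ (halfGraph V S).edist a b := by
  obtain ⟨n1, h1⟩ := dist_lower ((ε / 4) ^ 2) (by positivity)
  obtain ⟨n2, h2⟩ := exists_nat_gt (36 / ε)
  refine ⟨max n1 (max n2 1), fun n hn V S hV hS Γ hΓ => ?_⟩
  have hn1 : n1 ≤ n := le_trans (le_max_left _ _) hn
  have hn2 : n2 ≤ n := le_trans (le_max_left _ _) (le_trans (le_max_right _ _) hn)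
  have hn3 : 1 ≤ n := le_trans (le_max_right _ _) (le_trans (le_max_right _ _) hn)
  have hn4 : (1 : ℝ) ≤ n := by exact_mod_cast hn3
  have hn5 : 36 < ε * n := by
    have h3 : (n2 : ℝ) ≤ n := by exact_mod_cast hn2
    have h4 : 36 / ε < n := lt_of_lt_of_le h2 h3
    rw [div_lt_iff₀ hε] at h4
    linarith
  have h3 := h1 n hn1 V S hV hS
  have hfin : Finite V := (Set.finite_Iic (2 * n)).subset fun a ha => (hV a ha).2
  classical
  have hΓf : Γ.Finite := Set.toFinite _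
  set T : Finset ℕ := hΓf.toFinset.image (fun a : V => (a : ℕ) / 2) with hT
  have hTr : T ⊆ Finset.range (n + 1) := by
    intro x hx
    rw [hT, Finset.mem_image] at hx
    obtain ⟨a, -, rfl⟩ := hx
    have := (hV a a.2).2
    rw [Finset.mem_range]
    omega
  have hinj : Function.Injective (fun a : V => (a : ℕ) / 2) := by
    rintro ⟨a, ha⟩ ⟨b, hb⟩ h
    obtain ⟨k, hk⟩ := (hV a ha).1
    obtain ⟨l, hl⟩ := (hV b hb).1
    simp only at h
    ext
    simp only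
    omega
  have hTc : T.card = Γ.ncard := by
    rw [hT, Finset.card_image_of_injective _ hinj, Set.ncard_eq_toFinset_card Γ hΓf]
  obtain ⟨U, U', hU, hU', hUc, hUc', hdd⟩ := sharp_split n T hTr (ε / 4) (by
    rw [hTc]
    nlinarith)
  by_contra hcon
  push Not at hcon
  have hmem : ∀ x ∈ T, ∃ a ∈ Γ, (a : ℕ) / 2 = x := by
    intro x hx
    rw [hT, Finset.mem_image] at hx
    obtain ⟨a, ha, rfl⟩ := hx
    exact ⟨a, hΓf.mem_toFinset.mp ha, rfl⟩
  set D : Set (V × V) := {p : V × V | (halfGraph V S).edist p.1 p.2 <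
    (dd ((p.1 : ℕ) / 2) ((p.2 : ℕ) / 2) : ℕ∞)} with hD
  have h5 : (U ×ˢ U').card ≤ D.ncard := by
    rw [← Set.ncard_coe_finset]
    refine le_trans ?_ (Set.ncard_image_le (f := fun p : V × V => ((p.1 : ℕ) / 2, (p.2 : ℕ) / 2))
      (Set.toFinite D))
    apply Set.ncard_le_ncard _ ((Set.toFinite D).image _)
    rintro ⟨x, y⟩ hxy
    rw [Finset.mem_coe, Finset.mem_product] at hxy
    obtain ⟨a, ha, hax⟩ := hmem x (hU hxy.1)
    obtain ⟨b, hb, hby⟩ := hmem y (hU' hxy.2)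
    refine ⟨(a, b), ?_, by simp [hax, hby]⟩
    rw [hD, Set.mem_ofPred_eq]
    simp only [hax, hby]
    rw [hdd x hxy.1 y hxy.2]
    exact hcon a ha b hb
  rw [Finset.card_product] at h5
  have h6 : (U.card : ℝ) * U'.card ≤ (ε / 4) ^ 2 * n ^ 2 := by
    refine le_trans ?_ h3
    exact_mod_cast h5
  have h7 : (ε / 4 * n) * (ε / 4 * n) < (U.card : ℝ) * U'.card :=
    mul_lt_mul'' hUc hUc' (by positivity) (by positivity)
  nlinarith

end Pool.Agent.Lib.H18GB
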