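import Pool.Agent.Lib.H18GB2.GA
import Pool.Agent.Lib.H18GB.TY3b
import Pool.Agent.Lib.H18GB.GR6

/-!
# Project GB2: ALPHA (all vertices of large degree are at distance at most `7`)
-/

namespace Pool.Agent.Lib.H18GB

open Finset Pool.Agent.Lib.Sieve Pool.Agent.Lib.GoldbachGraph

open Classical in
/-- mass of the link ends `v0 + d + W v` at distance more than `k` from `X` -/
noncomputable def alphaM (n W N X v0 d k : ℕ) : ℝ :=
  ∑ v ∈ (Finset.Ico 1 N).filter (fun v => ¬ (HG n).edist X (v0 + d + W * v) ≤ (k : ℕ∞)), sg W v0 v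

/-- the input of the assembly of ALPHA -/
structure AlphaCtx (n w W N : ℕ) (ε1 : ℝ) : Prop where
  g6 : Gr6Ctx n w W N ε1
  hw7 : 7 ≤ w
  tot : ∀ v0 : ℕ, v0 + 3 < W → IsCoprime (2 * (v0 : ℤ) + 3) W →
    (N : ℝ) / 2 ≤ ∑ v ∈ Finset.Ico 1 N, sg W v0 v
  t2 : ∀ z0 v0 d : ℕ, z0 < W → v0 + 3 < W → (d = 0 ∨ d = 3) →
    IsCoprime (2 * (v0 : ℤ) + 3) W → Comp W z0 (v0 + d) → ∀ B : Finset ℕ, B ⊆ Finset.Ico 1 N →
    1 / 4 * (N : ℝ) ≤ (B.card : ℝ) → ∀ S : Finset ℕ, (∀ v ∈ S, v ∈ Finset.Ico 1 N ∧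
      ¬ ∃ z ∈ B, hadj (v0 + d + W * v) (z0 + W * z)) → ∑ v ∈ S, sg W v0 v ≤ 1 / 8 * N
  ga : ∀ X y0 v0 d : ℕ, 1 ≤ X → X ≤ 2 * W * N → y0 < W → v0 + 3 < W → (d = 0 ∨ d = 3) →
    IsCoprime (2 * (v0 : ℤ) + 3) W → Comp W X y0 → Comp W (v0 + d) y0 → ε1 * N ≤ Dw w W N X y0 →
    ∀ S : Finset ℕ, (∀ v ∈ S, v ∈ Finset.Ico 1 N ∧
      ¬ ∃ y ∈ Finset.Ico 1 N, hadj X (y0 + W * y) ∧ hadj (y0 + W * y) (v0 + d + W * v)) →
      ∑ v ∈ S, sg W v0 v ≤ 1 / 8 * N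

theorem AlphaCtx.memV {n w W N : ℕ} {ε1 : ℝ} (h : AlphaCtx n w W N ε1) {v0 d v : ℕ}
    (hv0 : v0 + 3 < W) (hd : d = 0 ∨ d = 3) (hv : v ∈ Finset.Ico 1 N) :
    v0 + d + W * v ∈ Finset.Icc 1 n :=
  h.g6.mem (by rcases hd with rfl | rfl <;> omega) hv

theorem AlphaCtx.two {n w W N : ℕ} {ε1 : ℝ} (h : AlphaCtx n w W N ε1) {X y0 v0 d : ℕ}
    (hX : X ∈ Finset.Icc 1 n) (hg : gr6Good w W N ε1 X y0) (hv0 : v0 + 3 < W)
    (hd : d = 0 ∨ d = 3) (hvc : IsCoprime (2 * (v0 : ℤ) + 3) W) (hc : Comp W (v0 + d) y0) :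
    alphaM n W N X v0 d 2 ≤ 1 / 8 * N := by
  classical
  have hX' := Finset.mem_Icc.mp hX
  unfold alphaM
  refine h.ga X y0 v0 d hX'.1 (hX'.2.trans h.g6.hn) hg.1 hv0 hd hvc hg.2.1 hc hg.2.2 _ ?_
  intro v hv
  rw [Finset.mem_filter] at hv
  refine ⟨hv.1, ?_⟩
  rintro ⟨y, hy, ha, hb⟩
  apply hv.2
  have s0 : (HG n).edist X X ≤ ((0 : ℕ) : ℕ∞) := by simp
  have s1 := gr6_step (HG n) s0 (c := y0 + W * y) ⟨ha, hX, h.g6.mem hg.1 hy⟩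
  exact gr6_step (HG n) s1 (c := v0 + d + W * v) ⟨hb, h.g6.mem hg.1 hy, h.memV hv0 hd hv.1⟩

theorem AlphaCtx.ofSet {n w W N : ℕ} {ε1 : ℝ} (h : AlphaCtx n w W N ε1) {X z0 v0 d k : ℕ}
    (hz0 : z0 < W) (hv0 : v0 + 3 < W)
    (hd : d = 0 ∨ d = 3) (hvc : IsCoprime (2 * (v0 : ℤ) + 3) W) (hc : Comp W z0 (v0 + d))
    (hS : 1 / 4 * (N : ℝ) ≤ (gr6S n W N X z0 k).card) :
    alphaM n W N X v0 d (k + 1) ≤ 1 / 8 * N := by
  classical
  unfold alphaM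
  refine h.t2 z0 v0 d hz0 hv0 hd hvc hc (gr6S n W N X z0 k) (gr6S_sub _ _ _ _ _ _) hS _ ?_
  intro v hv
  rw [Finset.mem_filter] at hv
  refine ⟨hv.1, ?_⟩
  rintro ⟨z, hz, ha⟩
  apply hv.2
  have hzI := gr6S_sub _ _ _ _ _ _ hz
  unfold gr6S at hz
  rw [Finset.mem_filter] at hz
  exact gr6_step (HG n) hz.2 (c := v0 + d + W * v)
    ⟨(hadj_comm _ _).mp ha, h.g6.mem hz0 hzI, h.memV hv0 hd hv.1⟩

theorem AlphaCtx.meet {n w W N : ℕ} {ε1 : ℝ} (h : AlphaCtx n w W N ε1) {X X' v0 k l : ℕ}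
    (hv0 : v0 + 3 < W) (hvc : IsCoprime (2 * (v0 : ℤ) + 3) W)
    (hS : alphaM n W N X v0 0 k ≤ 1 / 8 * N) (hS' : alphaM n W N X' v0 3 l ≤ 1 / 8 * N) :
    (HG n).edist X X' ≤ ((k + 1 + l : ℕ) : ℕ∞) := by
  classical
  have hN : (40 : ℝ) ≤ N := by exact_mod_cast h.g6.hN
  obtain ⟨v, hv, hsg, h1, h2⟩ : ∃ v ∈ Finset.Ico 1 N, sg W v0 v ≠ 0 ∧
      (HG n).edist X (v0 + 0 + W * v) ≤ (k : ℕ∞) ∧ (HG n).edist X' (v0 + 3 + W * v) ≤ (l : ℕ∞) := by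
    by_contra hcon
    push Not at hcon
    have h3 : ∑ v ∈ Finset.Ico 1 N, sg W v0 v ≤ alphaM n W N X v0 0 k + alphaM n W N X' v0 3 l := by
      unfold alphaM
      rw [Finset.sum_filter, Finset.sum_filter, ← Finset.sum_add_distrib]
      refine Finset.sum_le_sum fun v hv => ?_
      have h0 := sg_nonneg W v0 v
      by_cases e0 : sg W v0 v = 0
      · rw [e0]; simp
      by_cases e1 : (HG n).edist X (v0 + 0 + W * v) ≤ (k : ℕ∞)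
      · have e2 := hcon v hv e0 e1
        rw [if_neg (not_not.mpr e1), if_pos (not_le.mpr e2), zero_add]
      · rw [if_pos e1]
        have : 0 ≤ (if ¬ (HG n).edist X' (v0 + 3 + W * v) ≤ (l : ℕ∞) then sg W v0 v else 0) := by
          split_ifs <;> first | exact h0 | exact le_rfl
        linarith
    have h4 := h.tot v0 hv0 hvc
    linarith
  have hp := sg_ne hsg
  have m1 := h.memV hv0 (Or.inl rfl) hv
  have m2 := h.memV hv0 (Or.inr rfl) hv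
  have e5 : v0 + 3 + W * v = v0 + W * v + 3 := by ring
  rw [add_zero] at h1 m1
  have t2 := gr6_step (HG n) h1 (c := v0 + 3 + W * v)
    ⟨by rw [e5]; exact ty3_link hp, m1, m2⟩
  exact gr6_join (HG n) t2 h2

/-- three steps from a multiple of `3` to almost all link ends -/
theorem AlphaCtx.three {n w W N : ℕ} {ε1 : ℝ} (h : AlphaCtx n w W N ε1) {X y0 v0 d : ℕ}
    (hX : X ∈ Finset.Icc 1 n) (hg : gr6Good w W N ε1 X y0) (hv0 : v0 + 3 < W)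
    (hd : d = 0 ∨ d = 3) (hvc : IsCoprime (2 * (v0 : ℤ) + 3) W) (h3 : (3 : ℤ) ∣ X)
    (hv3 : ¬ (3 : ℤ) ∣ ((v0 : ℤ) + d)) (hp : ((v0 : ℤ) + d) % 2 ≠ (X : ℤ) % 2) :
    alphaM n W N X v0 d 3 ≤ 1 / 8 * N := by
  have hw3 : 3 ≤ w := by have := h.hw7; omega
  have hN : (40 : ℝ) ≤ N := by exact_mod_cast h.g6.hN
  have c1 := comp_parity hw3 h.g6.hW hg.2.1
  obtain ⟨z0, hz0, e1, e2⟩ := comp_common hw3 h.g6.hW (y0 : ℤ) ((v0 : ℤ) + d) (by omega)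
    (by tauto)
  have s1 := h.g6.two hX hg hz0 (comp_comm e1)
  exact h.ofSet hz0 hv0 hd hvc (comp_comm e2) (by linarith)

/-- four steps from a vertex prime to `3` to almost all link ends -/
theorem AlphaCtx.four {n w W N : ℕ} {ε1 : ℝ} (h : AlphaCtx n w W N ε1) {X y0 v0 d : ℕ}
    (hX : X ∈ Finset.Icc 1 n) (hg : gr6Good w W N ε1 X y0) (hv0 : v0 + 3 < W)
    (hd : d = 0 ∨ d = 3) (hvc : IsCoprime (2 * (v0 : ℤ) + 3) W) (h3 : ¬ (3 : ℤ) ∣ X)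
    (hv3 : ¬ (3 : ℤ) ∣ ((v0 : ℤ) + d)) (hp : ((v0 : ℤ) + d) % 2 = (X : ℤ) % 2) :
    alphaM n W N X v0 d 4 ≤ 1 / 8 * N := by
  have hN : (40 : ℝ) ≤ N := by exact_mod_cast h.g6.hN
  obtain ⟨z0, hz0, e1, s1⟩ := h.g6.reach hX hg ((v0 : ℤ) + d) hv3 (by tauto)
  exact h.ofSet hz0 hv0 hd hvc (comp_comm e1) (by linarith)

/-- the context exists -/
theorem alpha_ctx (ε : ℝ) (hε : 0 < ε) : ∃ ε1 : ℝ, 0 < ε1 ∧ ∃ w : ℕ,
    ∃ n0 : ℕ, ∀ n : ℕ, n0 ≤ n →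
    AlphaCtx n w (primorial w) (n / primorial w) ε1 ∧
    ∀ X ∈ Finset.Icc 1 n, ε * SH X * n / Real.log n ^ 2 ≤ hdeg n X →
      ∃ y0 : ℕ, gr6Good w (primorial w) (n / primorial w) ε1 X y0 := by
  classical
  obtain ⟨ε1, hε1, hε1a, hε1b⟩ : ∃ ε1 : ℝ, 0 < ε1 ∧ ε1 ≤ ε / 20 ∧ ε1 ≤ 1 / 10 :=
    ⟨min (ε / 20) (1 / 10), lt_min (by positivity) (by norm_num), min_le_left _ _, min_le_right _ _⟩
  obtain ⟨w1, h3⟩ := gr3 ε1 hε1
  obtain ⟨w2, h4⟩ := gr4 (1 / 10) (by norm_num)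
  obtain ⟨w3, h5⟩ := gr5
  obtain ⟨w4, h6⟩ := ga1 ε1 hε1
  obtain ⟨w5, h7⟩ := ty2' (1 / 4) (1 / 8) (by norm_num) (by norm_num)
  obtain ⟨w6, h8⟩ := sg_total
  obtain ⟨w, hwd⟩ : ∃ w : ℕ, w = w1 + w2 + w3 + w4 + w5 + w6 + 7 := ⟨_, rfl⟩
  refine ⟨ε1, hε1, w, ?_⟩
  have hW : IsW w (primorial w) := isW_primorial
  have hW0 := hW.1
  obtain ⟨N3, h3⟩ := h3 w (primorial w) (by omega) hW
  obtain ⟨N4, h4⟩ := h4 w (primorial w) (by omega) hW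
  obtain ⟨N5, h5⟩ := h5 w (primorial w) (by omega) hW
  obtain ⟨N6, h6⟩ := h6 w (primorial w) (by omega) hW
  obtain ⟨N7, h7⟩ := h7 w (primorial w) (by omega) hW
  obtain ⟨N8, h8⟩ := h8 w (primorial w) (by omega) hW
  obtain ⟨n2, h2⟩ := gr2 ε hε w (by omega)
  refine ⟨max n2 (primorial w * (N3 + N4 + N5 + N6 + N7 + N8 + 40)), fun n hn => ?_⟩
  have hn2 : n2 ≤ n := (le_max_left _ _).trans hn
  have hnN : N3 + N4 + N5 + N6 + N7 + N8 + 40 ≤ n / primorial w := by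
    rw [Nat.le_div_iff_mul_le hW0, mul_comm]
    exact (le_max_right _ _).trans hn
  have hWn : primorial w * (n / primorial w) ≤ n := Nat.mul_div_le _ _
  refine ⟨⟨⟨by omega, hW, hWn, ?_, by omega, hε1b, h3 _ (by omega), h4 _ (by omega),
    h5 _ (by omega)⟩, by omega, h8 _ (by omega), ?_, ?_⟩, ?_⟩
  · have h6 : n < primorial w * (n / primorial w) + primorial w := by
      have := Nat.lt_mul_div_succ n hW0
      linarith
    have h7 : primorial w * 1 ≤ primorial w * (n / primorial w) :=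
      Nat.mul_le_mul_left _ (by omega)
    have h8 : 2 * primorial w * (n / primorial w) =
      primorial w * (n / primorial w) + primorial w * (n / primorial w) := by ring
    omega
  · intro z0 v0 d hz0 hv0 hd hvc hc B hB hBc S hS
    refine le_trans (Finset.sum_le_sum_of_subset_of_nonneg ?_ fun _ _ _ => sg_nonneg _ _ _)
      (h7 _ (by omega) z0 v0 d hz0 hv0 hd hvc hc B hB hBc)
    intro v hv
    rw [Finset.mem_filter]
    exact hS v hv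
  · intro X y0 v0 d hX1 hX2 hy0 hv0 hd hvc hc1 hc2 hD S hS
    refine le_trans (Finset.sum_le_sum_of_subset_of_nonneg ?_ fun _ _ _ => sg_nonneg _ _ _)
      ((h6 _ (by omega) X y0 v0 d hX1 hX2 hy0 hv0 hd hvc hc1 hc2 hD).trans ?_)
    · intro v hv
      rw [Finset.mem_filter]
      exact hS v hv
    · exact mul_le_mul_of_nonneg_right (by linarith) (Nat.cast_nonneg _)
  · intro X hX hd
    obtain ⟨y0, a1, a2, a3⟩ := h2 n hn2 X hX hd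
    refine ⟨y0, a1, a2, le_trans ?_ a3⟩
    exact mul_le_mul_of_nonneg_right hε1a (Nat.cast_nonneg _)

/-- both multiples of `3` -/
theorem AlphaCtx.case1 {n w W N : ℕ} {ε1 : ℝ} (h : AlphaCtx n w W N ε1) {X X' y0 y0' : ℕ}
    (hX : X ∈ Finset.Icc 1 n) (hX' : X' ∈ Finset.Icc 1 n) (hg : gr6Good w W N ε1 X y0)
    (hg' : gr6Good w W N ε1 X' y0') (h3 : (3 : ℤ) ∣ X) (h3' : (3 : ℤ) ∣ X')
    (h2 : (X : ℤ) % 2 ≠ (X' : ℤ) % 2) : (HG n).edist X X' ≤ ((7 : ℕ) : ℕ∞) := by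
  obtain ⟨v, hv, hv2, hv3, hvc⟩ := exists_link h.g6.hw h.g6.hW (1 - (X : ℤ) % 2) (by omega)
  have s1 := h.three (v0 := v) (d := 0) hX hg hv (Or.inl rfl) hvc h3 (by simpa using hv3)
    (by push_cast; omega)
  have s2 := h.three (v0 := v) (d := 3) hX' hg' hv (Or.inr rfl) hvc h3' (by push_cast; omega)
    (by push_cast; omega)
  exact h.meet hv hvc s1 s2

/-- the second vertex is prime to `3` -/
theorem AlphaCtx.case2 {n w W N : ℕ} {ε1 : ℝ} (h : AlphaCtx n w W N ε1) {X X' y0 y0' : ℕ}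
    (hX : X ∈ Finset.Icc 1 n) (hX' : X' ∈ Finset.Icc 1 n) (hg : gr6Good w W N ε1 X y0)
    (hg' : gr6Good w W N ε1 X' y0') (h3' : ¬ (3 : ℤ) ∣ X')
    (h23 : (X : ℤ) % 2 = (X' : ℤ) % 2 ↔ (3 : ℤ) ∣ X) :
    (HG n).edist X X' ≤ ((7 : ℕ) : ℕ∞) := by
  have hw3 : 3 ≤ w := by have := h.hw7; omega
  have c2 := comp_parity hw3 h.g6.hW hg'.2.1
  obtain ⟨v, hv, hv3, hvc, hcomp⟩ := exists_link_comp h.hw7 h.g6.hW (y0' : ℤ) 3 (Or.inr rfl)
    (by tauto)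
  have c3 := comp_parity hw3 h.g6.hW hcomp
  have s2 := h.two (v0 := v) (d := 3) hX' hg' hv (Or.inr rfl) hvc (comp_comm hcomp)
  by_cases h3 : (3 : ℤ) ∣ X
  · have s1 := h.three (v0 := v) (d := 0) hX hg hv (Or.inl rfl) hvc h3 (by simpa using hv3)
      (by
        have e1 := h23.mpr h3
        have e2 := c2.1
        have e3 := c3.1
        push_cast
        clear c2 c3 h23 h3 h3' hv3
        rcases Int.emod_two_eq_zero_or_one (X' : ℤ) with e | e <;> omega)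
    refine (h.meet hv hvc s1 s2).trans ?_
    norm_num
  · have s1 := h.four (v0 := v) (d := 0) hX hg hv (Or.inl rfl) hvc h3 (by simpa using hv3)
      (by
        have e1 : ¬ (X : ℤ) % 2 = (X' : ℤ) % 2 := fun e => h3 (h23.mp e)
        have e2 := c2.1
        have e3 := c3.1
        push_cast
        clear c2 c3 h23 h3 h3' hv3
        rcases Int.emod_two_eq_zero_or_one (X' : ℤ) with e | e <;> omega)
    exact h.meet hv hvc s1 s2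

/-- Chunk ALPHA. Improve `gr6` (same structure). Same class: `gr6_five`. Types: A = even and `3 ∣ X`,
B = odd, `3 ∤ X`, C = odd, `3 ∣ X`, D = even, `3 ∤ X`; edges A-B, C-D, links B-D.
* `3 ∣ X, 3 ∣ X'`, opposite parity (A, C): the argument of `gr6` gives `3 + 1 + 3 = 7`.
* `3 ∣ X, 3 ∤ X'`, same parity: `v0` from `exists_link_comp` for `y0' = y0(X')` and `d = 3`
  (`Comp W y0' (v0 + 3)`; `3 ∣ y0'`); `z0` compatible with `y0(X)` and `v0`; the `V` adjacent to the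
  class `z0` at distance `2` from `X` have almost full mass (`gr3`, `ty2'`), the `V` with `V + 3` at
  distance `2` from `X'` also (`ga1`, `d = 3`), `sg_total`: distance `3 + 1 + 2`. And symmetrically.
* `3 ∤ X, 3 ∤ X'`, opposite parity: `v0` as before for `X'`; `X → y(A) → z(B) → y2(A) → V(B)`: `z0`
  compatible with `y0(X)`, `y2` compatible with `z0` and `v0` (`gr3`, `gr4`, `ty2'`): `4 + 1 + 2`. -/
theorem gr6s (ε : ℝ) (hε : 0 < ε) : ∃ n0 : ℕ, ∀ n : ℕ, n0 ≤ n →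
    ∀ X ∈ Finset.Icc 1 n, ∀ X' ∈ Finset.Icc 1 n, ε * SH X * n / Real.log n ^ 2 ≤ hdeg n X →
    ε * SH X' * n / Real.log n ^ 2 ≤ hdeg n X' → (HG n).edist X X' ≤ 7 := by
  obtain ⟨ε1, hε1, w, n1, h⟩ := alpha_ctx ε hε
  obtain ⟨n2, h5⟩ := gr6_five ε hε
  refine ⟨max n1 n2, fun n hn X hX X' hX' hd hd' => ?_⟩
  by_cases h23 : ((X : ℤ) % 2 = (X' : ℤ) % 2 ↔ ((3 : ℤ) ∣ X ↔ (3 : ℤ) ∣ X'))
  · refine (h5 n ((le_max_right _ _).trans hn) X hX X' hX' hd hd' h23).trans ?_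
    norm_num
  obtain ⟨hctx, hgood⟩ := h n ((le_max_left _ _).trans hn)
  obtain ⟨y0, hg⟩ := hgood X hX hd
  obtain ⟨y0', hg'⟩ := hgood X' hX' hd'
  by_cases h3' : (3 : ℤ) ∣ X'
  · by_cases h3 : (3 : ℤ) ∣ X
    · exact hctx.case1 hX hX' hg hg' h3 h3' (by tauto)
    · have hP : (X : ℤ) % 2 = (X' : ℤ) % 2 := by tauto
      rw [SimpleGraph.edist_comm]
      exact hctx.case2 hX' hX hg' hg h3 ⟨fun _ => h3', fun _ => hP.symm⟩
  · exact hctx.case2 hX hX' hg hg' h3' (by tauto)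

end Pool.Agent.Lib.H18GB
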