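import Pool.Agent.Lib.H18GB2.BXM
import Pool.Agent.Lib.H18GB.TY
import Pool.Agent.Lib.H18GB.GRAux

/-!
# Project GB2: GA (large degree vertices reach almost all links in two steps)
-/

namespace Pool.Agent.Lib.H18GB

open Finset Pool.Agent.Lib.Sieve Pool.Agent.Lib.GoldbachGraph

/-- Chunk GA. `ss` with `F(y) = lamv W (X + y0 + W y) lamv W (X - y0 - W y) / SW w (2 X)` (third kind,
`b = X + y0`, `b' = X - y0`; put `0` at `y = 0`), `G1 = ` restriction of `sg` to the exceptional `v`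
(second kind, `b = 2 v0 + 3`), kernel in the variables `(v, y)` or `(y, v)`: `r1 = v0 + d + y0`,
`r2 = ± (v0 + d - y0)`, `σ = ± 1` (`no_edge_bound` in `GRAux.lean`; compare `gr3` and `gr5_half`). -/
theorem ga1 (ε : ℝ) (hε : 0 < ε) : ∃ w0 : ℕ, ∀ w W : ℕ, w0 ≤ w → IsW w W → ∃ N0 : ℕ,
    ∀ N : ℕ, N0 ≤ N → ∀ X y0 v0 d : ℕ, 1 ≤ X → X ≤ 2 * W * N → y0 < W → v0 + 3 < W →
    (d = 0 ∨ d = 3) → IsCoprime (2 * (v0 : ℤ) + 3) W → Comp W X y0 → Comp W (v0 + d) y0 →
    ε * N ≤ Dw w W N X y0 →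
    ∑ v ∈ (Finset.Ico 1 N).filter (fun v => ¬ ∃ y ∈ Finset.Ico 1 N, hadj X (y0 + W * y) ∧
      hadj (y0 + W * y) (v0 + d + W * v)), sg W v0 v ≤ ε * N := by
  obtain ⟨w1, hw1⟩ := ss (ε ^ 2 / 4) (by positivity)
  refine ⟨max w1 2, fun w W hw hW => ?_⟩
  obtain ⟨N1, hN1⟩ := hw1 w W (le_trans (le_max_left _ _) hw) hW
  obtain ⟨N2, hN2⟩ := log_sq_le W (ε / 2) (by positivity)
  refine ⟨max (max N1 N2) 1, fun N hN X y0 v0 d hX1 hX2 hy0 hv0 hd _ hXy hvy hD => ?_⟩
  have hNN1 : N1 ≤ N := le_trans (le_trans (le_max_left _ _) (le_max_left _ _)) hN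
  have hNN2 : N2 ≤ N := le_trans (le_trans (le_max_right _ _) (le_max_left _ _)) hN
  have hNpos : 1 ≤ N := le_trans (le_max_right _ _) hN
  have hNR : (1 : ℝ) ≤ N := by exact_mod_cast hNpos
  have h2W : 2 ∣ W := (hW.2 2 Nat.prime_two).mpr (le_trans (le_max_right _ _) hw)
  set Z := (Finset.Ico 1 N).filter (fun v => ¬ ∃ y ∈ Finset.Ico 1 N, hadj X (y0 + W * y) ∧
      hadj (y0 + W * y) (v0 + d + W * v)) with hZdef
  have hZsub : Z ⊆ Finset.Ico 1 N := Finset.filter_subset _ _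
  set z0 : ℕ := v0 + d with hz0def
  have hz0 : z0 < W := by rcases hd with rfl | rfl <;> omega
  have hyz : Comp W (y0 : ℤ) (z0 : ℤ) := by
    have h := hvy.swap
    have e : ((z0 : ℕ) : ℤ) = (v0 : ℤ) + d := by rw [hz0def]; push_cast; ring
    rw [e]
    exact h
  -- the weight
  set f : ℤ → ℝ := fun x => lamv W (((X : ℤ) + y0) + W * x) * lamv W (((X : ℤ) - y0) - W * x) /
    SW w (((X : ℤ) + y0) + ((X : ℤ) - y0)) with hf
  have hSWp : (0 : ℝ) < SW w (((X : ℤ) + y0) + ((X : ℤ) - y0)) :=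
    lt_of_lt_of_le one_pos (one_le_SW _ _)
  have hf0 : ∀ x, 0 ≤ f x := fun x =>
    div_nonneg (mul_nonneg (lamv_nonneg' _ _) (lamv_nonneg' _ _)) hSWp.le
  set F : ℤ → ℝ := fun x => if 1 ≤ x ∧ x < N then f x else 0 with hFdef
  have hF0 : ∀ x, 0 ≤ F x := by
    intro x
    simp only [hFdef]
    split_ifs
    · exact hf0 x
    · exact le_rfl
  have hFf : ∀ x, F x ≤ f x := by
    intro x
    simp only [hFdef]
    split_ifs
    · exact le_rfl
    · exact hf0 x
  have hWN : (W : ℤ) * N ≥ W := by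
    have : (1 : ℤ) ≤ N := by exact_mod_cast hNpos
    nlinarith [Int.natCast_nonneg W]
  have hXle : (X : ℤ) ≤ 2 * W * N := by exact_mod_cast hX2
  have hWpos : (0 : ℤ) < W := by exact_mod_cast hW.1
  have hy0' : (y0 : ℤ) < W := by exact_mod_cast hy0
  have hz0' : (z0 : ℤ) < W := by exact_mod_cast hz0
  have hr1 : |((y0 : ℤ) + z0)| < 2 * W := by
    rw [abs_lt]; constructor <;> omega
  have hr2 : |((y0 : ℤ) - z0)| < 2 * W := by
    rw [abs_lt]; constructor <;> omega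
  have hr2' : |(-((y0 : ℤ) - z0))| < 2 * W := by rw [abs_neg]; exact hr2
  have hb : |((X : ℤ) + y0)| ≤ 4 * W * N := by
    rw [abs_le]; constructor <;> nlinarith
  have hb' : |((X : ℤ) - y0)| ≤ 4 * W * N := by
    rw [abs_le]; constructor <;> nlinarith
  have hbb : ((X : ℤ) + y0) + ((X : ℤ) - y0) ≠ 0 := by
    have : (1 : ℤ) ≤ X := by exact_mod_cast hX1
    omega
  have hFA : Adm w W N F := ⟨hF0, Or.inr (Or.inr (Or.inl ⟨(X : ℤ) + y0, (X : ℤ) - y0, hb, hb', hbb,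
    fun x => hFf x⟩))⟩
  -- the second weight
  set G : ℤ → ℝ := fun x => lamv W (2 * W * x + ((2 * v0 + 3 : ℕ) : ℤ)) * indZ Z x with hGdef
  have hG0 : ∀ x, 0 ≤ G x := fun x => mul_nonneg (lamv_nonneg' _ _) (indZ_nonneg _ _)
  have hGf : ∀ x, G x ≤ lamv W (2 * W * x + ((2 * v0 + 3 : ℕ) : ℤ)) := by
    intro x
    have h1 := indZ_abs_le Z x
    rw [abs_of_nonneg (indZ_nonneg _ _)] at h1
    exact mul_le_of_le_one_right (lamv_nonneg' _ _) h1
  have hGA : Adm w W N G := by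
    refine ⟨hG0, Or.inr (Or.inl ⟨((2 * v0 + 3 : ℕ) : ℤ), ?_, hGf⟩)⟩
    rw [abs_of_nonneg (Int.natCast_nonneg _)]
    push_cast
    omega
  have k1 := hN1 N hNN1 ((y0 : ℤ) + z0) ((y0 : ℤ) - z0) 1 hr1 hyz.1 hr2 hyz.2 (Or.inl rfl)
    F G F G hFA hGA (fun x => (abs_of_nonneg (hF0 x)).le) (fun x => (abs_of_nonneg (hG0 x)).le)
  have k2 := hN1 N hNN1 ((y0 : ℤ) + z0) (-((y0 : ℤ) - z0)) (-1) hr1 hyz.1 hr2' hyz.2.neg_left
    (Or.inr rfl) F G F G hFA hGA (fun x => (abs_of_nonneg (hF0 x)).le)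
    (fun x => (abs_of_nonneg (hG0 x)).le)
  have hedge : ∀ x ∈ Finset.Ico (0 : ℤ) N, ∀ y ∈ Finset.Ico (0 : ℤ) N,
      F x * G y ≠ 0 →
      lamv W (((y0 : ℤ) + z0) + W * (x + y)) * lamv W (((y0 : ℤ) - z0) + W * (x - y)) = 0 := by
    intro x _ y _ hne
    by_contra hc
    obtain ⟨hFx, hGy⟩ := mul_ne_zero_iff.mp hne
    obtain ⟨z, hzB, rfl⟩ := indZ_ne (right_ne_zero_of_mul hGy)
    have hx : 1 ≤ x ∧ x < N := by
      by_contra h
      exact hFx (by simp only [hFdef]; rw [if_neg h])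
    have hfx : f x ≠ 0 := by
      simp only [hFdef] at hFx
      rwa [if_pos hx] at hFx
    obtain ⟨m, rfl⟩ : ∃ m : ℕ, x = m := ⟨x.toNat, by omega⟩
    have hprod : lamv W (((X : ℤ) + y0) + W * m) * lamv W (((X : ℤ) - y0) - W * m) ≠ 0 := by
      intro h0
      exact hfx (by simp only [hf]; rw [h0, zero_div])
    have e1 : hadj X (y0 + W * m) := by
      have h3 := hadj_of_lamv (x0 := X) (y0 := y0) (x := 0) (y := m) h2W hXy (by
        have a1 : ((X : ℤ) + y0) + W * (((0 : ℕ) : ℤ) + m) = ((X : ℤ) + y0) + W * m := by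
          push_cast; ring
        have a2 : ((X : ℤ) - y0) + W * (((0 : ℕ) : ℤ) - m) = ((X : ℤ) - y0) - W * m := by
          push_cast; ring
        rw [a1, a2]
        exact hprod)
      simpa using h3
    have e2 : hadj (y0 + W * m) (z0 + W * z) := hadj_of_lamv h2W hyz hc
    exact (Finset.mem_filter.mp hzB).2 ⟨m, Finset.mem_Ico.mpr ⟨by omega, by omega⟩, e1, e2⟩
  have hbound := no_edge_bound hF0 hG0 hedge k1 k2
  have hGs : ∑ x ∈ Finset.Ico (0 : ℤ) N, G x = ∑ v ∈ Z, sg W v0 v := by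
    classical
    rw [sum_Ico_int]
    have h1 : ∀ n ∈ Finset.range N, G (n : ℤ) = if n ∈ Z then sg W v0 n else 0 := by
      intro n _
      simp only [hGdef]
      rw [indZ_cast, sg_eq]
      split_ifs <;> simp
    rw [Finset.sum_congr rfl h1, Finset.sum_ite_mem]
    apply Finset.sum_congr _ (fun _ _ => rfl)
    apply Finset.inter_eq_right.mpr
    intro n hn
    have := Finset.mem_Ico.mp (hZsub hn)
    exact Finset.mem_range.mpr this.2
  rw [hGs] at hbound
  -- the total weight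
  have hsum : ε / 2 * N ≤ ∑ x ∈ Finset.Ico (0 : ℤ) N, F x := by
    rw [sum_Ico_int]
    have h3 : Dw w W N X y0 = ∑ y ∈ Finset.range N, f (y : ℤ) := by
      unfold Dw
      apply Finset.sum_congr rfl
      intro y _
      simp only [hf]
      have : ((X : ℤ) + y0) + ((X : ℤ) - y0) = 2 * (X : ℤ) := by ring
      rw [this]
    have h4 : ∑ y ∈ Finset.range N, f (y : ℤ) ≤
        (∑ n ∈ Finset.range N, F (n : ℤ)) + f 0 := by
      obtain ⟨N', rfl⟩ : ∃ N', N = N' + 1 := ⟨N - 1, by omega⟩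
      rw [Finset.sum_range_succ' (fun n : ℕ => f (n : ℤ)),
        Finset.sum_range_succ' (fun n : ℕ => F (n : ℤ))]
      have h5 : ∀ n ∈ Finset.range N', f ((n + 1 : ℕ) : ℤ) = F ((n + 1 : ℕ) : ℤ) := by
        intro n hn
        have := Finset.mem_range.mp hn
        simp only [hFdef]
        rw [if_pos]
        constructor
        · push_cast; omega
        · push_cast; omega
      rw [Finset.sum_congr rfl h5]
      have h6 := hF0 ((0 : ℕ) : ℤ)
      simp only [Nat.cast_zero] at h6 ⊢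
      linarith
    have h7 : f 0 ≤ Real.log (4 * W * N + 4 * W + 4) ^ 2 := by
      have hWR : (0 : ℝ) ≤ W := Nat.cast_nonneg W
      have hBig : (1 : ℝ) ≤ 4 * W * N + 4 * W + 4 := by nlinarith
      have hWNR : (W : ℝ) ≤ W * N := by nlinarith
      have hXR : (X : ℝ) ≤ 2 * W * N := by exact_mod_cast hX2
      have hyR : (y0 : ℝ) ≤ W := by exact_mod_cast hy0.le
      have hX0 : (0 : ℝ) ≤ X := Nat.cast_nonneg X
      have hy00 : (0 : ℝ) ≤ y0 := Nat.cast_nonneg y0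
      have a1 : lamv W (((X : ℤ) + y0) + W * 0) ≤ Real.log (4 * W * N + 4 * W + 4) := by
        apply lamv_le_log hBig
        push_cast
        rw [abs_le]
        constructor <;> nlinarith
      have a2 : lamv W (((X : ℤ) - y0) - W * 0) ≤ Real.log (4 * W * N + 4 * W + 4) := by
        apply lamv_le_log hBig
        push_cast
        rw [abs_le]
        constructor <;> nlinarith
      have a3 : f 0 ≤ lamv W (((X : ℤ) + y0) + W * 0) * lamv W (((X : ℤ) - y0) - W * 0) := by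
        simp only [hf]
        exact div_le_self (mul_nonneg (lamv_nonneg' _ _) (lamv_nonneg' _ _)) (one_le_SW _ _)
      calc f 0 ≤ _ := a3
        _ ≤ Real.log (4 * W * N + 4 * W + 4) * Real.log (4 * W * N + 4 * W + 4) :=
          mul_le_mul a1 a2 (lamv_nonneg' _ _) (Real.log_nonneg hBig)
        _ = _ := by ring
    have h8 := hN2 N hNN2
    rw [h3] at hD
    linarith
  have hS0 : 0 ≤ ∑ v ∈ Z, sg W v0 v := Finset.sum_nonneg fun v _ => sg_nonneg _ _ _
  have h9 : ε / 2 * N * (∑ v ∈ Z, sg W v0 v) ≤ 2 * (ε ^ 2 / 4 * N ^ 2) :=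
    le_trans (mul_le_mul_of_nonneg_right hsum hS0) hbound
  have h10 : (0 : ℝ) < ε / 2 * N := by positivity
  have h11 : ε / 2 * N * (∑ v ∈ Z, sg W v0 v) ≤ ε / 2 * N * (ε * N) :=
    h9.trans (le_of_eq (by ring))
  exact le_of_mul_le_mul_left h11 h10

end Pool.Agent.Lib.H18GB
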