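import Pool.Agent.Lib.H18GB.RCN

/-!
# Project GB2: SWC (the arithmetic factors are almost always close to `1`)
-/

namespace Pool.Agent.Lib.H18GB

open Finset Pool.Agent.Lib.Sieve

/-- sum of `p^(-9/10)` over the primes `p > w` dividing `d` -/
noncomputable def Et (w : ℕ) (d : ℤ) : ℝ :=
  ∑ p ∈ d.natAbs.primeFactors.filter (fun p => w < p), (p : ℝ) ^ (-(9 / 10 : ℝ))

theorem ers_le_et {w z : ℕ} {d : ℤ} (hd : d ≠ 0) : Ers (9 / 10) (sprimes w z) d ≤ Et w d := by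
  unfold Ers Et
  apply Finset.sum_le_sum_of_subset_of_nonneg
  · intro p hp
    rw [Finset.mem_filter, mem_sprimes] at hp
    rw [Finset.mem_filter, Nat.mem_primeFactors]
    exact ⟨⟨hp.1.1, Int.natCast_dvd.mp hp.2, by simpa using hd⟩, hp.1.2.1⟩
  · intro p _ _
    exact Real.rpow_nonneg (Nat.cast_nonneg _) _

theorem swc_et_nonneg (w : ℕ) (d : ℤ) : 0 ≤ Et w d :=
  Finset.sum_nonneg fun _ _ => Real.rpow_nonneg (Nat.cast_nonneg _) _

/-- all prime divisors of `d` are at most `z` if `|d| ≤ z` -/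
theorem swc_et_le_ers {w z : ℕ} {d : ℤ} (hd : d.natAbs ≤ z) :
    Et w d ≤ Ers (9 / 10) (sprimes w z) d := by
  unfold Ers Et
  apply Finset.sum_le_sum_of_subset_of_nonneg
  · intro p hp
    rw [Finset.mem_filter, Nat.mem_primeFactors] at hp
    obtain ⟨⟨h1, h2, h3⟩, h4⟩ := hp
    rw [Finset.mem_filter, mem_sprimes]
    exact ⟨⟨h1, h4, (Nat.le_of_dvd (Nat.pos_of_ne_zero h3) h2).trans hd⟩, Int.natCast_dvd.mpr h2⟩
  · intro p _ _
    exact Real.rpow_nonneg (Nat.cast_nonneg _) _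

/-- crude bound of `∑ p^(-9/10)` -/
theorem swc_crude (w z : ℕ) (M : ℝ) (hM : 0 < M) :
    ∑ p ∈ sprimes w z, (p : ℝ) ^ (-(9 / 10 : ℝ)) ≤ M + z * M ^ (-(9 / 10 : ℝ)) := by
  rw [← Finset.sum_filter_add_sum_filter_not _ (fun p : ℕ => (p : ℝ) ≤ M)]
  apply add_le_add
  · have h1 : ∑ p ∈ (sprimes w z).filter (fun p : ℕ => (p : ℝ) ≤ M), (p : ℝ) ^ (-(9 / 10 : ℝ)) ≤
        ∑ p ∈ (sprimes w z).filter (fun p : ℕ => (p : ℝ) ≤ M), (1 : ℝ) := by
      apply Finset.sum_le_sum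
      intro p hp
      rw [Finset.mem_filter, mem_sprimes] at hp
      exact Real.rpow_le_one_of_one_le_of_nonpos (by exact_mod_cast hp.1.1.one_lt.le) (by norm_num)
    refine h1.trans ?_
    rw [Finset.sum_const, nsmul_eq_mul, mul_one]
    have h2 : (sprimes w z).filter (fun p : ℕ => (p : ℝ) ≤ M) ⊆ Finset.Ioc 0 ⌊M⌋₊ := by
      intro p hp
      rw [Finset.mem_filter, mem_sprimes] at hp
      rw [Finset.mem_Ioc]
      exact ⟨hp.1.1.pos, Nat.le_floor hp.2⟩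
    have h3 := Finset.card_le_card h2
    rw [Nat.card_Ioc, Nat.sub_zero] at h3
    calc (((sprimes w z).filter (fun p : ℕ => (p : ℝ) ≤ M)).card : ℝ) ≤ (⌊M⌋₊ : ℝ) := by
          exact_mod_cast h3
      _ ≤ M := Nat.floor_le hM.le
  · have h1 : ∑ p ∈ (sprimes w z).filter (fun p : ℕ => ¬ (p : ℝ) ≤ M), (p : ℝ) ^ (-(9 / 10 : ℝ)) ≤
        ∑ p ∈ (sprimes w z).filter (fun p : ℕ => ¬ (p : ℝ) ≤ M), M ^ (-(9 / 10 : ℝ)) := by
      apply Finset.sum_le_sum
      intro p hp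
      rw [Finset.mem_filter] at hp
      exact Real.rpow_le_rpow_of_nonpos hM (not_le.mp hp.2).le (by norm_num)
    refine h1.trans ?_
    rw [Finset.sum_const, nsmul_eq_mul]
    have h2 : (sprimes w z).filter (fun p : ℕ => ¬ (p : ℝ) ≤ M) ⊆ Finset.Ioc 0 z := by
      intro p hp
      rw [Finset.mem_filter, mem_sprimes] at hp
      rw [Finset.mem_Ioc]
      exact ⟨hp.1.1.pos, hp.1.2.2⟩
    have h3 := Finset.card_le_card h2
    rw [Nat.card_Ioc, Nat.sub_zero] at h3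
    exact mul_le_mul_of_nonneg_right (by exact_mod_cast h3) (Real.rpow_nonneg hM.le _)

/-- average of `Et` -/
theorem swc_avg {w W N : ℕ} (hw : 2 ≤ w) (hW : IsW w W) (hN : 1 ≤ N) {c : ℤ} (hc : |c| ≤ 8 * W)
    (M : ℝ) (hM : 0 < M) :
    ∑ y ∈ Finset.Ico (0 : ℤ) N, Et w (c + 2 * W * y) ≤
      10 / 9 * (N * (w : ℝ) ^ (-(9 / 10 : ℝ))) + (M + 10 * W * N * M ^ (-(9 / 10 : ℝ))) := by
  have hW0 : 0 < W := hW.1
  set z : ℕ := 10 * W * N with hz
  have hndiv : ∀ p ∈ sprimes w z, ¬ (p : ℤ) ∣ (2 * W : ℤ) := by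
    intro p hp hdiv
    rw [mem_sprimes] at hp
    have h1 : (p : ℤ) ∣ ((2 * W : ℕ) : ℤ) := by exact_mod_cast hdiv
    have h2 : p ∣ 2 * W := by exact_mod_cast h1
    rcases (hp.1.dvd_mul).1 h2 with h3 | h3
    · have := Nat.le_of_dvd (by norm_num) h3
      omega
    · have := (hW.2 p hp.1).1 h3
      omega
  have hle : ∀ y ∈ Finset.Ico (0 : ℤ) N, Et w (c + 2 * W * y) ≤
      Ers (9 / 10) (sprimes w z) (2 * W * y + c) := by
    intro y hy
    rw [Finset.mem_Ico] at hy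
    have e : c + 2 * W * y = 2 * W * y + c := by ring
    rw [e]
    apply swc_et_le_ers
    have h1 : |2 * (W : ℤ) * y + c| ≤ 10 * W * N := by
      rw [abs_le] at hc ⊢
      have hWz : (1 : ℤ) ≤ W := by exact_mod_cast hW0
      have hNz : (1 : ℤ) ≤ N := by exact_mod_cast hN
      constructor <;> nlinarith
    have h2 : ((2 * (W : ℤ) * y + c).natAbs : ℤ) ≤ ((10 * W * N : ℕ) : ℤ) := by
      rw [Int.natCast_natAbs]
      push_cast
      exact h1
    rw [hz]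
    exact_mod_cast h2
  refine (Finset.sum_le_sum hle).trans ?_
  have h1 : ∑ y ∈ Finset.Ico (0 : ℤ) N, Ers (9 / 10) (sprimes w z) (2 * W * y + c) =
      ∑ p ∈ sprimes w z, (p : ℝ) ^ (-(9 / 10 : ℝ)) *
        ((Finset.Ico (0 : ℤ) N).filter (fun h : ℤ => (p : ℤ) ∣ 2 * W * h + c)).card := by
    unfold Ers
    simp_rw [Finset.sum_filter]
    rw [Finset.sum_comm]
    apply Finset.sum_congr rfl
    intro p _
    rw [← Finset.sum_filter, Finset.sum_const, nsmul_eq_mul, mul_comm]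
  rw [h1]
  have h2 : ∑ p ∈ sprimes w z, (p : ℝ) ^ (-(9 / 10 : ℝ)) *
        ((Finset.Ico (0 : ℤ) N).filter (fun h : ℤ => (p : ℤ) ∣ 2 * W * h + c)).card ≤
      ∑ p ∈ sprimes w z, ((N : ℝ) * (p : ℝ) ^ (-1 - (9 / 10 : ℝ)) + (p : ℝ) ^ (-(9 / 10 : ℝ))) := by
    apply Finset.sum_le_sum
    intro p hp
    have hpp := (mem_sprimes.1 hp).1
    have hpr : (0 : ℝ) < p := by exact_mod_cast hpp.pos
    have h3 := ers_count hpp (β := c) (a := 0) (b := N) (hndiv p hp) (by positivity)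
    have h5 : (0 : ℝ) ≤ (p : ℝ) ^ (-(9 / 10 : ℝ)) := Real.rpow_nonneg hpr.le _
    calc (p : ℝ) ^ (-(9 / 10 : ℝ)) *
          ((Finset.Ico (0 : ℤ) N).filter (fun h : ℤ => (p : ℤ) ∣ 2 * W * h + c)).card
        ≤ (p : ℝ) ^ (-(9 / 10 : ℝ)) * (((N : ℤ) - (0 : ℤ) : ℝ) / p + 1) :=
          mul_le_mul_of_nonneg_left h3 h5
      _ = (N : ℝ) * ((p : ℝ) ^ (-(9 / 10 : ℝ)) / p) + (p : ℝ) ^ (-(9 / 10 : ℝ)) := by
          push_cast; ring
      _ = _ := by
          rw [← Real.rpow_sub_one hpr.ne']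
          have : -(9 / 10 : ℝ) - 1 = -1 - 9 / 10 := by ring
          rw [this]
  refine h2.trans ?_
  rw [Finset.sum_add_distrib, ← Finset.mul_sum]
  have hsub : sprimes w z ⊆ Finset.Ioc w z := by
    intro p hp
    rw [Finset.mem_Ioc]
    exact (mem_sprimes.1 hp).2
  have h3 : ∑ p ∈ sprimes w z, (p : ℝ) ^ (-1 - (9 / 10 : ℝ)) ≤
      ∑ n ∈ Finset.Ioc w z, (n : ℝ) ^ (-1 - (9 / 10 : ℝ)) :=
    Finset.sum_le_sum_of_subset_of_nonneg hsub (fun _ _ _ => Real.rpow_nonneg (Nat.cast_nonneg _) _)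
  have h4 := ers_tail (9 / 10) (by norm_num) w z (by omega)
  have h5 : ∑ p ∈ sprimes w z, (p : ℝ) ^ (-1 - (9 / 10 : ℝ)) ≤
      10 / 9 * (w : ℝ) ^ (-(9 / 10 : ℝ)) := by
    linarith
  have h6 := swc_crude w z M hM
  have h7 : (z : ℝ) = 10 * W * N := by rw [hz]; push_cast; ring
  rw [h7] at h6
  have h8 := mul_le_mul_of_nonneg_left h5 (Nat.cast_nonneg (α := ℝ) N)
  linarith

open Classical in
/-- Chunk SWC. Similarly, `∑_{y < N} Et(c + 2 W y) ≤ ∑_{w < p ≤ 20 W N} p^(-9/10) (N / p + 1)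
≤ C N w^(-9/10)` for large `N`. -/
theorem etc_few (ε : ℝ) (hε : 0 < ε) : ∃ w0 : ℕ, ∀ w W : ℕ, w0 ≤ w → IsW w W → ∃ N0 : ℕ,
    ∀ N : ℕ, N0 ≤ N → ∀ c : ℤ, |c| ≤ 8 * W →
    (((Finset.Ico (0 : ℤ) N).filter fun y => c + 2 * W * y = 0 ∨
      (w : ℝ) ^ (-(1 / 4 : ℝ)) < Et w (c + 2 * W * y)).card : ℝ) ≤ ε * N := by
  -- the choice of `w0`
  have ht : Filter.Tendsto (fun w : ℕ => (w : ℝ) ^ (-(13 / 20 : ℝ))) Filter.atTop (nhds 0) :=
    (tendsto_rpow_neg_atTop (by norm_num : (0 : ℝ) < 13 / 20)).comp tendsto_natCast_atTop_atTop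
  obtain ⟨w1, hw1⟩ := Filter.eventually_atTop.1
    (ht.eventually (gt_mem_nhds (show (0 : ℝ) < ε / 4 by positivity)))
  refine ⟨max w1 2, fun w W hw hW => ?_⟩
  have hw2 : 2 ≤ w := (le_max_right _ _).trans hw
  have hw3 := hw1 w ((le_max_left _ _).trans hw)
  have hwr : (0 : ℝ) < w := by exact_mod_cast (by omega : 0 < w)
  have hW0 : 0 < W := hW.1
  set θ : ℝ := (w : ℝ) ^ (-(1 / 4 : ℝ)) with hθ
  have hθ0 : 0 < θ := Real.rpow_pos_of_pos hwr _
  -- `δ`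
  set δ : ℝ := θ * ε / 8 with hδ
  have hδ0 : 0 < δ := by positivity
  have ht2 : Filter.Tendsto (fun N : ℕ => 10 * (W : ℝ) * (δ * N) ^ (-(9 / 10 : ℝ))) Filter.atTop
      (nhds (10 * (W : ℝ) * 0)) := by
    apply Filter.Tendsto.const_mul
    exact (tendsto_rpow_neg_atTop (by norm_num : (0 : ℝ) < 9 / 10)).comp
      (Filter.Tendsto.const_mul_atTop hδ0 tendsto_natCast_atTop_atTop)
  rw [mul_zero] at ht2
  obtain ⟨N1, hN1⟩ := Filter.eventually_atTop.1 (ht2.eventually (gt_mem_nhds hδ0))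
  obtain ⟨N2, hN2⟩ := exists_nat_gt (4 / ε)
  refine ⟨max (max N1 N2) 1, fun N hN c hc => ?_⟩
  have hN1' : 1 ≤ N := (le_max_right _ _).trans hN
  have hNr : (0 : ℝ) < N := by exact_mod_cast (by omega : 0 < N)
  have a1 := hN1 N (((le_max_left _ _).trans (le_max_left _ _)).trans hN)
  have a2 : (N2 : ℝ) ≤ N := by exact_mod_cast (((le_max_right _ _).trans (le_max_left _ _)).trans hN)
  have a3 : 4 / ε < N := hN2.trans_le a2
  have a4 : 1 ≤ ε / 4 * N := by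
    rw [div_lt_iff₀ hε] at a3
    linarith
  have key := swc_avg hw2 hW hN1' hc (δ * N) (by positivity)
  -- Markov
  set A := (Finset.Ico (0 : ℤ) N).filter fun y => c + 2 * W * y = 0 with hA
  set B := (Finset.Ico (0 : ℤ) N).filter fun y => θ < Et w (c + 2 * W * y) with hB
  have hAB : ((Finset.Ico (0 : ℤ) N).filter fun y => c + 2 * W * y = 0 ∨
      θ < Et w (c + 2 * W * y)) = A ∪ B := Finset.filter_or _ _ _
  rw [hAB]
  have hA1 : A.card ≤ 1 := by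
    rw [Finset.card_le_one]
    intro y hy y' hy'
    rw [hA, Finset.mem_filter] at hy hy'
    have h1 : 2 * (W : ℤ) * (y - y') = 0 := by linarith [hy.2, hy'.2]
    have h2 : (2 * (W : ℤ)) ≠ 0 := by positivity
    have h3 := (mul_eq_zero.1 h1).resolve_left h2
    linarith
  have hB1 : θ * B.card ≤ ∑ y ∈ Finset.Ico (0 : ℤ) N, Et w (c + 2 * W * y) := by
    calc θ * B.card = ∑ y ∈ B, θ := by rw [Finset.sum_const, nsmul_eq_mul, mul_comm]
      _ ≤ ∑ y ∈ B, Et w (c + 2 * W * y) := by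
          apply Finset.sum_le_sum
          intro y hy
          rw [hB, Finset.mem_filter] at hy
          exact hy.2.le
      _ ≤ _ := by
          apply Finset.sum_le_sum_of_subset_of_nonneg (Finset.filter_subset _ _)
          intro y _ _
          exact swc_et_nonneg _ _
  have e1 : (w : ℝ) ^ (-(9 / 10 : ℝ)) = θ * (w : ℝ) ^ (-(13 / 20 : ℝ)) := by
    rw [hθ, ← Real.rpow_add hwr]
    norm_num
  have b1 : 10 * (W : ℝ) * N * (δ * N) ^ (-(9 / 10 : ℝ)) ≤ δ * N := by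
    have : 10 * (W : ℝ) * N * (δ * N) ^ (-(9 / 10 : ℝ)) =
        (10 * (W : ℝ) * (δ * N) ^ (-(9 / 10 : ℝ))) * N := by ring
    rw [this]
    exact mul_le_mul_of_nonneg_right a1.le hNr.le
  have b2 : θ * B.card ≤ θ * (10 / 9 * N * (w : ℝ) ^ (-(13 / 20 : ℝ)) + ε / 4 * N) := by
    refine hB1.trans (key.trans ?_)
    rw [e1]
    have : δ * N + δ * N = θ * (ε / 4 * N) := by rw [hδ]; ring
    nlinarith
  have b3 : (B.card : ℝ) ≤ 10 / 9 * N * (w : ℝ) ^ (-(13 / 20 : ℝ)) + ε / 4 * N :=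
    le_of_mul_le_mul_left b2 hθ0
  have b4 : 10 / 9 * (N : ℝ) * (w : ℝ) ^ (-(13 / 20 : ℝ)) ≤ 10 / 9 * N * (ε / 4) :=
    mul_le_mul_of_nonneg_left hw3.le (by positivity)
  have c1 : ((A ∪ B).card : ℝ) ≤ A.card + B.card := by exact_mod_cast Finset.card_union_le _ _
  have c2 : (A.card : ℝ) ≤ 1 := by exact_mod_cast hA1
  have c3 : 0 ≤ ε * N := by positivity
  linarith

/-- `SW(d) ≤ exp(2 ∑ 1/p)` -/
theorem swc_SW_le {w : ℕ} (hw : 2 ≤ w) (d : ℤ) : SW w d ≤ Real.exp (2 * Et w d) := by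
  unfold SW Et
  rw [Finset.mul_sum, Real.exp_sum]
  apply Finset.prod_le_prod
  · intro p hp
    have h1 : 1 < p := (Nat.prime_of_mem_primeFactors (mem_filter.1 hp).1).one_lt
    have h2 : (1 : ℝ) < p := by exact_mod_cast h1
    rw [inv_nonneg, sub_nonneg, div_le_one (by linarith)]
    exact h2.le
  · intro p hp
    have h1 : w < p := (mem_filter.1 hp).2
    have h2 : (2 : ℝ) < p := by exact_mod_cast (by omega : 2 < p)
    have h3 : 1 / (p : ℝ) ≤ (p : ℝ) ^ (-(9 / 10 : ℝ)) := by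
      rw [one_div, ← Real.rpow_neg_one]
      exact Real.rpow_le_rpow_of_exponent_le (by linarith) (by norm_num)
    set x : ℝ := 1 / (p : ℝ) with hx
    have hx0 : 0 < x := by rw [hx]; positivity
    have hx1 : x < 1 / 2 := by
      rw [hx]
      exact one_div_lt_one_div_of_lt (by norm_num) h2
    calc (1 - x)⁻¹ ≤ 1 + 2 * x := by
          rw [inv_le_iff_one_le_mul₀ (by linarith)]
          nlinarith
      _ ≤ Real.exp (2 * x) := by
          have := Real.add_one_le_exp (2 * x)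
          linarith
      _ ≤ Real.exp (2 * (p : ℝ) ^ (-(9 / 10 : ℝ))) := Real.exp_le_exp.2 (by linarith)

open Classical in
/-- Chunk SWC. `log SW(d) ≤ ∑_{p ∣ d, p > w} 2 / p`, and
`∑_{y < N} ∑_{p ∣ c + 2 W y, p > w} 2 / p ≤ ∑_{w < p ≤ 20 W N} (2 / p) (N / p + 1) ≤ 3 N / w` for
large `N` (for `p ∤ 2 W` the congruence has one solution mod `p`); Markov. -/
theorem swc (ε : ℝ) (hε : 0 < ε) : ∃ w0 : ℕ, ∀ w W : ℕ, w0 ≤ w → IsW w W → ∃ N0 : ℕ,
    ∀ N : ℕ, N0 ≤ N → ∀ c : ℤ, |c| ≤ 8 * W →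
    (((Finset.Ico (0 : ℤ) N).filter fun y => c + 2 * W * y = 0 ∨ 2 < SW w (c + 2 * W * y)).card : ℝ) ≤
      ε * N := by
  obtain ⟨w0, hw0⟩ := etc_few ε hε
  refine ⟨max w0 81, fun w W hw hW => ?_⟩
  obtain ⟨N0, hN0⟩ := hw0 w W ((le_max_left _ _).trans hw) hW
  refine ⟨N0, fun N hN c hc => ?_⟩
  refine le_trans ?_ (hN0 N hN c hc)
  have hw81 : 81 ≤ w := (le_max_right _ _).trans hw
  have hsub : ((Finset.Ico (0 : ℤ) N).filter fun y => c + 2 * W * y = 0 ∨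
      2 < SW w (c + 2 * W * y)) ⊆ (Finset.Ico (0 : ℤ) N).filter fun y => c + 2 * W * y = 0 ∨
      (w : ℝ) ^ (-(1 / 4 : ℝ)) < Et w (c + 2 * W * y) := by
    intro y hy
    rw [Finset.mem_filter] at hy ⊢
    refine ⟨hy.1, ?_⟩
    rcases hy.2 with h | h
    · exact Or.inl h
    · right
      have h1 := swc_SW_le (by omega : 2 ≤ w) (c + 2 * W * y)
      have h2 : (2 : ℝ) < Real.exp (2 * Et w (c + 2 * W * y)) := h.trans_le h1
      have h3 : Real.log 2 < 2 * Et w (c + 2 * W * y) := by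
        rwa [Real.log_lt_iff_lt_exp (by norm_num)]
      have h4 : (0.69 : ℝ) < Real.log 2 := by
        have := Real.log_two_gt_d9
        linarith
      have h5 : (w : ℝ) ^ (-(1 / 4 : ℝ)) ≤ 1 / 3 := by
        have h6 : (81 : ℝ) ≤ w := by exact_mod_cast hw81
        calc (w : ℝ) ^ (-(1 / 4 : ℝ)) ≤ (81 : ℝ) ^ (-(1 / 4 : ℝ)) :=
              Real.rpow_le_rpow_of_nonpos (by norm_num) h6 (by norm_num)
          _ = 1 / 3 := by
              have : (81 : ℝ) = 3 ^ (4 : ℝ) := by norm_num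
              rw [this, ← Real.rpow_mul (by norm_num)]
              norm_num
      linarith
  exact_mod_cast Finset.card_le_card hsub

end Pool.Agent.Lib.H18GB
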