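import Pool.Agent.Lib.H18GB2.Core2
import Pool.Agent.Lib.H18GB2.SWC

/-!
# Project GB2: ADM (admissible weights)
-/

namespace Pool.Agent.Lib.H18GB

open Finset Pool.Agent.Lib.Sieve

/-- admissible weights: bounded; dominated by the primes `2 W x + b`; by the pairs of primes
`b + W x`, `b' - W x` (normalised); by the triples of primes `b + W x`, `b' - W x`, `2 W x + b''` with
almost trivial arithmetic factors -/
def Adm (w W N : ℕ) (F : ℤ → ℝ) : Prop :=
  (∀ x, 0 ≤ F x) ∧
  ((∀ x, F x ≤ 1) ∨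
  (∃ b : ℤ, |b| ≤ 4 * W ∧ ∀ x, F x ≤ lamv W (2 * W * x + b)) ∨
  (∃ b b' : ℤ, |b| ≤ 4 * W * N ∧ |b'| ≤ 4 * W * N ∧ b + b' ≠ 0 ∧
    ∀ x, F x ≤ lamv W (b + W * x) * lamv W (b' - W * x) / SW w (b + b')) ∨
  (∃ b b' b'' : ℤ, |b| ≤ 4 * W * N ∧ |b'| ≤ 4 * W * N ∧ |b''| ≤ 4 * W ∧ b + b' ≠ 0 ∧
    b'' - 2 * b ≠ 0 ∧ b'' + 2 * b' ≠ 0 ∧ SW w (b + b') ≤ 2 ∧
    Et w (b'' - 2 * b) ≤ (w : ℝ) ^ (-(1 / 4 : ℝ)) ∧ Et w (b'' + 2 * b') ≤ (w : ℝ) ^ (-(1 / 4 : ℝ)) ∧
    ∀ x, F x ≤ lamv W (b + W * x) * lamv W (b' - W * x) * lamv W (2 * W * x + b'')))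

/-- `F` is dominated by `K` times a weight of the given shape, except on the set `B` -/
def DomBy (ι υ : Type) [Fintype ι] [Fintype υ] (S : Finset ℕ) (w W N : ℕ) (K : ℝ) (B : Finset ℤ)
    (F : ℤ → ℝ) : Prop :=
  ∃ g : GW ι υ, g.ok S W ((w : ℝ) ^ (-(1 / 4 : ℝ))) ∧
    ∀ x ∈ Finset.Ico (0 : ℤ) N, x ∉ B → F x ≤ K * g.val S W x

theorem adm_rho_even (S : Finset ℕ) (v : ℤ) : rho S (-v) = rho S v := rc_rho_neg S v

theorem adm_prod1 (L a : ℝ) (hL : 0 ≤ L) (h1 : a ≤ L) : a ≤ (1 + L) ^ 3 := by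
  nlinarith [sq_nonneg L, mul_nonneg hL (sq_nonneg L), mul_nonneg hL hL]

theorem adm_ers {w W z : ℕ} (hW : IsW w W) {d e : ℤ} (hd : d ≠ 0)
    (he : e = W * d ∨ e = -(W * d)) {η : ℝ} (h : Et w d ≤ η) :
    Ers (9 / 10) (sprimes w z) e ≤ η := by
  have hS := pset_sprimes w z
  have h1 : Ers (9 / 10) (sprimes w z) e = Ers (9 / 10) (sprimes w z) d := by
    rcases he with rfl | rfl
    · exact ers_mul hS.prime _ _ _ (hW.not_dvd hS)
    · have : -((W : ℤ) * d) = (-(W : ℤ)) * d := by ring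
      rw [this]
      exact ers_mul hS.prime _ _ _ (unit_neg (hW.not_dvd hS))
  rw [h1]
  exact (ers_le_et hd).trans h

/-- Chunk ADM1. `majo` and `SGp_le_SW`, `ers_le_et` (`rho` is even; a unit `W` in a discriminant does
not matter: `ers_mul`); `B` is the set of the `x` for which one of the numbers is `≤ rt s N` in absolute
value (`card_bad`). -/
theorem adm_dom : ∃ K : ℝ, 1 ≤ K ∧ ∀ s : ℕ, 2 ≤ s → ∃ w0 : ℕ, ∀ w W : ℕ, w0 ≤ w → IsW w W →
    ∃ N0 : ℕ, ∀ N : ℕ, N0 ≤ N → ∀ F : ℤ → ℝ, Adm w W N F →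
    (∀ x ∈ Finset.Ico (0 : ℤ) N, F x ≤ (1 + LL W N) ^ 3) ∧
    ∃ B : Finset ℤ, B.card ≤ 6 * rt s N + 3 ∧
    (DomBy Empty Empty (sprimes w (rt s N)) w W N (K * s ^ 3) B F ∨
      DomBy Unit Empty (sprimes w (rt s N)) w W N (K * s ^ 3) B F ∨
      DomBy Empty Unit (sprimes w (rt s N)) w W N (K * s ^ 3) B F ∨
      DomBy Unit Unit (sprimes w (rt s N)) w W N (K * s ^ 3) B F) := by
  obtain ⟨C, hC, hmaj⟩ := majo
  refine ⟨2 * C ^ 3, by nlinarith [pow_le_pow_left₀ (by norm_num) hC 3], fun s hs => ⟨2, fun w W hw hW => ?_⟩⟩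
  obtain ⟨N1, hN1⟩ := hmaj s (by omega) w W hW
  refine ⟨max N1 8, fun N hN F hF => ?_⟩
  have hN8 : 8 ≤ N := le_trans (le_max_right _ _) hN
  have hNp : 0 < N := by omega
  have hW0 : 0 < W := hW.1
  have hm := hN1 N (le_trans (le_max_left _ _) hN)
  set z := rt s N with hz
  set S := sprimes w z with hSd
  have hS : PSet w z S := pset_sprimes w z
  have hs1 : (1 : ℝ) ≤ s := by exact_mod_cast (by omega : 1 ≤ s)
  have hCs : 1 ≤ C * s := by nlinarith
  have hLL := LL_nonneg (W := W) (N := N) hW0 hNp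
  have hWZ : (0 : ℤ) < W := by exact_mod_cast hW0
  have hNZ : (8 : ℤ) ≤ N := by exact_mod_cast hN8
  -- bounds of the forms
  have hb1 : ∀ x ∈ Finset.Ico (0 : ℤ) N, ∀ b : ℤ, |b| ≤ 4 * W → |2 * W * x + b| ≤ 5 * W * N := by
    intro x hx b hb
    rw [Finset.mem_Ico] at hx
    rw [abs_le] at hb ⊢
    constructor <;> nlinarith
  have hb2 : ∀ x ∈ Finset.Ico (0 : ℤ) N, ∀ b : ℤ, |b| ≤ 4 * W * N → |b + W * x| ≤ 5 * W * N := by
    intro x hx b hb
    rw [Finset.mem_Ico] at hx
    rw [abs_le] at hb ⊢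
    constructor <;> nlinarith
  have hb3 : ∀ x ∈ Finset.Ico (0 : ℤ) N, ∀ b : ℤ, |b| ≤ 4 * W * N → |b - W * x| ≤ 5 * W * N := by
    intro x hx b hb
    rw [Finset.mem_Ico] at hx
    rw [abs_le] at hb ⊢
    constructor <;> nlinarith
  have hbadmem : ∀ (b c x : ℤ), x ∈ Finset.Ico (0 : ℤ) N → x ∉ bad N b c z → (z : ℤ) < |b + c * x| := by
    intro b c x hx h
    rw [bad, Finset.mem_filter, not_and] at h
    exact not_le.mp (h hx)
  have hr0 : ∀ v, 0 ≤ rho S v := rho_nonneg hS.prime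
  rcases hF with ⟨hF0, hF | ⟨b, hb, hF⟩ | ⟨b, b', hb, hb', hbb, hF⟩ |
    ⟨b, b', b'', hb, hb', hb'', hbb, hn1, hn2, hsw, he1, he2, hF⟩⟩
  · refine ⟨fun x _ => (hF x).trans (one_le_pow₀ (by linarith)), ∅, by simp, Or.inl ?_⟩
    refine ⟨⟨fun _ => 1, fun _ => 0⟩, ⟨fun _ => by norm_num, fun i => ?_⟩, fun x _ _ => ?_⟩
    · rcases i with i | i
      · exact i.elim
      · exact i.1.elim
    · have : (⟨fun _ => 1, fun _ => 0⟩ : GW Empty Empty).val S W x = 1 := by
        simp [GW.val]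
      rw [this, mul_one]
      refine (hF x).trans ?_
      have : 1 ≤ C ^ 3 := one_le_pow₀ hC
      have h3 : 1 ≤ (s : ℝ) ^ 3 := one_le_pow₀ hs1
      nlinarith
  · refine ⟨fun x hx => ?_, bad N b (2 * W) z, (card_bad (by positivity) z).trans (by omega),
      Or.inr (Or.inl ?_)⟩
    · refine (hF x).trans (adm_prod1 _ _ hLL (lamv_le hW0 hNp (hb1 x hx b hb)))
    refine ⟨⟨fun _ => 2, fun _ => b⟩, ⟨fun _ => by norm_num, fun i j hij => ?_⟩, fun x hx hxB => ?_⟩
    · rcases i with i | i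
      · rcases j with j | j
        · exact absurd (by rw [Subsingleton.elim i j]) hij.1
        · exact j.1.elim
      · exact i.1.elim
    · have h1 := hbadmem _ _ _ hx hxB
      have h2 := hm (2 * W * x + b) (hb1 x hx b hb) (by rw [add_comm]; exact h1)
      have h3 : (⟨fun _ => 2, fun _ => b⟩ : GW Unit Empty).val S W x = rho S (2 * W * x + b) := by
        simp [GW.val]
      rw [h3]
      refine (hF x).trans (h2.trans (mul_le_mul_of_nonneg_right ?_ (hr0 _)))
      have h5 : C ≤ C ^ 3 := by nlinarith [sq_nonneg (C - 1)]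
      have h6 : (s : ℝ) ≤ (s : ℝ) ^ 3 := by nlinarith [sq_nonneg ((s : ℝ) - 1)]
      calc C * s ≤ C ^ 3 * (s : ℝ) ^ 3 := by gcongr
        _ ≤ 2 * C ^ 3 * (s : ℝ) ^ 3 := by nlinarith [mul_nonneg (pow_nonneg (by linarith : 0 ≤ C) 3) (pow_nonneg (by linarith : (0 : ℝ) ≤ s) 3)]
  · have hsgp := SGp_le_SW (z := z) hW (by omega : 2 ≤ w) hbb
    have hSW1 : 1 ≤ SW w (b + b') := rcn_one_le_SW hw _
    refine ⟨fun x hx => ?_, bad N b W z ∪ bad N b' (-W) z, ?_, Or.inr (Or.inr (Or.inl ?_))⟩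
    · refine (hF x).trans ?_
      have h1 := lamv_le hW0 hNp (hb2 x hx b hb)
      have h2 := lamv_le hW0 hNp (hb3 x hx b' hb')
      have h3 := lamv_nonneg W (b + W * x)
      have h4 := lamv_nonneg W (b' - W * x)
      have h5 : lamv W (b + W * x) * lamv W (b' - W * x) ≤ LL W N * LL W N := by gcongr
      refine (div_le_self (by positivity) hSW1).trans (h5.trans ?_)
      nlinarith [mul_nonneg hLL hLL, mul_nonneg hLL (mul_nonneg hLL hLL)]
    · refine (Finset.card_union_le _ _).trans ?_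
      have h1 := card_bad (N := N) (b := b) (c := W) (by positivity) z
      have h2 := card_bad (N := N) (b := b') (c := -W) (by
        have : (W : ℤ) ≠ 0 := by positivity
        exact neg_ne_zero.mpr this) z
      omega
    refine ⟨⟨fun i => match i with
        | .inl i => i.elim
        | .inr (_, false) => 1
        | .inr (_, true) => -1, fun i => match i with
        | .inl i => i.elim
        | .inr (_, false) => b
        | .inr (_, true) => b'⟩, ⟨fun i => ?_, fun i j hij => ?_⟩, fun x hx hxB => ?_⟩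
    · rcases i with i | ⟨i, a⟩
      · exact i.elim
      · cases a <;> norm_num
    · rcases i with i | ⟨i, a⟩
      · exact i.elim
      · rcases j with j | ⟨j, a'⟩
        · exact j.elim
        · exact absurd ⟨(), a, a', rfl, rfl⟩ hij.2
    · rw [Finset.mem_union, not_or] at hxB
      have h1 := hbadmem _ _ _ hx hxB.1
      have h2 := hbadmem _ _ _ hx hxB.2
      have m1 := hm (b + W * x) (hb2 x hx b hb) h1
      have m2 := hm (b' - W * x) (hb3 x hx b' hb') (by
        have : b' + -(W : ℤ) * x = b' - W * x := by ring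
        rw [← this]; exact h2)
      simp only [GW.val, Finset.univ_unique, Finset.univ_eq_empty, Finset.prod_empty, one_mul,
        Finset.prod_singleton]
      have e1 : (W : ℤ) * x + b = b + W * x := by ring
      have e2 : (-1 : ℤ) * W * x + b' = b' - W * x := by ring
      have e3 : (W : ℤ) * b' - -1 * W * b = W * (b + b') := by ring
      rw [e1, e2, e3]
      refine (hF x).trans ?_
      have h3 := lamv_nonneg W (b + W * x)
      have h4 := lamv_nonneg W (b' - W * x)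
      have r1 := hr0 (b + W * x)
      have r2 := hr0 (b' - W * x)
      have hC0 : 0 ≤ C := by linarith
      have h5 : lamv W (b + W * x) * lamv W (b' - W * x) ≤
          (C * s * rho S (b + W * x)) * (C * s * rho S (b' - W * x)) := by gcongr
      have h6 : lamv W (b + W * x) * lamv W (b' - W * x) / SW w (b + b') ≤
          (C * s * rho S (b + W * x)) * (C * s * rho S (b' - W * x)) /
            SGp S (W * (b + b')) := by
        apply div_le_div₀ (by have := hr0 (b + W * x); have := hr0 (b' - W * x); positivity) h5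
          hsgp.1 hsgp.2
      refine h6.trans ?_
      have h7 : (C * s * rho S (b + W * x)) * (C * s * rho S (b' - W * x)) /
            SGp S (W * (b + b')) = (C * s) ^ 2 * (rho S (b + W * x) * rho S (b' - W * x) /
            SGp S (W * (b + b'))) := by ring
      rw [h7]
      apply mul_le_mul_of_nonneg_right _ (div_nonneg (mul_nonneg (hr0 _) (hr0 _)) hsgp.1.le)
      calc (C * s) ^ 2 ≤ (C * s) ^ 3 := pow_le_pow_right₀ hCs (by norm_num)
        _ ≤ 2 * C ^ 3 * (s : ℝ) ^ 3 := by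
          rw [mul_pow]
          nlinarith [mul_nonneg (pow_nonneg (by linarith : 0 ≤ C) 3) (pow_nonneg (by linarith : (0 : ℝ) ≤ s) 3)]
  · have hsgp := SGp_le_SW (z := z) hW (by omega : 2 ≤ w) hbb
    refine ⟨fun x hx => ?_, bad N b W z ∪ bad N b' (-W) z ∪ bad N b'' (2 * W) z, ?_,
      Or.inr (Or.inr (Or.inr ?_))⟩
    · refine (hF x).trans ?_
      have h1 := lamv_le hW0 hNp (hb2 x hx b hb)
      have h2 := lamv_le hW0 hNp (hb3 x hx b' hb')
      have h2' := lamv_le hW0 hNp (hb1 x hx b'' hb'')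
      have h3 := lamv_nonneg W (b + W * x)
      have h4 := lamv_nonneg W (b' - W * x)
      have h4' := lamv_nonneg W (2 * W * x + b'')
      have h5 : lamv W (b + W * x) * lamv W (b' - W * x) * lamv W (2 * W * x + b'') ≤
        LL W N * LL W N * LL W N := by gcongr
      refine h5.trans ?_
      nlinarith [mul_nonneg hLL hLL, mul_nonneg hLL (mul_nonneg hLL hLL)]
    · refine (Finset.card_union_le _ _).trans ?_
      have h0 := Finset.card_union_le (bad N b W z) (bad N b' (-W) z)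
      have h1 := card_bad (N := N) (b := b) (c := W) (by positivity) z
      have h2 := card_bad (N := N) (b := b') (c := -W) (by
        have : (W : ℤ) ≠ 0 := by positivity
        exact neg_ne_zero.mpr this) z
      have h3 := card_bad (N := N) (b := b'') (c := 2 * W) (by positivity) z
      omega
    refine ⟨⟨fun i => match i with
        | .inl _ => 2
        | .inr (_, false) => 1
        | .inr (_, true) => -1, fun i => match i with
        | .inl _ => b''
        | .inr (_, false) => b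
        | .inr (_, true) => b'⟩, ⟨fun i => ?_, fun i j hij => ?_⟩, fun x hx hxB => ?_⟩
    · rcases i with i | ⟨i, a⟩
      · norm_num
      · cases a <;> norm_num
    · rcases i with i | ⟨i, a⟩
      · rcases j with j | ⟨j, a'⟩
        · exact absurd (by rw [Subsingleton.elim i j]) hij.1
        · cases a'
          · exact adm_ers hW hn1 (Or.inr (by ring)) he1
          · exact adm_ers hW hn2 (Or.inl (by ring)) he2
      · rcases j with j | ⟨j, a'⟩
        · cases a
          · exact adm_ers hW hn1 (Or.inl (by ring)) he1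
          · exact adm_ers hW hn2 (Or.inr (by ring)) he2
        · exact absurd ⟨(), a, a', rfl, rfl⟩ hij.2
    · rw [Finset.mem_union, Finset.mem_union, not_or, not_or] at hxB
      have h1 := hbadmem _ _ _ hx hxB.1.1
      have h2 := hbadmem _ _ _ hx hxB.1.2
      have h2' := hbadmem _ _ _ hx hxB.2
      have m1 := hm (b + W * x) (hb2 x hx b hb) h1
      have m2 := hm (b' - W * x) (hb3 x hx b' hb') (by
        have : b' + -(W : ℤ) * x = b' - W * x := by ring
        rw [← this]; exact h2)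
      have m3 := hm (2 * W * x + b'') (hb1 x hx b'' hb'') (by rw [add_comm]; exact h2')
      simp only [GW.val, Finset.univ_unique, Finset.prod_singleton]
      have e1 : (1 : ℤ) * W * x + b = b + W * x := by ring
      have e2 : (-1 : ℤ) * W * x + b' = b' - W * x := by ring
      have e3 : (1 : ℤ) * W * b' - -1 * W * b = W * (b + b') := by ring
      rw [e1, e2, e3]
      refine (hF x).trans ?_
      have h3 := lamv_nonneg W (b + W * x)
      have h4 := lamv_nonneg W (b' - W * x)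
      have h4' := lamv_nonneg W (2 * W * x + b'')
      have r1 := hr0 (b + W * x)
      have r2 := hr0 (b' - W * x)
      have r3 := hr0 (2 * W * x + b'')
      have hC0 : 0 ≤ C := by linarith
      have h5 : lamv W (b + W * x) * lamv W (b' - W * x) * lamv W (2 * W * x + b'') ≤
          (C * s * rho S (b + W * x)) * (C * s * rho S (b' - W * x)) *
            (C * s * rho S (2 * W * x + b'')) := by gcongr
      refine h5.trans ?_
      have h8 : 1 ≤ 2 / SGp S (W * (b + b')) := by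
        rw [one_le_div hsgp.1]
        exact hsgp.2.trans hsw
      calc (C * s * rho S (b + W * x)) * (C * s * rho S (b' - W * x)) *
            (C * s * rho S (2 * W * x + b''))
          = (C * s) ^ 3 * (rho S (2 * W * x + b'') * (rho S (b + W * x) * rho S (b' - W * x))) * 1 := by
            ring
        _ ≤ (C * s) ^ 3 * (rho S (2 * W * x + b'') * (rho S (b + W * x) * rho S (b' - W * x))) *
              (2 / SGp S (W * (b + b'))) := by gcongr
        _ = _ := by ring

/-- powers of the logarithm are negligible -/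
theorem adm_small (k : ℕ) (W : ℕ) (hW : 0 < W) (ε : ℝ) (hε : 0 < ε) : ∃ N0 : ℕ, ∀ N : ℕ, N0 ≤ N →
    ∀ s : ℕ, 2 ≤ s → (6 * rt s N + 3) * (1 + LL W N) ^ k ≤ ε * N := by
  have h1 : ∀ᶠ N : ℕ in Filter.atTop,
      (Real.log N) ^ (k : ℝ) ≤ ε / (9 * 3 ^ k) * (N : ℝ) ^ (1 / 2 : ℝ) := by
    have h := (isLittleO_log_rpow_rpow_atTop (s := 1 / 2) (k : ℝ) (by norm_num)).bound
      (show 0 < ε / (9 * 3 ^ k) by positivity)
    have h' := tendsto_natCast_atTop_atTop.eventually h
    filter_upwards [h', Filter.eventually_ge_atTop 1] with N hN hN1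
    rw [Real.norm_of_nonneg (by positivity), Real.norm_of_nonneg (by positivity)] at hN
    exact hN
  have h2 : ∀ᶠ N : ℕ in Filter.atTop, (1 : ℝ) ≤ Real.log N :=
    (Real.tendsto_log_atTop.comp tendsto_natCast_atTop_atTop).eventually_ge_atTop 1
  have h3 : ∀ᶠ N : ℕ in Filter.atTop, 5 * W ≤ N := Filter.eventually_ge_atTop _
  have h4 : ∀ᶠ N : ℕ in Filter.atTop, 1 ≤ N := Filter.eventually_ge_atTop _
  obtain ⟨N0, hN0⟩ := Filter.eventually_atTop.mp (h1.and (h2.and (h3.and h4)))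
  refine ⟨N0, fun N hN s hs => ?_⟩
  obtain ⟨a1, a2, a3, a4⟩ := hN0 N hN
  have hNr : (1 : ℝ) ≤ N := by exact_mod_cast a4
  have hWr : (1 : ℝ) ≤ W := by exact_mod_cast hW
  have hL : LL W N ≤ 2 * Real.log N := by
    unfold LL
    rw [Real.log_mul (by positivity) (by positivity)]
    have : Real.log (5 * W) ≤ Real.log N := Real.log_le_log (by positivity) (by exact_mod_cast a3)
    linarith
  have hL0 := LL_nonneg hW a4
  have hsq : 1 ≤ Real.sqrt N := Real.one_le_sqrt.mpr hNr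
  have hss : Real.sqrt N * Real.sqrt N = N := Real.mul_self_sqrt (by linarith)
  rw [Real.rpow_natCast, ← Real.sqrt_eq_rpow] at a1
  have b0 := rt_sq_le hs N
  have b1 : 1 + LL W N ≤ 3 * Real.log N := by linarith
  calc (6 * rt s N + 3) * (1 + LL W N) ^ k
      ≤ (9 * Real.sqrt N) * (3 * Real.log N) ^ k := by
        apply mul_le_mul (by linarith) (pow_le_pow_left₀ (by linarith) b1 k) (by positivity)
          (by positivity)
    _ = (9 * 3 ^ k * Real.sqrt N) * (Real.log N) ^ k := by rw [mul_pow]; ring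
    _ ≤ (9 * 3 ^ k * Real.sqrt N) * (ε / (9 * 3 ^ k) * Real.sqrt N) :=
        mul_le_mul_of_nonneg_left a1 (by positivity)
    _ = ε * (Real.sqrt N * Real.sqrt N) := by field_simp
    _ = ε * N := by rw [hss]

/-- the sum of a weight -/
theorem adm_gsum (ι υ : Type) [Fintype ι] [Fintype υ] : ∃ C : ℕ, 2 ≤ C ∧
    ∀ (A w z W N : ℕ) (S : Finset ℕ), Stp C A w z W N S →
    ∀ (g : GW ι υ) (η : ℝ), 0 ≤ η → η ≤ 1 → g.ok S W η →
    ∑ x ∈ Finset.Ico (0 : ℤ) N, g.val S W x ≤ C * N := by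
  classical
  obtain ⟨C0, hC0, h0⟩ := corr_sub ι υ
  set n : ℕ := Fintype.card (ι ⊕ (υ × Bool)) with hn
  refine ⟨1 + 2 * C0 + C0 * n ^ 2 + 2 * C0 + Fintype.card ι + 2 * Fintype.card υ + 2, by omega, ?_⟩
  intro A w z W N S hst g η hη hη1 hg
  set C : ℕ := 1 + 2 * C0 + C0 * n ^ 2 + 2 * C0 + Fintype.card ι + 2 * Fintype.card υ + 2 with hC
  have hCC0 : C0 ≤ C := by omega
  have hz := hst.hz
  have hS := hst.hS
  have hw1 : 1 ≤ w := hst.w_pos (by omega)
  have hα : ∀ p ∈ S, ∀ i, ¬ (p : ℤ) ∣ g.e i * W := by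
    intro p hp i
    exact unit_mul hS (hst.unit_small (by omega) (hg.1 i).1 (hg.1 i).2) hst.unitW p hp
  have key := h0 A w z S (hCC0.trans hst.hA) (hCC0.trans hst.hw) hz hS (fun i => g.e i * W)
    (fun i => g.b i) hα Finset.univ Finset.univ 0 N (by positivity)
  have e1 : ∀ x : ℤ, g.val S W x =
      (∏ i ∈ (Finset.univ : Finset ι), rho S (g.e (.inl i) * W * x + g.b (.inl i))) *
        (∏ j ∈ (Finset.univ : Finset υ), rho S (g.e (.inr (j, false)) * W * x + g.b (.inr (j, false))) *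
          rho S (g.e (.inr (j, true)) * W * x + g.b (.inr (j, true))) /
          SGp S (disc (fun i => g.e i * W) (fun i => g.b i) (.inr (j, false)) (.inr (j, true)))) := by
    intro x
    rfl
  simp only [← e1] at key
  have h1 := (abs_le.mp key).2
  have her : er C0 A w ≤ 2 := rc_er_le_two hw1
  have hE : (∑ i, ∑ j, if crs i j then Ers (9 / 10) S (disc (fun i => g.e i * W)
      (fun i => g.b i) i j) else 0) ≤ (n : ℝ) ^ 2 := by
    calc (∑ i, ∑ j, if crs i j then Ers (9 / 10) S (disc (fun i => g.e i * W)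
      (fun i => g.b i) i j) else 0) ≤ ∑ i : ι ⊕ (υ × Bool), ∑ j : ι ⊕ (υ × Bool), (1 : ℝ) := by
          refine Finset.sum_le_sum fun i _ => Finset.sum_le_sum fun j _ => ?_
          split_ifs with h
          · exact (hg.2 i j h).trans hη1
          · norm_num
      _ = (n : ℝ) ^ 2 := by
          simp [hn]
          ring
  have hzp : (z : ℝ) ^ (A + Fintype.card ι + 2 * Fintype.card υ) ≤ 2 * N := by
    have h2 := hst.zpow (D := 1) le_rfl (k := Fintype.card ι + 2 * Fintype.card υ) (by omega)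
    rw [← add_assoc] at h2
    refine h2.trans ?_
    gcongr
    exact rc_er_le_two hw1
  have hN0 : (0 : ℝ) ≤ N := Nat.cast_nonneg _
  have hC0' : (0 : ℝ) ≤ C0 := Nat.cast_nonneg _
  push_cast at h1
  have h3 : ∑ x ∈ Finset.Ico (0 : ℤ) N, g.val S W x ≤ N + (N * (C0 * 2 + C0 * (n : ℝ) ^ 2) + C0 * (2 * N)) := by
    calc ∑ x ∈ Finset.Ico (0 : ℤ) N, g.val S W x ≤ N + ((N - 0) * (C0 * er C0 A w +
        C0 * ∑ i, ∑ j, if crs i j then Ers (9 / 10) S (disc (fun i => g.e i * W)
      (fun i => g.b i) i j) else 0)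
        + C0 * (z : ℝ) ^ (A + Fintype.card ι + 2 * Fintype.card υ)) := by linarith
      _ ≤ _ := by
        rw [sub_zero]
        gcongr
  refine h3.trans ?_
  rw [hC]
  push_cast
  have : (0 : ℝ) ≤ (Fintype.card ι : ℝ) * N := by positivity
  have : (0 : ℝ) ≤ (Fintype.card υ : ℝ) * N := by positivity
  nlinarith

/-- Chunk ADM2. `adm_dom` with `s` a large absolute constant and `corr` (through `corr_sub`). -/
theorem adm_sum : ∃ C : ℝ, 1 ≤ C ∧ ∃ w0 : ℕ, ∀ w W : ℕ, w0 ≤ w → IsW w W →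
    ∃ N0 : ℕ, ∀ N : ℕ, N0 ≤ N → ∀ F : ℤ → ℝ, Adm w W N F →
    ∑ x ∈ Finset.Ico (0 : ℤ) N, F x ≤ C * N := by
  obtain ⟨K, hK, hdom⟩ := adm_dom
  obtain ⟨C1, hC1, h1⟩ := adm_gsum Empty Empty
  obtain ⟨C2, hC2, h2⟩ := adm_gsum Unit Empty
  obtain ⟨C3, hC3, h3⟩ := adm_gsum Empty Unit
  obtain ⟨C4, hC4, h4⟩ := adm_gsum Unit Unit
  set C : ℕ := C1 + C2 + C3 + C4 with hC
  set s : ℕ := C * C with hs
  have hs2 : 2 ≤ s := by nlinarith
  obtain ⟨w1, hw1⟩ := hdom s hs2
  refine ⟨K * s ^ 3 * C + 1, by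
    have : 0 ≤ K * s ^ 3 * C := by positivity
    linarith, w1 + C + 2, fun w W hw hW => ?_⟩
  obtain ⟨N1, hN1⟩ := hw1 w W (by omega) hW
  obtain ⟨N2, hN2⟩ := adm_small 3 W hW.1 1 one_pos
  obtain ⟨N3, hN3⟩ := Filter.eventually_atTop.mp
    ((rt_tendsto (by omega : 1 ≤ s)).eventually (Filter.eventually_ge_atTop 2))
  refine ⟨N1 + N2 + N3 + 1, fun N hN F hF => ?_⟩
  obtain ⟨hb, B, hB, hd⟩ := hN1 N (by omega) F hF
  have hz := hN3 N (by omega)
  have hsm := hN2 N (by omega) s hs2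
  set z := rt s N with hzd
  have hst : Stp C C w z W N (sprimes w z) :=
    ⟨le_rfl, by omega, hz, pset_sprimes w z, hW, rt_pow_le (by omega) N⟩
  have hLL := LL_nonneg (W := W) (N := N) hW.1 (by omega)
  have hF0 := hF.1
  have hη : (0 : ℝ) ≤ (w : ℝ) ^ (-(1 / 4 : ℝ)) := by positivity
  have hη1 : (w : ℝ) ^ (-(1 / 4 : ℝ)) ≤ 1 :=
    Real.rpow_le_one_of_one_le_of_nonpos (by exact_mod_cast (by omega : 1 ≤ w)) (by norm_num)
  -- a general bound
  have hgen : ∀ (G : ℤ → ℝ) (C' : ℕ), C' ≤ C → (∀ x, 0 ≤ G x) →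
      ∑ x ∈ Finset.Ico (0 : ℤ) N, G x ≤ C' * N →
      (∀ x ∈ Finset.Ico (0 : ℤ) N, x ∉ B → F x ≤ K * s ^ 3 * G x) →
      ∑ x ∈ Finset.Ico (0 : ℤ) N, F x ≤ (K * s ^ 3 * C + 1) * N := by
    intro G C' hC' hG0 hG hFG
    classical
    have h5 : ∀ x ∈ Finset.Ico (0 : ℤ) N, F x ≤ K * s ^ 3 * G x +
        (if x ∈ B then (1 + LL W N) ^ 3 else 0) := by
      intro x hx
      by_cases hxB : x ∈ B
      · rw [if_pos hxB]
        have h6 := hb x hx
        have h7 : 0 ≤ K * s ^ 3 * G x := by have := hG0 x; positivity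
        linarith
      · rw [if_neg hxB, add_zero]
        exact hFG x hx hxB
    refine (Finset.sum_le_sum h5).trans ?_
    rw [Finset.sum_add_distrib, ← Finset.mul_sum, ← Finset.sum_filter, Finset.sum_const,
      nsmul_eq_mul]
    have h8 : ((((Finset.Ico (0 : ℤ) N).filter fun x => x ∈ B).card : ℕ) : ℝ) ≤ 6 * z + 3 := by
      have : ((Finset.Ico (0 : ℤ) N).filter fun x => x ∈ B).card ≤ B.card :=
        Finset.card_le_card fun x hx => (Finset.mem_filter.mp hx).2
      exact_mod_cast this.trans hB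
    have h9 : ((((Finset.Ico (0 : ℤ) N).filter fun x => x ∈ B).card : ℕ) : ℝ) *
        (1 + LL W N) ^ 3 ≤ N := by
      refine (mul_le_mul_of_nonneg_right h8 (by positivity)).trans (hsm.trans ?_)
      rw [one_mul]
    have h10 : K * s ^ 3 * ∑ x ∈ Finset.Ico (0 : ℤ) N, G x ≤ K * s ^ 3 * (C * N) := by
      have h11 : (C' : ℝ) * N ≤ C * N := by
        have : (C' : ℝ) ≤ C := by exact_mod_cast hC'
        gcongr
      have : 0 ≤ K * (s : ℝ) ^ 3 := by positivity
      exact mul_le_mul_of_nonneg_left (hG.trans h11) this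
    linarith
  have hval : ∀ (ι υ : Type) [Fintype ι] [Fintype υ] (g : GW ι υ) (x : ℤ),
      0 ≤ g.val (sprimes w z) W x := by
    intro ι υ _ _ g x
    unfold GW.val
    have hr := rho_nonneg (pset_sprimes w z).prime
    refine mul_nonneg (Finset.prod_nonneg fun i _ => hr _) (Finset.prod_nonneg fun i _ => ?_)
    exact div_nonneg (mul_nonneg (hr _) (hr _)) (CorrAux.SGp_pos (pset_sprimes w z) (by omega) _).le
  rcases hd with ⟨g, hg, hd⟩ | ⟨g, hg, hd⟩ | ⟨g, hg, hd⟩ | ⟨g, hg, hd⟩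
  · exact hgen _ C1 (by omega) (hval _ _ g)
      (h1 C w z W N _ (hst.mono (by omega)) g _ hη hη1 hg) hd
  · exact hgen _ C2 (by omega) (hval _ _ g)
      (h2 C w z W N _ (hst.mono (by omega)) g _ hη hη1 hg) hd
  · exact hgen _ C3 (by omega) (hval _ _ g)
      (h3 C w z W N _ (hst.mono (by omega)) g _ hη hη1 hg) hd
  · exact hgen _ C4 (by omega) (hval _ _ g)
      (h4 C w z W N _ (hst.mono (by omega)) g _ hη hη1 hg) hd

end Pool.Agent.Lib.H18GB
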