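import Pool.Agent.Lib.H18GB2.SWC
import Pool.Agent.Lib.H18GB.TY

/-!
# Project GB2: TYP (typical vertices)
-/

namespace Pool.Agent.Lib.H18GB

open Finset Pool.Agent.Lib.Sieve Pool.Agent.Lib.GoldbachGraph

/-- the two kernels add up to `a - 1`, except on the diagonal where they add up to `2 (a - 1)` -/
theorem TYP_ker_sum (W : ℕ) (r1 r x y : ℤ) :
    ker W r1 r 1 x y + ker W r1 (-r) (-1) x y =
      (lamv W (r1 + W * (x + y)) * lamv W (r + W * (x - y)) - 1) +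
      (if x = y then lamv W (r1 + W * (x + y)) * lamv W (r + W * (x - y)) - 1 else 0) := by
  have h2 : lam W (-r) (-1 * (x - y)) = lamv W (r + W * (x - y)) := by
    unfold lam
    rw [← lamv_neg W (r + W * (x - y))]
    congr 1
    ring
  have h1 : lam W r1 (x + y) = lamv W (r1 + W * (x + y)) := rfl
  have h3 : lam W r (1 * (x - y)) = lamv W (r + W * (x - y)) := by
    unfold lam
    rw [one_mul]
  unfold ker
  rw [h1, h2, h3]
  rcases lt_trichotomy x y with h | h | h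
  · rw [if_neg (by omega), if_pos (by omega), if_neg (by omega)]
    ring
  · rw [if_pos (by omega), if_pos (by omega), if_pos h]
  · rw [if_pos (by omega), if_neg (by omega), if_neg (by omega)]

/-- if all `y ∈ B` have a small weighted degree, then `B` is small -/
theorem TYP_core {W N : ℕ} {r1 r : ℤ} {F : ℤ → ℝ} {E δ : ℝ} {B : Finset ℕ}
    (hF : ∀ x, 0 ≤ F x) (hB : B ⊆ Finset.Ico 1 N)
    (h1 : |∑ x ∈ Finset.Ico (0 : ℤ) N, ∑ y ∈ Finset.Ico (0 : ℤ) N,
      F x * indZ B y * ker W r1 r 1 x y| ≤ E)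
    (h2 : |∑ x ∈ Finset.Ico (0 : ℤ) N, ∑ y ∈ Finset.Ico (0 : ℤ) N,
      F x * indZ B y * ker W r1 (-r) (-1) x y| ≤ E)
    (hb : ∀ y ∈ B, 2 * ∑ x ∈ Finset.Ico (0 : ℤ) N,
      F x * (lamv W (r1 + W * (x + y)) * lamv W (r + W * (x - y))) + δ ≤
        ∑ x ∈ Finset.Ico (0 : ℤ) N, F x) : δ * B.card ≤ 2 * E := by
  have e1 := (abs_le.mp h1).1
  have e2 := (abs_le.mp h2).1
  set a : ℤ → ℤ → ℝ := fun x y => lamv W (r1 + W * (x + y)) * lamv W (r + W * (x - y)) with ha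
  have ha0 : ∀ x y, 0 ≤ a x y := fun x y => mul_nonneg (lamv_nonneg' _ _) (lamv_nonneg' _ _)
  have key : (∑ x ∈ Finset.Ico (0 : ℤ) N, ∑ y ∈ Finset.Ico (0 : ℤ) N,
      F x * indZ B y * ker W r1 r 1 x y) + (∑ x ∈ Finset.Ico (0 : ℤ) N, ∑ y ∈ Finset.Ico (0 : ℤ) N,
      F x * indZ B y * ker W r1 (-r) (-1) x y) =
      ∑ y ∈ Finset.Ico (0 : ℤ) N, indZ B y * (∑ x ∈ Finset.Ico (0 : ℤ) N,
        F x * ((a x y - 1) + (if x = y then a x y - 1 else 0))) := by
    rw [← Finset.sum_add_distrib]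
    simp_rw [← Finset.sum_add_distrib]
    rw [Finset.sum_comm]
    refine Finset.sum_congr rfl fun y _ => ?_
    rw [Finset.mul_sum]
    refine Finset.sum_congr rfl fun x _ => ?_
    rw [← mul_add, TYP_ker_sum]
    ring
  have hle : ∀ y ∈ Finset.Ico (0 : ℤ) N, indZ B y * (∑ x ∈ Finset.Ico (0 : ℤ) N,
        F x * ((a x y - 1) + (if x = y then a x y - 1 else 0))) ≤ indZ B y * (-δ) := by
    intro y hy
    by_cases h0 : indZ B y = 0
    · rw [h0]; simp
    obtain ⟨n, hn, rfl⟩ := indZ_ne h0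
    refine mul_le_mul_of_nonneg_left ?_ (indZ_nonneg _ _)
    have s1 : ∑ x ∈ Finset.Ico (0 : ℤ) N, F x * ((a x n - 1) + (if x = n then a x n - 1 else 0)) =
        ∑ x ∈ Finset.Ico (0 : ℤ) N, F x * a x n - ∑ x ∈ Finset.Ico (0 : ℤ) N, F x +
          F n * (a n n - 1) := by
      have s2 : ∑ x ∈ Finset.Ico (0 : ℤ) N, F x * (if x = n then a x n - 1 else 0) =
          F n * (a n n - 1) := by
        rw [Finset.sum_eq_single_of_mem (n : ℤ) hy]
        · rw [if_pos rfl]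
        · intro x _ hx
          rw [if_neg hx, mul_zero]
      rw [← s2, ← Finset.sum_sub_distrib, ← Finset.sum_add_distrib]
      refine Finset.sum_congr rfl fun x _ => by ring
    have s3 : F n * a n n ≤ ∑ x ∈ Finset.Ico (0 : ℤ) N, F x * a x n :=
      Finset.single_le_sum (f := fun x => F x * a x n)
        (fun x _ => mul_nonneg (hF x) (ha0 x n)) hy
    have s4 := hb n hn
    have s5 := hF n
    rw [s1]
    have s6 : F n * (a n n - 1) ≤ F n * a n n := by nlinarith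
    have s7 : ∑ x ∈ Finset.Ico (0 : ℤ) N,
      F x * (lamv W (r1 + W * (x + n)) * lamv W (r + W * (x - n))) =
      ∑ x ∈ Finset.Ico (0 : ℤ) N, F x * a x n := rfl
    rw [s7] at s4
    linarith
  have hsum := Finset.sum_le_sum hle
  rw [← key, ← Finset.sum_mul, sum_indZ hB] at hsum
  linarith

/-- counting a subset of `[1, N)` through `[0, N)` in the integers -/
theorem TYP_card {N : ℕ} {B : Finset ℕ} {P : ℤ → Prop} [DecidablePred P]
    (hB : B ⊆ Finset.Ico 1 N) (h : ∀ n ∈ B, P n) :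
    B.card ≤ ((Finset.Ico (0 : ℤ) N).filter P).card := by
  apply Finset.card_le_card_of_injOn (fun n : ℕ => (n : ℤ))
  · intro n hn
    rw [Finset.mem_coe] at hn
    have h1 := Finset.mem_Ico.mp (hB hn)
    have h2 : (0 : ℤ) ≤ (n : ℤ) := by omega
    have h3 : (n : ℤ) < (N : ℤ) := by omega
    rw [Finset.mem_coe, Finset.mem_filter, Finset.mem_Ico]
    exact ⟨⟨h2, h3⟩, h n hn⟩
  · intro a _ b _ hab
    have h4 : (a : ℤ) = (b : ℤ) := hab
    exact_mod_cast h4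

open Classical in
/-- Chunk TYP1. `rcn0` with `F = 1` on the exceptional `x` with `SW ≤ 2` (`swc`, `c = 2 x0`), `G = 1`,
`σ = ± 1`: `r1 = x0 + y0`, `r2 = ± (x0 - y0)`. -/
theorem typ1 (ε : ℝ) (hε : 0 < ε) : ∃ w0 : ℕ, ∀ w W : ℕ, w0 ≤ w → IsW w W → ∃ N0 : ℕ,
    ∀ N : ℕ, N0 ≤ N → ∀ x0 y0 : ℕ, x0 < W → y0 < W → Comp W x0 y0 →
    (((Finset.Ico 1 N).filter fun x => Dw w W N (x0 + W * x) y0 < N / 16).card : ℝ) ≤ ε * N := by
  obtain ⟨w1, hw1⟩ := rcn0 (ε / 16) (by positivity)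
  obtain ⟨w2, hw2⟩ := swc (ε / 2) (by positivity)
  refine ⟨max w1 w2, fun w W hw hW => ?_⟩
  obtain ⟨N1, hN1⟩ := hw1 w W (le_trans (le_max_left _ _) hw) hW
  obtain ⟨N2, hN2⟩ := hw2 w W (le_trans (le_max_right _ _) hw) hW
  refine ⟨max (max N1 N2) 1, fun N hN x0 y0 hx0 hy0 hc => ?_⟩
  have hNN1 : N1 ≤ N := le_trans (le_trans (le_max_left _ _) (le_max_left _ _)) hN
  have hNN2 : N2 ≤ N := le_trans (le_trans (le_max_right _ _) (le_max_left _ _)) hN
  have hNpos : 1 ≤ N := le_trans (le_max_right _ _) hN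
  have hNR : (1 : ℝ) ≤ N := by exact_mod_cast hNpos
  have hWpos : 0 < W := hW.1
  set A := (Finset.Ico 1 N).filter fun x => Dw w W N (x0 + W * x) y0 < N / 16 with hA
  set A1 := A.filter fun x : ℕ => 2 < SW w (2 * (x0 : ℤ) + 2 * W * x) with hA1
  set B := A.filter fun x : ℕ => ¬ 2 < SW w (2 * (x0 : ℤ) + 2 * W * x) with hBdef
  have hBsub : B ⊆ Finset.Ico 1 N := (Finset.filter_subset _ _).trans (Finset.filter_subset _ _)
  have hA1sub : A1 ⊆ Finset.Ico 1 N := (Finset.filter_subset _ _).trans (Finset.filter_subset _ _)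
  have hcard : A.card = A1.card + B.card := by
    rw [hA1, hBdef, Finset.card_filter_add_card_filter_not]
  -- the first part
  have c1 : (A1.card : ℝ) ≤ ε / 2 * N := by
    have h := hN2 N hNN2 (2 * x0) (by
      rw [abs_of_nonneg (by positivity)]
      have : (x0 : ℤ) < W := by exact_mod_cast hx0
      omega)
    refine le_trans ?_ h
    exact_mod_cast TYP_card hA1sub (fun n hn => Or.inr (Finset.mem_filter.mp hn).2)
  -- the second part
  have hx0' : (x0 : ℤ) < W := by exact_mod_cast hx0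
  have hy0' : (y0 : ℤ) < W := by exact_mod_cast hy0
  have hyx : Comp W (y0 : ℤ) (x0 : ℤ) := hc.swap
  have hr1 : |((y0 : ℤ) + x0)| < 2 * W := by
    rw [abs_lt]; constructor <;> omega
  have hr2 : |((y0 : ℤ) - x0)| < 2 * W := by
    rw [abs_lt]; constructor <;> omega
  have hr2' : |(-((y0 : ℤ) - x0))| < 2 * W := by rw [abs_neg]; exact hr2
  have k1 := hN1 N hNN1 ((y0 : ℤ) + x0) ((y0 : ℤ) - x0) 1 hr1 hyx.1 hr2 hyx.2 (Or.inl rfl)
    (fun _ => 1) (indZ B) (fun _ => by simp) (indZ_abs_le B)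
  have k2 := hN1 N hNN1 ((y0 : ℤ) + x0) (-((y0 : ℤ) - x0)) (-1) hr1 hyx.1 hr2' hyx.2.neg_left
    (Or.inr rfl) (fun _ => 1) (indZ B) (fun _ => by simp) (indZ_abs_le B)
  have hcore := TYP_core (δ := 3 / 4 * N) (fun _ => zero_le_one) hBsub k1 k2 (by
    intro x hx
    obtain ⟨hxA, hxS⟩ := Finset.mem_filter.mp hx
    have hD := (Finset.mem_filter.mp hxA).2
    have hS1 := one_le_SW w (2 * (x0 : ℤ) + 2 * W * x)
    have hS2 := not_lt.mp hxS
    have e1 : Dw w W N (x0 + W * x) y0 * SW w (2 * (x0 : ℤ) + 2 * W * x) =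
        ∑ y ∈ Finset.Ico (0 : ℤ) N, (1 : ℝ) * (lamv W (((y0 : ℤ) + x0) + W * (y + x)) *
          lamv W (((y0 : ℤ) - x0) + W * (y - x))) := by
      unfold Dw
      rw [sum_Ico_int, Finset.sum_mul]
      refine Finset.sum_congr rfl fun y _ => ?_
      have a1 : (2 * ((x0 + W * x : ℕ) : ℤ)) = 2 * (x0 : ℤ) + 2 * W * x := by push_cast; ring
      have a2 : (((x0 + W * x : ℕ) : ℤ) + y0 + W * y) = ((y0 : ℤ) + x0) + W * (y + x) := by
        push_cast; ring
      have a3 : lamv W (((x0 + W * x : ℕ) : ℤ) - y0 - W * y) =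
          lamv W (((y0 : ℤ) - x0) + W * (y - x)) := by
        rw [← lamv_neg W (((y0 : ℤ) - x0) + W * (y - x))]
        congr 1
        push_cast; ring
      rw [a1, a2, a3, one_mul]
      have : SW w (2 * (x0 : ℤ) + 2 * W * x) ≠ 0 := by linarith
      field_simp
    rw [← e1]
    have e2 : ∑ y ∈ Finset.Ico (0 : ℤ) N, (1 : ℝ) = N := by
      rw [Finset.sum_const, Int.card_Ico, nsmul_eq_mul]
      simp
    rw [e2]
    have e3 : Dw w W N (x0 + W * x) y0 * SW w (2 * (x0 : ℤ) + 2 * W * x) ≤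
        N / 16 * 2 := by
      have hD0 : (0 : ℝ) ≤ N / 16 := by positivity
      calc Dw w W N (x0 + W * x) y0 * SW w (2 * (x0 : ℤ) + 2 * W * x)
          ≤ N / 16 * SW w (2 * (x0 : ℤ) + 2 * W * x) :=
            mul_le_mul_of_nonneg_right hD.le (by linarith)
        _ ≤ N / 16 * 2 := mul_le_mul_of_nonneg_left hS2 hD0
    linarith)
  have c2 : (B.card : ℝ) ≤ ε / 2 * N := by
    have h1 : (B.card : ℝ) * (3 / 4 * N) ≤ (ε / 2 * N) * (3 / 4 * N) := by nlinarith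
    exact le_of_mul_le_mul_right h1 (by positivity)
  have c3 : (A.card : ℝ) = A1.card + B.card := by exact_mod_cast hcard
  rw [c3]
  linarith

/-- normalised weight of the link ends in `v0 + W v` adjacent to `X` -/
noncomputable def TM (W N v0 X : ℕ) : ℝ :=
  ∑ v ∈ Finset.range N, lamv W (X + v0 + W * v) * lamv W (X - v0 - W * v) * sg W v0 v

/-- `X` reaches directly many link ends, and has small arithmetic factors -/
def Typ2 (w W N v0 X : ℕ) : Prop :=
  (N : ℝ) / 16 ≤ TM W N v0 X ∧ SW w (2 * X) ≤ 2 ∧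
    Et w (2 * X + 3) ≤ (w : ℝ) ^ (-(1 / 4 : ℝ)) ∧ Et w (2 * X - 3) ≤ (w : ℝ) ^ (-(1 / 4 : ℝ))

open Classical in
/-- Chunk TYP2. `rcn1` with `F = sg` (variable `v`), `G = 1` on the exceptional `x`, `σ = ± 1`,
`sg_total`; `swc`, `etc_few` with `c = 2 x0, 2 x0 + 3, 2 x0 - 3`. -/
theorem typ2 (ε : ℝ) (hε : 0 < ε) : ∃ w0 : ℕ, ∀ w W : ℕ, w0 ≤ w → IsW w W → ∃ N0 : ℕ,
    ∀ N : ℕ, N0 ≤ N → ∀ x0 v0 : ℕ, x0 < W → v0 + 3 < W → IsCoprime (2 * (v0 : ℤ) + 3) W →
    Comp W x0 v0 →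
    (((Finset.Ico 1 N).filter fun x => ¬ Typ2 w W N v0 (x0 + W * x)).card : ℝ) ≤ ε * N := by
  obtain ⟨w1, hw1⟩ := rcn1 (ε / 64) (by positivity)
  obtain ⟨w2, hw2⟩ := swc (ε / 4) (by positivity)
  obtain ⟨w3, hw3⟩ := etc_few (ε / 4) (by positivity)
  obtain ⟨w4, hw4⟩ := sg_total
  refine ⟨max (max w1 w2) (max w3 w4), fun w W hw hW => ?_⟩
  obtain ⟨N1, hN1⟩ := hw1 w W (le_trans (le_trans (le_max_left _ _) (le_max_left _ _)) hw) hW
  obtain ⟨N2, hN2⟩ := hw2 w W (le_trans (le_trans (le_max_right _ _) (le_max_left _ _)) hw) hW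
  obtain ⟨N3, hN3⟩ := hw3 w W (le_trans (le_trans (le_max_left _ _) (le_max_right _ _)) hw) hW
  obtain ⟨N4, hN4⟩ := hw4 w W (le_trans (le_trans (le_max_right _ _) (le_max_right _ _)) hw) hW
  refine ⟨max (max N1 N2) (max (max N3 N4) 1), fun N hN x0 v0 hx0 hv0 hcop hc => ?_⟩
  have hNN1 : N1 ≤ N := le_trans (le_trans (le_max_left _ _) (le_max_left _ _)) hN
  have hNN2 : N2 ≤ N := le_trans (le_trans (le_max_right _ _) (le_max_left _ _)) hN
  have hNN3 : N3 ≤ N := le_trans (le_trans (le_trans (le_max_left _ _) (le_max_left _ _))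
    (le_max_right _ _)) hN
  have hNN4 : N4 ≤ N := le_trans (le_trans (le_trans (le_max_right _ _) (le_max_left _ _))
    (le_max_right _ _)) hN
  have hNpos : 1 ≤ N := le_trans (le_trans (le_max_right _ _) (le_max_right _ _)) hN
  have hNR : (1 : ℝ) ≤ N := by exact_mod_cast hNpos
  have hWpos : 0 < W := hW.1
  have hx0' : (x0 : ℤ) < W := by exact_mod_cast hx0
  have hv0' : (v0 : ℤ) + 3 < W := by exact_mod_cast hv0
  set A := (Finset.Ico 1 N).filter fun x => ¬ Typ2 w W N v0 (x0 + W * x) with hA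
  set A1 := (Finset.Ico 1 N).filter fun x : ℕ => 2 < SW w (2 * (x0 : ℤ) + 2 * W * x) with hA1
  set A2 := (Finset.Ico 1 N).filter fun x : ℕ =>
    (w : ℝ) ^ (-(1 / 4 : ℝ)) < Et w (2 * (x0 : ℤ) + 3 + 2 * W * x) with hA2
  set A3 := (Finset.Ico 1 N).filter fun x : ℕ =>
    (w : ℝ) ^ (-(1 / 4 : ℝ)) < Et w (2 * (x0 : ℤ) - 3 + 2 * W * x) with hA3
  set B := (Finset.Ico 1 N).filter fun x : ℕ => TM W N v0 (x0 + W * x) < N / 16 with hBdef
  have hsub : A ⊆ (A1 ∪ A2) ∪ (A3 ∪ B) := by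
    intro x hx
    obtain ⟨hxI, hxT⟩ := Finset.mem_filter.mp hx
    have a1 : (2 * ((x0 + W * x : ℕ) : ℤ)) = 2 * (x0 : ℤ) + 2 * W * x := by push_cast; ring
    have a2 : (2 * ((x0 + W * x : ℕ) : ℤ)) + 3 = 2 * (x0 : ℤ) + 3 + 2 * W * x := by
      push_cast; ring
    have a3 : (2 * ((x0 + W * x : ℕ) : ℤ)) - 3 = 2 * (x0 : ℤ) - 3 + 2 * W * x := by
      push_cast; ring
    by_contra hcon
    simp only [Finset.mem_union, not_or] at hcon
    obtain ⟨⟨h1, h2⟩, h3, h4⟩ := hcon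
    rw [hA1, Finset.mem_filter, not_and, not_lt] at h1
    rw [hA2, Finset.mem_filter, not_and, not_lt] at h2
    rw [hA3, Finset.mem_filter, not_and, not_lt] at h3
    rw [hBdef, Finset.mem_filter, not_and, not_lt] at h4
    apply hxT
    refine ⟨h4 hxI, ?_, ?_, ?_⟩
    · rw [a1]; exact h1 hxI
    · rw [a2]; exact h2 hxI
    · rw [a3]; exact h3 hxI
  have c1 : (A1.card : ℝ) ≤ ε / 4 * N := by
    have h := hN2 N hNN2 (2 * x0) (by
      rw [abs_of_nonneg (by positivity)]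
      omega)
    refine le_trans ?_ h
    exact_mod_cast TYP_card (Finset.filter_subset _ _)
      (fun n hn => Or.inr (Finset.mem_filter.mp hn).2)
  have c2 : (A2.card : ℝ) ≤ ε / 4 * N := by
    have h := hN3 N hNN3 (2 * x0 + 3) (by
      rw [abs_of_nonneg (by positivity)]
      omega)
    refine le_trans ?_ h
    exact_mod_cast TYP_card (Finset.filter_subset _ _)
      (fun n hn => Or.inr (Finset.mem_filter.mp hn).2)
  have c3 : (A3.card : ℝ) ≤ ε / 4 * N := by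
    have h := hN3 N hNN3 (2 * x0 - 3) (by
      rw [abs_le]
      constructor <;> omega)
    refine le_trans ?_ h
    exact_mod_cast TYP_card (Finset.filter_subset _ _)
      (fun n hn => Or.inr (Finset.mem_filter.mp hn).2)
  -- the main part
  have hvx : Comp W (v0 : ℤ) (x0 : ℤ) := hc.swap
  have hr1 : |((v0 : ℤ) + x0)| < 2 * W := by
    rw [abs_lt]; constructor <;> omega
  have hr2 : |((v0 : ℤ) - x0)| < 2 * W := by
    rw [abs_lt]; constructor <;> omega
  have hr2' : |(-((v0 : ℤ) - x0))| < 2 * W := by rw [abs_neg]; exact hr2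
  have hb' : |((2 * v0 + 3 : ℕ) : ℤ)| ≤ 4 * W := by
    rw [abs_of_nonneg (Int.natCast_nonneg _)]
    push_cast
    omega
  set F : ℤ → ℝ := fun v => lamv W (2 * W * v + ((2 * v0 + 3 : ℕ) : ℤ)) with hFdef
  have hF0 : ∀ v, 0 ≤ F v := fun v => lamv_nonneg' _ _
  have hFF : ∀ v, |F v| ≤ lamv W (2 * W * v + ((2 * v0 + 3 : ℕ) : ℤ)) := fun v => by
    rw [abs_of_nonneg (hF0 v)]
  have hBsub : B ⊆ Finset.Ico 1 N := Finset.filter_subset _ _
  have k1 := hN1 N hNN1 ((v0 : ℤ) + x0) ((v0 : ℤ) - x0) 1 _ hr1 hvx.1 hr2 hvx.2 (Or.inl rfl) hb'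
    F (indZ B) hFF (indZ_abs_le B)
  have k2 := hN1 N hNN1 ((v0 : ℤ) + x0) (-((v0 : ℤ) - x0)) (-1) _ hr1 hvx.1 hr2' hvx.2.neg_left
    (Or.inr rfl) hb' F (indZ B) hFF (indZ_abs_le B)
  have hT : (N : ℝ) / 2 ≤ ∑ x ∈ Finset.Ico (0 : ℤ) N, F x := by
    refine le_trans (hN4 N hNN4 v0 hv0 hcop) ?_
    rw [sum_Ico_int]
    have : ∀ n : ℕ, F (n : ℤ) = sg W v0 n := fun n => (sg_eq W v0 n).symm
    simp_rw [this]
    apply Finset.sum_le_sum_of_subset_of_nonneg
    · intro n hn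
      exact Finset.mem_range.mpr (Finset.mem_Ico.mp hn).2
    · intro n _ _
      exact sg_nonneg _ _ _
  have hcore := TYP_core (δ := 3 / 8 * N) hF0 hBsub k1 k2 (by
    intro x hx
    have hD := (Finset.mem_filter.mp hx).2
    have e1 : TM W N v0 (x0 + W * x) =
        ∑ v ∈ Finset.Ico (0 : ℤ) N, F v * (lamv W (((v0 : ℤ) + x0) + W * (v + x)) *
          lamv W (((v0 : ℤ) - x0) + W * (v - x))) := by
      unfold TM
      rw [sum_Ico_int]
      refine Finset.sum_congr rfl fun v _ => ?_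
      have a2 : (((x0 + W * x : ℕ) : ℤ) + v0 + W * v) = ((v0 : ℤ) + x0) + W * (v + x) := by
        push_cast; ring
      have a3 : lamv W (((x0 + W * x : ℕ) : ℤ) - v0 - W * v) =
          lamv W (((v0 : ℤ) - x0) + W * (v - x)) := by
        rw [← lamv_neg W (((v0 : ℤ) - x0) + W * (v - x))]
        congr 1
        push_cast; ring
      rw [a2, a3, sg_eq]
      ring
    rw [← e1]
    linarith)
  have c4 : (B.card : ℝ) ≤ ε / 4 * N := by
    have h1 : (B.card : ℝ) * (3 / 8 * N) ≤ (ε / 4 * N) * (3 / 8 * N) := by nlinarith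
    exact le_of_mul_le_mul_right h1 (by positivity)
  have c5 : (A.card : ℝ) ≤ (A1.card + A2.card) + (A3.card + B.card) := by
    have h1 := Finset.card_le_card hsub
    have h2 := Finset.card_union_le (A1 ∪ A2) (A3 ∪ B)
    have h3 := Finset.card_union_le A1 A2
    have h4 := Finset.card_union_le A3 B
    exact_mod_cast (by omega : A.card ≤ (A1.card + A2.card) + (A3.card + B.card))
  linarith

end Pool.Agent.Lib.H18GB
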