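import Pool.Agent.Lib.H18GB2.GA
import Pool.Agent.Lib.H18GB2.Typ
import Pool.Agent.Lib.H18GB.GR3

/-!
# Project GB2: BE1 (paths between typical vertices of different classes)
-/

namespace Pool.Agent.Lib.H18GB

open Finset Pool.Agent.Lib.Sieve Pool.Agent.Lib.GoldbachGraph

/-- powers of the logarithm are eventually smaller than a linear function -/
theorem be1_log_pow (k W : ℕ) (δ : ℝ) (hδ : 0 < δ) : ∃ N0 : ℕ, ∀ N : ℕ, N0 ≤ N →
    Real.log (4 * W * N + 4 * W + 4) ^ k ≤ δ * N := by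
  have h1 : Filter.Tendsto (fun x : ℝ => Real.log x ^ k / (1 * x + 0)) Filter.atTop (nhds 0) :=
    Real.tendsto_pow_log_div_mul_add_atTop 1 0 k one_ne_zero
  have h2 : Filter.Tendsto (fun N : ℕ => (4 * (W + 1) * N + 4 * (W + 1) : ℝ)) Filter.atTop
      Filter.atTop := by
    apply Filter.tendsto_atTop_add_const_right
    apply Filter.Tendsto.const_mul_atTop (by positivity)
    exact tendsto_natCast_atTop_atTop
  have h3 := h1.comp h2
  have hW : (0 : ℝ) < 8 * (W + 1) := by positivity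
  have h4 := h3.eventually (gt_mem_nhds (show (0 : ℝ) < δ / (8 * (W + 1)) by positivity))
  obtain ⟨N0, hN0⟩ := Filter.eventually_atTop.mp h4
  refine ⟨max N0 1, fun N hN => ?_⟩
  have hN1 : 1 ≤ N := le_trans (le_max_right _ _) hN
  have hN1' : (1 : ℝ) ≤ N := by exact_mod_cast hN1
  have h5 := hN0 N (le_trans (le_max_left _ _) hN)
  simp only [Function.comp_apply, one_mul, add_zero] at h5
  have hpos : (0 : ℝ) < 4 * (W + 1) * N + 4 * (W + 1) := by positivity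
  rw [div_lt_iff₀ hpos] at h5
  have h6 : (4 * W * N + 4 * W + 4 : ℝ) ≤ 4 * (W + 1) * N + 4 * (W + 1) := by nlinarith
  have h7 : (1 : ℝ) ≤ 4 * W * N + 4 * W + 4 := by
    have : (0 : ℝ) ≤ W := Nat.cast_nonneg W
    nlinarith
  have h8 : Real.log (4 * W * N + 4 * W + 4) ^ k ≤ Real.log (4 * (W + 1) * N + 4 * (W + 1)) ^ k := by
    apply pow_le_pow_left₀ (Real.log_nonneg h7)
    exact Real.log_le_log (by linarith) h6
  have h9 : δ / (8 * (W + 1)) * (4 * (W + 1) * N + 4 * (W + 1)) ≤ δ * N := by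
    have : δ / (8 * (W + 1)) * (4 * (W + 1) * N + 4 * (W + 1)) = δ * ((N + 1) / 2) := by
      field_simp
      ring
    rw [this]
    apply mul_le_mul_of_nonneg_left _ hδ.le
    linarith
  linarith

/-- the weight of the third kind -/
noncomputable def be1G (w W y0 X : ℕ) (x : ℤ) : ℝ :=
  lamv W (((X : ℤ) + y0) + W * x) * lamv W (((X : ℤ) - y0) - W * x) /
    SW w (((X : ℤ) + y0) + ((X : ℤ) - y0))

/-- the weight of the fourth kind -/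
noncomputable def be1F (W v0 X : ℕ) (x : ℤ) : ℝ :=
  lamv W (((X : ℤ) + v0) + W * x) * lamv W (((X : ℤ) - v0) - W * x) *
    lamv W (2 * W * x + (2 * (v0 : ℤ) + 3))

/-- restriction of a weight to `[1, N)` -/
noncomputable def be1R (N : ℕ) (f : ℤ → ℝ) (x : ℤ) : ℝ := if 1 ≤ x ∧ x < N then f x else 0

theorem be1R_nonneg {N : ℕ} {f : ℤ → ℝ} (hf : ∀ x, 0 ≤ f x) (x : ℤ) : 0 ≤ be1R N f x := by
  unfold be1R; split_ifs
  · exact hf x
  · exact le_rfl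

theorem be1R_le {N : ℕ} {f : ℤ → ℝ} (hf : ∀ x, 0 ≤ f x) (x : ℤ) : be1R N f x ≤ f x := by
  unfold be1R; split_ifs
  · exact le_rfl
  · exact hf x

theorem be1G_nonneg (w W y0 X : ℕ) (x : ℤ) : 0 ≤ be1G w W y0 X x :=
  div_nonneg (mul_nonneg (lamv_nonneg' _ _) (lamv_nonneg' _ _))
    (lt_of_lt_of_le one_pos (one_le_SW _ _)).le

theorem be1F_nonneg (W v0 X : ℕ) (x : ℤ) : 0 ≤ be1F W v0 X x :=
  mul_nonneg (mul_nonneg (lamv_nonneg' _ _) (lamv_nonneg' _ _)) (lamv_nonneg' _ _)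

/-- the restricted weight has almost the same mass -/
theorem be1R_sum {N : ℕ} {f : ℤ → ℝ} (hf : ∀ x, 0 ≤ f x) (hN : 1 ≤ N) :
    ∑ y ∈ Finset.range N, f (y : ℤ) ≤ ∑ x ∈ Finset.Ico (0 : ℤ) N, be1R N f x + f 0 := by
  rw [sum_Ico_int]
  obtain ⟨N', rfl⟩ : ∃ N', N = N' + 1 := ⟨N - 1, by omega⟩
  rw [Finset.sum_range_succ' (fun n : ℕ => f (n : ℤ)),
    Finset.sum_range_succ' (fun n : ℕ => be1R (N' + 1) f (n : ℤ))]
  have h5 : ∀ n ∈ Finset.range N', f ((n + 1 : ℕ) : ℤ) = be1R (N' + 1) f ((n + 1 : ℕ) : ℤ) := by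
    intro n hn
    have := Finset.mem_range.mp hn
    unfold be1R
    rw [if_pos]
    constructor
    · push_cast; omega
    · push_cast; omega
  rw [Finset.sum_congr rfl h5]
  have h6 := be1R_nonneg (N := N' + 1) hf ((0 : ℕ) : ℤ)
  simp only [Nat.cast_zero] at h6 ⊢
  linarith

theorem be1_lamv_log {W N X y0 : ℕ} (hN : 1 ≤ N) (hX : X ≤ 2 * W * N) (hy : y0 < W) :
    (1 : ℝ) ≤ 4 * W * N + 4 * W + 4 ∧
    lamv W (((X : ℤ) + y0) + W * 0) ≤ Real.log (4 * W * N + 4 * W + 4) ∧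
    lamv W (((X : ℤ) - y0) - W * 0) ≤ Real.log (4 * W * N + 4 * W + 4) := by
  have hNR : (1 : ℝ) ≤ N := by exact_mod_cast hN
  have hWR : (0 : ℝ) ≤ W := Nat.cast_nonneg W
  have hBig : (1 : ℝ) ≤ 4 * W * N + 4 * W + 4 := by nlinarith
  have hWNR : (W : ℝ) ≤ W * N := by nlinarith
  have hXR : (X : ℝ) ≤ 2 * W * N := by exact_mod_cast hX
  have hyR : (y0 : ℝ) ≤ W := by exact_mod_cast hy.le
  have hX0 : (0 : ℝ) ≤ X := Nat.cast_nonneg X
  have hy00 : (0 : ℝ) ≤ y0 := Nat.cast_nonneg y0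
  refine ⟨hBig, ?_, ?_⟩
  · apply lamv_le_log hBig
    push_cast
    rw [abs_le]
    constructor <;> nlinarith
  · apply lamv_le_log hBig
    push_cast
    rw [abs_le]
    constructor <;> nlinarith

theorem be1G_zero {w W N X y0 : ℕ} (hN : 1 ≤ N) (hX : X ≤ 2 * W * N) (hy : y0 < W) :
    be1G w W y0 X 0 ≤ Real.log (4 * W * N + 4 * W + 4) ^ 2 := by
  obtain ⟨hBig, a1, a2⟩ := be1_lamv_log hN hX hy
  have a3 : be1G w W y0 X 0 ≤ lamv W (((X : ℤ) + y0) + W * 0) * lamv W (((X : ℤ) - y0) - W * 0) := by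
    unfold be1G
    exact div_le_self (mul_nonneg (lamv_nonneg' _ _) (lamv_nonneg' _ _)) (one_le_SW _ _)
  calc be1G w W y0 X 0 ≤ _ := a3
    _ ≤ Real.log (4 * W * N + 4 * W + 4) * Real.log (4 * W * N + 4 * W + 4) :=
      mul_le_mul a1 a2 (lamv_nonneg' _ _) (Real.log_nonneg hBig)
    _ = _ := by ring

theorem be1F_zero {W N X v0 : ℕ} (hN : 1 ≤ N) (hX : X ≤ 2 * W * N) (hv : v0 + 3 < W) :
    be1F W v0 X 0 ≤ Real.log (4 * W * N + 4 * W + 4) ^ 3 := by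
  obtain ⟨hBig, a1, a2⟩ := be1_lamv_log hN hX (by omega : v0 < W)
  have a3 : lamv W (2 * W * 0 + (2 * (v0 : ℤ) + 3)) ≤ Real.log (4 * W * N + 4 * W + 4) := by
    apply lamv_le_log hBig
    have hNR : (1 : ℝ) ≤ N := by exact_mod_cast hN
    have hWR : (0 : ℝ) ≤ W := Nat.cast_nonneg W
    have hWNR : (W : ℝ) ≤ W * N := by nlinarith
    have hv' : (v0 : ℝ) + 3 ≤ W := by exact_mod_cast hv.le
    have hv0 : (0 : ℝ) ≤ v0 := Nat.cast_nonneg v0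
    push_cast
    rw [abs_le]
    constructor <;> nlinarith
  have hL := Real.log_nonneg hBig
  unfold be1F
  calc _ ≤ (Real.log (4 * W * N + 4 * W + 4) * Real.log (4 * W * N + 4 * W + 4)) *
        Real.log (4 * W * N + 4 * W + 4) :=
      mul_le_mul (mul_le_mul a1 a2 (lamv_nonneg' _ _) hL) a3 (lamv_nonneg' _ _)
        (mul_nonneg hL hL)
    _ = _ := by ring

theorem be1G_adm {w W N X y0 : ℕ} (hN : 1 ≤ N) (hX1 : 1 ≤ X) (hX : X ≤ 2 * W * N) (hy : y0 < W) :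
    Adm w W N (be1R N (be1G w W y0 X)) := by
  have hWN : (W : ℤ) * N ≥ W := by
    have : (1 : ℤ) ≤ N := by exact_mod_cast hN
    nlinarith [Int.natCast_nonneg W]
  have hXle : (X : ℤ) ≤ 2 * W * N := by exact_mod_cast hX
  have hy0' : (y0 : ℤ) < W := by exact_mod_cast hy
  refine ⟨be1R_nonneg (be1G_nonneg _ _ _ _), Or.inr (Or.inr (Or.inl
    ⟨(X : ℤ) + y0, (X : ℤ) - y0, ?_, ?_, ?_, be1R_le (be1G_nonneg _ _ _ _)⟩))⟩
  · rw [abs_le]; constructor <;> nlinarith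
  · rw [abs_le]; constructor <;> nlinarith
  · have : (1 : ℤ) ≤ X := by exact_mod_cast hX1
    omega

theorem be1F_adm {w W N X v0 : ℕ} (hN : 1 ≤ N) (hX1 : 2 ≤ X) (hX : X ≤ 2 * W * N)
    (hv : v0 + 3 < W) (hT : Typ2 w W N v0 X) : Adm w W N (be1R N (be1F W v0 X)) := by
  have hWN : (W : ℤ) * N ≥ W := by
    have : (1 : ℤ) ≤ N := by exact_mod_cast hN
    nlinarith [Int.natCast_nonneg W]
  have hXle : (X : ℤ) ≤ 2 * W * N := by exact_mod_cast hX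
  have hy0' : (v0 : ℤ) + 3 < W := by exact_mod_cast hv
  have hX1' : (2 : ℤ) ≤ X := by exact_mod_cast hX1
  obtain ⟨-, t1, t2, t3⟩ := hT
  refine ⟨be1R_nonneg (be1F_nonneg _ _ _), Or.inr (Or.inr (Or.inr
    ⟨(X : ℤ) + v0, (X : ℤ) - v0, 2 * (v0 : ℤ) + 3, ?_, ?_, ?_, ?_, ?_, ?_, ?_, ?_, ?_,
      be1R_le (be1F_nonneg _ _ _)⟩))⟩
  · rw [abs_le]; constructor <;> nlinarith
  · rw [abs_le]; constructor <;> nlinarith
  · rw [abs_le]; constructor <;> omega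
  · omega
  · omega
  · omega
  · have e : ((X : ℤ) + v0) + ((X : ℤ) - v0) = 2 * (X : ℤ) := by ring
    rw [e]; exact t1
  · have e : (2 * (v0 : ℤ) + 3) - 2 * ((X : ℤ) + v0) = -(2 * (X : ℤ) - 3) := by ring
    rw [e]
    have e2 : Et w (-(2 * (X : ℤ) - 3)) = Et w (2 * (X : ℤ) - 3) := by
      unfold Et
      rw [Int.natAbs_neg]
    rw [e2]; exact t3
  · have e : (2 * (v0 : ℤ) + 3) + 2 * ((X : ℤ) - v0) = 2 * (X : ℤ) + 3 := by ring
    rw [e]; exact t2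

theorem be1_hadj {W X y0 m : ℕ} (h2W : 2 ∣ W) (hXy : Comp W X y0)
    (hprod : lamv W (((X : ℤ) + y0) + W * m) * lamv W (((X : ℤ) - y0) - W * m) ≠ 0) :
    hadj X (y0 + W * m) := by
  have h3 := hadj_of_lamv (x0 := X) (y0 := y0) (x := 0) (y := m) h2W hXy (by
    have a1 : ((X : ℤ) + y0) + W * (((0 : ℕ) : ℤ) + m) = ((X : ℤ) + y0) + W * m := by
      push_cast; ring
    have a2 : ((X : ℤ) - y0) + W * (((0 : ℕ) : ℤ) - m) = ((X : ℤ) - y0) - W * m := by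
      push_cast; ring
    rw [a1, a2]
    exact hprod)
  simpa using h3

theorem be1R_ne {N : ℕ} {f : ℤ → ℝ} {x : ℤ} (h : be1R N f x ≠ 0) :
    ∃ m ∈ Finset.Ico 1 N, x = (m : ℕ) ∧ f (m : ℤ) ≠ 0 := by
  unfold be1R at h
  split_ifs at h with h1
  · obtain ⟨m, rfl⟩ : ∃ m : ℕ, x = m := ⟨x.toNat, by omega⟩
    exact ⟨m, Finset.mem_Ico.mpr ⟨by omega, by omega⟩, rfl, h⟩
  · exact absurd rfl h

theorem be1G_ne {w W X y0 m : ℕ} (h2W : 2 ∣ W) (hXy : Comp W X y0)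
    (h : be1G w W y0 X (m : ℤ) ≠ 0) : hadj X (y0 + W * m) := by
  apply be1_hadj h2W hXy
  intro h0
  apply h
  unfold be1G
  rw [h0, zero_div]

theorem be1F_ne {W X v0 m : ℕ} (h2W : 2 ∣ W) (hXy : Comp W X v0)
    (h : be1F W v0 X (m : ℤ) ≠ 0) : (2 * (v0 + W * m) + 3).Prime ∧ hadj X (v0 + W * m) := by
  have h1 := mul_ne_zero_iff.mp h
  refine ⟨?_, be1_hadj h2W hXy h1.1⟩
  apply sg_ne
  unfold sg
  have e : (2 * ((v0 : ℤ) + W * m) + 3) = 2 * W * (m : ℤ) + (2 * (v0 : ℤ) + 3) := by ring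
  rw [e]
  exact h1.2

theorem be1G_mass {w W N X y0 : ℕ} {ε : ℝ} (hN : 1 ≤ N) (hX : X ≤ 2 * W * N) (hy : y0 < W)
    (hlog : Real.log (4 * W * N + 4 * W + 4) ^ 2 ≤ ε / 2 * N) (hD : ε * N ≤ Dw w W N X y0) :
    ε / 2 * N ≤ ∑ x ∈ Finset.Ico (0 : ℤ) N, be1R N (be1G w W y0 X) x := by
  have h1 := be1R_sum (be1G_nonneg w W y0 X) hN
  have h2 := be1G_zero (w := w) hN hX hy
  have h3 : Dw w W N X y0 = ∑ y ∈ Finset.range N, be1G w W y0 X (y : ℤ) := by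
    unfold Dw be1G
    apply Finset.sum_congr rfl
    intro y _
    have : ((X : ℤ) + y0) + ((X : ℤ) - y0) = 2 * (X : ℤ) := by ring
    rw [this]
  rw [h3] at hD
  linarith

theorem be1F_mass {w W N X v0 : ℕ} (hN : 1 ≤ N) (hX : X ≤ 2 * W * N) (hv : v0 + 3 < W)
    (hlog : Real.log (4 * W * N + 4 * W + 4) ^ 3 ≤ 1 / 32 * N) (hT : Typ2 w W N v0 X) :
    (1 / 32 : ℝ) * N ≤ ∑ x ∈ Finset.Ico (0 : ℤ) N, be1R N (be1F W v0 X) x := by
  have h1 := be1R_sum (be1F_nonneg W v0 X) hN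
  have h2 := be1F_zero hN hX hv
  have h3 : TM W N v0 X = ∑ y ∈ Finset.range N, be1F W v0 X (y : ℤ) := by
    unfold TM be1F sg
    apply Finset.sum_congr rfl
    intro y _
    have : 2 * W * (y : ℤ) + (2 * (v0 : ℤ) + 3) = (2 * ((v0 : ℤ) + W * y) + 3) := by ring
    rw [this]
  have h4 := hT.1
  rw [h3] at h4
  linarith

/-- Chunk BE1a: `X -- V - (V + 3) -- Z`, `Z` in a dense set. `ss` with `F(v) = ` the summand of `TM`
(fourth kind: `b = X + v0`, `b' = X - v0`, `b'' = 2 v0 + 3`, `b'' - 2 b = - (2 X - 3)`,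
`b'' + 2 b' = 2 X + 3`, `b + b' = 2 X`), `G = 1_B`, kernel `r1 = v0 + 3 + z0`, `r2 = ± (v0 + 3 - z0)`. -/
theorem be_dense (ε : ℝ) (hε : 0 < ε) : ∃ w0 : ℕ, ∀ w W : ℕ, w0 ≤ w → IsW w W → ∃ N0 : ℕ,
    ∀ N : ℕ, N0 ≤ N → ∀ X v0 z0 : ℕ, 2 ≤ X → X ≤ 2 * W * N → v0 + 3 < W → z0 < W →
    IsCoprime (2 * (v0 : ℤ) + 3) W → Comp W X v0 → Comp W (v0 + 3) z0 → Typ2 w W N v0 X →
    ∀ B : Finset ℕ, B ⊆ Finset.Ico 1 N → ε * N ≤ B.card →
    ∃ v ∈ Finset.Ico 1 N, ∃ z ∈ B, (2 * (v0 + W * v) + 3).Prime ∧ hadj X (v0 + W * v) ∧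
      hadj (v0 + 3 + W * v) (z0 + W * z) := by
  obtain ⟨w1, hw1⟩ := ss (ε / 128) (by positivity)
  refine ⟨max w1 2, fun w W hw hW => ?_⟩
  obtain ⟨N1, hN1⟩ := hw1 w W (le_trans (le_max_left _ _) hw) hW
  obtain ⟨N2, hN2⟩ := be1_log_pow 3 W (1 / 32) (by norm_num)
  refine ⟨max (max N1 N2) 1, fun N hN X v0 z0 hX1 hX2 hv0 hz0 _ hXv hvz hT B hB hBc => ?_⟩
  have hNN1 : N1 ≤ N := le_trans (le_trans (le_max_left _ _) (le_max_left _ _)) hN
  have hNN2 : N2 ≤ N := le_trans (le_trans (le_max_right _ _) (le_max_left _ _)) hN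
  have hNpos : 1 ≤ N := le_trans (le_max_right _ _) hN
  have hNR : (1 : ℝ) ≤ N := by exact_mod_cast hNpos
  have h2W : 2 ∣ W := two_dvd_of_isW (le_trans (le_max_right _ _) hw) hW
  by_contra hcon
  push Not at hcon
  have hv0' : (v0 : ℤ) + 3 < W := by exact_mod_cast hv0
  have hz0' : (z0 : ℤ) < W := by exact_mod_cast hz0
  have hr1 : |((v0 : ℤ) + 3 + z0)| < 2 * W := by
    rw [abs_lt]; constructor <;> omega
  have hr2 : |((v0 : ℤ) + 3 - z0)| < 2 * W := by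
    rw [abs_lt]; constructor <;> omega
  have hr2' : |(-((v0 : ℤ) + 3 - z0))| < 2 * W := by rw [abs_neg]; exact hr2
  have hF0 := be1R_nonneg (N := N) (be1F_nonneg W v0 X)
  have hFA := be1F_adm hNpos hX1 hX2 hv0 hT
  have hGA : Adm w W N (indZ B) := ⟨indZ_nonneg B, Or.inl fun x => by
    have := indZ_abs_le B x
    rwa [abs_of_nonneg (indZ_nonneg B x)] at this⟩
  have hFle : ∀ x, |be1R N (be1F W v0 X) x| ≤ be1R N (be1F W v0 X) x := fun x => by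
    rw [abs_of_nonneg (hF0 x)]
  have hGle : ∀ x, |indZ B x| ≤ indZ B x := fun x => by rw [abs_of_nonneg (indZ_nonneg B x)]
  have k1 := hN1 N hNN1 ((v0 : ℤ) + 3 + z0) ((v0 : ℤ) + 3 - z0) 1
    hr1 hvz.1 hr2 hvz.2 (Or.inl rfl) _ _ _ _ hFA hGA hFle hGle
  have k2 := hN1 N hNN1 ((v0 : ℤ) + 3 + z0) (-((v0 : ℤ) + 3 - z0)) (-1)
    hr1 hvz.1 hr2' hvz.2.neg_left (Or.inr rfl) _ _ _ _ hFA hGA hFle hGle
  have hedge : ∀ x ∈ Finset.Ico (0 : ℤ) N, ∀ y ∈ Finset.Ico (0 : ℤ) N,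
      be1R N (be1F W v0 X) x * indZ B y ≠ 0 →
      lamv W (((v0 : ℤ) + 3 + z0) + W * (x + y)) * lamv W (((v0 : ℤ) + 3 - z0) + W * (x - y)) =
        0 := by
    intro x _ y _ hne
    by_contra hc
    obtain ⟨hFx, hGy⟩ := mul_ne_zero_iff.mp hne
    obtain ⟨z, hzB, rfl⟩ := indZ_ne hGy
    obtain ⟨m, hm, rfl, hfm⟩ := be1R_ne hFx
    obtain ⟨e1, e2⟩ := be1F_ne h2W hXv hfm
    have e3 : hadj (v0 + 3 + W * m) (z0 + W * z) :=
      hadj_of_lamv (x0 := v0 + 3) (y0 := z0) h2W (by push_cast; exact hvz) (by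
        push_cast; exact hc)
    exact hcon m hm z hzB e1 e2 e3
  have hbound := no_edge_bound hF0 (indZ_nonneg B) hedge k1 k2
  rw [sum_indZ hB] at hbound
  have hsum := be1F_mass hNpos hX2 hv0 (hN2 N hNN2) hT
  have h9 : 1 / 32 * N * (ε * N) ≤ 2 * (ε / 128 * N ^ 2) := by
    refine le_trans ?_ hbound
    apply mul_le_mul hsum hBc (by positivity)
    exact Finset.sum_nonneg fun x _ => hF0 x
  have h10 : 0 < ε * (N : ℝ) ^ 2 := by positivity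
  nlinarith

/-- Chunk BE1b: `X -- V - (V + 3) -- Y' -- X'`. `ss` with `F` as before and
`G(y) = lamv W (X' + y0' + W y) lamv W (X' - y0' - W y) / SW w (2 X')` (third kind). -/
theorem be_sparse (ε : ℝ) (hε : 0 < ε) : ∃ w0 : ℕ, ∀ w W : ℕ, w0 ≤ w → IsW w W → ∃ N0 : ℕ,
    ∀ N : ℕ, N0 ≤ N → ∀ X X' v0 y0' : ℕ, 2 ≤ X → X ≤ 2 * W * N → 1 ≤ X' → X' ≤ 2 * W * N →
    v0 + 3 < W → y0' < W → IsCoprime (2 * (v0 : ℤ) + 3) W → Comp W X v0 → Comp W (v0 + 3) y0' →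
    Comp W X' y0' → Typ2 w W N v0 X → ε * N ≤ Dw w W N X' y0' →
    ∃ v ∈ Finset.Ico 1 N, ∃ y ∈ Finset.Ico 1 N, (2 * (v0 + W * v) + 3).Prime ∧
      hadj X (v0 + W * v) ∧ hadj (v0 + 3 + W * v) (y0' + W * y) ∧ hadj (y0' + W * y) X' := by
  obtain ⟨w1, hw1⟩ := ss (ε / 256) (by positivity)
  refine ⟨max w1 2, fun w W hw hW => ?_⟩
  obtain ⟨N1, hN1⟩ := hw1 w W (le_trans (le_max_left _ _) hw) hW
  obtain ⟨N2, hN2⟩ := be1_log_pow 3 W (1 / 32) (by norm_num)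
  obtain ⟨N3, hN3⟩ := be1_log_pow 2 W (ε / 2) (by positivity)
  refine ⟨max (max N1 N2) (max N3 1), fun N hN X X' v0 y0 hX1 hX2 hX1' hX2' hv0 hy0 _ hXv hvy
    hXy hT hD => ?_⟩
  have hNN1 : N1 ≤ N := le_trans (le_trans (le_max_left _ _) (le_max_left _ _)) hN
  have hNN2 : N2 ≤ N := le_trans (le_trans (le_max_right _ _) (le_max_left _ _)) hN
  have hNN3 : N3 ≤ N := le_trans (le_trans (le_max_left _ _) (le_max_right _ _)) hN
  have hNpos : 1 ≤ N := le_trans (le_trans (le_max_right _ _) (le_max_right _ _)) hN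
  have hNR : (1 : ℝ) ≤ N := by exact_mod_cast hNpos
  have h2W : 2 ∣ W := two_dvd_of_isW (le_trans (le_max_right _ _) hw) hW
  by_contra hcon
  push Not at hcon
  have hv0' : (v0 : ℤ) + 3 < W := by exact_mod_cast hv0
  have hy0' : (y0 : ℤ) < W := by exact_mod_cast hy0
  have hr1 : |((v0 : ℤ) + 3 + y0)| < 2 * W := by
    rw [abs_lt]; constructor <;> omega
  have hr2 : |((v0 : ℤ) + 3 - y0)| < 2 * W := by
    rw [abs_lt]; constructor <;> omega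
  have hr2' : |(-((v0 : ℤ) + 3 - y0))| < 2 * W := by rw [abs_neg]; exact hr2
  have hF0 := be1R_nonneg (N := N) (be1F_nonneg W v0 X)
  have hG0 := be1R_nonneg (N := N) (be1G_nonneg w W y0 X')
  have hFA := be1F_adm hNpos hX1 hX2 hv0 hT
  have hGA := be1G_adm (w := w) hNpos hX1' hX2' hy0
  have hFle : ∀ x, |be1R N (be1F W v0 X) x| ≤ be1R N (be1F W v0 X) x := fun x => by
    rw [abs_of_nonneg (hF0 x)]
  have hGle : ∀ x, |be1R N (be1G w W y0 X') x| ≤ be1R N (be1G w W y0 X') x := fun x => by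
    rw [abs_of_nonneg (hG0 x)]
  have k1 := hN1 N hNN1 ((v0 : ℤ) + 3 + y0) ((v0 : ℤ) + 3 - y0) 1
    hr1 hvy.1 hr2 hvy.2 (Or.inl rfl) _ _ _ _ hFA hGA hFle hGle
  have k2 := hN1 N hNN1 ((v0 : ℤ) + 3 + y0) (-((v0 : ℤ) + 3 - y0)) (-1)
    hr1 hvy.1 hr2' hvy.2.neg_left (Or.inr rfl) _ _ _ _ hFA hGA hFle hGle
  have hedge : ∀ x ∈ Finset.Ico (0 : ℤ) N, ∀ y ∈ Finset.Ico (0 : ℤ) N,
      be1R N (be1F W v0 X) x * be1R N (be1G w W y0 X') y ≠ 0 →
      lamv W (((v0 : ℤ) + 3 + y0) + W * (x + y)) * lamv W (((v0 : ℤ) + 3 - y0) + W * (x - y)) =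
        0 := by
    intro x _ y _ hne
    by_contra hc
    obtain ⟨hFx, hGy⟩ := mul_ne_zero_iff.mp hne
    obtain ⟨m, hm, rfl, hfm⟩ := be1R_ne hFx
    obtain ⟨k, hk, rfl, hgk⟩ := be1R_ne hGy
    obtain ⟨e1, e2⟩ := be1F_ne h2W hXv hfm
    have e4 := be1G_ne h2W hXy hgk
    have e3 : hadj (v0 + 3 + W * m) (y0 + W * k) :=
      hadj_of_lamv (x0 := v0 + 3) (y0 := y0) h2W (by push_cast; exact hvy) (by
        push_cast; exact hc)
    exact hcon m hm k hk e1 e2 e3 ((hadj_comm _ _).mp e4)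
  have hbound := no_edge_bound hF0 hG0 hedge k1 k2
  have hsum := be1F_mass hNpos hX2 hv0 (hN2 N hNN2) hT
  have hsum2 := be1G_mass hNpos hX2' hy0 (hN3 N hNN3) hD
  have h9 : 1 / 32 * N * (ε / 2 * N) ≤ 2 * (ε / 256 * N ^ 2) := by
    refine le_trans ?_ hbound
    apply mul_le_mul hsum hsum2 (by positivity)
    exact Finset.sum_nonneg fun x _ => hF0 x
  have h10 : 0 < ε * (N : ℝ) ^ 2 := by positivity
  nlinarith

/-- Chunk BE1c: `X -- Y -- V - (V + 3) -- Y' -- X'`: `ga1` twice and `sg_total`. -/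
theorem be_links (ε : ℝ) (hε : 0 < ε) : ∃ w0 : ℕ, ∀ w W : ℕ, w0 ≤ w → IsW w W → ∃ N0 : ℕ,
    ∀ N : ℕ, N0 ≤ N → ∀ X X' y0 y0' v0 : ℕ, 1 ≤ X → X ≤ 2 * W * N → 1 ≤ X' → X' ≤ 2 * W * N →
    y0 < W → y0' < W → v0 + 3 < W → IsCoprime (2 * (v0 : ℤ) + 3) W → Comp W X y0 →
    Comp W X' y0' → Comp W v0 y0 → Comp W (v0 + 3) y0' → ε * N ≤ Dw w W N X y0 →
    ε * N ≤ Dw w W N X' y0' →
    ∃ v ∈ Finset.Ico 1 N, ∃ y ∈ Finset.Ico 1 N, ∃ y' ∈ Finset.Ico 1 N,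
      (2 * (v0 + W * v) + 3).Prime ∧ hadj X (y0 + W * y) ∧ hadj (y0 + W * y) (v0 + W * v) ∧
      hadj (v0 + 3 + W * v) (y0' + W * y') ∧ hadj (y0' + W * y') X' := by
  classical
  set ε1 := min ε (1 / 8) with hε1
  have hε1pos : 0 < ε1 := lt_min hε (by norm_num)
  obtain ⟨w1, hw1⟩ := ga1 ε1 hε1pos
  obtain ⟨w2, hw2⟩ := sg_total
  refine ⟨max w1 w2, fun w W hw hW => ?_⟩
  obtain ⟨N1, hN1⟩ := hw1 w W (le_trans (le_max_left _ _) hw) hW
  obtain ⟨N2, hN2⟩ := hw2 w W (le_trans (le_max_right _ _) hw) hW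
  refine ⟨max (max N1 N2) 1, fun N hN X X' y0 y0' v0 hX1 hX2 hX1' hX2' hy0 hy0' hv0 hcop hXy
    hXy' hvy hvy' hD hD' => ?_⟩
  have hNN1 : N1 ≤ N := le_trans (le_trans (le_max_left _ _) (le_max_left _ _)) hN
  have hNN2 : N2 ≤ N := le_trans (le_trans (le_max_right _ _) (le_max_left _ _)) hN
  have hNpos : 1 ≤ N := le_trans (le_max_right _ _) hN
  have hNR : (1 : ℝ) ≤ N := by exact_mod_cast hNpos
  have hle : ε1 * N ≤ ε * N := mul_le_mul_of_nonneg_right (min_le_left _ _) (by linarith)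
  have g1 := hN1 N hNN1 X y0 v0 0 hX1 hX2 hy0 hv0 (Or.inl rfl) hcop hXy
    (by simpa using hvy) (hle.trans hD)
  have g2 := hN1 N hNN1 X' y0' v0 3 hX1' hX2' hy0' hv0 (Or.inr rfl) hcop hXy'
    (by push_cast; exact hvy') (hle.trans hD')
  have tot := hN2 N hNN2 v0 hv0 hcop
  by_contra hcon
  push Not at hcon
  set S1 := (Finset.Ico 1 N).filter (fun v => ¬ ∃ y ∈ Finset.Ico 1 N, hadj X (y0 + W * y) ∧
      hadj (y0 + W * y) (v0 + 0 + W * v)) with hS1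
  set S2 := (Finset.Ico 1 N).filter (fun v => ¬ ∃ y ∈ Finset.Ico 1 N, hadj X' (y0' + W * y) ∧
      hadj (y0' + W * y) (v0 + 3 + W * v)) with hS2
  have hcover : ∑ v ∈ Finset.Ico 1 N, sg W v0 v ≤ ∑ v ∈ S1, sg W v0 v + ∑ v ∈ S2, sg W v0 v := by
    have h1 : ∑ v ∈ Finset.Ico 1 N, sg W v0 v ≤ ∑ v ∈ S1 ∪ S2, sg W v0 v := by
      rw [← Finset.sum_filter_add_sum_filter_not (Finset.Ico 1 N) (fun v => v ∈ S1 ∪ S2)]
      have h2 : ∑ v ∈ (Finset.Ico 1 N).filter (fun v => v ∉ S1 ∪ S2), sg W v0 v = 0 := by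
        apply Finset.sum_eq_zero
        intro v hv
        rw [Finset.mem_filter, Finset.mem_union, not_or] at hv
        obtain ⟨hv1, hv2, hv3⟩ := hv
        by_contra hne
        rw [hS1, Finset.mem_filter, not_and, not_not] at hv2
        rw [hS2, Finset.mem_filter, not_and, not_not] at hv3
        obtain ⟨y, hy, e1, e2⟩ := hv2 hv1
        obtain ⟨y', hy', e3, e4⟩ := hv3 hv1
        rw [add_zero] at e2
        exact hcon v hv1 y hy y' hy' (sg_ne hne) e1 e2 ((hadj_comm _ _).mp e4)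
          ((hadj_comm _ _).mp e3)
      rw [h2, add_zero]
      apply Finset.sum_le_sum_of_subset_of_nonneg
      · intro v hv
        exact (Finset.mem_filter.mp hv).2
      · intro v _ _
        exact sg_nonneg _ _ _
    refine h1.trans ?_
    have h3 := Finset.sum_union_inter (s₁ := S1) (s₂ := S2) (f := fun v => sg W v0 v)
    have h4 : 0 ≤ ∑ v ∈ S1 ∩ S2, sg W v0 v := Finset.sum_nonneg fun v _ => sg_nonneg _ _ _
    linarith
  have g1' : ∑ v ∈ S1, sg W v0 v ≤ ε1 * N := by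
    rw [hS1]; convert g1
  have g2' : ∑ v ∈ S2, sg W v0 v ≤ ε1 * N := by
    rw [hS2]; convert g2
  have h5 : ε1 ≤ 1 / 8 := min_le_right _ _
  have h6 : ε1 * N ≤ 1 / 8 * N := mul_le_mul_of_nonneg_right h5 (by linarith)
  linarith

end Pool.Agent.Lib.H18GB
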