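import Pool.Agent.Lib.H18GB.RCN
import Pool.Agent.Lib.H18GB.Tool1

/-!
# Project GB2: DB (codegrees are bounded)
-/

namespace Pool.Agent.Lib.H18GB

open Finset Pool.Agent.Lib.Sieve

/-- coefficients of the four forms -/
def dbA (W : ℕ) (σ : ℤ) : Fin 4 → ℤ := ![(W : ℤ), W * σ, W, W * σ]

/-- constants of the four forms -/
def dbB (W : ℕ) (r1 r2 σ y y' : ℤ) : Fin 4 → ℤ :=
  ![r1 + W * y, r2 - W * σ * y, r1 + W * y', r2 - W * σ * y']

theorem db_unitA {w z W : ℕ} {S : Finset ℕ} (hS : PSet w z S) (hW : IsW w W) {σ : ℤ}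
    (hσ : σ = 1 ∨ σ = -1) : ∀ p ∈ S, ∀ i, ¬ (p : ℤ) ∣ dbA W σ i := by
  intro p hp i
  have h1 := hW.not_dvd hS p hp
  have h2 : ¬ (p : ℤ) ∣ (W : ℤ) * σ := by
    rcases hσ with rfl | rfl
    · simpa using h1
    · simpa using h1
  fin_cases i
  · exact h1
  · exact h2
  · exact h1
  · exact h2

theorem db_disc {w z W : ℕ} {S : Finset ℕ} (hw : 2 ≤ w) (hS : PSet w z S) (hW : IsW w W)
    (r1 r2 : ℤ) {σ : ℤ} (hσ : σ = 1 ∨ σ = -1) (i j : Fin 4) (hij : i ≠ j) :
    (∃ (c : ℤ) (g : ℤ → ℤ), (∀ p ∈ S, ¬ (p : ℤ) ∣ c) ∧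
      ∀ y y', disc (dbA W σ) (dbB W r1 r2 σ y y') i j = c * y + g y') ∨
    (∃ (c : ℤ) (g : ℤ → ℤ), (∀ p ∈ S, ¬ (p : ℤ) ∣ c) ∧
      ∀ y y', disc (dbA W σ) (dbB W r1 r2 σ y y') i j = c * y' + g y) := by
  have u1 : ∀ p ∈ S, ¬ (p : ℤ) ∣ (W : ℤ) := hW.not_dvd hS
  have uσ : ∀ p ∈ S, ¬ (p : ℤ) ∣ σ := by
    intro p hp hd
    have h1 := (hS p hp).1.one_lt
    rcases hσ with rfl | rfl
    · have := Int.le_of_dvd one_pos hd
      omega
    · have := Int.le_of_dvd one_pos ((dvd_neg).mp hd)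
      omega
  have u2' : ∀ p ∈ S, ¬ (p : ℤ) ∣ 2 := by
    intro p hp hd
    have h1 := (hS p hp).2.1
    have := Int.le_of_dvd two_pos hd
    omega
  have u2 := unit_mul hS u1 uσ
  have u3 := unit_mul hS u1 u1
  have u4 := unit_mul hS u2 u1
  have u5 := unit_mul hS u2' u4
  have u6 := unit_mul hS u2 u2
  have n3 := unit_neg u3
  have n4 := unit_neg u4
  have n5 := unit_neg u5
  have n6 := unit_neg u6
  fin_cases i <;> fin_cases j
  · exact absurd rfl hij
  · left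
    refine ⟨_, fun _ => W * r2 - W * σ * r1, n5, fun y y' => ?_⟩
    simp only [disc, dbA, dbB, Fin.zero_eta, Fin.mk_one, Matrix.cons_val_zero, Matrix.cons_val_one]
    ring
  · left
    refine ⟨_, fun y' => W * (r1 + W * y') - W * r1, n3, fun y y' => ?_⟩
    simp only [disc, dbA, dbB, Fin.zero_eta, Fin.reduceFinMk, Matrix.cons_val_zero, Matrix.cons_val]
    ring
  · left
    refine ⟨_, fun y' => W * (r2 - W * σ * y') - W * σ * r1, n4, fun y y' => ?_⟩
    simp only [disc, dbA, dbB, Fin.zero_eta, Fin.reduceFinMk, Matrix.cons_val_zero, Matrix.cons_val]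
    ring
  · left
    refine ⟨_, fun _ => W * σ * r1 - W * r2, u5, fun y y' => ?_⟩
    simp only [disc, dbA, dbB, Fin.zero_eta, Fin.mk_one, Matrix.cons_val_zero, Matrix.cons_val_one]
    ring
  · exact absurd rfl hij
  · left
    refine ⟨_, fun y' => W * σ * (r1 + W * y') - W * r2, u4, fun y y' => ?_⟩
    simp only [disc, dbA, dbB, Fin.mk_one, Fin.reduceFinMk, Matrix.cons_val_one, Matrix.cons_val]
    ring
  · left
    refine ⟨_, fun y' => W * σ * (r2 - W * σ * y') - W * σ * r2, u6, fun y y' => ?_⟩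
    simp only [disc, dbA, dbB, Fin.mk_one, Fin.reduceFinMk, Matrix.cons_val_one, Matrix.cons_val]
    ring
  · left
    refine ⟨_, fun y' => W * r1 - W * (r1 + W * y'), u3, fun y y' => ?_⟩
    simp only [disc, dbA, dbB, Fin.zero_eta, Fin.reduceFinMk, Matrix.cons_val_zero, Matrix.cons_val]
    ring
  · left
    refine ⟨_, fun y' => W * r2 - W * σ * (r1 + W * y'), n4, fun y y' => ?_⟩
    simp only [disc, dbA, dbB, Fin.mk_one, Fin.reduceFinMk, Matrix.cons_val_one, Matrix.cons_val]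
    ring
  · exact absurd rfl hij
  · right
    refine ⟨_, fun _ => W * r2 - W * σ * r1, n5, fun y y' => ?_⟩
    simp only [disc, dbA, dbB, Fin.reduceFinMk, Matrix.cons_val]
    ring
  · left
    refine ⟨_, fun y' => W * σ * r1 - W * (r2 - W * σ * y'), u4, fun y y' => ?_⟩
    simp only [disc, dbA, dbB, Fin.zero_eta, Fin.reduceFinMk, Matrix.cons_val_zero, Matrix.cons_val]
    ring
  · left
    refine ⟨_, fun y' => W * σ * r2 - W * σ * (r2 - W * σ * y'), n6, fun y y' => ?_⟩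
    simp only [disc, dbA, dbB, Fin.mk_one, Fin.reduceFinMk, Matrix.cons_val_one, Matrix.cons_val]
    ring
  · right
    refine ⟨_, fun _ => W * σ * r1 - W * r2, u5, fun y y' => ?_⟩
    simp only [disc, dbA, dbB, Fin.reduceFinMk, Matrix.cons_val]
    ring
  · exact absurd rfl hij

open Classical in
/-- the error of the codegrees -/
noncomputable def dbE (S : Finset ℕ) (W : ℕ) (r1 r2 σ y y' : ℤ) : ℝ :=
  ∑ i : Fin 4, ∑ j : Fin 4,
    if i ≠ j then Ers (9 / 10) S (disc (dbA W σ) (dbB W r1 r2 σ y y') i j) else 0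

theorem dbE_nonneg (S : Finset ℕ) (W : ℕ) (r1 r2 σ y y' : ℤ) : 0 ≤ dbE S W r1 r2 σ y y' := by
  unfold dbE
  refine Finset.sum_nonneg fun i _ => Finset.sum_nonneg fun j _ => ?_
  split_ifs
  · exact Ers_nonneg _ _ _
  · exact le_rfl

/-- the correlation theorem for the subfamilies of four forms -/
theorem db_corr : ∃ C : ℕ, 1 ≤ C ∧
    ∀ (A w z : ℕ) (S : Finset ℕ), C ≤ A → C ≤ w → 2 ≤ z →
    PSet w z S → ∀ (W : ℕ) (r1 r2 σ y y' : ℤ), (∀ p ∈ S, ∀ i, ¬ (p : ℤ) ∣ dbA W σ i) →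
    ∀ (T : Finset (Fin 4)) (a b : ℤ), a ≤ b →
    |∑ x ∈ Finset.Ico a b, (∏ i ∈ T, rho S (dbA W σ i * x + dbB W r1 r2 σ y y' i)) - (b - a)| ≤
      (b - a) * (C * er C A w + C * dbE S W r1 r2 σ y y') + C * (z : ℝ) ^ (A + 4) := by
  obtain ⟨C, h1, h2⟩ := corr0_sub (Fin 4)
  refine ⟨C, h1, ?_⟩
  intro A w z S hA hw hz hS W r1 r2 σ y y' hα T a b hab
  have := h2 A w z S hA hw hz hS (dbA W σ) (dbB W r1 r2 σ y y') hα T a b hab
  rw [Fintype.card_fin] at this
  unfold dbE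
  convert this

open Classical in
/-- the average of the square of the error -/
theorem dbE_avg : ∃ C : ℝ, 1 ≤ C ∧ ∀ (w z W N : ℕ) (S : Finset ℕ), 2 ≤ w → PSet w z S → IsW w W →
    ∀ (r1 r2 σ : ℤ), (σ = 1 ∨ σ = -1) →
    ∑ y ∈ Finset.Ico (0 : ℤ) N, ∑ y' ∈ Finset.Ico (0 : ℤ) N, dbE S W r1 r2 σ y y' ^ 2 ≤
      C * N * (N * (w : ℝ) ^ (-(3 / 4 : ℝ)) + z) := by
  obtain ⟨Ce, hCe1, hCe⟩ := ers_sq_le
  obtain ⟨Ca, hCa1, hCa⟩ := ers_avg (3 / 4) (by norm_num) (by norm_num)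
  refine ⟨256 * Ce * Ca, by nlinarith, ?_⟩
  intro w z W N S hw hS hW r1 r2 σ hσ
  have hw0 : (0 : ℝ) ≤ (w : ℝ) ^ (-(3 / 4 : ℝ)) := by positivity
  set B : ℝ := N * (w : ℝ) ^ (-(3 / 4 : ℝ)) + z with hB
  have hB0 : 0 ≤ B := by positivity
  have hN0 : (0 : ℤ) ≤ N := by positivity
  -- pairs
  have hpair : ∀ i j : Fin 4, i ≠ j → ∑ y ∈ Finset.Ico (0 : ℤ) N, ∑ y' ∈ Finset.Ico (0 : ℤ) N,
      Ers (3 / 4) S (disc (dbA W σ) (dbB W r1 r2 σ y y') i j) ≤ N * (Ca * B) := by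
    intro i j hij
    rcases db_disc hw hS hW r1 r2 hσ i j hij with ⟨c, g, hc, hg⟩ | ⟨c, g, hc, hg⟩
    · rw [Finset.sum_comm]
      calc ∑ y' ∈ Finset.Ico (0 : ℤ) N, ∑ y ∈ Finset.Ico (0 : ℤ) N,
          Ers (3 / 4) S (disc (dbA W σ) (dbB W r1 r2 σ y y') i j)
          ≤ ∑ y' ∈ Finset.Ico (0 : ℤ) N, Ca * B := by
            apply Finset.sum_le_sum
            intro y' _
            have := hCa w z S (by omega) hS c (g y') hc 0 N hN0
            simp only [hg]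
            refine this.trans (le_of_eq ?_)
            rw [hB]
            push_cast
            ring
        _ = N * (Ca * B) := by
            rw [Finset.sum_const, Int.card_Ico, nsmul_eq_mul]
            simp
    · calc ∑ y ∈ Finset.Ico (0 : ℤ) N, ∑ y' ∈ Finset.Ico (0 : ℤ) N,
          Ers (3 / 4) S (disc (dbA W σ) (dbB W r1 r2 σ y y') i j)
          ≤ ∑ y ∈ Finset.Ico (0 : ℤ) N, Ca * B := by
            apply Finset.sum_le_sum
            intro y _
            have := hCa w z S (by omega) hS c (g y) hc 0 N hN0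
            simp only [hg]
            refine this.trans (le_of_eq ?_)
            rw [hB]
            push_cast
            ring
        _ = N * (Ca * B) := by
            rw [Finset.sum_const, Int.card_Ico, nsmul_eq_mul]
            simp
  -- pointwise
  have hpt : ∀ y y' : ℤ, dbE S W r1 r2 σ y y' ^ 2 ≤ 16 * ∑ i : Fin 4, ∑ j : Fin 4,
      if i ≠ j then Ce * Ers (3 / 4) S (disc (dbA W σ) (dbB W r1 r2 σ y y') i j) else 0 := by
    intro y y'
    unfold dbE
    have h1 := sq_sum_le_card_mul_sum_sq (s := (Finset.univ : Finset (Fin 4)))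
      (f := fun i => ∑ j : Fin 4,
        if i ≠ j then Ers (9 / 10) S (disc (dbA W σ) (dbB W r1 r2 σ y y') i j) else 0)
    refine h1.trans ?_
    have h2 : ∀ i : Fin 4, (∑ j : Fin 4,
        if i ≠ j then Ers (9 / 10) S (disc (dbA W σ) (dbB W r1 r2 σ y y') i j) else 0) ^ 2 ≤
        4 * ∑ j : Fin 4,
          if i ≠ j then Ce * Ers (3 / 4) S (disc (dbA W σ) (dbB W r1 r2 σ y y') i j) else 0 := by
      intro i
      have h3 := sq_sum_le_card_mul_sum_sq (s := (Finset.univ : Finset (Fin 4)))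
        (f := fun j => if i ≠ j then Ers (9 / 10) S (disc (dbA W σ) (dbB W r1 r2 σ y y') i j) else 0)
      refine h3.trans ?_
      simp only [Finset.card_univ, Fintype.card_fin, Nat.cast_ofNat]
      apply mul_le_mul_of_nonneg_left _ (by norm_num)
      apply Finset.sum_le_sum
      intro j _
      split_ifs
      · exact hCe w z S _ hS
      · simp
    simp only [Finset.card_univ, Fintype.card_fin, Nat.cast_ofNat]
    calc (4 : ℝ) * ∑ i : Fin 4, (∑ j : Fin 4,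
        if i ≠ j then Ers (9 / 10) S (disc (dbA W σ) (dbB W r1 r2 σ y y') i j) else 0) ^ 2
        ≤ 4 * ∑ i : Fin 4, (4 * ∑ j : Fin 4,
          if i ≠ j then Ce * Ers (3 / 4) S (disc (dbA W σ) (dbB W r1 r2 σ y y') i j) else 0) := by
          apply mul_le_mul_of_nonneg_left _ (by norm_num)
          exact Finset.sum_le_sum fun i _ => h2 i
      _ = _ := by rw [← Finset.mul_sum]; ring
  calc ∑ y ∈ Finset.Ico (0 : ℤ) N, ∑ y' ∈ Finset.Ico (0 : ℤ) N, dbE S W r1 r2 σ y y' ^ 2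
      ≤ ∑ y ∈ Finset.Ico (0 : ℤ) N, ∑ y' ∈ Finset.Ico (0 : ℤ) N, (16 * ∑ i : Fin 4, ∑ j : Fin 4,
      if i ≠ j then Ce * Ers (3 / 4) S (disc (dbA W σ) (dbB W r1 r2 σ y y') i j) else 0) :=
        Finset.sum_le_sum fun y _ => Finset.sum_le_sum fun y' _ => hpt y y'
    _ = 16 * ∑ i : Fin 4, ∑ j : Fin 4, ∑ y ∈ Finset.Ico (0 : ℤ) N, ∑ y' ∈ Finset.Ico (0 : ℤ) N,
      (if i ≠ j then Ce * Ers (3 / 4) S (disc (dbA W σ) (dbB W r1 r2 σ y y') i j) else 0) := by
        simp_rw [← Finset.mul_sum]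
        congr 1
        have e1 : ∀ y : ℤ, ∑ y' ∈ Finset.Ico (0 : ℤ) N, ∑ i : Fin 4, ∑ j : Fin 4,
            (if i ≠ j then Ce * Ers (3 / 4) S (disc (dbA W σ) (dbB W r1 r2 σ y y') i j) else 0) =
            ∑ i : Fin 4, ∑ j : Fin 4, ∑ y' ∈ Finset.Ico (0 : ℤ) N,
            (if i ≠ j then Ce * Ers (3 / 4) S (disc (dbA W σ) (dbB W r1 r2 σ y y') i j) else 0) := by
          intro y
          rw [Finset.sum_comm]
          exact Finset.sum_congr rfl fun i _ => Finset.sum_comm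
        simp_rw [e1]
        rw [Finset.sum_comm]
        exact Finset.sum_congr rfl fun i _ => Finset.sum_comm
    _ ≤ 16 * ∑ i : Fin 4, ∑ j : Fin 4, Ce * (N * (Ca * B)) := by
        apply mul_le_mul_of_nonneg_left _ (by norm_num)
        refine Finset.sum_le_sum fun i _ => Finset.sum_le_sum fun j _ => ?_
        by_cases hij : i = j
        · simp only [hij, ne_eq, not_true_eq_false, if_false, Finset.sum_const_zero]
          positivity
        · simp only [ne_eq, hij, not_false_eq_true, if_true]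
          simp_rw [← Finset.mul_sum]
          exact mul_le_mul_of_nonneg_left (hpair i j hij) (by linarith)
    _ = 256 * Ce * Ca * N * B := by
        simp only [Finset.sum_const, Finset.card_univ, Fintype.card_fin, nsmul_eq_mul]
        push_cast
        ring

theorem db_point {a b κ ρ1 ρ2 : ℝ} (hκ : 1 ≤ κ) (ha : 0 ≤ a) (hb : 0 ≤ b) (h1 : a ≤ κ * ρ1)
    (h2 : b ≤ κ * ρ2) (hρ1 : 0 ≤ ρ1) (hρ2 : 0 ≤ ρ2) : |a * b - 1| ≤ κ ^ 2 * (1 + ρ1 * ρ2) := by
  have h3 : a * b ≤ κ * ρ1 * (κ * ρ2) := mul_le_mul h1 h2 hb (by positivity)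
  have h4 : 0 ≤ a * b := mul_nonneg ha hb
  have h5 : (1 : ℝ) ≤ κ ^ 2 := by nlinarith
  rw [abs_le]
  constructor
  · nlinarith [mul_nonneg hρ1 hρ2]
  · nlinarith [mul_nonneg hρ1 hρ2]

/-- pointwise bound of the kernel -/
theorem db_ker {W N z : ℕ} {S : Finset ℕ} (hS : ∀ p ∈ S, p.Prime) {κ : ℝ} (hκ : 1 ≤ κ) (hW : 0 < W)
    (hN : 1 ≤ N)
    (hmaj : ∀ v : ℤ, |v| ≤ 5 * W * N → (z : ℤ) < |v| → lamv W v ≤ κ * rho S v)
    {r1 r2 σ x y : ℤ} (h1 : |r1| < 2 * W) (h2 : |r2| < 2 * W) (hσ : σ = 1 ∨ σ = -1)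
    (hx : x ∈ Finset.Ico (0 : ℤ) N) (hy : y ∈ Finset.Ico (0 : ℤ) N)
    (hz1 : (z : ℤ) < |(r1 + W * y) + W * x|) (hz2 : (z : ℤ) < |(r2 - W * σ * y) + W * σ * x|) :
    |ker W r1 r2 σ x y| ≤ κ ^ 2 * (1 + rho S (W * x + (r1 + W * y)) *
      rho S (W * σ * x + (r2 - W * σ * y))) := by
  rw [Finset.mem_Ico] at hx hy
  have e1 : r1 + W * (x + y) = W * x + (r1 + W * y) := by ring
  have e2 : r2 + W * (σ * (x - y)) = W * σ * x + (r2 - W * σ * y) := by ring
  have hr1 := rho_nonneg hS (W * x + (r1 + W * y))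
  have hr2 := rho_nonneg hS (W * σ * x + (r2 - W * σ * y))
  unfold ker
  split_ifs with h
  · unfold lam
    rw [e1, e2]
    apply db_point hκ (rc_lamv_nonneg _ _) (rc_lamv_nonneg _ _) _ _ hr1 hr2
    · apply hmaj
      · rw [← e1]
        exact rc_arg_le hW hN h1 (by omega) (by omega)
      · rw [add_comm]; exact hz1
    · apply hmaj
      · rw [← e2]
        refine rc_arg_le hW hN h2 h ?_
        rcases hσ with rfl | rfl <;> omega
      · rw [add_comm]; exact hz2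
  · rw [abs_zero]
    positivity

open Classical in
/-- Chunk DB. Take `s` a large absolute constant, `z = rt s N`. For `|v| > z`,
`lamv W v ≤ C s rho v` (`majo`), so `|ker x y| ≤ (C s)^2 (1 + rho(r1 + W (x+y)) rho(σ r2 + W (x-y)))`
except if one of the two numbers is `≤ z` in absolute value, which for given `y` happens for `≤ 4 z + 2`
values of `x`; these contribute `≤ N`. Then `corr0_sub` gives the bound with
`E(y,y') = ∑ Ers (9/10) S (discriminants)`; finally `ers_sq_le`, `ers_avg`. -/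
theorem db : ∃ C : ℝ, 1 ≤ C ∧ ∀ ε : ℝ, 0 < ε → ∃ w0 : ℕ, ∀ w W : ℕ, w0 ≤ w → IsW w W → ∃ N0 : ℕ,
    ∀ N : ℕ, N0 ≤ N → ∀ (r1 r2 σ : ℤ), |r1| < 2 * W → |r2| < 2 * W → (σ = 1 ∨ σ = -1) →
    ∃ E : ℤ → ℤ → ℝ, (∀ y y', 0 ≤ E y y') ∧
    (∀ y ∈ Finset.Ico (0 : ℤ) N, ∀ y' ∈ Finset.Ico (0 : ℤ) N,
      ∑ x ∈ Finset.Ico (0 : ℤ) N, |ker W r1 r2 σ x y * ker W r1 r2 σ x y'| ≤
        C * N * (1 + E y y')) ∧
    ∑ y ∈ Finset.Ico (0 : ℤ) N, ∑ y' ∈ Finset.Ico (0 : ℤ) N, E y y' ^ 2 ≤ ε * N ^ 2 := by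
  obtain ⟨Cc, hCc1, hCc⟩ := db_corr
  obtain ⟨Cm, hCm1, hCm⟩ := majo
  obtain ⟨Cv, hCv1, hCv⟩ := dbE_avg
  obtain ⟨s, hs⟩ : ∃ s, s = Cc + 4 := ⟨_, rfl⟩
  obtain ⟨κ, hκ⟩ : ∃ κ : ℝ, κ = Cm * s := ⟨_, rfl⟩
  have hsr : (1 : ℝ) ≤ s := by exact_mod_cast (by omega : 1 ≤ s)
  have hκ1 : 1 ≤ κ := by rw [hκ]; nlinarith
  have hCcr : (1 : ℝ) ≤ Cc := by exact_mod_cast hCc1
  refine ⟨4 * κ ^ 4 * (1 + 3 * Cc) + 1, by
    have : 0 ≤ 4 * κ ^ 4 * (1 + 3 * (Cc : ℝ)) := by positivity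
    linarith, fun ε hε => ?_⟩
  obtain ⟨w1, hw1⟩ : ∃ w1 : ℕ, ∀ w : ℕ, w1 ≤ w → Cv * (w : ℝ) ^ (-(3 / 4 : ℝ)) ≤ ε / 2 := by
    have h := (tendsto_rpow_neg_atTop (show (0 : ℝ) < 3 / 4 by norm_num)).comp
      tendsto_natCast_atTop_atTop
    have h' := h.eventually (gt_mem_nhds (show 0 < ε / (2 * Cv) by positivity))
    obtain ⟨w1, hw1⟩ := Filter.eventually_atTop.mp h'
    refine ⟨w1, fun w hw => ?_⟩
    have := (hw1 w hw).le
    simp only [Function.comp_apply] at this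
    calc Cv * (w : ℝ) ^ (-(3 / 4 : ℝ)) ≤ Cv * (ε / (2 * Cv)) := by gcongr
      _ = ε / 2 := by field_simp
  refine ⟨w1 + Cc + 2, fun w W hw hW => ?_⟩
  have hW0 := hW.1
  obtain ⟨M0, hM0⟩ := hCm s (by omega) w W hW
  obtain ⟨N1, hN1⟩ := removed_small W hW0 (1 / 4) (by norm_num)
  obtain ⟨N2, hN2⟩ := Filter.eventually_atTop.mp
    ((rt_tendsto (s := s) (by omega)).eventually (Filter.eventually_ge_atTop 2))
  obtain ⟨N3, hN3⟩ := exists_nat_ge ((2 * Cv / ε) ^ 2)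
  refine ⟨M0 + N1 + N2 + N3 + 1, fun N hN r1 r2 σ hr1 hr2 hσ => ?_⟩
  have hz2 := hN2 N (by omega)
  have hrem := hN1 N (by omega)
  have hmaj' := hM0 N (by omega)
  obtain ⟨z, hz⟩ : ∃ z, z = rt s N := ⟨_, rfl⟩
  rw [← hz] at hz2 hmaj'
  have hN1' : 1 ≤ N := by omega
  have hNr : (1 : ℝ) ≤ N := by exact_mod_cast hN1'
  have hzs : z ^ s ≤ N := by rw [hz]; exact rt_pow_le (by omega) N
  have hzq : (z : ℝ) ≤ Real.sqrt N := by rw [hz]; exact rt_sq_le (by omega) N
  have hsq0 : 0 ≤ Real.sqrt (N : ℝ) := Real.sqrt_nonneg _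
  have hss : Real.sqrt N * Real.sqrt N = (N : ℝ) := Real.mul_self_sqrt (by linarith)
  have hS := pset_sprimes w z
  have hmaj : ∀ v : ℤ, |v| ≤ 5 * W * N → (z : ℤ) < |v| → lamv W v ≤ κ * rho (sprimes w z) v := by
    intro v h1 h2
    rw [hκ]
    exact hmaj' v h1 h2
  refine ⟨dbE (sprimes w z) W r1 r2 σ, dbE_nonneg _ _ _ _ _, ?_, ?_⟩
  · intro y hy y' hy'
    set E := dbE (sprimes w z) W r1 r2 σ y y' with hE
    have hE0 : 0 ≤ E := dbE_nonneg _ _ _ _ _ _ _
    set α := dbA W σ with hα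
    set β := dbB W r1 r2 σ y y' with hβ
    set F : Finset (Fin 4) → ℤ → ℝ := fun T x => ∏ i ∈ T, rho (sprimes w z) (α i * x + β i) with hF
    have hFs : ∀ T, ∑ x ∈ Finset.Ico (0 : ℤ) N, F T x ≤ N * ((1 + 3 * Cc) * (1 + E)) := by
      intro T
      have h := hCc Cc w z (sprimes w z) le_rfl (by omega) hz2 hS W r1 r2 σ y y'
        (db_unitA hS hW hσ) T 0 N (by positivity)
      have h1 := (abs_le.mp h).2
      have her : er Cc Cc w ≤ 2 := rc_er_le_two (by omega)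
      have hzz : (z : ℝ) ^ (Cc + 4) ≤ N := by
        have : z ^ (Cc + 4) ≤ N := by rw [← hs]; exact hzs
        exact_mod_cast this
      rw [← hE] at h1
      push_cast at h1
      have h2 : (N : ℝ) * (Cc * er Cc Cc w + Cc * E) ≤ N * (Cc * 2 + Cc * E) := by gcongr
      have h3 : (Cc : ℝ) * (z : ℝ) ^ (Cc + 4) ≤ Cc * N := by gcongr
      have h4 : ∑ x ∈ Finset.Ico (0 : ℤ) N, F T x ≤ N + N * (Cc * 2 + Cc * E) + Cc * N := by
        have h5 : ((N : ℝ) - 0) * (Cc * er Cc Cc w + Cc * E) = N * (Cc * er Cc Cc w + Cc * E) := by ring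
        rw [h5] at h1
        simp only [hF]
        linarith
      refine h4.trans ?_
      have h6 : 0 ≤ (N : ℝ) * Cc * E := by positivity
      have h7 : 0 ≤ (N : ℝ) * E := by positivity
      nlinarith
    -- the exceptional set
    set L : ℝ := (LL W N ^ 2 + 1) ^ 2 with hL
    have hL0 : 0 ≤ L := by positivity
    set Bd : Finset ℤ := Finset.univ.biUnion fun i : Fin 4 => bad N (β i) (α i) z with hBd
    have hα0 : ∀ i, α i ≠ 0 := by
      intro i
      have hWz : (W : ℤ) ≠ 0 := by exact_mod_cast hW0.ne'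
      have hWs : (W : ℤ) * σ ≠ 0 := by
        rcases hσ with rfl | rfl
        · simpa using hWz
        · simpa using hWz
      rw [hα]
      fin_cases i
      · exact hWz
      · exact hWs
      · exact hWz
      · exact hWs
    have hBc : (Bd.card : ℝ) ≤ 2 * (4 * Real.sqrt N + 2) := by
      have h1 : Bd.card ≤ ∑ i : Fin 4, (bad N (β i) (α i) z).card := Finset.card_biUnion_le
      have h2 : ∑ i : Fin 4, (bad N (β i) (α i) z).card ≤ ∑ i : Fin 4, (2 * z + 1) :=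
        Finset.sum_le_sum fun i _ => card_bad (hα0 i) z
      rw [Finset.sum_const, Finset.card_univ, Fintype.card_fin, smul_eq_mul] at h2
      have h3 : (Bd.card : ℝ) ≤ 4 * (2 * z + 1) := by exact_mod_cast h1.trans h2
      linarith
    have hpt : ∀ x ∈ Finset.Ico (0 : ℤ) N, |ker W r1 r2 σ x y * ker W r1 r2 σ x y'| ≤
        κ ^ 4 * (F ∅ x + F {0, 1} x + F {2, 3} x + F Finset.univ x) + (if x ∈ Bd then L else 0) := by
      intro x hx
      have hρ : ∀ i, 0 ≤ rho (sprimes w z) (α i * x + β i) := fun i => rho_nonneg hS.prime _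
      have hF0 : ∀ T, 0 ≤ F T x := fun T => Finset.prod_nonneg fun i _ => hρ i
      by_cases hxB : x ∈ Bd
      · rw [if_pos hxB, abs_mul]
        have h1 := ker_le hW0 (by omega : 0 < N) hr1 hr2 hσ hx hy
        have h2 := ker_le hW0 (by omega : 0 < N) hr1 hr2 hσ hx hy'
        have h3 : |ker W r1 r2 σ x y| * |ker W r1 r2 σ x y'| ≤ (LL W N ^ 2 + 1) * (LL W N ^ 2 + 1) :=
          mul_le_mul h1 h2 (abs_nonneg _) (by positivity)
        have h4 : 0 ≤ κ ^ 4 * (F ∅ x + F {0, 1} x + F {2, 3} x + F Finset.univ x) := by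
          have := hF0 ∅
          have := hF0 {0, 1}
          have := hF0 {2, 3}
          have := hF0 Finset.univ
          positivity
        rw [hL, sq]
        linarith
      · rw [if_neg hxB, add_zero, abs_mul]
        have hbad : ∀ i : Fin 4, (z : ℤ) < |β i + α i * x| := by
          intro i
          by_contra hcon
          apply hxB
          rw [hBd, Finset.mem_biUnion]
          exact ⟨i, Finset.mem_univ _, Finset.mem_filter.mpr ⟨hx, not_lt.mp hcon⟩⟩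
        have k1 := db_ker hS.prime hκ1 hW0 hN1' hmaj hr1 hr2 hσ hx hy (hbad 0) (hbad 1)
        have k2 := db_ker hS.prime hκ1 hW0 hN1' hmaj hr1 hr2 hσ hx hy' (hbad 2) (hbad 3)
        have e0 : F ∅ x = 1 := by simp [hF]
        have e1 : F {0, 1} x = rho (sprimes w z) (α 0 * x + β 0) * rho (sprimes w z) (α 1 * x + β 1) := by
          simp only [hF]
          rw [Finset.prod_pair (by decide)]
        have e2 : F {2, 3} x = rho (sprimes w z) (α 2 * x + β 2) * rho (sprimes w z) (α 3 * x + β 3) := by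
          simp only [hF]
          rw [Finset.prod_pair (by decide)]
        have e3 : F Finset.univ x = F {0, 1} x * F {2, 3} x := by
          rw [e1, e2]
          simp only [hF, Fin.prod_univ_four]
          ring
        have k1' : |ker W r1 r2 σ x y| ≤ κ ^ 2 * (1 + F {0, 1} x) := by rw [e1]; exact k1
        have k2' : |ker W r1 r2 σ x y'| ≤ κ ^ 2 * (1 + F {2, 3} x) := by rw [e2]; exact k2
        have h0 := hF0 {0, 1}
        have h0' := hF0 {2, 3}
        calc |ker W r1 r2 σ x y| * |ker W r1 r2 σ x y'|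
            ≤ (κ ^ 2 * (1 + F {0, 1} x)) * (κ ^ 2 * (1 + F {2, 3} x)) :=
              mul_le_mul k1' k2' (abs_nonneg _) (by positivity)
          _ = κ ^ 4 * (F ∅ x + F {0, 1} x + F {2, 3} x + F Finset.univ x) := by
              rw [e0, e3]; ring
    calc ∑ x ∈ Finset.Ico (0 : ℤ) N, |ker W r1 r2 σ x y * ker W r1 r2 σ x y'|
        ≤ ∑ x ∈ Finset.Ico (0 : ℤ) N, (κ ^ 4 * (F ∅ x + F {0, 1} x + F {2, 3} x + F Finset.univ x) +
          (if x ∈ Bd then L else 0)) := Finset.sum_le_sum hpt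
      _ = κ ^ 4 * (∑ x ∈ Finset.Ico (0 : ℤ) N, F ∅ x + ∑ x ∈ Finset.Ico (0 : ℤ) N, F {0, 1} x +
            ∑ x ∈ Finset.Ico (0 : ℤ) N, F {2, 3} x + ∑ x ∈ Finset.Ico (0 : ℤ) N, F Finset.univ x) +
          ∑ x ∈ Finset.Ico (0 : ℤ) N, (if x ∈ Bd then L else 0) := by
          rw [Finset.sum_add_distrib, ← Finset.mul_sum]
          simp only [Finset.sum_add_distrib]
      _ ≤ κ ^ 4 * (N * ((1 + 3 * Cc) * (1 + E)) + N * ((1 + 3 * Cc) * (1 + E)) +
            N * ((1 + 3 * Cc) * (1 + E)) + N * ((1 + 3 * Cc) * (1 + E))) + N := by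
          apply add_le_add
          · apply mul_le_mul_of_nonneg_left _ (by positivity)
            exact add_le_add (add_le_add (add_le_add (hFs _) (hFs _)) (hFs _)) (hFs _)
          · rw [← Finset.sum_filter, Finset.sum_const, nsmul_eq_mul]
            have h1 : (((Finset.Ico (0 : ℤ) N).filter (fun x => x ∈ Bd)).card : ℝ) ≤ Bd.card := by
              exact_mod_cast Finset.card_le_card (fun x hx => (Finset.mem_filter.mp hx).2)
            have h2 : (4 * Real.sqrt N + 2) * L * N ≤ 1 / 4 * N * N := by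
              rw [hL]
              nlinarith [hrem]
            have h3 : (4 * Real.sqrt N + 2) * L ≤ 1 / 4 * N :=
              le_of_mul_le_mul_right h2 (by linarith)
            calc (((Finset.Ico (0 : ℤ) N).filter (fun x => x ∈ Bd)).card : ℝ) * L
                ≤ (2 * (4 * Real.sqrt N + 2)) * L :=
                  mul_le_mul_of_nonneg_right (h1.trans hBc) hL0
              _ ≤ N := by nlinarith
      _ ≤ (4 * κ ^ 4 * (1 + 3 * Cc) + 1) * N * (1 + E) := by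
          have : (N : ℝ) ≤ N * (1 + E) := by nlinarith
          have e : (4 * κ ^ 4 * (1 + 3 * Cc) + 1) * N * (1 + E) =
            κ ^ 4 * (N * ((1 + 3 * Cc) * (1 + E)) + N * ((1 + 3 * Cc) * (1 + E)) +
            N * ((1 + 3 * Cc) * (1 + E)) + N * ((1 + 3 * Cc) * (1 + E))) + N * (1 + E) := by ring
          rw [e]
          linarith
  · refine (hCv w z W N (sprimes w z) (by omega) hS hW r1 r2 σ hσ).trans ?_
    have h1 := hw1 w (by omega)
    have h2 : Cv * z ≤ ε / 2 * N := by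
      have h3 : 2 * Cv / ε ≤ Real.sqrt N := by
        apply Real.le_sqrt_of_sq_le
        exact hN3.trans (by exact_mod_cast (by omega : N3 ≤ N))
      have h4 : Cv ≤ ε / 2 * Real.sqrt N := by
        rw [div_le_iff₀ hε] at h3
        linarith
      calc Cv * z ≤ (ε / 2 * Real.sqrt N) * Real.sqrt N := by
            apply mul_le_mul h4 hzq (by positivity) (by positivity)
        _ = ε / 2 * N := by rw [mul_assoc, hss]
    calc Cv * N * (N * (w : ℝ) ^ (-(3 / 4 : ℝ)) + z)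
        = N * (N * (Cv * (w : ℝ) ^ (-(3 / 4 : ℝ))) + Cv * z) := by ring
      _ ≤ N * (N * (ε / 2) + ε / 2 * N) := by gcongr
      _ = ε * N ^ 2 := by ring

end Pool.Agent.Lib.H18GB
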