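import Pool.Agent.Lib.H18GB2.Box
import Pool.Agent.Lib.H18GB2.SWC
import Pool.Agent.Lib.H18GB2.DB

/-!
# Project GB2: BX1 (the unweighted box sum of the prime kernel is small)
-/

namespace Pool.Agent.Lib.H18GB

open Finset Pool.Agent.Lib.Sieve

private theorem bx1_expand (N : ℕ) (k : ℤ → ℤ → ℝ) : box N k (fun _ => 1) (fun _ => 1) =
    ∑ y' ∈ Finset.Ico (0 : ℤ) N, ∑ y ∈ Finset.Ico (0 : ℤ) N,
      (∑ x ∈ Finset.Ico (0 : ℤ) N, k x y * k x y') ^ 2 := by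
  rw [box_swap, Finset.sum_comm]
  unfold box
  apply Finset.sum_congr rfl
  intro y _
  apply Finset.sum_congr rfl
  intro y' _
  rw [one_mul, one_mul]
  congr 1
  apply Finset.sum_congr rfl
  intro x _
  rw [one_mul]

private theorem bx1_lamv_neg (W : ℕ) (v : ℤ) : lamv W (-v) = lamv W v := by
  unfold lamv
  rw [Int.natAbs_neg]

/-- the sum over one good `y'` -/
private theorem bx1_good {ε1 : ℝ} {w W N : ℕ} (hw2 : 2 ≤ w) (hW : 0 < W) (hN : 1 ≤ N)
    {r1 r2 σ : ℤ} (hr1 : |r1| < 2 * W) (hr2 : |r2| < 2 * W) (hσ : σ = 1 ∨ σ = -1)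
    (h0 : ∀ (F G : ℤ → ℝ), (∀ x, |F x| ≤ 1) → (∀ y, |G y| ≤ 1) →
      |∑ x ∈ Finset.Ico (0 : ℤ) N, ∑ y ∈ Finset.Ico (0 : ℤ) N, F x * G y * ker W r1 r2 σ x y| ≤
        ε1 * N ^ 2)
    (h2 : ∀ (b b' : ℤ), |b| ≤ 4 * W * N → |b'| ≤ 4 * W * N → b + b' ≠ 0 → ∀ (F G : ℤ → ℝ),
      (∀ x, |F x| ≤ lamv W (b + W * x) * lamv W (b' - W * x) / SW w (b + b')) →
      (∀ y, |G y| ≤ 1) →
      |∑ x ∈ Finset.Ico (0 : ℤ) N, ∑ y ∈ Finset.Ico (0 : ℤ) N, F x * G y * ker W r1 r2 σ x y| ≤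
        ε1 * N ^ 2)
    {y' : ℤ} (hy' : y' ∈ Finset.Ico (0 : ℤ) N) (hg1 : r1 - σ * r2 + 2 * W * y' ≠ 0)
    (hg2 : SW w (r1 - σ * r2 + 2 * W * y') ≤ 2) (G : ℤ → ℝ) (hG : ∀ y, |G y| ≤ 1) :
    |∑ x ∈ Finset.Ico (0 : ℤ) N, ∑ y ∈ Finset.Ico (0 : ℤ) N,
      G y * (ker W r1 r2 σ x y * ker W r1 r2 σ x y')| ≤ 3 * ε1 * N ^ 2 := by
  have hWz : (1 : ℤ) ≤ W := by exact_mod_cast hW
  have hNz : (1 : ℤ) ≤ N := by exact_mod_cast hN
  rw [Finset.mem_Ico] at hy'
  have hy1 : (W : ℤ) * y' ≤ W * N := mul_le_mul_of_nonneg_left (by omega) (by omega)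
  have hy0 : 0 ≤ (W : ℤ) * y' := mul_nonneg (by omega) hy'.1
  have hWN : (W : ℤ) ≤ W * N := by nlinarith
  set b : ℤ := r1 + W * y' with hb
  set b' : ℤ := -(σ * r2) + W * y' with hb'
  have hbb : b + b' = r1 - σ * r2 + 2 * W * y' := by rw [hb, hb']; ring
  have hbA : |b| ≤ 4 * W * N := by
    rw [abs_lt] at hr1
    rw [abs_le]
    constructor <;> nlinarith
  have hbA' : |b'| ≤ 4 * W * N := by
    rw [abs_lt] at hr2
    rw [abs_le]
    rcases hσ with rfl | rfl <;> constructor <;> nlinarith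
  set F1 : ℤ → ℝ := fun x => if 0 ≤ σ * (x - y') then
    lam W r1 (x + y') * lam W r2 (σ * (x - y')) / 2 else 0 with hF1
  set F2 : ℤ → ℝ := fun x => if 0 ≤ σ * (x - y') then 1 else 0 with hF2
  have hF1b : ∀ x, |F1 x| ≤ lamv W (b + W * x) * lamv W (b' - W * x) / SW w (b + b') := by
    intro x
    have e1 : lam W r1 (x + y') = lamv W (b + W * x) := by
      unfold lam
      congr 1
      rw [hb]
      ring
    have e2 : lam W r2 (σ * (x - y')) = lamv W (b' - W * x) := by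
      unfold lam
      rcases hσ with rfl | rfl
      · rw [← bx1_lamv_neg]
        congr 1
        rw [hb']
        ring
      · congr 1
        rw [hb']
        ring
    have a1 := lamv_nonneg W (b + W * x)
    have a2 := lamv_nonneg W (b' - W * x)
    have a3 := rcn_one_le_SW hw2 (b + b')
    have a4 : SW w (b + b') ≤ 2 := by rw [hbb]; exact hg2
    simp only [hF1]
    rw [e1, e2]
    split_ifs
    · rw [abs_of_nonneg (by positivity)]
      exact div_le_div_of_nonneg_left (mul_nonneg a1 a2) (by linarith) a4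
    · rw [abs_zero]
      exact div_nonneg (mul_nonneg a1 a2) (by linarith)
  have hF2b : ∀ x, |F2 x| ≤ 1 := by
    intro x
    simp only [hF2]
    split_ifs <;> simp
  have k1 := h2 b b' hbA hbA' (by rw [hbb]; exact hg1) F1 G hF1b hG
  have k2 := h0 F2 G hF2b hG
  have key : ∑ x ∈ Finset.Ico (0 : ℤ) N, ∑ y ∈ Finset.Ico (0 : ℤ) N,
      G y * (ker W r1 r2 σ x y * ker W r1 r2 σ x y') =
      2 * (∑ x ∈ Finset.Ico (0 : ℤ) N, ∑ y ∈ Finset.Ico (0 : ℤ) N,
        F1 x * G y * ker W r1 r2 σ x y) -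
      ∑ x ∈ Finset.Ico (0 : ℤ) N, ∑ y ∈ Finset.Ico (0 : ℤ) N,
        F2 x * G y * ker W r1 r2 σ x y := by
    rw [Finset.mul_sum, ← Finset.sum_sub_distrib]
    apply Finset.sum_congr rfl
    intro x _
    rw [Finset.mul_sum, ← Finset.sum_sub_distrib]
    apply Finset.sum_congr rfl
    intro y _
    have e3 : ker W r1 r2 σ x y' = 2 * F1 x - F2 x := by
      simp only [hF1, hF2]
      unfold ker
      split_ifs <;> ring
    rw [e3]
    ring
  rw [key]
  rw [abs_le] at k1 k2 ⊢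
  constructor <;> linarith [k1.1, k1.2, k2.1, k2.2]

/-- Chunk BX1. `k = ker W r1 r2 σ`. `box = ∑_{y'} ∑_{x,y} k(x,y) k(x,y') D(y,y')`,
`D(y,y') = ∑_{x'} k(x',y) k(x',y')`, `|D| ≤ C N (1 + E)` (`db`). The part `E(y,y') > 1` is
`∑ D^2 ≤ 4 C^2 N^2 ∑ E^2`. For the part `E ≤ 1` put `G(y) = D(y,y') 1[E ≤ 1] / (2 C N)`, `|G| ≤ 1`, and
for fixed `y'` split `k(x,y') = λλ 1[σ(x-y') ≥ 0] - 1[σ(x-y') ≥ 0]`: if `y' ≥ 2` and
`SW w (r1 - σ r2 + 2 W y') ≤ 2` (`swc`: all but few `y'`), `rcn2` with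
`F(x) = λλ 1[..] / 2`, `b = r1 + W y'`, `b' = - σ r2 + W y'`, and `rcn0` give `≤ 3 ε1 N^2` for
`∑_{x,y} k(x,y) k(x,y') G(y)`. For the exceptional `y'` use `|..| = ∑_{y : E ≤ 1} D^2 / (2 C N)`
`≤ 2 C N^2`. -/
theorem bx1 (ε : ℝ) (hε : 0 < ε) : ∃ w0 : ℕ, ∀ w W : ℕ, w0 ≤ w → IsW w W → ∃ N0 : ℕ,
    ∀ N : ℕ, N0 ≤ N → ∀ (r1 r2 σ : ℤ), |r1| < 2 * W → IsCoprime r1 (W : ℤ) → |r2| < 2 * W →
    IsCoprime r2 (W : ℤ) → (σ = 1 ∨ σ = -1) →
    box N (ker W r1 r2 σ) (fun _ => 1) (fun _ => 1) ≤ ε * N ^ 4 := by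
  classical
  obtain ⟨C, hC, hdb⟩ := db
  have hC0 : 0 < C := by linarith
  obtain ⟨w1, hw1⟩ := hdb (ε / (16 * C ^ 2)) (by positivity)
  obtain ⟨w2, hw2⟩ := rcn0 (ε / (24 * C)) (by positivity)
  obtain ⟨w3, hw3⟩ := rcn2 (ε / (24 * C)) (by positivity)
  obtain ⟨w4, hw4⟩ := swc (ε / (16 * C ^ 2)) (by positivity)
  refine ⟨max (max w1 w2) (max (max w3 w4) 2), fun w W hw hW => ?_⟩
  obtain ⟨N1, hN1⟩ := hw1 w W (by omega) hW
  obtain ⟨N2, hN2⟩ := hw2 w W (by omega) hW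
  obtain ⟨N3, hN3⟩ := hw3 w W (by omega) hW
  obtain ⟨N4, hN4⟩ := hw4 w W (by omega) hW
  refine ⟨max (max N1 N2) (max (max N3 N4) 1), fun N hN r1 r2 σ hr1 hr1c hr2 hr2c hσ => ?_⟩
  obtain ⟨E, hE0, hE1, hE2⟩ := hN1 N (by omega) r1 r2 σ hr1 hr2 hσ
  have hN1' : 1 ≤ N := by omega
  have hNr : (1 : ℝ) ≤ N := by exact_mod_cast hN1'
  have hNpos : (0 : ℝ) < N := by linarith
  have hWz : (1 : ℤ) ≤ W := by exact_mod_cast hW.1
  have hc8 : |r1 - σ * r2| ≤ 8 * W := by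
    rw [abs_lt] at hr1 hr2
    rw [abs_le]
    rcases hσ with rfl | rfl <;> constructor <;> nlinarith
  have hbad := hN4 N (by omega) (r1 - σ * r2) hc8
  set I := Finset.Ico (0 : ℤ) N with hI
  set k := ker W r1 r2 σ with hk
  set D : ℤ → ℤ → ℝ := fun y y' => ∑ x ∈ I, k x y * k x y' with hD
  have hDb : ∀ y ∈ I, ∀ y' ∈ I, |D y y'| ≤ C * N * (1 + E y y') := fun y hy y' hy' =>
    (Finset.abs_sum_le_sum_abs _ _).trans (hE1 y hy y' hy')
  have hcard : ((I.card : ℕ) : ℝ) = N := by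
    rw [hI, Int.card_Ico]
    simp
  rw [bx1_expand]
  -- pointwise splitting
  have split : ∀ y' ∈ I, ∀ y ∈ I, D y y' ^ 2 ≤
      (if E y y' ≤ 1 then D y y' ^ 2 else 0) + 4 * C ^ 2 * N ^ 2 * E y y' ^ 2 := by
    intro y' hy' y hy
    split_ifs with h
    · have : 0 ≤ 4 * C ^ 2 * N ^ 2 * E y y' ^ 2 := by positivity
      linarith
    · rw [not_le] at h
      have h1 := hDb y hy y' hy'
      have h2 : C * N * (1 + E y y') ≤ 2 * C * N * E y y' := by
        have : C * N * (1 + E y y') ≤ C * N * (2 * E y y') :=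
          mul_le_mul_of_nonneg_left (by linarith) (by positivity)
        linarith
      have h3 : D y y' ^ 2 ≤ (2 * C * N * E y y') ^ 2 := by
        rw [← sq_abs (D y y')]
        exact pow_le_pow_left₀ (abs_nonneg _) (h1.trans h2) 2
      have h4 : (2 * C * N * E y y') ^ 2 = 4 * C ^ 2 * N ^ 2 * E y y' ^ 2 := by ring
      linarith
  set B := I.filter fun y => r1 - σ * r2 + 2 * W * y = 0 ∨ 2 < SW w (r1 - σ * r2 + 2 * W * y)
    with hB
  -- the part with `E ≤ 1`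
  have part : ∀ y' ∈ I, ∑ y ∈ I, (if E y y' ≤ 1 then D y y' ^ 2 else 0) ≤
      ε / 4 * N ^ 3 + (if y' ∈ B then 4 * C ^ 2 * N ^ 3 else 0) := by
    intro y' hy'
    by_cases hyB : y' ∈ B
    · rw [if_pos hyB]
      have h1 : ∀ y ∈ I, (if E y y' ≤ 1 then D y y' ^ 2 else 0) ≤ 4 * C ^ 2 * N ^ 2 := by
        intro y hy
        split_ifs with h
        · have h2 := hDb y hy y' hy'
          have h3 : C * N * (1 + E y y') ≤ 2 * C * N := by
            have : C * N * (1 + E y y') ≤ C * N * 2 :=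
              mul_le_mul_of_nonneg_left (by linarith) (by positivity)
            linarith
          have h4 : D y y' ^ 2 ≤ (2 * C * N) ^ 2 := by
            rw [← sq_abs (D y y')]
            exact pow_le_pow_left₀ (abs_nonneg _) (h2.trans h3) 2
          have h5 : (2 * C * N) ^ 2 = 4 * C ^ 2 * N ^ 2 := by ring
          linarith
        · positivity
      have h2 := Finset.sum_le_sum h1
      rw [Finset.sum_const, nsmul_eq_mul, hcard] at h2
      have h3 : 0 ≤ ε / 4 * (N : ℝ) ^ 3 := by positivity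
      have h4 : (N : ℝ) * (4 * C ^ 2 * N ^ 2) = 4 * C ^ 2 * N ^ 3 := by ring
      linarith
    · rw [if_neg hyB, add_zero]
      have hg : ¬ (r1 - σ * r2 + 2 * W * y' = 0 ∨ 2 < SW w (r1 - σ * r2 + 2 * W * y')) := by
        intro h
        exact hyB (by rw [hB, Finset.mem_filter]; exact ⟨hy', h⟩)
      rw [not_or, not_lt] at hg
      set G : ℤ → ℝ := fun y => if y ∈ I ∧ E y y' ≤ 1 then D y y' / (2 * C * N) else 0 with hG
      have hGb : ∀ y, |G y| ≤ 1 := by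
        intro y
        simp only [hG]
        split_ifs with h
        · have h2 := hDb y h.1 y' hy'
          have h3 : C * N * (1 + E y y') ≤ 2 * C * N := by
            have : C * N * (1 + E y y') ≤ C * N * 2 :=
              mul_le_mul_of_nonneg_left (by linarith [h.2]) (by positivity)
            linarith
          rw [abs_div, abs_of_pos (show 0 < 2 * C * N by positivity), div_le_one (by positivity)]
          linarith
        · simp
      have h5 := bx1_good (w := w) (by omega) hW.1 hN1' hr1 hr2 hσ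
        (hN2 N (by omega) r1 r2 σ hr1 hr1c hr2 hr2c hσ)
        (fun b b' => hN3 N (by omega) r1 r2 σ b b' hr1 hr1c hr2 hr2c hσ) hy' hg.1 hg.2 G hGb
      have h6 : ∑ y ∈ I, (if E y y' ≤ 1 then D y y' ^ 2 else 0) = 2 * C * N *
          ∑ x ∈ I, ∑ y ∈ I, G y * (k x y * k x y') := by
        rw [Finset.sum_comm, Finset.mul_sum]
        apply Finset.sum_congr rfl
        intro y hy
        rw [← Finset.mul_sum]
        have e1 : ∑ x ∈ I, k x y * k x y' = D y y' := rfl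
        rw [e1]
        simp only [hG]
        by_cases h : E y y' ≤ 1
        · rw [if_pos h, if_pos ⟨hy, h⟩]
          field_simp
        · rw [if_neg h, if_neg (fun hh => h hh.2)]
          ring
      rw [h6]
      have h7 := (le_abs_self _).trans h5
      calc 2 * C * N * ∑ x ∈ I, ∑ y ∈ I, G y * (k x y * k x y')
          ≤ 2 * C * N * (3 * (ε / (24 * C)) * N ^ 2) :=
            mul_le_mul_of_nonneg_left h7 (by positivity)
        _ = ε / 4 * N ^ 3 := by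
            field_simp
            ring
  have tot1 : ∑ y' ∈ I, ∑ y ∈ I, D y y' ^ 2 ≤
      ∑ y' ∈ I, (ε / 4 * N ^ 3 + (if y' ∈ B then 4 * C ^ 2 * N ^ 3 else 0)) +
        4 * C ^ 2 * N ^ 2 * ∑ y ∈ I, ∑ y' ∈ I, E y y' ^ 2 := by
    rw [Finset.sum_comm (s := I) (t := I) (f := fun y y' => E y y' ^ 2), Finset.mul_sum,
      ← Finset.sum_add_distrib]
    apply Finset.sum_le_sum
    intro y' hy'
    have h1 := Finset.sum_le_sum (split y' hy')
    rw [Finset.sum_add_distrib, ← Finset.mul_sum] at h1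
    have h2 := part y' hy'
    linarith
  have tot2 : ∑ y' ∈ I, (ε / 4 * N ^ 3 + (if y' ∈ B then 4 * C ^ 2 * (N : ℝ) ^ 3 else 0)) =
      N * (ε / 4 * N ^ 3) + B.card * (4 * C ^ 2 * N ^ 3) := by
    rw [Finset.sum_add_distrib, Finset.sum_const, nsmul_eq_mul, hcard, ← Finset.sum_filter]
    have : I.filter (fun y' => y' ∈ B) = B := by
      ext y
      rw [Finset.mem_filter]
      constructor
      · exact fun h => h.2
      · intro h
        refine ⟨?_, h⟩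
        rw [hB, Finset.mem_filter] at h
        exact h.1
    rw [this, Finset.sum_const, nsmul_eq_mul]
  have tot3 : (B.card : ℝ) * (4 * C ^ 2 * N ^ 3) ≤ ε / 4 * N ^ 4 := by
    calc (B.card : ℝ) * (4 * C ^ 2 * N ^ 3) ≤ (ε / (16 * C ^ 2) * N) * (4 * C ^ 2 * N ^ 3) :=
          mul_le_mul_of_nonneg_right hbad (by positivity)
      _ = ε / 4 * N ^ 4 := by
          field_simp
          ring
  have tot4 : 4 * C ^ 2 * N ^ 2 * ∑ y ∈ I, ∑ y' ∈ I, E y y' ^ 2 ≤ ε / 4 * N ^ 4 := by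
    calc 4 * C ^ 2 * N ^ 2 * ∑ y ∈ I, ∑ y' ∈ I, E y y' ^ 2
        ≤ 4 * C ^ 2 * N ^ 2 * (ε / (16 * C ^ 2) * N ^ 2) :=
          mul_le_mul_of_nonneg_left hE2 (by positivity)
      _ = ε / 4 * N ^ 4 := by
          field_simp
          ring
  have tot5 : (N : ℝ) * (ε / 4 * N ^ 3) = ε / 4 * N ^ 4 := by ring
  have hfin : 0 ≤ ε / 4 * (N : ℝ) ^ 4 := by positivity
  have e9 : ε / 4 * (N : ℝ) ^ 4 = ε * N ^ 4 / 4 := by ring
  calc ∑ y' ∈ I, ∑ y ∈ I, (∑ x ∈ I, k x y * k x y') ^ 2 = ∑ y' ∈ I, ∑ y ∈ I, D y y' ^ 2 := rfl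
    _ ≤ ε * N ^ 4 := by linarith

end Pool.Agent.Lib.H18GB
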