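import Pool.Agent.Lib.H18GB2.Core2
import Pool.Agent.Lib.H18GB.TU3

/-!
# Project GB2: BX2 (removal of the weights from the box sums)
-/

namespace Pool.Agent.Lib.H18GB

open Finset Pool.Agent.Lib.Sieve

theorem bx2_maj {κ : ℝ} {S : Finset ℕ} {W : ℕ} {r : ℤ} (hS : ∀ p ∈ S, p.Prime) (hκ : 0 ≤ κ)
    {P : Fin 4 → ℤ → ℝ} (hP : ∀ i n, |P i n| ≤ κ * (1 + rho S (r + W * n))) (j k s : ℤ) :
    |P 0 s| * |P 1 (s + j)| * (|P 2 (s + k)| * |P 3 (s + k + j)|) ≤ κ ^ 4 * nu S W r j k s := by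
  rw [nu_expand]
  have hr := fun m => rho_nonneg hS (r + W * m)
  have g1 := hP 0 s
  have g2 := hP 1 (s + j)
  have g3 := hP 2 (s + k)
  have g4 := hP 3 (s + k + j)
  have r1 := hr s
  have r2 := hr (s + j)
  have r3 := hr (s + k)
  have r4 := hr (s + k + j)
  calc |P 0 s| * |P 1 (s + j)| * (|P 2 (s + k)| * |P 3 (s + k + j)|)
      ≤ (κ * (1 + rho S (r + W * s))) * (κ * (1 + rho S (r + W * (s + j)))) *
        ((κ * (1 + rho S (r + W * (s + k)))) * (κ * (1 + rho S (r + W * (s + k + j))))) := by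
        gcongr
    _ = _ := by ring

/-- Chunk BX2. `gvn2` with `M1 j k s = κ^4 nu S W r1 j k s`, `M2 j k t = κ^4 nu S W r2 (-j) k t`,
`core2`, `fac1` (for `∑ M2`), `quad0`. -/
theorem bx2 (ι υ ι' υ' : Type) [Fintype ι] [Fintype υ] [Fintype ι'] [Fintype υ'] :
    ∃ C : ℕ, 2 ≤ C ∧ ∀ (A w z W N : ℕ) (S : Finset ℕ), Stp C A w z W N S →
    ∀ (g : GW ι υ) (g' : GW ι' υ') (η : ℝ), 0 ≤ η → η ≤ 1 → g.ok S W η → g'.ok S W η →
    ∀ (r1 r2 : ℤ) (κ : ℝ) (P Q : Fin 4 → ℤ → ℝ), 1 ≤ κ →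
    (∀ i n, |P i n| ≤ κ * (1 + rho S (r1 + W * n))) →
    (∀ i n, |Q i n| ≤ κ * (1 + rho S (r2 + W * n))) →
    (∀ i n, n ∉ Finset.Ico (-(2 * N : ℤ)) (2 * N) → P i n = 0) →
    (∀ i n, n ∉ Finset.Ico (-(2 * N : ℤ)) (2 * N) → Q i n = 0) →
    (∑ x ∈ Finset.Ico (0 : ℤ) N, ∑ x' ∈ Finset.Ico (0 : ℤ) N, ∑ y ∈ Finset.Ico (0 : ℤ) N,
      ∑ y' ∈ Finset.Ico (0 : ℤ) N, gdev g g' S W x x' y y' *
        ((P 0 (x + y) * Q 0 (x - y) * (P 1 (x + y') * Q 1 (x - y'))) *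
          (P 2 (x' + y) * Q 2 (x' - y) * (P 3 (x' + y') * Q 3 (x' - y'))))) ^ 2 ≤
      C * κ ^ 16 * (er C A w + η) * N ^ 8 := by
  obtain ⟨C0, hC0, hc0⟩ := core2 ι υ ι' υ'
  obtain ⟨C1, hC1, hc1⟩ := fac1
  obtain ⟨C2, hC2, hc2⟩ := quad0
  refine ⟨C0 + C1 + C2 + C0 * C1 * (C2 + C0), by omega, fun A w z W N S h g g' η hη hη1 hg hg' r1 r2
    κ P Q hκ hP hQ hP0 hQ0 => ?_⟩
  set C : ℕ := C0 + C1 + C2 + C0 * C1 * (C2 + C0) with hC
  have h0 := h.mono (show C0 ≤ C by omega)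
  have h1 := h.mono (show C1 ≤ C by omega)
  have h2 := h.mono (show C2 ≤ C by omega)
  have hw1 : 1 ≤ w := h.w_pos (by omega)
  have hκ0 : 0 ≤ κ := by linarith
  obtain ⟨D, hD0, hD1, hD2⟩ := hc0 A w z W N S h0 g g' η hη hg hg' r2
  have hnu : ∀ r j k s, 0 ≤ nu S W r j k s := fun r j k s => nu_nonneg h.hS.prime W r j k s
  have key := gvn2 N (gdev g g' S W) P Q (fun j k s => κ ^ 4 * nu S W r1 j k s)
    (fun j k t => κ ^ 4 * nu S W r2 (-j) k t) hP0 hQ0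
    (fun j k s => bx2_maj h.hS.prime hκ0 hP j k s)
    (fun j k t => by
      have := bx2_maj h.hS.prime hκ0 hQ (-j) k t
      rwa [← sub_eq_add_neg, ← sub_eq_add_neg] at this)
  have F1 := hc1 A w z W N S h1 κ hκ0 r2
  have hε0 := er_nonneg C0 A w
  have hN0 : (0 : ℝ) ≤ N := Nat.cast_nonneg _
  have F2 : ∑ j ∈ Finset.Ico (-(2 * N : ℤ)) (2 * N), ∑ k ∈ Finset.Ico (-(N : ℤ)) N,
      ∑ l ∈ Finset.Ico (-(N : ℤ)) N, ∑ s ∈ Finset.Ico (-(2 * N : ℤ)) (2 * N),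
        (κ ^ 4 * nu S W r1 j k s) * (κ ^ 4 * nu S W r1 j k (s + 2 * l)) *
        |∑ x ∈ Finset.Ico (0 : ℤ) N, ecut N (gdev g g' S W) j k x (s - x) *
          ecut N (gdev g g' S W) j k (x + l) (s - x + l) * (κ ^ 4 * nu S W r2 (-j) k (2 * x - s))| ≤
      κ ^ 12 * (C0 * N) * ((er C0 A w + η) * (C2 * N ^ 4) + C0 * N ^ 4 * er C0 A w) := by
    have e1 : ∀ j k l s : ℤ, |∑ x ∈ Finset.Ico (0 : ℤ) N, ecut N (gdev g g' S W) j k x (s - x) *
          ecut N (gdev g g' S W) j k (x + l) (s - x + l) * (κ ^ 4 * nu S W r2 (-j) k (2 * x - s))| ≤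
        κ ^ 4 * (C0 * N * (er C0 A w + η + D j k l s)) := by
      intro j k l s
      have e2 : ∑ x ∈ Finset.Ico (0 : ℤ) N, ecut N (gdev g g' S W) j k x (s - x) *
          ecut N (gdev g g' S W) j k (x + l) (s - x + l) * (κ ^ 4 * nu S W r2 (-j) k (2 * x - s)) =
          κ ^ 4 * ∑ x ∈ Finset.Ico (0 : ℤ) N, ecut N (gdev g g' S W) j k x (s - x) *
          ecut N (gdev g g' S W) j k (x + l) (s - x + l) * nu S W r2 (-j) k (2 * x - s) := by
        rw [Finset.mul_sum]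
        apply Finset.sum_congr rfl
        intro x _
        ring
      rw [e2, abs_mul, abs_of_nonneg (by positivity : (0 : ℝ) ≤ κ ^ 4)]
      exact mul_le_mul_of_nonneg_left (hD2 j k l s) (by positivity)
    calc _ ≤ ∑ j ∈ Finset.Ico (-(2 * N : ℤ)) (2 * N), ∑ k ∈ Finset.Ico (-(N : ℤ)) N,
          ∑ l ∈ Finset.Ico (-(N : ℤ)) N, ∑ s ∈ Finset.Ico (-(2 * N : ℤ)) (2 * N),
          (κ ^ 12 * (C0 * N)) * ((er C0 A w + η) * (nu S W r1 j k s * nu S W r1 j k (s + 2 * l) * 1) +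
            nu S W r1 j k s * nu S W r1 j k (s + 2 * l) * D j k l s) := by
          apply Finset.sum_le_sum; intro j _
          apply Finset.sum_le_sum; intro k _
          apply Finset.sum_le_sum; intro l _
          apply Finset.sum_le_sum; intro s _
          have n1 := hnu r1 j k s
          have n2 := hnu r1 j k (s + 2 * l)
          calc _ ≤ (κ ^ 4 * nu S W r1 j k s) * (κ ^ 4 * nu S W r1 j k (s + 2 * l)) *
                (κ ^ 4 * (C0 * N * (er C0 A w + η + D j k l s))) :=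
                mul_le_mul_of_nonneg_left (e1 j k l s) (by positivity)
            _ = _ := by ring
      _ = κ ^ 12 * (C0 * N) * ((er C0 A w + η) * Qs S W N r1 (fun _ _ _ _ => 1) +
          Qs S W N r1 D) := by
          unfold Qs
          simp only [Finset.mul_sum, mul_add, Finset.sum_add_distrib]
      _ ≤ _ := by
          have q1 := hc2 A w z W N S h2 r1
          have q2 := hD1 r1
          gcongr
  refine key.trans ((mul_le_mul F1 F2 ?_ (by positivity)).trans ?_)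
  · apply Finset.sum_nonneg; intro j _
    apply Finset.sum_nonneg; intro k _
    apply Finset.sum_nonneg; intro l _
    apply Finset.sum_nonneg; intro s _
    have n1 := hnu r1 j k s
    have n2 := hnu r1 j k (s + 2 * l)
    positivity
  · have her : er C0 A w ≤ er C A w := er_mono (by omega) (by omega) A hw1
    have hCr : (C0 * C1 * (C2 + C0) : ℝ) ≤ C := by
      have : C0 * C1 * (C2 + C0) ≤ C := by omega
      exact_mod_cast this
    calc (C1 * κ ^ 4 * (N : ℝ) ^ 3) * (κ ^ 12 * (C0 * N) *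
          ((er C0 A w + η) * (C2 * N ^ 4) + C0 * N ^ 4 * er C0 A w))
        ≤ (C1 * κ ^ 4 * (N : ℝ) ^ 3) * (κ ^ 12 * (C0 * N) *
          ((er C0 A w + η) * (C2 * N ^ 4) + C0 * N ^ 4 * (er C0 A w + η))) := by
          gcongr
          linarith
      _ = (C0 * C1 * (C2 + C0) : ℝ) * κ ^ 16 * (er C0 A w + η) * N ^ 8 := by ring
      _ ≤ C * κ ^ 16 * (er C A w + η) * N ^ 8 := by gcongr

end Pool.Agent.Lib.H18GB
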