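import Pool.Agent.Lib.H18GB2.BX3
import Pool.Agent.Lib.H18GB2.Adm

/-!
# Project GB2: BXM (box sums with admissible weights, sparse-sparse estimate)
-/

namespace Pool.Agent.Lib.H18GB

open Finset Pool.Agent.Lib.Sieve

/-! ## Elementary choices of constants -/

theorem bxm_exists_A (C : ℕ) (hC : 1 ≤ C) (c : ℝ) (hc : 0 < c) :
    ∃ A : ℕ, C ≤ A ∧ (2:ℝ) ^ (-(A:ℝ) / C) * ((C * A : ℕ) : ℝ) ^ 40 ≤ c := by
  have hC0 : (0:ℝ) < C := by exact_mod_cast hC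
  have hr0 : (0:ℝ) < (2:ℝ) ^ (-(1:ℝ) / C) := Real.rpow_pos_of_pos (by norm_num) _
  have hr1 : (2:ℝ) ^ (-(1:ℝ) / C) < 1 := by
    apply Real.rpow_lt_one_of_one_lt_of_neg (by norm_num)
    rw [neg_div]
    have : (0:ℝ) < 1 / C := by positivity
    linarith
  have h := tendsto_pow_const_mul_const_pow_of_abs_lt_one 40
    (r := (2:ℝ) ^ (-(1:ℝ) / C)) (by rw [abs_of_pos hr0]; exact hr1)
  have h' : Filter.Tendsto (fun n : ℕ => (C:ℝ) ^ 40 * ((n:ℝ) ^ 40 * ((2:ℝ) ^ (-(1:ℝ) / C)) ^ n))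
      Filter.atTop (nhds 0) := by
    simpa using h.const_mul ((C:ℝ) ^ 40)
  obtain ⟨A, hA1, hA2⟩ := ((h'.eventually (gt_mem_nhds hc)).and
    (Filter.eventually_ge_atTop C)).exists
  refine ⟨A, hA2, ?_⟩
  have e1 : (2:ℝ) ^ (-(A:ℝ) / C) = ((2:ℝ) ^ (-(1:ℝ) / C)) ^ A := by
    rw [← Real.rpow_natCast, ← Real.rpow_mul (by norm_num)]
    congr 1
    ring
  rw [e1]
  refine le_trans (le_of_eq ?_) hA1.le
  push_cast
  ring

/-- The removed part is small. -/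
theorem bxm_small (W : ℕ) (hW : 0 < W) (ε : ℝ) (hε : 0 < ε) : ∃ N0 : ℕ, ∀ N : ℕ, N0 ≤ N →
    (24 * Real.sqrt N + 12) * (1 + LL W N) ^ 20 ≤ ε * N := by
  have h1 : ∀ᶠ N : ℕ in Filter.atTop,
      (Real.log N) ^ (20 : ℝ) ≤ ε / (36 * 3 ^ 20) * (N : ℝ) ^ (1 / 2 : ℝ) := by
    have h := (isLittleO_log_rpow_rpow_atTop (s := 1 / 2) 20 (by norm_num)).bound
      (show 0 < ε / (36 * 3 ^ 20) by positivity)
    have h' := tendsto_natCast_atTop_atTop.eventually h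
    filter_upwards [h', Filter.eventually_ge_atTop 1] with N hN hN1
    rw [Real.norm_of_nonneg (by positivity), Real.norm_of_nonneg (by positivity)] at hN
    exact hN
  have h2 : ∀ᶠ N : ℕ in Filter.atTop, (1 : ℝ) ≤ Real.log N :=
    (Real.tendsto_log_atTop.comp tendsto_natCast_atTop_atTop).eventually_ge_atTop 1
  have h3 : ∀ᶠ N : ℕ in Filter.atTop, 5 * W ≤ N := Filter.eventually_ge_atTop _
  have h4 : ∀ᶠ N : ℕ in Filter.atTop, 1 ≤ N := Filter.eventually_ge_atTop _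
  obtain ⟨N0, hN0⟩ := Filter.eventually_atTop.mp (h1.and (h2.and (h3.and h4)))
  refine ⟨N0, fun N hN => ?_⟩
  obtain ⟨a1, a2, a3, a4⟩ := hN0 N hN
  have hNr : (1 : ℝ) ≤ N := by exact_mod_cast a4
  have hWr : (1 : ℝ) ≤ W := by exact_mod_cast hW
  have hL : LL W N ≤ 2 * Real.log N := by
    unfold LL
    rw [Real.log_mul (by positivity) (by positivity)]
    have : Real.log (5 * W) ≤ Real.log N := Real.log_le_log (by positivity) (by exact_mod_cast a3)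
    linarith
  have hL0 := LL_nonneg hW a4
  have hsq : 1 ≤ Real.sqrt N := Real.one_le_sqrt.mpr hNr
  have hss : Real.sqrt N * Real.sqrt N = N := Real.mul_self_sqrt (by linarith)
  rw [show (20 : ℝ) = ((20 : ℕ) : ℝ) by norm_num, Real.rpow_natCast, ← Real.sqrt_eq_rpow] at a1
  set l := Real.log (N : ℝ) with hl
  have b1 : 1 + LL W N ≤ 3 * l := by linarith
  have b2 : (1 + LL W N) ^ 20 ≤ 3 ^ 20 * l ^ 20 := by
    rw [← mul_pow]
    exact pow_le_pow_left₀ (by positivity) b1 20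
  have b3 : 3 ^ 20 * l ^ 20 ≤ ε / 36 * Real.sqrt N := by
    calc (3:ℝ) ^ 20 * l ^ 20 ≤ 3 ^ 20 * (ε / (36 * 3 ^ 20) * Real.sqrt N) :=
          mul_le_mul_of_nonneg_left a1 (by positivity)
      _ = ε / 36 * Real.sqrt N := by field_simp
  have b4 : (24 * Real.sqrt N + 12) ≤ 36 * Real.sqrt N := by linarith
  calc (24 * Real.sqrt N + 12) * (1 + LL W N) ^ 20
      ≤ (36 * Real.sqrt N) * (ε / 36 * Real.sqrt N) := by
        apply mul_le_mul b4 (b2.trans b3) (by positivity) (by positivity)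
    _ = ε * (Real.sqrt N * Real.sqrt N) := by ring
    _ = ε * N := by rw [hss]

/-! ## Removal of a few points -/

open Classical in
/-- restriction to the complement of `B` -/
noncomputable def bxm_r (B : Finset ℤ) (F : ℤ → ℝ) (x : ℤ) : ℝ := if x ∈ B then 0 else F x

open Classical in
/-- the indicator of `B` -/
noncomputable def bxm_i (B : Finset ℤ) (x : ℤ) : ℝ := if x ∈ B then 1 else 0

theorem bxm_i_nonneg (B : Finset ℤ) (x : ℤ) : 0 ≤ bxm_i B x := by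
  unfold bxm_i
  split_ifs <;> norm_num

theorem bxm_i_sum (B I : Finset ℤ) : ∑ x ∈ I, bxm_i B x ≤ B.card := by
  classical
  unfold bxm_i
  rw [Finset.sum_ite, Finset.sum_const_zero, add_zero, Finset.sum_const, nsmul_eq_mul, mul_one]
  exact_mod_cast Finset.card_le_card (fun x hx => (Finset.mem_filter.mp hx).2)

/-- one term -/
theorem bxm_term {B B' : Finset ℤ} {F G : ℤ → ℝ} {P R : ℝ} (hP : 0 ≤ P) (hR : 0 ≤ R) (x x' y y' : ℤ)
    (h1 : 0 ≤ F x) (h2 : 0 ≤ F x') (h3 : 0 ≤ G y) (h4 : 0 ≤ G y')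
    (g1 : F x ≤ P) (g2 : F x' ≤ P) (g3 : G y ≤ P) (g4 : G y' ≤ P) (q : ℝ) (hq : |q| ≤ R) :
    F x * F x' * G y * G y' * q ≤
      bxm_r B F x * bxm_r B F x' * bxm_r B' G y * bxm_r B' G y' * q +
      P ^ 4 * R * (bxm_i B x + bxm_i B x' + bxm_i B' y + bxm_i B' y') := by
  have hi1 := bxm_i_nonneg B x
  have hi2 := bxm_i_nonneg B x'
  have hi3 := bxm_i_nonneg B' y
  have hi4 := bxm_i_nonneg B' y'
  have hPR : 0 ≤ P ^ 4 * R := by positivity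
  have hb : F x * F x' * G y * G y' * q ≤ P ^ 4 * R := by
    have hprod : F x * F x' * G y * G y' ≤ P ^ 4 := by
      calc F x * F x' * G y * G y' ≤ P * P * P * P := by
            apply mul_le_mul (mul_le_mul (mul_le_mul g1 g2 h2 hP) g3 h3 (by positivity)) g4 h4
              (by positivity)
        _ = P ^ 4 := by ring
    calc F x * F x' * G y * G y' * q ≤ F x * F x' * G y * G y' * |q| :=
          mul_le_mul_of_nonneg_left (le_abs_self q) (by positivity)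
      _ ≤ P ^ 4 * R := mul_le_mul hprod hq (abs_nonneg _) (by positivity)
  by_cases c1 : x ∈ B
  · have e1 : bxm_i B x = 1 := by simp [bxm_i, c1]
    have e2 : bxm_r B F x = 0 := by simp [bxm_r, c1]
    rw [e2, e1]
    nlinarith [mul_nonneg hPR hi2, mul_nonneg hPR hi3, mul_nonneg hPR hi4]
  by_cases c2 : x' ∈ B
  · have e1 : bxm_i B x' = 1 := by simp [bxm_i, c2]
    have e2 : bxm_r B F x' = 0 := by simp [bxm_r, c2]
    rw [e2, e1]
    nlinarith [mul_nonneg hPR hi1, mul_nonneg hPR hi3, mul_nonneg hPR hi4]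
  by_cases c3 : y ∈ B'
  · have e1 : bxm_i B' y = 1 := by simp [bxm_i, c3]
    have e2 : bxm_r B' G y = 0 := by simp [bxm_r, c3]
    rw [e2, e1]
    nlinarith [mul_nonneg hPR hi1, mul_nonneg hPR hi2, mul_nonneg hPR hi4]
  by_cases c4 : y' ∈ B'
  · have e1 : bxm_i B' y' = 1 := by simp [bxm_i, c4]
    have e2 : bxm_r B' G y' = 0 := by simp [bxm_r, c4]
    rw [e2, e1]
    nlinarith [mul_nonneg hPR hi1, mul_nonneg hPR hi2, mul_nonneg hPR hi3]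
  have e1 : bxm_r B F x = F x := by simp [bxm_r, c1]
  have e2 : bxm_r B F x' = F x' := by simp [bxm_r, c2]
  have e3 : bxm_r B' G y = G y := by simp [bxm_r, c3]
  have e4 : bxm_r B' G y' = G y' := by simp [bxm_r, c4]
  rw [e1, e2, e3, e4]
  have : 0 ≤ P ^ 4 * R * (bxm_i B x + bxm_i B x' + bxm_i B' y + bxm_i B' y') := by positivity
  linarith

/-- removal of the exceptional sets -/
theorem bxm_remove {N : ℕ} {k : ℤ → ℤ → ℝ} {F G : ℤ → ℝ} {P R : ℝ} (hP : 0 ≤ P) (hR : 0 ≤ R)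
    (B B' : Finset ℤ)
    (h1 : ∀ x ∈ Finset.Ico (0 : ℤ) N, 0 ≤ F x) (h2 : ∀ x ∈ Finset.Ico (0 : ℤ) N, 0 ≤ G x)
    (g1 : ∀ x ∈ Finset.Ico (0 : ℤ) N, F x ≤ P) (g2 : ∀ x ∈ Finset.Ico (0 : ℤ) N, G x ≤ P)
    (hk : ∀ x ∈ Finset.Ico (0 : ℤ) N, ∀ y ∈ Finset.Ico (0 : ℤ) N, |k x y| ≤ R) :
    box N k F G ≤ box N k (bxm_r B F) (bxm_r B' G) +
      P ^ 4 * R ^ 4 * ((2 * B.card + 2 * B'.card) * N ^ 3) := by
  have hsum : ∑ x ∈ Finset.Ico (0 : ℤ) N, ∑ x' ∈ Finset.Ico (0 : ℤ) N, ∑ y ∈ Finset.Ico (0 : ℤ) N,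
      ∑ y' ∈ Finset.Ico (0 : ℤ) N,
        (bxm_i B x + bxm_i B x' + bxm_i B' y + bxm_i B' y') =
      (2 * (∑ x ∈ Finset.Ico (0 : ℤ) N, bxm_i B x) + 2 * (∑ x ∈ Finset.Ico (0 : ℤ) N, bxm_i B' x)) *
        N ^ 3 := by
    simp only [Finset.sum_add_distrib, Finset.sum_const, Int.card_Ico, nsmul_eq_mul,
      ← Finset.mul_sum, sub_zero, Int.toNat_natCast]
    ring
  have hle : ∑ x ∈ Finset.Ico (0 : ℤ) N, ∑ x' ∈ Finset.Ico (0 : ℤ) N, ∑ y ∈ Finset.Ico (0 : ℤ) N,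
      ∑ y' ∈ Finset.Ico (0 : ℤ) N,
        (bxm_i B x + bxm_i B x' + bxm_i B' y + bxm_i B' y') ≤
      (2 * B.card + 2 * B'.card) * N ^ 3 := by
    rw [hsum]
    apply mul_le_mul_of_nonneg_right _ (by positivity)
    have a1 := bxm_i_sum B (Finset.Ico (0 : ℤ) N)
    have a2 := bxm_i_sum B' (Finset.Ico (0 : ℤ) N)
    linarith
  rw [box_expand N k F G, box_expand N k (bxm_r B F) (bxm_r B' G)]
  have hmain : ∑ x ∈ Finset.Ico (0 : ℤ) N, ∑ x' ∈ Finset.Ico (0 : ℤ) N, ∑ y ∈ Finset.Ico (0 : ℤ) N,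
      ∑ y' ∈ Finset.Ico (0 : ℤ) N, F x * F x' * G y * G y' *
        ((k x y * k x y') * (k x' y * k x' y')) ≤
      ∑ x ∈ Finset.Ico (0 : ℤ) N, ∑ x' ∈ Finset.Ico (0 : ℤ) N, ∑ y ∈ Finset.Ico (0 : ℤ) N,
      ∑ y' ∈ Finset.Ico (0 : ℤ) N,
        (bxm_r B F x * bxm_r B F x' * bxm_r B' G y * bxm_r B' G y' *
          ((k x y * k x y') * (k x' y * k x' y')) +
        P ^ 4 * R ^ 4 * (bxm_i B x + bxm_i B x' + bxm_i B' y + bxm_i B' y')) := by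
    refine Finset.sum_le_sum fun x hx => Finset.sum_le_sum fun x' hx' =>
      Finset.sum_le_sum fun y hy => Finset.sum_le_sum fun y' hy' => ?_
    refine bxm_term hP (by positivity) x x' y y' (h1 x hx) (h1 x' hx') (h2 y hy) (h2 y' hy')
      (g1 x hx) (g1 x' hx') (g2 y hy) (g2 y' hy') _ ?_
    rw [abs_mul, abs_mul, abs_mul]
    calc |k x y| * |k x y'| * (|k x' y| * |k x' y'|) ≤ R * R * (R * R) := by
          apply mul_le_mul
            (mul_le_mul (hk x hx y hy) (hk x hx y' hy') (abs_nonneg _) hR)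
            (mul_le_mul (hk x' hx' y hy) (hk x' hx' y' hy') (abs_nonneg _) hR)
            (by positivity) (by positivity)
      _ = R ^ 4 := by ring
  refine hmain.trans ?_
  have hPR : 0 ≤ P ^ 4 * R ^ 4 := by positivity
  have hsplit : ∑ x ∈ Finset.Ico (0 : ℤ) N, ∑ x' ∈ Finset.Ico (0 : ℤ) N,
      ∑ y ∈ Finset.Ico (0 : ℤ) N, ∑ y' ∈ Finset.Ico (0 : ℤ) N,
        (bxm_r B F x * bxm_r B F x' * bxm_r B' G y * bxm_r B' G y' *
          ((k x y * k x y') * (k x' y * k x' y')) +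
        P ^ 4 * R ^ 4 * (bxm_i B x + bxm_i B x' + bxm_i B' y + bxm_i B' y')) =
      (∑ x ∈ Finset.Ico (0 : ℤ) N, ∑ x' ∈ Finset.Ico (0 : ℤ) N, ∑ y ∈ Finset.Ico (0 : ℤ) N,
        ∑ y' ∈ Finset.Ico (0 : ℤ) N, bxm_r B F x * bxm_r B F x' * bxm_r B' G y * bxm_r B' G y' *
          ((k x y * k x y') * (k x' y * k x' y'))) +
      P ^ 4 * R ^ 4 * ∑ x ∈ Finset.Ico (0 : ℤ) N, ∑ x' ∈ Finset.Ico (0 : ℤ) N,
        ∑ y ∈ Finset.Ico (0 : ℤ) N, ∑ y' ∈ Finset.Ico (0 : ℤ) N,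
          (bxm_i B x + bxm_i B x' + bxm_i B' y + bxm_i B' y') := by
    simp only [Finset.mul_sum]
    rw [← Finset.sum_add_distrib]
    refine Finset.sum_congr rfl fun x _ => ?_
    rw [← Finset.sum_add_distrib]
    refine Finset.sum_congr rfl fun x' _ => ?_
    rw [← Finset.sum_add_distrib]
    refine Finset.sum_congr rfl fun y _ => ?_
    rw [← Finset.sum_add_distrib]
  rw [hsplit]
  exact add_le_add le_rfl (mul_le_mul_of_nonneg_left hle hPR)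

theorem bxm_val_nonneg {ι υ : Type} [Fintype ι] [Fintype υ] (g : GW ι υ) {w : ℕ} (hw : 2 ≤ w)
    (z W : ℕ) (x : ℤ) : 0 ≤ g.val (sprimes w z) W x := by
  have hP : ∀ p ∈ sprimes w z, p.Prime := (pset_sprimes w z).prime
  unfold GW.val
  apply mul_nonneg
  · exact Finset.prod_nonneg fun i _ => rho_nonneg hP _
  · refine Finset.prod_nonneg fun u _ => div_nonneg (mul_nonneg (rho_nonneg hP _)
      (rho_nonneg hP _)) ?_
    exact (VV_pos hP).le.trans (rc_VV_le_SGp hw _)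

/-! ## One pair of shapes -/

/-- the condition on the constants -/
def BxmCond (C A : ℕ) (K ε : ℝ) : Prop :=
  (K * ((C * A : ℕ) : ℝ) ^ 3) ^ 4 * (C * ((C * A : ℕ) : ℝ) ^ 8 *
    Real.sqrt (2 * (2 : ℝ) ^ (-(A : ℝ) / C))) ≤ ε / 4

/-- the estimate for two classes of weights -/
def BxmS (D D' : Finset ℕ → ℕ → ℕ → ℕ → ℝ → Finset ℤ → (ℤ → ℝ) → Prop) : Prop :=
  ∃ C : ℕ, 2 ≤ C ∧ ∀ C' A : ℕ, C ≤ C' → C' ≤ A → ∀ K ε : ℝ, 1 ≤ K → 0 < ε → BxmCond C' A K ε →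
    ∃ w0 : ℕ, ∀ w W : ℕ, w0 ≤ w → IsW w W → ∃ N0 : ℕ, ∀ N : ℕ, N0 ≤ N → ∀ (r1 r2 σ : ℤ),
    |r1| < 2 * W → IsCoprime r1 (W : ℤ) → |r2| < 2 * W → IsCoprime r2 (W : ℤ) →
    (σ = 1 ∨ σ = -1) → ∀ (F G : ℤ → ℝ) (B B' : Finset ℤ),
    (∀ x, 0 ≤ F x) → (∀ x, 0 ≤ G x) →
    (∀ x ∈ Finset.Ico (0 : ℤ) N, F x ≤ (1 + LL W N) ^ 3) →
    (∀ x ∈ Finset.Ico (0 : ℤ) N, G x ≤ (1 + LL W N) ^ 3) →
    B.card ≤ 6 * rt (C' * A) N + 3 → B'.card ≤ 6 * rt (C' * A) N + 3 →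
    D (sprimes w (rt (C' * A) N)) w W N (K * ((C' * A : ℕ) : ℝ) ^ 3) B F →
    D' (sprimes w (rt (C' * A) N)) w W N (K * ((C' * A : ℕ) : ℝ) ^ 3) B' G →
    box N (ker W r1 r2 σ) F G ≤ ε * N ^ 4

theorem BxmS.or_left {D1 D2 D' : Finset ℕ → ℕ → ℕ → ℕ → ℝ → Finset ℤ → (ℤ → ℝ) → Prop}
    (h1 : BxmS D1 D') (h2 : BxmS D2 D') :
    BxmS (fun S w W N K B F => D1 S w W N K B F ∨ D2 S w W N K B F) D' := by
  obtain ⟨C1, hC1, h1⟩ := h1
  obtain ⟨C2, hC2, h2⟩ := h2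
  refine ⟨max C1 C2, hC1.trans (le_max_left _ _), fun C' A hC hA K ε hK hε hc => ?_⟩
  obtain ⟨w1, h1⟩ := h1 C' A ((le_max_left _ _).trans hC) hA K ε hK hε hc
  obtain ⟨w2, h2⟩ := h2 C' A ((le_max_right _ _).trans hC) hA K ε hK hε hc
  refine ⟨max w1 w2, fun w W hw hW => ?_⟩
  obtain ⟨N1, h1⟩ := h1 w W ((le_max_left _ _).trans hw) hW
  obtain ⟨N2, h2⟩ := h2 w W ((le_max_right _ _).trans hw) hW
  refine ⟨max N1 N2, fun N hN r1 r2 σ a1 a2 a3 a4 a5 F G B B' b1 b2 b3 b4 b5 b6 b7 b8 => ?_⟩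
  rcases b7 with b7 | b7
  · exact h1 N ((le_max_left _ _).trans hN) r1 r2 σ a1 a2 a3 a4 a5 F G B B' b1 b2 b3 b4 b5 b6 b7 b8
  · exact h2 N ((le_max_right _ _).trans hN) r1 r2 σ a1 a2 a3 a4 a5 F G B B' b1 b2 b3 b4 b5 b6 b7 b8

theorem BxmS.or_right {D D1 D2 : Finset ℕ → ℕ → ℕ → ℕ → ℝ → Finset ℤ → (ℤ → ℝ) → Prop}
    (h1 : BxmS D D1) (h2 : BxmS D D2) :
    BxmS D (fun S w W N K B F => D1 S w W N K B F ∨ D2 S w W N K B F) := by
  obtain ⟨C1, hC1, h1⟩ := h1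
  obtain ⟨C2, hC2, h2⟩ := h2
  refine ⟨max C1 C2, hC1.trans (le_max_left _ _), fun C' A hC hA K ε hK hε hc => ?_⟩
  obtain ⟨w1, h1⟩ := h1 C' A ((le_max_left _ _).trans hC) hA K ε hK hε hc
  obtain ⟨w2, h2⟩ := h2 C' A ((le_max_right _ _).trans hC) hA K ε hK hε hc
  refine ⟨max w1 w2, fun w W hw hW => ?_⟩
  obtain ⟨N1, h1⟩ := h1 w W ((le_max_left _ _).trans hw) hW
  obtain ⟨N2, h2⟩ := h2 w W ((le_max_right _ _).trans hw) hW
  refine ⟨max N1 N2, fun N hN r1 r2 σ a1 a2 a3 a4 a5 F G B B' b1 b2 b3 b4 b5 b6 b7 b8 => ?_⟩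
  rcases b8 with b8 | b8
  · exact h1 N ((le_max_left _ _).trans hN) r1 r2 σ a1 a2 a3 a4 a5 F G B B' b1 b2 b3 b4 b5 b6 b7 b8
  · exact h2 N ((le_max_right _ _).trans hN) r1 r2 σ a1 a2 a3 a4 a5 F G B B' b1 b2 b3 b4 b5 b6 b7 b8

theorem bxm_card {s N c : ℕ} (hs : 2 ≤ s) (h : c ≤ 6 * rt s N + 3) :
    (c : ℝ) ≤ 6 * Real.sqrt N + 3 := by
  have h1 : (c : ℝ) ≤ 6 * rt s N + 3 := by exact_mod_cast h
  have h2 := rt_sq_le hs N
  linarith

/-- One pair of shapes. -/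
theorem bxm_pair (ι υ ι' υ' : Type) [Fintype ι] [Fintype υ] [Fintype ι'] [Fintype υ'] :
    BxmS (DomBy ι υ) (DomBy ι' υ') := by
  obtain ⟨C, hC, hbx⟩ := bx3 ι υ ι' υ'
  refine ⟨C, hC, fun C' A hCC hA K ε hK hε hc => ?_⟩
  have hC'pos : 0 < C' := by omega
  have hApos : 0 < A := by omega
  have hs2 : 2 ≤ C' * A := by nlinarith
  obtain ⟨s, hs⟩ : ∃ s : ℕ, s = C' * A := ⟨_, rfl⟩
  rw [← hs] at hs2
  unfold BxmCond at hc
  rw [← hs] at hc ⊢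
  have hsr : (1 : ℝ) ≤ (s : ℝ) := by exact_mod_cast (by omega : 1 ≤ s)
  set M : ℝ := (K * (s : ℝ) ^ 3) ^ 4 with hM
  have hMpos : 0 < M := by positivity
  have hε' : 0 < ε / (4 * M) := by positivity
  obtain ⟨w1, hw1⟩ := hbx s A (ε / (4 * M)) hε' (by omega) (by rw [hs]; exact Nat.mul_le_mul_right _ hCC)
  set τ : ℝ := (2 : ℝ) ^ (-(A : ℝ) / C') with hτ
  have hτpos : 0 < τ := Real.rpow_pos_of_pos (by norm_num) _
  obtain ⟨w2, hw2⟩ := rc_exists_w C' (by omega) (τ / 2) (by positivity)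
  obtain ⟨w3, hw3⟩ := rc_exists_w 4 (by norm_num) (τ / 2) (by positivity)
  refine ⟨max (max w1 w2) (max w3 2), fun w W hw hW => ?_⟩
  have e1 : w1 ≤ w := le_trans (le_trans (le_max_left _ _) (le_max_left _ _)) hw
  have e2 : w2 ≤ w := le_trans (le_trans (le_max_right _ _) (le_max_left _ _)) hw
  have e3 : w3 ≤ w := le_trans (le_trans (le_max_left _ _) (le_max_right _ _)) hw
  have e4 : 2 ≤ w := le_trans (le_trans (le_max_right _ _) (le_max_right _ _)) hw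
  obtain ⟨N1, hN1⟩ := hw1 w W e1 hW
  obtain ⟨N2, hN2⟩ := bxm_small W hW.1 (ε / 2) (by positivity)
  refine ⟨max (max N1 N2) 1, fun N hN r1 r2 σ a1 a2 a3 a4 a5 F G B B' b1 b2 b3 b4 b5 b6 b7 b8 => ?_⟩
  have f1 : N1 ≤ N := le_trans (le_trans (le_max_left _ _) (le_max_left _ _)) hN
  have f2 : N2 ≤ N := le_trans (le_trans (le_max_right _ _) (le_max_left _ _)) hN
  have f3 : 1 ≤ N := le_trans (le_max_right _ _) hN
  have hNr : (1 : ℝ) ≤ (N : ℝ) := by exact_mod_cast f3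
  have hL := LL_nonneg hW.1 (by omega : 0 < N)
  -- the parameter η
  have hw0 : (1 : ℝ) ≤ (w : ℝ) := by exact_mod_cast (by omega : 1 ≤ w)
  have hη0 : 0 ≤ (w : ℝ) ^ (-(1 / 4 : ℝ)) := Real.rpow_nonneg (by linarith) _
  have hη1 : (w : ℝ) ^ (-(1 / 4 : ℝ)) ≤ 1 := Real.rpow_le_one_of_one_le_of_nonpos hw0 (by norm_num)
  have hη2 : (w : ℝ) ^ (-(1 / 4 : ℝ)) ≤ τ / 2 := by
    have := hw3 w e3
    rw [show (-(1:ℝ) / ((4 : ℕ) : ℝ)) = -(1 / 4 : ℝ) by norm_num] at this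
    exact this
  have her : er C A w + (w : ℝ) ^ (-(1 / 4 : ℝ)) ≤ 2 * τ := by
    have g1 := rc_er_mono (A := A) (w := w) (by omega : 1 ≤ C) hCC (by omega)
    have g2 : er C' A w ≤ τ + τ / 2 := by
      unfold er
      exact add_le_add le_rfl (hw2 w e2)
    linarith
  obtain ⟨g, hg, hgF⟩ := b7
  obtain ⟨g', hg', hgG⟩ := b8
  -- removal
  have hrem := bxm_remove (k := ker W r1 r2 σ) (F := F) (G := G) (P := (1 + LL W N) ^ 3)
    (R := (1 + LL W N) ^ 2) (by positivity) (by positivity) B B' (fun x _ => b1 x)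
    (fun x _ => b2 x) b3 b4 (fun x hx y hy => (ker_le hW.1 (by omega : 0 < N) a1 a3 a5 hx hy).trans
      (by nlinarith))
  -- main part
  have hKs : 0 ≤ K * (s : ℝ) ^ 3 := by positivity
  have hmono : box N (ker W r1 r2 σ) (bxm_r B F) (bxm_r B' G) ≤
      box N (ker W r1 r2 σ) (fun x => (K * (s : ℝ) ^ 3) * g.val (sprimes w (rt s N)) W x)
        (fun y => (K * (s : ℝ) ^ 3) * g'.val (sprimes w (rt s N)) W y) := by
    apply box_mono
    · intro x _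
      unfold bxm_r
      split_ifs
      · exact le_rfl
      · exact b1 x
    · intro x hx
      unfold bxm_r
      split_ifs with hxB
      · exact mul_nonneg hKs (bxm_val_nonneg g e4 _ _ _)
      · exact hgF x hx hxB
    · intro x _
      unfold bxm_r
      split_ifs
      · exact le_rfl
      · exact b2 x
    · intro x hx
      unfold bxm_r
      split_ifs with hxB
      · exact mul_nonneg hKs (bxm_val_nonneg g' e4 _ _ _)
      · exact hgG x hx hxB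
  rw [box_smul] at hmono
  have hmain := hN1 N f1 r1 r2 σ a1 a2 a3 a4 a5 g g' _ hη0 hη1 hg hg'
  have hsqrt : Real.sqrt (er C A w + (w : ℝ) ^ (-(1 / 4 : ℝ))) ≤ Real.sqrt (2 * τ) :=
    Real.sqrt_le_sqrt her
  have hCr : (C : ℝ) ≤ C' := by exact_mod_cast hCC
  have hcoef : (C : ℝ) * (s : ℝ) ^ 8 * Real.sqrt (er C A w + (w : ℝ) ^ (-(1 / 4 : ℝ))) ≤
      C' * (s : ℝ) ^ 8 * Real.sqrt (2 * τ) := by
    apply mul_le_mul (mul_le_mul_of_nonneg_right hCr (by positivity)) hsqrt (Real.sqrt_nonneg _)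
      (by positivity)
  have hmain2 : (K * (s : ℝ) ^ 3) ^ 2 * (K * (s : ℝ) ^ 3) ^ 2 *
      box N (ker W r1 r2 σ) (g.val (sprimes w (rt s N)) W) (g'.val (sprimes w (rt s N)) W) ≤
      ε / 2 * N ^ 4 := by
    have e : (K * (s : ℝ) ^ 3) ^ 2 * (K * (s : ℝ) ^ 3) ^ 2 = M := by rw [hM]; ring
    rw [e]
    have h1 : box N (ker W r1 r2 σ) (g.val (sprimes w (rt s N)) W)
        (g'.val (sprimes w (rt s N)) W) ≤
        (ε / (4 * M) + C' * (s : ℝ) ^ 8 * Real.sqrt (2 * τ)) * N ^ 4 :=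
      hmain.trans (mul_le_mul_of_nonneg_right (add_le_add le_rfl hcoef) (by positivity))
    have h2 : M * (ε / (4 * M) + C' * (s : ℝ) ^ 8 * Real.sqrt (2 * τ)) ≤ ε / 2 := by
      have : M * (ε / (4 * M)) = ε / 4 := by field_simp
      rw [mul_add, this]
      linarith
    calc M * box N (ker W r1 r2 σ) (g.val (sprimes w (rt s N)) W)
          (g'.val (sprimes w (rt s N)) W)
        ≤ M * ((ε / (4 * M) + C' * (s : ℝ) ^ 8 * Real.sqrt (2 * τ)) * N ^ 4) :=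
          mul_le_mul_of_nonneg_left h1 hMpos.le
      _ = (M * (ε / (4 * M) + C' * (s : ℝ) ^ 8 * Real.sqrt (2 * τ))) * N ^ 4 := by ring
      _ ≤ ε / 2 * N ^ 4 := mul_le_mul_of_nonneg_right h2 (by positivity)
  -- removed part
  have hcard1 := bxm_card hs2 b5
  have hcard2 := bxm_card hs2 b6
  have hsm := hN2 N f2
  have hremoved : ((1 + LL W N) ^ 3) ^ 4 * ((1 + LL W N) ^ 2) ^ 4 *
      ((2 * B.card + 2 * B'.card) * N ^ 3) ≤ ε / 2 * N ^ 4 := by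
    have h1 : (2 * (B.card : ℝ) + 2 * B'.card) ≤ 24 * Real.sqrt N + 12 := by linarith
    calc ((1 + LL W N) ^ 3) ^ 4 * ((1 + LL W N) ^ 2) ^ 4 *
          ((2 * B.card + 2 * B'.card) * N ^ 3)
        = (2 * (B.card : ℝ) + 2 * B'.card) * (1 + LL W N) ^ 20 * N ^ 3 := by ring
      _ ≤ (24 * Real.sqrt N + 12) * (1 + LL W N) ^ 20 * N ^ 3 := by
          apply mul_le_mul_of_nonneg_right _ (by positivity)
          exact mul_le_mul_of_nonneg_right h1 (by positivity)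
      _ ≤ ε / 2 * N * N ^ 3 := mul_le_mul_of_nonneg_right hsm (by positivity)
      _ = ε / 2 * N ^ 4 := by ring
  linarith

/-- All pairs of shapes. -/
theorem bxm_all : BxmS
    (fun S w W N K B F => (DomBy Empty Empty S w W N K B F ∨ DomBy Unit Empty S w W N K B F ∨
      DomBy Empty Unit S w W N K B F ∨ DomBy Unit Unit S w W N K B F))
    (fun S w W N K B F => (DomBy Empty Empty S w W N K B F ∨ DomBy Unit Empty S w W N K B F ∨
      DomBy Empty Unit S w W N K B F ∨ DomBy Unit Unit S w W N K B F)) := by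
  have key : ∀ (ι υ : Type) [Fintype ι] [Fintype υ], BxmS (DomBy ι υ)
      (fun S w W N K B F => (DomBy Empty Empty S w W N K B F ∨ DomBy Unit Empty S w W N K B F ∨
        DomBy Empty Unit S w W N K B F ∨ DomBy Unit Unit S w W N K B F)) := fun ι υ _ _ =>
    (bxm_pair ι υ Empty Empty).or_right ((bxm_pair ι υ Unit Empty).or_right
      ((bxm_pair ι υ Empty Unit).or_right (bxm_pair ι υ Unit Unit)))
  exact (key Empty Empty).or_left ((key Unit Empty).or_left ((key Empty Unit).or_left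
    (key Unit Unit)))

/-- Chunk BXM. Choose `A`, then `s = C A`, so that `(K s^3)^4 * C s^8 * 2 (2^(-A/(2C)))` is small
(`rc_exists_A`), then `w0`. Replace `F` by its restriction to the complement of `B` (`adm_dom`): the
box sum changes by `≤ (number of removed) * N^3 * (log)^40 = o(N^4)`; then `box_mono`, `box_smul`,
`bx3` for the `16` pairs of shapes. -/
theorem bxm (ε : ℝ) (hε : 0 < ε) : ∃ w0 : ℕ, ∀ w W : ℕ, w0 ≤ w → IsW w W → ∃ N0 : ℕ,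
    ∀ N : ℕ, N0 ≤ N → ∀ (r1 r2 σ : ℤ), |r1| < 2 * W → IsCoprime r1 (W : ℤ) → |r2| < 2 * W →
    IsCoprime r2 (W : ℤ) → (σ = 1 ∨ σ = -1) → ∀ (F G : ℤ → ℝ), Adm w W N F → Adm w W N G →
    box N (ker W r1 r2 σ) F G ≤ ε * N ^ 4 := by
  obtain ⟨K, hK, hdom⟩ := adm_dom
  obtain ⟨C, hC, hall⟩ := bxm_all
  have hCr : (0 : ℝ) < C := by exact_mod_cast (by omega : 0 < C)
  obtain ⟨A, hCA, hA⟩ := bxm_exists_A C (by omega) (ε ^ 2 / (32 * K ^ 8 * C ^ 2)) (by positivity)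
  have hs2 : 2 ≤ C * A := by nlinarith
  have hcond : BxmCond C A K ε := by
    unfold BxmCond
    set s : ℝ := ((C * A : ℕ) : ℝ) with hs
    have hs0 : 0 ≤ s := by positivity
    set τ : ℝ := (2 : ℝ) ^ (-(A : ℝ) / C) with hτ
    have hτpos : 0 < τ := Real.rpow_pos_of_pos (by norm_num) _
    refine le_of_pow_le_pow_left₀ two_ne_zero (by positivity) ?_
    have e : ((K * s ^ 3) ^ 4 * (C * s ^ 8 * Real.sqrt (2 * τ))) ^ 2 =
        2 * K ^ 8 * C ^ 2 * (τ * s ^ 40) := by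
      have : Real.sqrt (2 * τ) ^ 2 = 2 * τ := Real.sq_sqrt (by positivity)
      calc ((K * s ^ 3) ^ 4 * (C * s ^ 8 * Real.sqrt (2 * τ))) ^ 2
          = K ^ 8 * C ^ 2 * s ^ 40 * Real.sqrt (2 * τ) ^ 2 := by ring
        _ = _ := by rw [this]; ring
    rw [e]
    calc 2 * K ^ 8 * C ^ 2 * (τ * s ^ 40) ≤ 2 * K ^ 8 * C ^ 2 * (ε ^ 2 / (32 * K ^ 8 * C ^ 2)) :=
          mul_le_mul_of_nonneg_left hA (by positivity)
      _ = (ε / 4) ^ 2 := by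
          have hK0 : K ≠ 0 := by positivity
          field_simp
          norm_num
  obtain ⟨w1, hw1⟩ := hall C A le_rfl hCA K ε hK hε hcond
  obtain ⟨w2, hw2⟩ := hdom (C * A) hs2
  refine ⟨max w1 w2, fun w W hw hW => ?_⟩
  obtain ⟨N1, hN1⟩ := hw1 w W ((le_max_left _ _).trans hw) hW
  obtain ⟨N2, hN2⟩ := hw2 w W ((le_max_right _ _).trans hw) hW
  refine ⟨max N1 N2, fun N hN r1 r2 σ a1 a2 a3 a4 a5 F G hF hG => ?_⟩
  have f1 : N1 ≤ N := (le_max_left _ _).trans hN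
  have f2 : N2 ≤ N := (le_max_right _ _).trans hN
  obtain ⟨p1, B, p2, p3⟩ := hN2 N f2 F hF
  obtain ⟨q1, B', q2, q3⟩ := hN2 N f2 G hG
  exact hN1 N f1 r1 r2 σ a1 a2 a3 a4 a5 F G B B' hF.1 hG.1 p1 q1 p2 q2 p3 q3

/-- Chunk SS (sparse-sparse estimate): `box_cut`, `bxm`, `adm_sum`. -/
theorem ss (ε : ℝ) (hε : 0 < ε) : ∃ w0 : ℕ, ∀ w W : ℕ, w0 ≤ w → IsW w W → ∃ N0 : ℕ,
    ∀ N : ℕ, N0 ≤ N → ∀ (r1 r2 σ : ℤ), |r1| < 2 * W → IsCoprime r1 (W : ℤ) → |r2| < 2 * W →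
    IsCoprime r2 (W : ℤ) → (σ = 1 ∨ σ = -1) → ∀ (F G F1 G1 : ℤ → ℝ), Adm w W N F → Adm w W N G →
    (∀ x, |F1 x| ≤ F x) → (∀ y, |G1 y| ≤ G y) →
    |∑ x ∈ Finset.Ico (0 : ℤ) N, ∑ y ∈ Finset.Ico (0 : ℤ) N,
      F1 x * G1 y * ker W r1 r2 σ x y| ≤ ε * N ^ 2 := by
  obtain ⟨C, hC, w1, hsum⟩ := adm_sum
  obtain ⟨w2, hbx⟩ := bxm (ε ^ 4 / C ^ 4) (by positivity)
  refine ⟨max w1 w2, fun w W hw hW => ?_⟩
  obtain ⟨N1, hN1⟩ := hsum w W ((le_max_left _ _).trans hw) hW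
  obtain ⟨N2, hN2⟩ := hbx w W ((le_max_right _ _).trans hw) hW
  refine ⟨max N1 N2, fun N hN r1 r2 σ a1 a2 a3 a4 a5 F G F1 G1 hF hG hF1 hG1 => ?_⟩
  have f1 : N1 ≤ N := (le_max_left _ _).trans hN
  have f2 : N2 ≤ N := (le_max_right _ _).trans hN
  have s1 := hN1 N f1 F hF
  have s2 := hN1 N f1 G hG
  have hb := hN2 N f2 r1 r2 σ a1 a2 a3 a4 a5 F G hF hG
  have hcut := box_cut (N := N) (k := ker W r1 r2 σ) (F := F) (F1 := F1) (G := G) (G1 := G1)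
    (fun x _ => hF1 x) (fun y _ => hG1 y)
  have t1 : 0 ≤ ∑ x ∈ Finset.Ico (0 : ℤ) N, F x := Finset.sum_nonneg fun x _ => hF.1 x
  have t2 : 0 ≤ ∑ x ∈ Finset.Ico (0 : ℤ) N, G x := Finset.sum_nonneg fun x _ => hG.1 x
  have hfin : (∑ x ∈ Finset.Ico (0 : ℤ) N, ∑ y ∈ Finset.Ico (0 : ℤ) N,
      F1 x * G1 y * ker W r1 r2 σ x y) ^ 4 ≤ (ε * N ^ 2) ^ 4 := by
    refine hcut.trans ?_
    have u1 : (∑ x ∈ Finset.Ico (0 : ℤ) N, F x) ^ 2 ≤ (C * N) ^ 2 := pow_le_pow_left₀ t1 s1 2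
    have u2 : (∑ x ∈ Finset.Ico (0 : ℤ) N, G x) ^ 2 ≤ (C * N) ^ 2 := pow_le_pow_left₀ t2 s2 2
    calc (∑ x ∈ Finset.Ico (0 : ℤ) N, F x) ^ 2 * (∑ y ∈ Finset.Ico (0 : ℤ) N, G y) ^ 2 *
          box N (ker W r1 r2 σ) F G
        ≤ (∑ x ∈ Finset.Ico (0 : ℤ) N, F x) ^ 2 * (∑ y ∈ Finset.Ico (0 : ℤ) N, G y) ^ 2 *
          (ε ^ 4 / C ^ 4 * N ^ 4) := mul_le_mul_of_nonneg_left hb (by positivity)
      _ ≤ (C * N) ^ 2 * (C * N) ^ 2 * (ε ^ 4 / C ^ 4 * N ^ 4) := by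
          apply mul_le_mul_of_nonneg_right _ (by positivity)
          exact mul_le_mul u1 u2 (by positivity) (by positivity)
      _ = (ε * N ^ 2) ^ 4 := by
          have : C ≠ 0 := by positivity
          field_simp
  have h4 : |∑ x ∈ Finset.Ico (0 : ℤ) N, ∑ y ∈ Finset.Ico (0 : ℤ) N,
      F1 x * G1 y * ker W r1 r2 σ x y| ^ 4 ≤ (ε * N ^ 2) ^ 4 := by
    rw [Even.pow_abs (by decide)]
    exact hfin
  exact le_of_pow_le_pow_left₀ (by norm_num) (by positivity) h4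

end Pool.Agent.Lib.H18GB
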