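import Pool.Agent.Lib.H18GB.RCN

/-!
# Project GB2: weighted box sums (chunk BOX, pure algebra)

`box N k F G = ∑_{x,x'} F(x) F(x') (∑_y G(y) k(x,y) k(x',y))^2`, all variables in `[0, N)`.
-/

namespace Pool.Agent.Lib.H18GB

open Finset

/-- weighted box sum of a kernel on `[0, N)^2` -/
noncomputable def box (N : ℕ) (k : ℤ → ℤ → ℝ) (F G : ℤ → ℝ) : ℝ :=
  ∑ x ∈ Finset.Ico (0 : ℤ) N, ∑ x' ∈ Finset.Ico (0 : ℤ) N, F x * F x' *
    (∑ y ∈ Finset.Ico (0 : ℤ) N, G y * (k x y * k x' y)) ^ 2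

private lemma box_sq_sum (s : Finset ℤ) (a : ℤ → ℝ) :
    (∑ y ∈ s, a y) ^ 2 = ∑ y ∈ s, ∑ y' ∈ s, a y * a y' := by
  rw [sq, Finset.sum_mul_sum]

/-- weighted Cauchy-Schwarz -/
private lemma box_cs (s : Finset ℤ) (w a b : ℤ → ℤ → ℝ) (hw : ∀ x ∈ s, ∀ y ∈ s, 0 ≤ w x y) :
    (∑ x ∈ s, ∑ y ∈ s, w x y * (a x y * b x y)) ^ 2 ≤
      (∑ x ∈ s, ∑ y ∈ s, w x y * a x y ^ 2) * (∑ x ∈ s, ∑ y ∈ s, w x y * b x y ^ 2) := by
  have key := Finset.sum_mul_sq_le_sq_mul_sq (s ×ˢ s)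
    (fun p => Real.sqrt (w p.1 p.2) * a p.1 p.2) (fun p => Real.sqrt (w p.1 p.2) * b p.1 p.2)
  have h1 : ∑ p ∈ s ×ˢ s, (Real.sqrt (w p.1 p.2) * a p.1 p.2) * (Real.sqrt (w p.1 p.2) * b p.1 p.2) =
      ∑ x ∈ s, ∑ y ∈ s, w x y * (a x y * b x y) := by
    rw [Finset.sum_product]
    refine Finset.sum_congr rfl fun x hx => Finset.sum_congr rfl fun y hy => ?_
    have := Real.mul_self_sqrt (hw x hx y hy)
    calc (Real.sqrt (w x y) * a x y) * (Real.sqrt (w x y) * b x y)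
        = (Real.sqrt (w x y) * Real.sqrt (w x y)) * (a x y * b x y) := by ring
      _ = _ := by rw [this]
  have h2 : ∀ c : ℤ → ℤ → ℝ, ∑ p ∈ s ×ˢ s, (Real.sqrt (w p.1 p.2) * c p.1 p.2) ^ 2 =
      ∑ x ∈ s, ∑ y ∈ s, w x y * c x y ^ 2 := by
    intro c
    rw [Finset.sum_product]
    refine Finset.sum_congr rfl fun x hx => Finset.sum_congr rfl fun y hy => ?_
    rw [mul_pow, Real.sq_sqrt (hw x hx y hy)]
  rw [h1, h2, h2] at key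
  exact key

private lemma box_cs1 (s : Finset ℤ) (w a : ℤ → ℝ) (hw : ∀ x ∈ s, 0 ≤ w x) :
    (∑ x ∈ s, w x * a x) ^ 2 ≤ (∑ x ∈ s, w x) * (∑ x ∈ s, w x * a x ^ 2) := by
  have key := Finset.sum_mul_sq_le_sq_mul_sq s
    (fun p => Real.sqrt (w p)) (fun p => Real.sqrt (w p) * a p)
  have h1 : ∑ p ∈ s, Real.sqrt (w p) * (Real.sqrt (w p) * a p) = ∑ x ∈ s, w x * a x := by
    refine Finset.sum_congr rfl fun x hx => ?_
    rw [← mul_assoc, Real.mul_self_sqrt (hw x hx)]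
  have h2 : ∑ p ∈ s, Real.sqrt (w p) ^ 2 = ∑ x ∈ s, w x :=
    Finset.sum_congr rfl fun x hx => Real.sq_sqrt (hw x hx)
  have h3 : ∑ p ∈ s, (Real.sqrt (w p) * a p) ^ 2 = ∑ x ∈ s, w x * a x ^ 2 := by
    refine Finset.sum_congr rfl fun x hx => ?_
    rw [mul_pow, Real.sq_sqrt (hw x hx)]
  rw [h1, h2, h3] at key
  exact key

theorem box_expand (N : ℕ) (k : ℤ → ℤ → ℝ) (F G : ℤ → ℝ) : box N k F G =
    ∑ x ∈ Finset.Ico (0 : ℤ) N, ∑ x' ∈ Finset.Ico (0 : ℤ) N, ∑ y ∈ Finset.Ico (0 : ℤ) N,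
      ∑ y' ∈ Finset.Ico (0 : ℤ) N, F x * F x' * G y * G y' *
        ((k x y * k x y') * (k x' y * k x' y')) := by
  unfold box
  refine Finset.sum_congr rfl fun x _ => Finset.sum_congr rfl fun x' _ => ?_
  rw [box_sq_sum, Finset.mul_sum]
  refine Finset.sum_congr rfl fun y _ => ?_
  rw [Finset.mul_sum]
  refine Finset.sum_congr rfl fun y' _ => ?_
  ring

theorem box_swap (N : ℕ) (k : ℤ → ℤ → ℝ) (F G : ℤ → ℝ) :
    box N k F G = box N (fun y x => k x y) G F := by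
  rw [box_expand, box_expand]
  set s := Finset.Ico (0 : ℤ) N
  calc ∑ x ∈ s, ∑ x' ∈ s, ∑ y ∈ s, ∑ y' ∈ s, F x * F x' * G y * G y' *
        ((k x y * k x y') * (k x' y * k x' y'))
      = ∑ x ∈ s, ∑ y ∈ s, ∑ x' ∈ s, ∑ y' ∈ s, F x * F x' * G y * G y' *
        ((k x y * k x y') * (k x' y * k x' y')) := by
        refine Finset.sum_congr rfl fun x _ => ?_
        rw [Finset.sum_comm]
    _ = ∑ y ∈ s, ∑ x ∈ s, ∑ x' ∈ s, ∑ y' ∈ s, F x * F x' * G y * G y' *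
        ((k x y * k x y') * (k x' y * k x' y')) := by
        rw [Finset.sum_comm]
    _ = ∑ y ∈ s, ∑ x ∈ s, ∑ y' ∈ s, ∑ x' ∈ s, F x * F x' * G y * G y' *
        ((k x y * k x y') * (k x' y * k x' y')) := by
        refine Finset.sum_congr rfl fun y _ => Finset.sum_congr rfl fun x _ => ?_
        rw [Finset.sum_comm]
    _ = ∑ y ∈ s, ∑ y' ∈ s, ∑ x ∈ s, ∑ x' ∈ s, F x * F x' * G y * G y' *
        ((k x y * k x y') * (k x' y * k x' y')) := by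
        refine Finset.sum_congr rfl fun y _ => ?_
        rw [Finset.sum_comm]
    _ = _ := by
        refine Finset.sum_congr rfl fun y _ => Finset.sum_congr rfl fun y' _ =>
          Finset.sum_congr rfl fun x _ => Finset.sum_congr rfl fun x' _ => ?_
        ring

private lemma box_mono_left {N : ℕ} {k : ℤ → ℤ → ℝ} {F F' G : ℤ → ℝ}
    (h0 : ∀ x ∈ Finset.Ico (0 : ℤ) N, 0 ≤ F x) (h1 : ∀ x ∈ Finset.Ico (0 : ℤ) N, F x ≤ F' x) :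
    box N k F G ≤ box N k F' G := by
  unfold box
  refine Finset.sum_le_sum fun x hx => Finset.sum_le_sum fun x' hx' => ?_
  refine mul_le_mul_of_nonneg_right ?_ (sq_nonneg _)
  exact mul_le_mul (h1 x hx) (h1 x' hx') (h0 x' hx') (le_trans (h0 x hx) (h1 x hx))

theorem box_mono {N : ℕ} {k : ℤ → ℤ → ℝ} {F F' G G' : ℤ → ℝ}
    (h0 : ∀ x ∈ Finset.Ico (0 : ℤ) N, 0 ≤ F x) (h1 : ∀ x ∈ Finset.Ico (0 : ℤ) N, F x ≤ F' x)
    (h2 : ∀ x ∈ Finset.Ico (0 : ℤ) N, 0 ≤ G x) (h3 : ∀ x ∈ Finset.Ico (0 : ℤ) N, G x ≤ G' x) :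
    box N k F G ≤ box N k F' G' := by
  refine (box_mono_left h0 h1).trans ?_
  rw [box_swap, box_swap N k F' G']
  exact box_mono_left h2 h3

theorem box_smul (N : ℕ) (k : ℤ → ℤ → ℝ) (F G : ℤ → ℝ) (c d : ℝ) :
    box N k (fun x => c * F x) (fun y => d * G y) = c ^ 2 * d ^ 2 * box N k F G := by
  unfold box
  rw [Finset.mul_sum]
  refine Finset.sum_congr rfl fun x _ => ?_
  rw [Finset.mul_sum]
  refine Finset.sum_congr rfl fun x' _ => ?_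
  have : ∑ y ∈ Finset.Ico (0 : ℤ) N, d * G y * (k x y * k x' y) =
      d * ∑ y ∈ Finset.Ico (0 : ℤ) N, G y * (k x y * k x' y) := by
    rw [Finset.mul_sum]
    exact Finset.sum_congr rfl fun y _ => by ring
  rw [this]
  ring

/-- expansion of `∑_x F(x) (∑_y G(y) k(x,y))^2` -/
private lemma box_quad (s : Finset ℤ) (F G : ℤ → ℝ) (k : ℤ → ℤ → ℝ) :
    ∑ x ∈ s, F x * (∑ y ∈ s, G y * k x y) ^ 2 =
      ∑ y ∈ s, ∑ y' ∈ s, G y * G y' * ∑ x ∈ s, F x * (k x y * k x y') := by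
  have h1 : ∀ x ∈ s, F x * (∑ y ∈ s, G y * k x y) ^ 2 =
      ∑ y ∈ s, ∑ y' ∈ s, G y * G y' * (F x * (k x y * k x y')) := by
    intro x _
    rw [box_sq_sum, Finset.mul_sum]
    refine Finset.sum_congr rfl fun y _ => ?_
    rw [Finset.mul_sum]
    exact Finset.sum_congr rfl fun y' _ => by ring
  rw [Finset.sum_congr rfl h1, Finset.sum_comm]
  refine Finset.sum_congr rfl fun y _ => ?_
  rw [Finset.sum_comm]
  refine Finset.sum_congr rfl fun y' _ => ?_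
  rw [Finset.mul_sum]

/-- Cauchy-Schwarz twice -/
theorem box_cut {N : ℕ} {k : ℤ → ℤ → ℝ} {F F1 G G1 : ℤ → ℝ}
    (h1 : ∀ x ∈ Finset.Ico (0 : ℤ) N, |F1 x| ≤ F x) (h2 : ∀ y ∈ Finset.Ico (0 : ℤ) N, |G1 y| ≤ G y) :
    (∑ x ∈ Finset.Ico (0 : ℤ) N, ∑ y ∈ Finset.Ico (0 : ℤ) N, F1 x * G1 y * k x y) ^ 4 ≤
      (∑ x ∈ Finset.Ico (0 : ℤ) N, F x) ^ 2 * (∑ y ∈ Finset.Ico (0 : ℤ) N, G y) ^ 2 *
        box N k F G := by
  set s := Finset.Ico (0 : ℤ) N with hs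
  have hF0 : ∀ x ∈ s, 0 ≤ F x := fun x hx => (abs_nonneg _).trans (h1 x hx)
  have hG0 : ∀ x ∈ s, 0 ≤ G x := fun x hx => (abs_nonneg _).trans (h2 x hx)
  have hsF : 0 ≤ ∑ x ∈ s, F x := Finset.sum_nonneg hF0
  -- first step
  have e1 : |∑ x ∈ s, ∑ y ∈ s, F1 x * G1 y * k x y| ≤
      ∑ x ∈ s, F x * |∑ y ∈ s, G1 y * k x y| := by
    refine (Finset.abs_sum_le_sum_abs _ _).trans (Finset.sum_le_sum fun x hx => ?_)
    have : ∑ y ∈ s, F1 x * G1 y * k x y = F1 x * ∑ y ∈ s, G1 y * k x y := by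
      rw [Finset.mul_sum]; exact Finset.sum_congr rfl fun y _ => by ring
    rw [this, abs_mul]
    exact mul_le_mul_of_nonneg_right (h1 x hx) (abs_nonneg _)
  have e2 : (∑ x ∈ s, ∑ y ∈ s, F1 x * G1 y * k x y) ^ 2 ≤
      (∑ x ∈ s, F x) * ∑ x ∈ s, F x * (∑ y ∈ s, G1 y * k x y) ^ 2 := by
    calc (∑ x ∈ s, ∑ y ∈ s, F1 x * G1 y * k x y) ^ 2
        = |∑ x ∈ s, ∑ y ∈ s, F1 x * G1 y * k x y| ^ 2 := (sq_abs _).symm
      _ ≤ (∑ x ∈ s, F x * |∑ y ∈ s, G1 y * k x y|) ^ 2 := by gcongr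
      _ ≤ (∑ x ∈ s, F x) * ∑ x ∈ s, F x * |∑ y ∈ s, G1 y * k x y| ^ 2 := box_cs1 s F _ hF0
      _ = _ := by simp only [sq_abs]
  -- second step
  have e3 : ∑ x ∈ s, F x * (∑ y ∈ s, G1 y * k x y) ^ 2 ≤
      ∑ y ∈ s, ∑ y' ∈ s, G y * G y' * |∑ x ∈ s, F x * (k x y * k x y')| := by
    rw [box_quad]
    refine Finset.sum_le_sum fun y hy => Finset.sum_le_sum fun y' hy' => ?_
    refine (le_abs_self _).trans ?_
    rw [abs_mul, abs_mul]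
    refine mul_le_mul_of_nonneg_right ?_ (abs_nonneg _)
    exact mul_le_mul (h2 y hy) (h2 y' hy') (abs_nonneg _) (hG0 y hy)
  have e4 : (∑ y ∈ s, ∑ y' ∈ s, G y * G y' * |∑ x ∈ s, F x * (k x y * k x y')|) ^ 2 ≤
      (∑ y ∈ s, G y) ^ 2 * box N k F G := by
    have := box_cs s (fun y y' => G y * G y') (fun _ _ => 1)
      (fun y y' => |∑ x ∈ s, F x * (k x y * k x y')|)
      (fun y hy y' hy' => mul_nonneg (hG0 y hy) (hG0 y' hy'))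
    have h5 : ∑ x ∈ s, ∑ y ∈ s, G x * G y * (1 : ℝ) ^ 2 = (∑ y ∈ s, G y) ^ 2 := by
      rw [box_sq_sum]; simp
    rw [box_swap]
    unfold box
    simp only [one_mul, sq_abs] at this
    rw [h5] at this
    exact this
  have hq0 : 0 ≤ ∑ x ∈ s, F x * (∑ y ∈ s, G1 y * k x y) ^ 2 :=
    Finset.sum_nonneg fun x hx => mul_nonneg (hF0 x hx) (sq_nonneg _)
  calc (∑ x ∈ s, ∑ y ∈ s, F1 x * G1 y * k x y) ^ 4
      = ((∑ x ∈ s, ∑ y ∈ s, F1 x * G1 y * k x y) ^ 2) ^ 2 := by ring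
    _ ≤ ((∑ x ∈ s, F x) * ∑ x ∈ s, F x * (∑ y ∈ s, G1 y * k x y) ^ 2) ^ 2 := by gcongr
    _ = (∑ x ∈ s, F x) ^ 2 * (∑ x ∈ s, F x * (∑ y ∈ s, G1 y * k x y) ^ 2) ^ 2 := by ring
    _ ≤ (∑ x ∈ s, F x) ^ 2 *
        (∑ y ∈ s, ∑ y' ∈ s, G y * G y' * |∑ x ∈ s, F x * (k x y * k x y')|) ^ 2 := by gcongr
    _ ≤ (∑ x ∈ s, F x) ^ 2 * ((∑ y ∈ s, G y) ^ 2 * box N k F G) := by gcongr
    _ = _ := by ring

/-- composition of two kernels -/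
theorem box_comp {N : ℕ} {k1 k2 : ℤ → ℤ → ℝ} {A B F : ℤ → ℝ}
    (hA : ∀ x ∈ Finset.Ico (0 : ℤ) N, 0 ≤ A x) (hB : ∀ x ∈ Finset.Ico (0 : ℤ) N, 0 ≤ B x)
    (hF : ∀ x ∈ Finset.Ico (0 : ℤ) N, 0 ≤ F x) :
    (∑ x ∈ Finset.Ico (0 : ℤ) N, ∑ z ∈ Finset.Ico (0 : ℤ) N, A x * B z *
      (∑ v ∈ Finset.Ico (0 : ℤ) N, F v * (k1 x v * k2 v z)) ^ 2) ^ 2 ≤
      box N k1 A F * box N k2 F B := by
  set s := Finset.Ico (0 : ℤ) N with hs
  have h1 : ∀ x ∈ s, ∀ z ∈ s, A x * B z * (∑ v ∈ s, F v * (k1 x v * k2 v z)) ^ 2 =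
      ∑ v ∈ s, ∑ v' ∈ s, F v * F v' * ((A x * (k1 x v * k1 x v')) * (B z * (k2 v z * k2 v' z))) := by
    intro x _ z _
    rw [box_sq_sum, Finset.mul_sum]
    refine Finset.sum_congr rfl fun v _ => ?_
    rw [Finset.mul_sum]
    exact Finset.sum_congr rfl fun v' _ => by ring
  have h2 : ∑ x ∈ s, ∑ z ∈ s, A x * B z * (∑ v ∈ s, F v * (k1 x v * k2 v z)) ^ 2 =
      ∑ v ∈ s, ∑ v' ∈ s, F v * F v' * ((∑ x ∈ s, A x * (k1 x v * k1 x v')) *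
        (∑ z ∈ s, B z * (k2 v z * k2 v' z))) := by
    calc ∑ x ∈ s, ∑ z ∈ s, A x * B z * (∑ v ∈ s, F v * (k1 x v * k2 v z)) ^ 2
        = ∑ x ∈ s, ∑ z ∈ s, ∑ v ∈ s, ∑ v' ∈ s,
          F v * F v' * ((A x * (k1 x v * k1 x v')) * (B z * (k2 v z * k2 v' z))) :=
          Finset.sum_congr rfl fun x hx => Finset.sum_congr rfl fun z hz => h1 x hx z hz
      _ = ∑ x ∈ s, ∑ v ∈ s, ∑ z ∈ s, ∑ v' ∈ s,
          F v * F v' * ((A x * (k1 x v * k1 x v')) * (B z * (k2 v z * k2 v' z))) :=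
          Finset.sum_congr rfl fun x _ => Finset.sum_comm
      _ = ∑ v ∈ s, ∑ x ∈ s, ∑ z ∈ s, ∑ v' ∈ s,
          F v * F v' * ((A x * (k1 x v * k1 x v')) * (B z * (k2 v z * k2 v' z))) :=
          Finset.sum_comm
      _ = ∑ v ∈ s, ∑ x ∈ s, ∑ v' ∈ s, ∑ z ∈ s,
          F v * F v' * ((A x * (k1 x v * k1 x v')) * (B z * (k2 v z * k2 v' z))) :=
          Finset.sum_congr rfl fun v _ => Finset.sum_congr rfl fun x _ => Finset.sum_comm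
      _ = ∑ v ∈ s, ∑ v' ∈ s, ∑ x ∈ s, ∑ z ∈ s,
          F v * F v' * ((A x * (k1 x v * k1 x v')) * (B z * (k2 v z * k2 v' z))) :=
          Finset.sum_congr rfl fun v _ => Finset.sum_comm
      _ = _ := by
          refine Finset.sum_congr rfl fun v _ => Finset.sum_congr rfl fun v' _ => ?_
          rw [Finset.sum_mul_sum, Finset.mul_sum]
          refine Finset.sum_congr rfl fun x _ => ?_
          rw [Finset.mul_sum]
  rw [h2]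
  refine (box_cs s (fun v v' => F v * F v') (fun v v' => ∑ x ∈ s, A x * (k1 x v * k1 x v'))
    (fun v v' => ∑ z ∈ s, B z * (k2 v z * k2 v' z))
    (fun v hv v' hv' => mul_nonneg (hF v hv) (hF v' hv'))).trans ?_
  rw [box_swap N k1 A F]
  unfold box
  exact le_rfl

theorem box_one {N : ℕ} {k : ℤ → ℤ → ℝ} {A F : ℤ → ℝ}
    (hA : ∀ x ∈ Finset.Ico (0 : ℤ) N, 0 ≤ A x) (hF : ∀ x ∈ Finset.Ico (0 : ℤ) N, 0 ≤ F x) :
    (∑ x ∈ Finset.Ico (0 : ℤ) N, A x * (∑ v ∈ Finset.Ico (0 : ℤ) N, F v * k x v) ^ 2) ^ 2 ≤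
      (∑ v ∈ Finset.Ico (0 : ℤ) N, F v) ^ 2 * box N k A F := by
  set s := Finset.Ico (0 : ℤ) N with hs
  rw [box_quad]
  have := box_cs s (fun v v' => F v * F v') (fun _ _ => 1)
    (fun v v' => ∑ x ∈ s, A x * (k x v * k x v'))
    (fun v hv v' hv' => mul_nonneg (hF v hv) (hF v' hv'))
  have h5 : ∑ x ∈ s, ∑ y ∈ s, F x * F y * (1 : ℝ) ^ 2 = (∑ y ∈ s, F y) ^ 2 := by
    rw [box_sq_sum]; simp
  rw [box_swap]
  unfold box
  simp only [one_mul] at this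
  rw [h5] at this
  exact this

end Pool.Agent.Lib.H18GB
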