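import Pool.Agent.Lib.H18GB2.BXM
import Pool.Agent.Lib.H18GB.TY
import Pool.Agent.Lib.H18GB.TY1
import Pool.Agent.Lib.H18GB.GRAux

/-!
# Project GB2: COD (almost all pairs have the expected number of common neighbours)
-/

namespace Pool.Agent.Lib.H18GB

open Finset Pool.Agent.Lib.Sieve Pool.Agent.Lib.GoldbachGraph

namespace COD

/-- the full kernel -/
noncomputable def cK (W : ℕ) (a b x v : ℤ) : ℝ :=
  ker W (a + b) (a - b) 1 x v + ker W (a + b) (-(a - b)) (-1) x v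

theorem cK_one (W : ℕ) (a b x v : ℤ) : cK W a b x v + 1 = TY1A.pw W (a + W * x) (b + W * v) +
    (if x = v then TY1A.pw W (a + W * x) (b + W * v) - 1 else 0) := by
  unfold cK
  rw [TY1A.ker_pair]
  ring

theorem pw_le {W N : ℕ} (hW : 0 < W) (hN : 0 < N) {a b : ℤ} (ha : 0 ≤ a) (ha' : a < W)
    (hb : 0 ≤ b) (hb' : b < W) {x y : ℤ} (hx : x ∈ Finset.Ico (0 : ℤ) N)
    (hy : y ∈ Finset.Ico (0 : ℤ) N) : TY1A.pw W (a + W * x) (b + W * y) ≤ LL W N ^ 2 := by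
  rw [Finset.mem_Ico] at hx hy
  have hWz : (1 : ℤ) ≤ W := by exact_mod_cast hW
  have hNz : (1 : ℤ) ≤ N := by exact_mod_cast hN
  have hx1 : x ≤ N - 1 := by omega
  have hy1 : y ≤ N - 1 := by omega
  have e1 : (W : ℤ) * x ≤ W * (N - 1) := mul_le_mul_of_nonneg_left hx1 (by omega)
  have e2 : (W : ℤ) * y ≤ W * (N - 1) := mul_le_mul_of_nonneg_left hy1 (by omega)
  have e3 : 0 ≤ (W : ℤ) * x := mul_nonneg (by omega) hx.1
  have e4 : 0 ≤ (W : ℤ) * y := mul_nonneg (by omega) hy.1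
  have e5 : (0 : ℤ) ≤ W * N := by positivity
  have e6 : (W : ℤ) * (N - 1) = W * N - W := by ring
  have c1 : lamv W (a + W * x + (b + W * y)) ≤ LL W N := by
    apply lamv_le hW hN
    rw [abs_le]
    constructor <;> linarith
  have c2 : lamv W (a + W * x - (b + W * y)) ≤ LL W N := by
    apply lamv_le hW hN
    rw [abs_le]
    constructor <;> linarith
  unfold TY1A.pw
  rw [sq]
  exact mul_le_mul c1 c2 (lamv_nonneg' _ _) (LL_nonneg hW hN)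

theorem cK_abs {W N : ℕ} (hW : 0 < W) (hN : 0 < N) {a b : ℤ} (ha : 0 ≤ a) (ha' : a < W)
    (hb : 0 ≤ b) (hb' : b < W) {x y : ℤ} (hx : x ∈ Finset.Ico (0 : ℤ) N)
    (hy : y ∈ Finset.Ico (0 : ℤ) N) : |cK W a b x y + 1| ≤ 2 * (LL W N ^ 2 + 1) := by
  rw [cK_one]
  have h1 := pw_le hW hN ha ha' hb hb' hx hy
  have h2 := TY1A.pw_nonneg W (a + W * x) (b + W * y)
  have h3 : 0 ≤ LL W N ^ 2 := by positivity
  split_ifs
  · rw [abs_le]; constructor <;> linarith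
  · rw [abs_le]; constructor <;> linarith

theorem sum_ite_le (S : Finset ℤ) (c : ℤ) {B : ℝ} (hB : 0 ≤ B) :
    ∑ v ∈ S, (if v = c then B else 0) ≤ B := by
  rw [Finset.sum_ite_eq']
  split_ifs
  · exact le_rfl
  · exact hB

/-- the pointwise bound for an exceptional pair -/
theorem cod_point {W N : ℕ} (hW : 0 < W) (hN : 0 < N) {a b a' b' : ℤ} (ha : 0 ≤ a) (ha1 : a < W)
    (hb : 0 ≤ b) (hb1 : b < W) (ha' : 0 ≤ a') (ha1' : a' < W) (hb' : 0 ≤ b') (hb1' : b' < W)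
    {F : ℤ → ℝ} {s : ℝ} (hF : ∀ v, 0 ≤ F v) (hFs : ∀ v ∈ Finset.Ico (0 : ℤ) N, F v ≤ s)
    {x x' : ℤ} (hx : x ∈ Finset.Ico (0 : ℤ) N) (hx' : x' ∈ Finset.Ico (0 : ℤ) N)
    (h0 : ∀ v ∈ Finset.Ico (1 : ℤ) N, F v * (TY1A.pw W (a + W * x) (b + W * v) *
      TY1A.pw W (a' + W * x') (b' + W * v)) = 0) :
    ∑ v ∈ Finset.Ico (0 : ℤ) N, F v * (cK W a b x v * cK W a' b' x' v) +
      ∑ v ∈ Finset.Ico (0 : ℤ) N, F v * cK W a b x v +
      ∑ v ∈ Finset.Ico (0 : ℤ) N, F v * cK W a' b' x' v ≤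
      3 * (s * (2 * (LL W N ^ 2 + 1)) ^ 2) - ∑ v ∈ Finset.Ico (0 : ℤ) N, F v := by
  set B : ℝ := s * (2 * (LL W N ^ 2 + 1)) ^ 2 with hB
  have hs : 0 ≤ s := (hF x).trans (hFs x hx)
  have hB0 : 0 ≤ B := by positivity
  have h1 : ∑ v ∈ Finset.Ico (0 : ℤ) N, F v * ((cK W a b x v + 1) * (cK W a' b' x' v + 1)) ≤
      3 * B := by
    have h2 : ∀ v ∈ Finset.Ico (0 : ℤ) N, F v * ((cK W a b x v + 1) * (cK W a' b' x' v + 1)) ≤
        (if v = 0 then B else 0) + (if v = x then B else 0) + (if v = x' then B else 0) := by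
      intro v hv
      have c1 := cK_abs hW hN ha ha1 hb hb1 hx hv
      have c2 := cK_abs hW hN ha' ha1' hb' hb1' hx' hv
      have c3 : F v * ((cK W a b x v + 1) * (cK W a' b' x' v + 1)) ≤ B := by
        refine (le_abs_self _).trans ?_
        rw [abs_mul, abs_mul, abs_of_nonneg (hF v), hB, sq]
        refine mul_le_mul (hFs v hv) ?_ (by positivity) hs
        exact mul_le_mul c1 c2 (abs_nonneg _) (by positivity)
      have i1 : 0 ≤ (if v = 0 then B else 0) := by split_ifs <;> [exact hB0; exact le_rfl]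
      have i2 : 0 ≤ (if v = x then B else 0) := by split_ifs <;> [exact hB0; exact le_rfl]
      have i3 : 0 ≤ (if v = x' then B else 0) := by split_ifs <;> [exact hB0; exact le_rfl]
      by_cases k1 : v = 0
      · rw [if_pos k1]
        linarith
      by_cases k2 : v = x
      · rw [if_pos k2]
        linarith
      by_cases k3 : v = x'
      · rw [if_pos k3]
        linarith
      have hv1 : v ∈ Finset.Ico (1 : ℤ) N := by
        rw [Finset.mem_Ico] at hv ⊢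
        omega
      have e0 := h0 v hv1
      rw [cK_one, cK_one, if_neg (Ne.symm k2), if_neg (Ne.symm k3), add_zero, add_zero, e0]
      linarith
    refine (Finset.sum_le_sum h2).trans ?_
    rw [Finset.sum_add_distrib, Finset.sum_add_distrib]
    have s1 := sum_ite_le (Finset.Ico (0 : ℤ) N) 0 hB0
    have s2 := sum_ite_le (Finset.Ico (0 : ℤ) N) x hB0
    have s3 := sum_ite_le (Finset.Ico (0 : ℤ) N) x' hB0
    linarith
  have h3 : ∑ v ∈ Finset.Ico (0 : ℤ) N, F v * ((cK W a b x v + 1) * (cK W a' b' x' v + 1)) =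
      (∑ v ∈ Finset.Ico (0 : ℤ) N, F v * (cK W a b x v * cK W a' b' x' v) +
      ∑ v ∈ Finset.Ico (0 : ℤ) N, F v * cK W a b x v +
      ∑ v ∈ Finset.Ico (0 : ℤ) N, F v * cK W a' b' x' v) + ∑ v ∈ Finset.Ico (0 : ℤ) N, F v := by
    rw [← Finset.sum_add_distrib, ← Finset.sum_add_distrib, ← Finset.sum_add_distrib]
    refine Finset.sum_congr rfl fun v _ => ?_
    ring
  linarith

theorem box_nonneg {N : ℕ} {k : ℤ → ℤ → ℝ} {A F : ℤ → ℝ} (hA : ∀ x, 0 ≤ A x) : 0 ≤ box N k A F := by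
  unfold box
  exact Finset.sum_nonneg fun x _ => Finset.sum_nonneg fun x' _ =>
    mul_nonneg (mul_nonneg (hA x) (hA x')) (sq_nonneg _)

/-- composition of two kernels -/
theorem P_bound {N : ℕ} {k1 k2 : ℤ → ℤ → ℝ} {F : ℤ → ℝ} {β : ℝ} (hβ : 0 ≤ β) (hF : ∀ v, 0 ≤ F v)
    (h1 : box N k1 (fun _ => 1) F ≤ β) (h2 : box N k2 (fun _ => 1) F ≤ β) :
    ∑ x ∈ Finset.Ico (0 : ℤ) N, ∑ x' ∈ Finset.Ico (0 : ℤ) N,
      (∑ v ∈ Finset.Ico (0 : ℤ) N, F v * (k1 x v * k2 x' v)) ^ 2 ≤ β := by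
  have h3 := box_comp (N := N) (k1 := k1) (k2 := fun v z => k2 z v) (A := fun _ => 1)
    (B := fun _ => 1) (F := F) (fun _ _ => zero_le_one) (fun _ _ => zero_le_one) (fun v _ => hF v)
  rw [box_swap N (fun v z => k2 z v) F (fun _ => 1)] at h3
  simp only [one_mul] at h3
  have h4 : box N k1 (fun _ => 1) F * box N k2 (fun _ => 1) F ≤ β ^ 2 := by
    rw [sq]
    exact mul_le_mul h1 h2 (box_nonneg fun _ => zero_le_one) hβ
  exact (sq_le_sq₀ (Finset.sum_nonneg fun x _ => Finset.sum_nonneg fun x' _ => sq_nonneg _) hβ).mp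
    (h3.trans h4)

theorem Q_bound {N : ℕ} {k : ℤ → ℤ → ℝ} {F : ℤ → ℝ} {β C : ℝ} (hβ : 0 ≤ β) (hC : 0 ≤ C)
    (hF : ∀ v, 0 ≤ F v) (h1 : box N k (fun _ => 1) F ≤ β ^ 2)
    (h2 : ∑ v ∈ Finset.Ico (0 : ℤ) N, F v ≤ C) :
    ∑ x ∈ Finset.Ico (0 : ℤ) N, (∑ v ∈ Finset.Ico (0 : ℤ) N, F v * k x v) ^ 2 ≤ C * β := by
  have h3 := box_one (N := N) (k := k) (A := fun _ => 1) (F := F) (fun _ _ => zero_le_one)
    (fun v _ => hF v)
  simp only [one_mul] at h3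
  have h0 : 0 ≤ ∑ v ∈ Finset.Ico (0 : ℤ) N, F v := Finset.sum_nonneg fun v _ => hF v
  have h4 : (∑ v ∈ Finset.Ico (0 : ℤ) N, F v) ^ 2 * box N k (fun _ => 1) F ≤ (C * β) ^ 2 := by
    rw [mul_pow]
    exact mul_le_mul (pow_le_pow_left₀ h0 h2 2) h1 (box_nonneg fun _ => zero_le_one) (by positivity)
  exact (sq_le_sq₀ (Finset.sum_nonneg fun x _ => sq_nonneg _) (by positivity)).mp (h3.trans h4)

/-- the box bounds for the two halves of the full kernel -/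
def BoxOk (W N : ℕ) (a b : ℤ) (F : ℤ → ℝ) (β : ℝ) : Prop :=
  box N (ker W (a + b) (a - b) 1) (fun _ => 1) F ≤ β ∧
    box N (ker W (a + b) (-(a - b)) (-1)) (fun _ => 1) F ≤ β

theorem four_sq (a b c d : ℝ) : (a + b + c + d) ^ 2 ≤ 4 * (a ^ 2 + b ^ 2 + c ^ 2 + d ^ 2) := by
  nlinarith [sq_nonneg (a - b), sq_nonneg (a - c), sq_nonneg (a - d), sq_nonneg (b - c),
    sq_nonneg (b - d), sq_nonneg (c - d)]

theorem P_full {W N : ℕ} {a b a' b' : ℤ} {F : ℤ → ℝ} {β : ℝ} (hβ : 0 ≤ β) (hF : ∀ v, 0 ≤ F v)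
    (h : BoxOk W N a b F β) (h' : BoxOk W N a' b' F β) :
    ∑ x ∈ Finset.Ico (0 : ℤ) N, ∑ x' ∈ Finset.Ico (0 : ℤ) N,
      (∑ v ∈ Finset.Ico (0 : ℤ) N, F v * (cK W a b x v * cK W a' b' x' v)) ^ 2 ≤ 16 * β := by
  have p1 := P_bound hβ hF h.1 h'.1
  have p2 := P_bound hβ hF h.1 h'.2
  have p3 := P_bound hβ hF h.2 h'.1
  have p4 := P_bound hβ hF h.2 h'.2
  set k1 := ker W (a + b) (a - b) 1 with hk1
  set k2 := ker W (a + b) (-(a - b)) (-1) with hk2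
  set l1 := ker W (a' + b') (a' - b') 1 with hl1
  set l2 := ker W (a' + b') (-(a' - b')) (-1) with hl2
  have key : ∀ x ∈ Finset.Ico (0 : ℤ) N, ∑ x' ∈ Finset.Ico (0 : ℤ) N,
      (∑ v ∈ Finset.Ico (0 : ℤ) N, F v * (cK W a b x v * cK W a' b' x' v)) ^ 2 ≤
      4 * (∑ x' ∈ Finset.Ico (0 : ℤ) N, (∑ v ∈ Finset.Ico (0 : ℤ) N, F v * (k1 x v * l1 x' v)) ^ 2 +
        ∑ x' ∈ Finset.Ico (0 : ℤ) N, (∑ v ∈ Finset.Ico (0 : ℤ) N, F v * (k1 x v * l2 x' v)) ^ 2 +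
        ∑ x' ∈ Finset.Ico (0 : ℤ) N, (∑ v ∈ Finset.Ico (0 : ℤ) N, F v * (k2 x v * l1 x' v)) ^ 2 +
        ∑ x' ∈ Finset.Ico (0 : ℤ) N, (∑ v ∈ Finset.Ico (0 : ℤ) N, F v * (k2 x v * l2 x' v)) ^ 2) := by
    intro x _
    rw [← Finset.sum_add_distrib, ← Finset.sum_add_distrib, ← Finset.sum_add_distrib, Finset.mul_sum]
    refine Finset.sum_le_sum fun x' _ => ?_
    refine le_trans (le_of_eq ?_) (four_sq _ _ _ _)
    congr 1
    rw [← Finset.sum_add_distrib, ← Finset.sum_add_distrib, ← Finset.sum_add_distrib]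
    refine Finset.sum_congr rfl fun v _ => ?_
    unfold cK
    rw [← hk1, ← hk2, ← hl1, ← hl2]
    ring
  refine (Finset.sum_le_sum key).trans ?_
  rw [← Finset.mul_sum, Finset.sum_add_distrib, Finset.sum_add_distrib, Finset.sum_add_distrib]
  linarith

theorem Q_full {W N : ℕ} {a b : ℤ} {F : ℤ → ℝ} {β C : ℝ} (hβ : 0 ≤ β) (hC : 0 ≤ C)
    (hF : ∀ v, 0 ≤ F v) (h : BoxOk W N a b F (β ^ 2))
    (h2 : ∑ v ∈ Finset.Ico (0 : ℤ) N, F v ≤ C) :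
    ∑ x ∈ Finset.Ico (0 : ℤ) N, (∑ v ∈ Finset.Ico (0 : ℤ) N, F v * cK W a b x v) ^ 2 ≤
      4 * (C * β) := by
  have q1 := Q_bound hβ hC hF h.1 h2
  have q2 := Q_bound hβ hC hF h.2 h2
  set k1 := ker W (a + b) (a - b) 1 with hk1
  set k2 := ker W (a + b) (-(a - b)) (-1) with hk2
  have key : ∀ x ∈ Finset.Ico (0 : ℤ) N,
      (∑ v ∈ Finset.Ico (0 : ℤ) N, F v * cK W a b x v) ^ 2 ≤
      2 * ((∑ v ∈ Finset.Ico (0 : ℤ) N, F v * k1 x v) ^ 2 +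
        (∑ v ∈ Finset.Ico (0 : ℤ) N, F v * k2 x v) ^ 2) := by
    intro x _
    have e : ∑ v ∈ Finset.Ico (0 : ℤ) N, F v * cK W a b x v =
        ∑ v ∈ Finset.Ico (0 : ℤ) N, F v * k1 x v + ∑ v ∈ Finset.Ico (0 : ℤ) N, F v * k2 x v := by
      rw [← Finset.sum_add_distrib]
      refine Finset.sum_congr rfl fun v _ => ?_
      unfold cK
      rw [← hk1, ← hk2]
      ring
    rw [e]
    nlinarith [sq_nonneg (∑ v ∈ Finset.Ico (0 : ℤ) N, F v * k1 x v -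
      ∑ v ∈ Finset.Ico (0 : ℤ) N, F v * k2 x v)]
  refine (Finset.sum_le_sum key).trans ?_
  rw [← Finset.mul_sum, Finset.sum_add_distrib]
  linarith

theorem sum_E_le {N : ℕ} {E : Finset (ℕ × ℕ)} (hE : E ⊆ Finset.Ico 1 N ×ˢ Finset.Ico 1 N)
    {f : ℤ → ℤ → ℝ} (hf : ∀ x y, 0 ≤ f x y) :
    ∑ q ∈ E, f q.1 q.2 ≤ ∑ x ∈ Finset.Ico (0 : ℤ) N, ∑ x' ∈ Finset.Ico (0 : ℤ) N, f x x' := by
  have h1 : ∑ q ∈ E, f q.1 q.2 ≤ ∑ q ∈ Finset.range N ×ˢ Finset.range N, f (q.1 : ℤ) (q.2 : ℤ) := by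
    refine Finset.sum_le_sum_of_subset_of_nonneg ?_ (fun _ _ _ => hf _ _)
    refine hE.trans ?_
    refine Finset.product_subset_product ?_ ?_ <;>
    · intro x hx
      exact Finset.mem_range.mpr (Finset.mem_Ico.mp hx).2
  refine h1.trans (le_of_eq ?_)
  rw [Finset.sum_product, sum_Ico_int]
  refine Finset.sum_congr rfl fun x _ => ?_
  rw [sum_Ico_int]

/-- the counting lemma -/
theorem cod_count {W N : ℕ} (hW : 0 < W) (hN : 0 < N) {a b a' b' : ℤ} (ha : 0 ≤ a) (ha1 : a < W)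
    (hb : 0 ≤ b) (hb1 : b < W) (ha' : 0 ≤ a') (ha1' : a' < W) (hb' : 0 ≤ b') (hb1' : b' < W)
    {F : ℤ → ℝ} {s C δ : ℝ} (hC : 1 ≤ C) (hδ : 0 < δ) (hδ1 : δ ≤ 1) (hF : ∀ v, 0 ≤ F v)
    (hFs : ∀ v ∈ Finset.Ico (0 : ℤ) N, F v ≤ s)
    (hs : 3 * (s * (2 * (LL W N ^ 2 + 1)) ^ 2) ≤ N / 4)
    (hlo : (N : ℝ) / 2 ≤ ∑ v ∈ Finset.Ico (0 : ℤ) N, F v)
    (hup : ∑ v ∈ Finset.Ico (0 : ℤ) N, F v ≤ C * N)
    (hb1k : BoxOk W N a b F ((δ * N ^ 2) ^ 2)) (hb2k : BoxOk W N a' b' F ((δ * N ^ 2) ^ 2))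
    {E : Finset (ℕ × ℕ)} (hE : E ⊆ Finset.Ico 1 N ×ˢ Finset.Ico 1 N)
    (h0 : ∀ q ∈ E, ∀ v ∈ Finset.Ico 1 N, F (v : ℕ) *
      (TY1A.pw W (a + W * (q.1 : ℕ)) (b + W * (v : ℕ)) *
      TY1A.pw W (a' + W * (q.2 : ℕ)) (b' + W * (v : ℕ))) = 0) :
    (E.card : ℝ) ≤ 1152 * C * δ * N ^ 2 := by
  have hNr : (1 : ℝ) ≤ N := by exact_mod_cast hN
  have hpt : ∀ q ∈ E, (N : ℝ) ^ 2 ≤ 48 * (
      (∑ v ∈ Finset.Ico (0 : ℤ) N, F v * (cK W a b (q.1 : ℕ) v * cK W a' b' (q.2 : ℕ) v)) ^ 2 +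
      (∑ v ∈ Finset.Ico (0 : ℤ) N, F v * cK W a b (q.1 : ℕ) v) ^ 2 +
      (∑ v ∈ Finset.Ico (0 : ℤ) N, F v * cK W a' b' (q.2 : ℕ) v) ^ 2) := by
    intro q hq
    have hq1 := Finset.mem_product.mp (hE hq)
    have hx : ((q.1 : ℕ) : ℤ) ∈ Finset.Ico (0 : ℤ) N := by
      have := Finset.mem_Ico.mp hq1.1
      rw [Finset.mem_Ico]
      omega
    have hx' : ((q.2 : ℕ) : ℤ) ∈ Finset.Ico (0 : ℤ) N := by
      have := Finset.mem_Ico.mp hq1.2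
      rw [Finset.mem_Ico]
      omega
    have h1 := cod_point hW hN ha ha1 hb hb1 ha' ha1' hb' hb1' hF hFs hx hx' (by
      intro v hv
      rw [Finset.mem_Ico] at hv
      obtain ⟨n, rfl⟩ := Int.eq_ofNat_of_zero_le (by omega : 0 ≤ v)
      exact h0 q hq n (by rw [Finset.mem_Ico]; omega))
    set P := ∑ v ∈ Finset.Ico (0 : ℤ) N, F v * (cK W a b (q.1 : ℕ) v * cK W a' b' (q.2 : ℕ) v)
    set Q := ∑ v ∈ Finset.Ico (0 : ℤ) N, F v * cK W a b (q.1 : ℕ) v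
    set R := ∑ v ∈ Finset.Ico (0 : ℤ) N, F v * cK W a' b' (q.2 : ℕ) v
    have h2 : P + Q + R ≤ -(N / 4) := by linarith
    have h3 : (N / 4 : ℝ) ^ 2 ≤ (P + Q + R) ^ 2 := by
      have h4 : (N / 4 : ℝ) ≤ -(P + Q + R) := by linarith
      have h5 := pow_le_pow_left₀ (by positivity) h4 2
      rwa [neg_sq] at h5
    nlinarith [sq_nonneg (P - Q), sq_nonneg (P - R), sq_nonneg (Q - R)]
  have hsum : (E.card : ℝ) * N ^ 2 ≤ ∑ x ∈ Finset.Ico (0 : ℤ) N, ∑ x' ∈ Finset.Ico (0 : ℤ) N,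
      48 * ((∑ v ∈ Finset.Ico (0 : ℤ) N, F v * (cK W a b x v * cK W a' b' x' v)) ^ 2 +
      (∑ v ∈ Finset.Ico (0 : ℤ) N, F v * cK W a b x v) ^ 2 +
      (∑ v ∈ Finset.Ico (0 : ℤ) N, F v * cK W a' b' x' v) ^ 2) := by
    rw [← nsmul_eq_mul, ← Finset.sum_const]
    refine (Finset.sum_le_sum hpt).trans ?_
    exact sum_E_le (f := fun x x' => 48 * ((∑ v ∈ Finset.Ico (0 : ℤ) N,
      F v * (cK W a b x v * cK W a' b' x' v)) ^ 2 +
      (∑ v ∈ Finset.Ico (0 : ℤ) N, F v * cK W a b x v) ^ 2 +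
      (∑ v ∈ Finset.Ico (0 : ℤ) N, F v * cK W a' b' x' v) ^ 2)) hE (fun x y => by positivity)
  have hβ : 0 ≤ δ * (N : ℝ) ^ 2 := by positivity
  have p1 := P_full (by positivity) hF hb1k hb2k
  have p2 := Q_full hβ (by positivity) hF hb1k hup
  have p3 := Q_full hβ (by positivity) hF hb2k hup
  have hcard : ((Finset.Ico (0 : ℤ) N).card : ℝ) = N := by
    rw [Int.card_Ico]
    simp
  have e1 : ∑ x ∈ Finset.Ico (0 : ℤ) N, ∑ x' ∈ Finset.Ico (0 : ℤ) N,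
      48 * ((∑ v ∈ Finset.Ico (0 : ℤ) N, F v * (cK W a b x v * cK W a' b' x' v)) ^ 2 +
      (∑ v ∈ Finset.Ico (0 : ℤ) N, F v * cK W a b x v) ^ 2 +
      (∑ v ∈ Finset.Ico (0 : ℤ) N, F v * cK W a' b' x' v) ^ 2) =
      48 * (∑ x ∈ Finset.Ico (0 : ℤ) N, ∑ x' ∈ Finset.Ico (0 : ℤ) N,
        (∑ v ∈ Finset.Ico (0 : ℤ) N, F v * (cK W a b x v * cK W a' b' x' v)) ^ 2 +
        N * ∑ x ∈ Finset.Ico (0 : ℤ) N, (∑ v ∈ Finset.Ico (0 : ℤ) N, F v * cK W a b x v) ^ 2 +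
        N * ∑ x' ∈ Finset.Ico (0 : ℤ) N,
          (∑ v ∈ Finset.Ico (0 : ℤ) N, F v * cK W a' b' x' v) ^ 2) := by
    simp_rw [← Finset.mul_sum, Finset.sum_add_distrib, Finset.sum_const, nsmul_eq_mul, hcard]
    rw [← Finset.mul_sum]
  rw [e1] at hsum
  have hN2 : (0 : ℝ) < (N : ℝ) ^ 2 := by positivity
  have hfin : (E.card : ℝ) * N ^ 2 ≤ (1152 * C * δ * N ^ 2) * N ^ 2 := by
    refine hsum.trans ?_
    have q2 : (N : ℝ) * ∑ x ∈ Finset.Ico (0 : ℤ) N,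
        (∑ v ∈ Finset.Ico (0 : ℤ) N, F v * cK W a b x v) ^ 2 ≤ N * (4 * (C * N * (δ * N ^ 2))) :=
      mul_le_mul_of_nonneg_left p2 (by positivity)
    have q3 : (N : ℝ) * ∑ x ∈ Finset.Ico (0 : ℤ) N,
        (∑ v ∈ Finset.Ico (0 : ℤ) N, F v * cK W a' b' x v) ^ 2 ≤ N * (4 * (C * N * (δ * N ^ 2))) :=
      mul_le_mul_of_nonneg_left p3 (by positivity)
    have q4 : 16 * (δ * (N : ℝ) ^ 2) ^ 2 ≤ 16 * (C * (δ * N ^ 4)) := by
      have : (δ * (N : ℝ) ^ 2) ^ 2 = δ * (δ * N ^ 4) := by ring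
      rw [this]
      have h5 : δ * (δ * (N : ℝ) ^ 4) ≤ C * (δ * N ^ 4) :=
        mul_le_mul_of_nonneg_right (hδ1.trans hC) (by positivity)
      linarith
    have q5 : (N : ℝ) * (4 * (C * N * (δ * N ^ 2))) = 4 * (C * (δ * N ^ 4)) := by ring
    have q6 : (1152 * C * δ * (N : ℝ) ^ 2) * N ^ 2 = 1152 * (C * (δ * N ^ 4)) := by ring
    rw [q5] at q2 q3
    rw [q6]
    linarith
  exact le_of_mul_le_mul_right hfin hN2

theorem log_small (W : ℕ) (hW : 0 < W) : ∃ N0 : ℕ, ∀ N : ℕ, N0 ≤ N → 0 < N →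
    3 * (Real.sqrt N * (2 * (LL W N ^ 2 + 1)) ^ 2) ≤ N / 4 ∧ LL W N ≤ Real.sqrt N := by
  obtain ⟨N0, hN0⟩ := removed_small W hW (1 / 12) (by norm_num)
  refine ⟨N0, fun N hN hpos => ?_⟩
  have h := hN0 N hN
  have hNr : (1 : ℝ) ≤ N := by exact_mod_cast hpos
  have hl := LL_nonneg hW hpos
  set l := LL W N with hldef
  have hs0 : 0 ≤ Real.sqrt (N : ℝ) := Real.sqrt_nonneg _
  have h1 : (4 * Real.sqrt N + 2) * (l ^ 2 + 1) ^ 2 ≤ 1 / 12 * N := by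
    have h2 : ((4 * Real.sqrt N + 2) * (l ^ 2 + 1) ^ 2) * N ≤ (1 / 12 * N) * N := by nlinarith
    exact le_of_mul_le_mul_right h2 (by positivity)
  have h3 : 0 ≤ (l ^ 2 + 1) ^ 2 := by positivity
  refine ⟨by nlinarith, ?_⟩
  apply Real.le_sqrt_of_sq_le
  have h4 : l ^ 2 ≤ (l ^ 2 + 1) ^ 2 := by nlinarith [sq_nonneg l]
  nlinarith

end COD

open Classical in
/-- Chunk COD1. Let `a(x,y) = λλ` for the pair `(X, Y)`; `a - 1 = k₊ + k₋` except for `x = y`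
(`k_σ = ker`, `σ = ± 1`), and similarly `a'` for `(X', Y)`. For an exceptional pair
`∑_{1 ≤ y < N} a a' = 0`; `a a' - 1 = (a - 1)(a' - 1) + (a - 1) + (a' - 1)`, so
`(number of exceptional pairs) * N^2 / 2 ≤ C ∑_{x,x'} (∑_y ..)^2`, `box_comp`, `box_one` with all weights
`1`, `bxm`. -/
theorem cod1 (ε : ℝ) (hε : 0 < ε) : ∃ w0 : ℕ, ∀ w W : ℕ, w0 ≤ w → IsW w W → ∃ N0 : ℕ,
    ∀ N : ℕ, N0 ≤ N → ∀ x0 x0' y0 : ℕ, x0 < W → x0' < W → y0 < W → Comp W x0 y0 →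
    Comp W x0' y0 →
    (((Finset.Ico 1 N ×ˢ Finset.Ico 1 N).filter fun q => ¬ ∃ y ∈ Finset.Ico 1 N,
      hadj (x0 + W * q.1) (y0 + W * y) ∧ hadj (x0' + W * q.2) (y0 + W * y)).card : ℝ) ≤
      ε * N ^ 2 := by
  set δ : ℝ := min 1 (ε / 1152) with hδd
  have hδ : 0 < δ := lt_min one_pos (by positivity)
  have hδ1 : δ ≤ 1 := min_le_left _ _
  have hδε : 1152 * δ ≤ ε := by
    have := min_le_right 1 (ε / 1152)
    rw [← hδd] at this
    linarith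
  obtain ⟨w1, hw1⟩ := bxm (δ ^ 2) (by positivity)
  refine ⟨max w1 2, fun w W hw hW => ?_⟩
  obtain ⟨N1, hN1⟩ := hw1 w W (le_trans (le_max_left _ _) hw) hW
  have h2W : 2 ∣ W := (hW.2 2 Nat.prime_two).mpr (le_trans (le_max_right _ _) hw)
  have hWpos : 0 < W := hW.1
  obtain ⟨N2, hN2⟩ := COD.log_small W hWpos
  refine ⟨max N1 (max N2 1), fun N hN x0 x0' y0 hx0 hx0' hy0 hc hc' => ?_⟩
  have hN' : N1 ≤ N := le_trans (le_max_left _ _) hN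
  have hN'' : N2 ≤ N := le_trans (le_trans (le_max_left _ _) (le_max_right _ _)) hN
  have hNpos : 0 < N := le_trans (le_trans (le_max_right _ _) (le_max_right _ _)) hN
  obtain ⟨hl1, hl2⟩ := hN2 N hN'' hNpos
  have hNr : (1 : ℝ) ≤ N := by exact_mod_cast hNpos
  have hsq1 : (1 : ℝ) ≤ Real.sqrt N := Real.one_le_sqrt.mpr hNr
  have hadm : Adm w W N (fun _ => (1 : ℝ)) := ⟨fun _ => zero_le_one, Or.inl fun _ => le_rfl⟩
  have hbox : ∀ a : ℕ, a < W → Comp W a y0 →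
      COD.BoxOk W N (a : ℤ) (y0 : ℤ) (fun _ => (1 : ℝ)) ((δ * N ^ 2) ^ 2) := by
    intro a ha hca
    have e : (δ * (N : ℝ) ^ 2) ^ 2 = δ ^ 2 * N ^ 4 := by ring
    rw [COD.BoxOk, e]
    have r1 : |(a : ℤ) + y0| < 2 * W := by rw [abs_lt]; constructor <;> omega
    have r2 : |(a : ℤ) - y0| < 2 * W := by rw [abs_lt]; constructor <;> omega
    have r3 : |-((a : ℤ) - y0)| < 2 * W := by rw [abs_neg]; exact r2
    exact ⟨hN1 N hN' _ _ 1 r1 hca.1 r2 hca.2 (Or.inl rfl) _ _ hadm hadm,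
      hN1 N hN' _ _ (-1) r1 hca.1 r3 hca.2.neg_left (Or.inr rfl) _ _ hadm hadm⟩
  have hcardI : ∑ _v ∈ Finset.Ico (0 : ℤ) N, (1 : ℝ) = N := by
    rw [Finset.sum_const, Int.card_Ico, nsmul_eq_mul]
    simp
  have key := COD.cod_count (W := W) (N := N) hWpos hNpos (a := x0) (b := y0) (a' := x0') (b' := y0)
    (by omega) (by omega) (by omega) (by omega) (by omega) (by omega) (by omega) (by omega)
    (F := fun _ => 1) (s := Real.sqrt N) (C := 1) (δ := δ) le_rfl hδ hδ1 (fun _ => zero_le_one)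
    (fun _ _ => hsq1) hl1 (by rw [hcardI]; linarith) (by rw [hcardI]; linarith) (hbox x0 hx0 hc)
    (hbox x0' hx0' hc')
    (E := (Finset.Ico 1 N ×ˢ Finset.Ico 1 N).filter fun q => ¬ ∃ y ∈ Finset.Ico 1 N,
      hadj (x0 + W * q.1) (y0 + W * y) ∧ hadj (x0' + W * q.2) (y0 + W * y))
    (Finset.filter_subset _ _) (by
      intro q hq v hv
      rw [one_mul]
      by_contra hne
      obtain ⟨n1, n2⟩ := mul_ne_zero_iff.mp hne
      refine (Finset.mem_filter.mp hq).2 ⟨v, hv, ?_, ?_⟩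
      · apply hadj_of_lamv h2W hc
        unfold TY1A.pw at n1
        have e1 : ((x0 : ℤ) + y0) + W * ((q.1 : ℕ) + (v : ℕ)) = (x0 + W * (q.1 : ℕ)) + (y0 + W * (v : ℕ)) := by
          ring
        have e2 : ((x0 : ℤ) - y0) + W * ((q.1 : ℕ) - (v : ℕ)) = (x0 + W * (q.1 : ℕ)) - (y0 + W * (v : ℕ)) := by
          ring
        rw [e1, e2]
        exact n1
      · apply hadj_of_lamv h2W hc'
        unfold TY1A.pw at n2
        have e1 : ((x0' : ℤ) + y0) + W * ((q.2 : ℕ) + (v : ℕ)) = (x0' + W * (q.2 : ℕ)) + (y0 + W * (v : ℕ)) := by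
          ring
        have e2 : ((x0' : ℤ) - y0) + W * ((q.2 : ℕ) - (v : ℕ)) = (x0' + W * (q.2 : ℕ)) - (y0 + W * (v : ℕ)) := by
          ring
        rw [e1, e2]
        exact n2)
  refine key.trans ?_
  have hN2' : 0 ≤ (N : ℝ) ^ 2 := by positivity
  calc 1152 * 1 * δ * (N : ℝ) ^ 2 = (1152 * δ) * N ^ 2 := by ring
    _ ≤ ε * N ^ 2 := mul_le_mul_of_nonneg_right hδε hN2'

open Classical in
/-- Chunk COD2. The same with the weight `F = sg` in the middle variable, the kernels being those of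
`(X, V)` and `(V + 3, X')`, and `sg_total`. -/
theorem cod2 (ε : ℝ) (hε : 0 < ε) : ∃ w0 : ℕ, ∀ w W : ℕ, w0 ≤ w → IsW w W → ∃ N0 : ℕ,
    ∀ N : ℕ, N0 ≤ N → ∀ x0 x0' v0 : ℕ, x0 < W → x0' < W → v0 + 3 < W →
    IsCoprime (2 * (v0 : ℤ) + 3) W → Comp W x0 v0 → Comp W x0' (v0 + 3) →
    (((Finset.Ico 1 N ×ˢ Finset.Ico 1 N).filter fun q => ¬ ∃ v ∈ Finset.Ico 1 N,
      (2 * (v0 + W * v) + 3).Prime ∧ hadj (x0 + W * q.1) (v0 + W * v) ∧
      hadj (x0' + W * q.2) (v0 + 3 + W * v)).card : ℝ) ≤ ε * N ^ 2 := by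
  obtain ⟨C, hC, w2, hw2⟩ := adm_sum
  obtain ⟨w3, hw3⟩ := sg_total
  set δ : ℝ := min 1 (ε / (1152 * C)) with hδd
  have hCpos : 0 < C := by linarith
  have hδ : 0 < δ := lt_min one_pos (by positivity)
  have hδ1 : δ ≤ 1 := min_le_left _ _
  have hδε : 1152 * C * δ ≤ ε := by
    have := min_le_right 1 (ε / (1152 * C))
    rw [← hδd, le_div_iff₀ (by positivity)] at this
    linarith
  obtain ⟨w1, hw1⟩ := bxm (δ ^ 2) (by positivity)
  refine ⟨max w1 (max w2 (max w3 2)), fun w W hw hW => ?_⟩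
  have hww1 : w1 ≤ w := le_trans (le_max_left _ _) hw
  have hww2 : w2 ≤ w := le_trans (le_trans (le_max_left _ _) (le_max_right _ _)) hw
  have hww3 : w3 ≤ w := le_trans (le_trans (le_trans (le_max_left _ _) (le_max_right _ _))
    (le_max_right _ _)) hw
  have hww4 : 2 ≤ w := le_trans (le_trans (le_trans (le_max_right _ _) (le_max_right _ _))
    (le_max_right _ _)) hw
  obtain ⟨N1, hN1⟩ := hw1 w W hww1 hW
  obtain ⟨N3, hN3⟩ := hw2 w W hww2 hW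
  obtain ⟨N4, hN4⟩ := hw3 w W hww3 hW
  have h2W : 2 ∣ W := (hW.2 2 Nat.prime_two).mpr hww4
  have hWpos : 0 < W := hW.1
  obtain ⟨N2, hN2⟩ := COD.log_small W hWpos
  refine ⟨N1 + N2 + N3 + N4 + 1, fun N hN x0 x0' v0 hx0 hx0' hv0 hcop hc hc' => ?_⟩
  have hNpos : 0 < N := by omega
  obtain ⟨hl1, hl2⟩ := hN2 N (by omega) hNpos
  have hNr : (1 : ℝ) ≤ N := by exact_mod_cast hNpos
  set F : ℤ → ℝ := fun v => lamv W (2 * W * v + ((2 * v0 + 3 : ℕ) : ℤ)) with hFd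
  have hF0 : ∀ v, 0 ≤ F v := fun v => lamv_nonneg' _ _
  have hFsg : ∀ v : ℕ, F (v : ℤ) = sg W v0 v := fun v => (sg_eq W v0 v).symm
  have hFs : ∀ v ∈ Finset.Ico (0 : ℤ) N, F v ≤ Real.sqrt N := by
    intro v hv
    refine le_trans ?_ hl2
    apply lamv_le hWpos hNpos
    rw [Finset.mem_Ico] at hv
    have hWz : (1 : ℤ) ≤ W := by exact_mod_cast hWpos
    have hNz : (1 : ℤ) ≤ N := by exact_mod_cast hNpos
    have e1 : (W : ℤ) * v ≤ W * (N - 1) := mul_le_mul_of_nonneg_left (by omega) (by omega)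
    have e3 : 0 ≤ (W : ℤ) * v := mul_nonneg (by omega) hv.1
    have e5 : (W : ℤ) * 1 ≤ W * N := mul_le_mul_of_nonneg_left hNz (by omega)
    have e6 : (W : ℤ) * (N - 1) = W * N - W := by ring
    have e7 : (v0 : ℤ) + 3 < W := by omega
    have e8 : 2 * (W : ℤ) * v = 2 * (W * v) := by ring
    have e9 : 5 * (W : ℤ) * N = 5 * (W * N) := by ring
    rw [abs_le, e8, e9]
    push_cast
    constructor <;> linarith
  have hadm1 : Adm w W N (fun _ => (1 : ℝ)) := ⟨fun _ => zero_le_one, Or.inl fun _ => le_rfl⟩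
  have hadm : Adm w W N F := by
    refine ⟨hF0, Or.inr (Or.inl ⟨((2 * v0 + 3 : ℕ) : ℤ), ?_, fun v => le_rfl⟩)⟩
    rw [abs_le]
    push_cast
    constructor <;> omega
  have hbox : ∀ a b : ℕ, a < W → b < W → Comp W a b →
      COD.BoxOk W N (a : ℤ) (b : ℤ) F ((δ * N ^ 2) ^ 2) := by
    intro a b ha hb hca
    have e : (δ * (N : ℝ) ^ 2) ^ 2 = δ ^ 2 * N ^ 4 := by ring
    rw [COD.BoxOk, e]
    have r1 : |(a : ℤ) + b| < 2 * W := by rw [abs_lt]; constructor <;> omega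
    have r2 : |(a : ℤ) - b| < 2 * W := by rw [abs_lt]; constructor <;> omega
    have r3 : |-((a : ℤ) - b)| < 2 * W := by rw [abs_neg]; exact r2
    exact ⟨hN1 N (by omega) _ _ 1 r1 hca.1 r2 hca.2 (Or.inl rfl) _ _ hadm1 hadm,
      hN1 N (by omega) _ _ (-1) r1 hca.1 r3 hca.2.neg_left (Or.inr rfl) _ _ hadm1 hadm⟩
  have hup := hN3 N (by omega) F hadm
  have hlo : (N : ℝ) / 2 ≤ ∑ v ∈ Finset.Ico (0 : ℤ) N, F v := by
    refine (hN4 N (by omega) v0 hv0 hcop).trans ?_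
    rw [sum_Ico_int]
    have e1 : ∑ v ∈ Finset.Ico 1 N, sg W v0 v = ∑ v ∈ Finset.Ico 1 N, F ((v : ℕ) : ℤ) :=
      Finset.sum_congr rfl fun v _ => (hFsg v).symm
    rw [e1]
    refine Finset.sum_le_sum_of_subset_of_nonneg ?_ (fun v _ _ => hF0 _)
    intro v hv
    exact Finset.mem_range.mpr (Finset.mem_Ico.mp hv).2
  have hc'' : Comp W (x0' : ℤ) ((v0 + 3 : ℕ) : ℤ) := by
    have : ((v0 + 3 : ℕ) : ℤ) = (v0 : ℤ) + 3 := by push_cast; ring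
    rw [this]
    exact hc'
  have key := COD.cod_count (W := W) (N := N) hWpos hNpos (a := x0) (b := v0) (a' := x0')
    (b' := ((v0 + 3 : ℕ) : ℤ))
    (by omega) (by omega) (by omega) (by omega) (by omega) (by omega) (by omega) (by omega)
    (F := F) (s := Real.sqrt N) (C := C) (δ := δ) hC hδ hδ1 hF0
    hFs hl1 hlo hup (hbox x0 v0 hx0 (by omega) hc) (hbox x0' (v0 + 3) hx0' (by omega) hc'')
    (E := (Finset.Ico 1 N ×ˢ Finset.Ico 1 N).filter fun q => ¬ ∃ v ∈ Finset.Ico 1 N,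
      (2 * (v0 + W * v) + 3).Prime ∧ hadj (x0 + W * q.1) (v0 + W * v) ∧
      hadj (x0' + W * q.2) (v0 + 3 + W * v))
    (Finset.filter_subset _ _) (by
      intro q hq v hv
      by_contra hne
      obtain ⟨n0, n12⟩ := mul_ne_zero_iff.mp hne
      obtain ⟨n1, n2⟩ := mul_ne_zero_iff.mp n12
      rw [hFsg] at n0
      refine (Finset.mem_filter.mp hq).2 ⟨v, hv, sg_ne n0, ?_, ?_⟩
      · apply hadj_of_lamv h2W hc
        unfold TY1A.pw at n1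
        have e1 : ((x0 : ℤ) + v0) + W * ((q.1 : ℕ) + (v : ℕ)) = (x0 + W * (q.1 : ℕ)) + (v0 + W * (v : ℕ)) := by
          ring
        have e2 : ((x0 : ℤ) - v0) + W * ((q.1 : ℕ) - (v : ℕ)) = (x0 + W * (q.1 : ℕ)) - (v0 + W * (v : ℕ)) := by
          ring
        rw [e1, e2]
        exact n1
      · apply hadj_of_lamv h2W hc''
        unfold TY1A.pw at n2
        have e1 : ((x0' : ℤ) + ((v0 + 3 : ℕ) : ℤ)) + W * ((q.2 : ℕ) + (v : ℕ)) =
            (x0' + W * (q.2 : ℕ)) + (((v0 + 3 : ℕ) : ℤ) + W * (v : ℕ)) := by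
          ring
        have e2 : ((x0' : ℤ) - ((v0 + 3 : ℕ) : ℤ)) + W * ((q.2 : ℕ) - (v : ℕ)) =
            (x0' + W * (q.2 : ℕ)) - (((v0 + 3 : ℕ) : ℤ) + W * (v : ℕ)) := by
          ring
        rw [e1, e2]
        exact n2)
  refine key.trans ?_
  have hN2' : 0 ≤ (N : ℝ) ^ 2 := by positivity
  exact mul_le_mul_of_nonneg_right hδε hN2'

end Pool.Agent.Lib.H18GB
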