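import Pool.Agent.Lib.H18GB.TU3GvN

/-!
# Project GB2: GVN2 (generalised von Neumann inequality, pure Cauchy-Schwarz)
-/

namespace Pool.Agent.Lib.H18GB

open Finset

/-- cut-off of a function of `(x, x', y, y')`, in the variables `j = y' - y`, `k = x' - x` -/
noncomputable def ecut (N : ℕ) (E : ℤ → ℤ → ℤ → ℤ → ℝ) (j k x y : ℤ) : ℝ :=
  if (0 ≤ x ∧ x < N) ∧ (0 ≤ x + k ∧ x + k < N) ∧ (0 ≤ y ∧ y < N) ∧ (0 ≤ y + j ∧ y + j < N) then
    E x (x + k) y (y + j) else 0

private theorem gvn2_reindex {f : ℤ → ℝ} {I J : Finset ℤ} (e : ℤ ≃ ℤ) (hJ : ∀ m, m ∉ J → f m = 0)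
    (hI : ∀ m ∈ J, e.symm m ∈ I) : ∑ i ∈ I, f (e i) = ∑ m ∈ J, f m := by
  have h1 : ∑ i ∈ I, f (e i) = ∑ m ∈ I.map e.toEmbedding, f m := by
    rw [Finset.sum_map]
    rfl
  rw [h1]
  symm
  apply Finset.sum_subset
  · intro m hm
    rw [Finset.mem_map]
    exact ⟨e.symm m, hI m hm, by simp⟩
  · intro m _ hm
    exact hJ m hm

private theorem gvn2_shift {f : ℤ → ℝ} {I J : Finset ℤ} (x : ℤ) (hJ : ∀ m, m ∉ J → f m = 0)
    (hI : ∀ m ∈ J, m - x ∈ I) : ∑ i ∈ I, f (x + i) = ∑ m ∈ J, f m := by
  apply gvn2_reindex (f := f) (Equiv.addLeft x) hJ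
  intro m hm
  have h := hI m hm
  simp only [Equiv.addLeft_symm_apply]
  rwa [neg_add_eq_sub]

private theorem gvn2_reflect {f : ℤ → ℝ} {I J : Finset ℤ} (x : ℤ) (hJ : ∀ m, m ∉ J → f m = 0)
    (hI : ∀ m ∈ J, x - m ∈ I) : ∑ i ∈ I, f (x - i) = ∑ m ∈ J, f m := by
  apply gvn2_reindex (f := f) (Equiv.subLeft x) hJ
  intro m hm
  have := hI m hm
  simpa [Equiv.subLeft_symm_apply, add_comm, sub_eq_add_neg] using this

/-- replace the second variable of a double sum by a shift -/
private theorem gvn2_sh {N : ℕ} {L : ℤ} (hL : (N : ℤ) ≤ L) (x : ℤ) (hx : x ∈ Finset.Ico (0 : ℤ) N)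
    (h : ℤ → ℝ) :
    ∑ x' ∈ Finset.Ico (0 : ℤ) N, h x' =
      ∑ k ∈ Finset.Ico (-L) L, if 0 ≤ x + k ∧ x + k < N then h (x + k) else 0 := by
  have h1 := gvn2_shift (f := fun m => if 0 ≤ m ∧ m < (N : ℤ) then h m else 0)
    (I := Finset.Ico (-L) L) (J := Finset.Ico (0 : ℤ) N) x
    (fun m hm => by
      rw [Finset.mem_Ico] at hm
      rw [if_neg hm])
    (fun m hm => by
      rw [Finset.mem_Ico] at hm hx ⊢
      omega)
  rw [h1]
  apply Finset.sum_congr rfl
  intro m hm
  rw [Finset.mem_Ico] at hm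
  rw [if_pos hm]

/-- Chunk GVN2. With `F1(s) = P0(s) P1(s+j) P2(s+k) P3(s+k+j)`,
`F2(t) = Q0(t) Q1(t-j) Q2(t+k) Q3(t+k-j)` the sum is
`∑_{j,k} ∑_{x,y} ecut(j,k,x,y) F1(x+y) F2(x-y) = ∑_{j,k,t} F2(t) ∑_x ecut(j,k,x,x-t) F1(2x-t)`.
Cauchy-Schwarz over `(j,k,t)` with weight `M2`; expand the square, `x' = x + l`, `s = 2x - t`
(compare `gvnB`, `gvnD`, `gvn` in `TU3GvN.lean`). -/
theorem gvn2 (N : ℕ) (E : ℤ → ℤ → ℤ → ℤ → ℝ) (P Q : Fin 4 → ℤ → ℝ) (M1 M2 : ℤ → ℤ → ℤ → ℝ)
    (hP : ∀ i n, n ∉ Finset.Ico (-(2 * N : ℤ)) (2 * N) → P i n = 0)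
    (hQ : ∀ i n, n ∉ Finset.Ico (-(2 * N : ℤ)) (2 * N) → Q i n = 0)
    (h1 : ∀ j k s, |P 0 s| * |P 1 (s + j)| * (|P 2 (s + k)| * |P 3 (s + k + j)|) ≤ M1 j k s)
    (h2 : ∀ j k t, |Q 0 t| * |Q 1 (t - j)| * (|Q 2 (t + k)| * |Q 3 (t + k - j)|) ≤ M2 j k t) :
    (∑ x ∈ Finset.Ico (0 : ℤ) N, ∑ x' ∈ Finset.Ico (0 : ℤ) N, ∑ y ∈ Finset.Ico (0 : ℤ) N,
      ∑ y' ∈ Finset.Ico (0 : ℤ) N, E x x' y y' *
        ((P 0 (x + y) * Q 0 (x - y) * (P 1 (x + y') * Q 1 (x - y'))) *
          (P 2 (x' + y) * Q 2 (x' - y) * (P 3 (x' + y') * Q 3 (x' - y'))))) ^ 2 ≤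
    (∑ j ∈ Finset.Ico (-(2 * N : ℤ)) (2 * N), ∑ k ∈ Finset.Ico (-(N : ℤ)) N,
      ∑ t ∈ Finset.Ico (-(5 * N : ℤ)) (5 * N), M2 j k t) *
    (∑ j ∈ Finset.Ico (-(2 * N : ℤ)) (2 * N), ∑ k ∈ Finset.Ico (-(N : ℤ)) N,
      ∑ l ∈ Finset.Ico (-(N : ℤ)) N, ∑ s ∈ Finset.Ico (-(2 * N : ℤ)) (2 * N),
        M1 j k s * M1 j k (s + 2 * l) *
        |∑ x ∈ Finset.Ico (0 : ℤ) N, ecut N E j k x (s - x) * ecut N E j k (x + l) (s - x + l) *
          M2 j k (2 * x - s)|) := by
  set J := Finset.Ico (-(2 * N : ℤ)) (2 * N) with hJ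
  set K := Finset.Ico (-(N : ℤ)) N with hK
  set T := Finset.Ico (-(5 * N : ℤ)) (5 * N) with hT
  set I := Finset.Ico (0 : ℤ) N with hI
  have hM2 : ∀ j k t, 0 ≤ M2 j k t := fun j k t =>
    (mul_nonneg (mul_nonneg (abs_nonneg _) (abs_nonneg _))
      (mul_nonneg (abs_nonneg _) (abs_nonneg _))).trans (h2 j k t)
  set F1 : ℤ → ℤ → ℤ → ℝ := fun j k s => P 0 s * P 1 (s + j) * (P 2 (s + k) * P 3 (s + k + j))
    with hF1
  set F2 : ℤ → ℤ → ℤ → ℝ := fun j k t => Q 0 t * Q 1 (t - j) * (Q 2 (t + k) * Q 3 (t + k - j))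
    with hF2
  have hF1b : ∀ j k s, |F1 j k s| ≤ M1 j k s := by
    intro j k s
    refine le_trans (le_of_eq ?_) (h1 j k s)
    simp only [hF1, abs_mul]
  have hF2b : ∀ j k s, |F2 j k s| ≤ M2 j k s := by
    intro j k s
    refine le_trans (le_of_eq ?_) (h2 j k s)
    simp only [hF2, abs_mul]
  set Φ : ℤ → ℤ → ℤ → ℝ := fun j k t => ∑ x ∈ I, ecut N E j k x (x - t) * F1 j k (2 * x - t)
    with hΦ
  -- step 1: change of variables
  have s1 : (∑ x ∈ I, ∑ x' ∈ I, ∑ y ∈ I,
      ∑ y' ∈ I, E x x' y y' *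
        ((P 0 (x + y) * Q 0 (x - y) * (P 1 (x + y') * Q 1 (x - y'))) *
          (P 2 (x' + y) * Q 2 (x' - y) * (P 3 (x' + y') * Q 3 (x' - y'))))) =
      ∑ q ∈ J ×ˢ (K ×ˢ T), F2 q.1 q.2.1 q.2.2 * Φ q.1 q.2.1 q.2.2 := by
    calc _ = ∑ x ∈ I, ∑ k ∈ K, ∑ y ∈ I, ∑ j ∈ J,
          ecut N E j k x y * (F1 j k (x + y) * F2 j k (x - y)) := by
          apply Finset.sum_congr rfl
          intro x hx
          rw [hI, gvn2_sh (L := (N : ℤ)) le_rfl x hx]
          apply Finset.sum_congr rfl
          intro k _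
          by_cases hk : 0 ≤ x + k ∧ x + k < (N : ℤ)
          · rw [if_pos hk]
            apply Finset.sum_congr rfl
            intro y hy
            rw [gvn2_sh (L := 2 * (N : ℤ)) (by omega) y hy]
            apply Finset.sum_congr rfl
            intro j _
            by_cases hj : 0 ≤ y + j ∧ y + j < (N : ℤ)
            · have hx' := Finset.mem_Ico.1 hx
              have hy' := Finset.mem_Ico.1 hy
              rw [if_pos hj]
              unfold ecut
              rw [if_pos ⟨hx', hk, hy', hj⟩]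
              simp only [hF1, hF2]
              rw [show x + (y + j) = x + y + j by ring, show x - (y + j) = x - y - j by ring,
                show x + k + y = x + y + k by ring, show x + k - y = x - y + k by ring,
                show x + k + (y + j) = x + y + k + j by ring,
                show x + k - (y + j) = x - y + k - j by ring]
              ring
            · rw [if_neg hj]
              unfold ecut
              rw [if_neg (fun h => hj h.2.2.2)]
              ring
          · rw [if_neg hk]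
            symm
            apply Finset.sum_eq_zero
            intro y _
            apply Finset.sum_eq_zero
            intro j _
            unfold ecut
            rw [if_neg (fun h => hk h.2.1)]
            ring
      _ = ∑ j ∈ J, ∑ k ∈ K, ∑ x ∈ I, ∑ y ∈ I,
          ecut N E j k x y * (F1 j k (x + y) * F2 j k (x - y)) := by
          rw [Finset.sum_comm]
          rw [Finset.sum_comm (s := J)]
          apply Finset.sum_congr rfl
          intro k _
          rw [Finset.sum_comm (s := J)]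
          apply Finset.sum_congr rfl
          intro x _
          rw [Finset.sum_comm]
      _ = ∑ j ∈ J, ∑ k ∈ K, ∑ x ∈ I, ∑ t ∈ T,
          ecut N E j k x (x - t) * (F1 j k (2 * x - t) * F2 j k t) := by
          apply Finset.sum_congr rfl
          intro j _
          apply Finset.sum_congr rfl
          intro k _
          apply Finset.sum_congr rfl
          intro x hx
          have h3 := gvn2_reflect (f := fun y => ecut N E j k x y *
            (F1 j k (x + y) * F2 j k (x - y))) (I := T) (J := I) x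
            (fun m hm => by
              unfold ecut
              rw [if_neg, zero_mul]
              intro h
              exact hm (Finset.mem_Ico.2 h.2.2.1))
            (fun m hm => by
              rw [hI, Finset.mem_Ico] at hm hx
              rw [hT, Finset.mem_Ico]
              omega)
          rw [← h3]
          apply Finset.sum_congr rfl
          intro t _
          rw [show x + (x - t) = 2 * x - t by ring, show x - (x - t) = t by ring]
      _ = _ := by
          rw [Finset.sum_product]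
          apply Finset.sum_congr rfl
          intro j _
          rw [Finset.sum_product]
          apply Finset.sum_congr rfl
          intro k _
          rw [Finset.sum_comm]
          apply Finset.sum_congr rfl
          intro t _
          simp only [hΦ]
          rw [Finset.mul_sum]
          apply Finset.sum_congr rfl
          intro x _
          ring
  -- step 2: Cauchy-Schwarz
  have s2 : (∑ q ∈ J ×ˢ (K ×ˢ T), F2 q.1 q.2.1 q.2.2 * Φ q.1 q.2.1 q.2.2) ^ 2 ≤
      (∑ q ∈ J ×ˢ (K ×ˢ T), M2 q.1 q.2.1 q.2.2) *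
      ∑ q ∈ J ×ˢ (K ×ˢ T), M2 q.1 q.2.1 q.2.2 * Φ q.1 q.2.1 q.2.2 ^ 2 := by
    have a1 : |∑ q ∈ J ×ˢ (K ×ˢ T), F2 q.1 q.2.1 q.2.2 * Φ q.1 q.2.1 q.2.2| ≤
        ∑ q ∈ J ×ˢ (K ×ˢ T), M2 q.1 q.2.1 q.2.2 * |Φ q.1 q.2.1 q.2.2| := by
      refine (Finset.abs_sum_le_sum_abs _ _).trans (Finset.sum_le_sum fun q _ => ?_)
      rw [abs_mul]
      exact mul_le_mul_of_nonneg_right (hF2b _ _ _) (abs_nonneg _)
    have a2 : (∑ q ∈ J ×ˢ (K ×ˢ T), F2 q.1 q.2.1 q.2.2 * Φ q.1 q.2.1 q.2.2) ^ 2 ≤
        (∑ q ∈ J ×ˢ (K ×ˢ T), M2 q.1 q.2.1 q.2.2 * |Φ q.1 q.2.1 q.2.2|) ^ 2 := by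
      rw [← sq_abs (∑ q ∈ J ×ˢ (K ×ˢ T), F2 q.1 q.2.1 q.2.2 * Φ q.1 q.2.1 q.2.2)]
      exact pow_le_pow_left₀ (abs_nonneg _) a1 2
    refine a2.trans ?_
    apply Finset.sum_sq_le_sum_mul_sum_of_sq_le_mul
    · intro q _
      exact hM2 _ _ _
    · intro q _
      exact mul_nonneg (hM2 _ _ _) (sq_nonneg _)
    · intro q _
      apply le_of_eq
      rw [mul_pow, sq_abs]
      ring
  -- step 3: expand the square
  have s3 : ∀ j k, ∑ t ∈ T, M2 j k t * Φ j k t ^ 2 ≤
      ∑ l ∈ K, ∑ s ∈ J, M1 j k s * M1 j k (s + 2 * l) *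
        |∑ x ∈ I, ecut N E j k x (s - x) * ecut N E j k (x + l) (s - x + l) *
          M2 j k (2 * x - s)| := by
    intro j k
    have key : ∑ t ∈ T, M2 j k t * Φ j k t ^ 2 = ∑ l ∈ K, ∑ s ∈ J,
        (F1 j k s * F1 j k (s + 2 * l)) *
          ∑ x ∈ I, ecut N E j k x (s - x) * ecut N E j k (x + l) (s - x + l) *
            M2 j k (2 * x - s) := by
      calc ∑ t ∈ T, M2 j k t * Φ j k t ^ 2 = ∑ t ∈ T, M2 j k t *
            ∑ x ∈ I, ∑ x' ∈ I, (ecut N E j k x (x - t) * F1 j k (2 * x - t)) *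
              (ecut N E j k x' (x' - t) * F1 j k (2 * x' - t)) := by
            apply Finset.sum_congr rfl
            intro t _
            simp only [hΦ]
            rw [sq, Finset.sum_mul_sum]
        _ = ∑ t ∈ T, M2 j k t *
            ∑ x ∈ I, ∑ l ∈ K, (ecut N E j k x (x - t) * F1 j k (2 * x - t)) *
              (ecut N E j k (x + l) (x + l - t) * F1 j k (2 * (x + l) - t)) := by
            apply Finset.sum_congr rfl
            intro t _
            congr 1
            apply Finset.sum_congr rfl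
            intro x hx
            rw [hI, gvn2_sh (L := (N : ℤ)) le_rfl x hx]
            apply Finset.sum_congr rfl
            intro l _
            by_cases hl : 0 ≤ x + l ∧ x + l < (N : ℤ)
            · rw [if_pos hl]
            · rw [if_neg hl]
              have : ecut N E j k (x + l) (x + l - t) = 0 := by
                unfold ecut
                rw [if_neg (fun h => hl h.1)]
              rw [this]
              ring
        _ = ∑ l ∈ K, ∑ x ∈ I, ∑ t ∈ T, M2 j k t *
            ((ecut N E j k x (x - t) * F1 j k (2 * x - t)) *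
              (ecut N E j k (x + l) (x + l - t) * F1 j k (2 * (x + l) - t))) := by
            simp only [Finset.mul_sum]
            rw [Finset.sum_comm]
            rw [Finset.sum_comm (s := K)]
            apply Finset.sum_congr rfl
            intro x _
            rw [Finset.sum_comm]
        _ = ∑ l ∈ K, ∑ x ∈ I, ∑ s ∈ J, M2 j k (2 * x - s) *
            ((ecut N E j k x (s - x) * F1 j k s) *
              (ecut N E j k (x + l) (s - x + l) * F1 j k (s + 2 * l))) := by
            apply Finset.sum_congr rfl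
            intro l _
            apply Finset.sum_congr rfl
            intro x hx
            have h3 := gvn2_reflect (f := fun s => M2 j k (2 * x - s) *
              ((ecut N E j k x (s - x) * F1 j k s) *
              (ecut N E j k (x + l) (s - x + l) * F1 j k (s + 2 * l)))) (I := T) (J := J) (2 * x)
              (fun m hm => by
                have : F1 j k m = 0 := by
                  simp only [hF1]
                  rw [hP 0 m hm]
                  ring
                rw [this]
                ring)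
              (fun m hm => by
                rw [hI, Finset.mem_Ico] at hx
                rw [hJ, Finset.mem_Ico] at hm
                rw [hT, Finset.mem_Ico]
                omega)
            rw [← h3]
            apply Finset.sum_congr rfl
            intro t _
            rw [show 2 * x - (2 * x - t) = t by ring, show 2 * x - t - x = x - t by ring,
              show x - t + l = x + l - t by ring, show 2 * (x + l) - t = 2 * x - t + 2 * l by ring]
        _ = _ := by
            apply Finset.sum_congr rfl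
            intro l _
            rw [Finset.sum_comm]
            apply Finset.sum_congr rfl
            intro s _
            rw [Finset.mul_sum]
            apply Finset.sum_congr rfl
            intro x _
            ring
    rw [key]
    apply Finset.sum_le_sum
    intro l _
    apply Finset.sum_le_sum
    intro s _
    refine (le_abs_self _).trans ?_
    rw [abs_mul, abs_mul]
    apply mul_le_mul_of_nonneg_right _ (abs_nonneg _)
    exact mul_le_mul (hF1b j k s) (hF1b _ _ _) (abs_nonneg _) ((abs_nonneg _).trans (hF1b _ _ _))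
  rw [s1]
  refine s2.trans ?_
  have e1 : ∑ q ∈ J ×ˢ (K ×ˢ T), M2 q.1 q.2.1 q.2.2 =
      ∑ j ∈ J, ∑ k ∈ K, ∑ t ∈ T, M2 j k t := by
    rw [Finset.sum_product]
    apply Finset.sum_congr rfl
    intro j _
    rw [Finset.sum_product]
  rw [e1]
  apply mul_le_mul_of_nonneg_left
  · rw [Finset.sum_product]
    apply Finset.sum_le_sum
    intro j _
    rw [Finset.sum_product]
    apply Finset.sum_le_sum
    intro k _
    exact s3 j k
  · exact Finset.sum_nonneg fun _ _ => Finset.sum_nonneg fun _ _ => Finset.sum_nonneg fun _ _ =>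
      hM2 _ _ _

end Pool.Agent.Lib.H18GB
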