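import Mathlib

/-!
# Project GB2: the typical distance
-/

namespace Pool.Agent.Lib.H18GB

/-- the typical distance of two vertices, in halved coordinates -/
def dd (x y : ℕ) : ℕ :=
  if x % 2 = y % 2 then (if x % 3 = 0 ↔ y % 3 = 0 then 2 else 4)
  else if x % 3 = 0 ∧ y % 3 = 0 then
    (if (x % 5 = 2 ∨ x % 5 = 3) ∧ (y % 5 = 2 ∨ y % 5 = 3) then 5 else 3)
  else if x % 3 ≠ 0 ∧ y % 3 ≠ 0 then 5 else 3

end Pool.Agent.Lib.H18GB
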