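import Pool.Agent.Lib.H18GB2.DD
import Pool.Agent.Lib.Goldbach.Count

/-!
# Project GB2: DISTL (typical distances, lower bounds)
-/

namespace Pool.Agent.Lib.H18GB

open Finset Pool.Agent.Goldbach

/-- walks have the parity of the sum of the halves of the ends -/
theorem distL_par {V S : Set ℕ} (hV : ∀ a ∈ V, Even a) (hS1 : ∀ m ∈ S, Odd m) {a b : V} {x y : ℕ}
    (ha : (a : ℕ) = 2 * x) (hb : (b : ℕ) = 2 * y) (w : (halfGraph V S).Walk a b) :
    (Odd w.length ↔ Odd (x + y)) := by
  have hc : ∀ u v : V, (halfGraph V S).Adj u v → Odd ((u : ℕ) / 2 + (v : ℕ) / 2) := by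
    intro u v huv
    obtain ⟨s, hs⟩ := exists_half hV u
    obtain ⟨t, ht⟩ := exists_half hV v
    rw [halfGraph_adj_iff hs ht] at huv
    have := hS1 _ huv.2.1
    have h1 : (u : ℕ) / 2 = s := by omega
    have h2 : (v : ℕ) / 2 = t := by omega
    rwa [h1, h2]
  rw [walk_parity (fun u : V => (u : ℕ) / 2) hc w]
  have h1 : (a : ℕ) / 2 = x := by omega
  have h2 : (b : ℕ) / 2 = y := by omega
  show Odd ((a : ℕ) / 2 + (b : ℕ) / 2) ↔ _
  rw [h1, h2]

theorem distL_two {V : Type*} {G : SimpleGraph V} {a b : V}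
    (hpar : ∀ w : G.Walk a b, ¬ Odd w.length) (h0 : a ≠ b) : 2 ≤ G.edist a b := by
  refine le_iInf fun w => ?_
  have hodd := hpar w
  have key : 2 ≤ w.length := by
    by_contra hlt
    have hcases : w.length = 0 ∨ w.length = 1 := by omega
    rcases hcases with h | h
    · exact h0 (SimpleGraph.Walk.eq_of_length_eq_zero h)
    · rw [h] at hodd
      exact hodd odd_one
  exact_mod_cast key

theorem distL_three {V : Type*} {G : SimpleGraph V} {a b : V}
    (hpar : ∀ w : G.Walk a b, Odd w.length) (h1 : ¬ G.Adj a b) : 3 ≤ G.edist a b := by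
  refine le_iInf fun w => ?_
  have hodd := hpar w
  have key : 3 ≤ w.length := by
    by_contra hlt
    have h : w.length = 1 := by
      obtain ⟨k, hk⟩ := hodd
      omega
    cases w with
    | nil => simp at h
    | cons hadj q =>
      have hq : q.length = 0 := by simpa using h
      have := SimpleGraph.Walk.eq_of_length_eq_zero hq
      subst this
      exact h1 hadj
  exact_mod_cast key

theorem distL_four {V : Type*} {G : SimpleGraph V} {a b : V}
    (hpar : ∀ w : G.Walk a b, ¬ Odd w.length) (h0 : a ≠ b)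
    (h2 : ∀ u, G.Adj a u → G.Adj u b → False) : 4 ≤ G.edist a b := by
  refine le_iInf fun w => ?_
  have hodd := hpar w
  have key : 4 ≤ w.length := by
    by_contra hlt
    have hcases : w.length = 0 ∨ w.length = 2 := by
      rw [Nat.not_odd_iff_even] at hodd
      obtain ⟨k, hk⟩ := hodd
      omega
    rcases hcases with h | h
    · exact h0 (SimpleGraph.Walk.eq_of_length_eq_zero h)
    · cases w with
      | nil => simp at h
      | cons e1 q1 =>
        cases q1 with
        | nil => simp at h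
        | cons e2 q2 =>
          have hq : q2.length = 0 := by simpa using h
          have := SimpleGraph.Walk.eq_of_length_eq_zero hq
          subst this
          exact h2 _ e1 e2
  exact_mod_cast key

/-- a good multiple of three and a good non-multiple of three have no common neighbour -/
theorem distL_nocommon {V S : Set ℕ} (hV : ∀ a ∈ V, Even a)
    (hS3 : ∀ m ∈ S, 3 ∣ m → m = 3) {a b u : V} {x y : ℕ} (ha : (a : ℕ) = 2 * x)
    (hb : (b : ℕ) = 2 * y) (hx : 3 ∣ x) (hx6 : 6 ≤ x) (hy : ¬ 3 ∣ y) (hy4 : 4 ≤ y)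
    (hy1 : 2 * y + 3 ∉ S) (hy2 : 2 * y - 3 ∉ S)
    (h1 : (halfGraph V S).Adj a u) (h2 : (halfGraph V S).Adj b u) : False := by
  obtain ⟨t, ht⟩ := exists_half hV u
  have h3 := three_dvd_of_adj_good hS3 hb ht hy hy4 hy1 hy2 h2
  rw [halfGraph_adj_iff ha ht] at h1
  have := hS3 _ h1.2.1 (Dvd.dvd.add hx h3)
  omega

/-- the pointwise lower bound -/
theorem distL_point {V S : Set ℕ} (hV : ∀ a ∈ V, Even a)
    (hS : ∀ m ∈ S, m = 1 ∨ (m.Prime ∧ Odd m)) {a b : V} {x y : ℕ} (ha : (a : ℕ) = 2 * x)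
    (hb : (b : ℕ) = 2 * y) (hbx : ¬ Bad x) (hby : ¬ Bad y) (hxy : x ≠ y)
    (hs : ¬ (x + y).Prime) : (dd x y : ℕ∞) ≤ (halfGraph V S).edist a b := by
  have hS1 : ∀ m ∈ S, Odd m := by
    intro m hm
    rcases hS m hm with h | h
    · rw [h]; exact odd_one
    · exact h.2
  have hS3 : ∀ m ∈ S, 3 ∣ m → m = 3 := by
    intro m hm h3
    rcases hS m hm with h | h
    · rw [h] at h3; omega
    · exact ((Nat.prime_dvd_prime_iff_eq Nat.prime_three h.1).mp h3).symm
  have hS5 : ∀ m ∈ S, 5 ∣ m → m = 5 := by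
    intro m hm h3
    rcases hS m hm with h | h
    · rw [h] at h3; omega
    · exact ((Nat.prime_dvd_prime_iff_eq Nat.prime_five h.1).mp h3).symm
  have hSn : ∀ m, 1 < m → ¬ m.Prime → m ∉ S := by
    intro m h1 h2 h3
    rcases hS m h3 with h | h
    · omega
    · exact h2 h.1
  unfold Bad at hbx hby
  push Not at hbx hby
  obtain ⟨hx6, hx1, hx2, hx3, hx4, hx5, hx7⟩ := hbx
  obtain ⟨hy6, hy1, hy2, hy3, hy4, hy5, hy7⟩ := hby
  have hne : a ≠ b := by
    intro h
    rw [h, hb] at ha
    omega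
  have hnadj : ¬ (halfGraph V S).Adj a b := by
    intro h
    rw [halfGraph_adj_iff ha hb] at h
    exact hSn _ (by omega) hs h.2.1
  have hpar := distL_par hV hS1 ha hb
  unfold dd
  by_cases hp : x % 2 = y % 2
  · have hev : ∀ w : (halfGraph V S).Walk a b, ¬ Odd w.length := by
      intro w
      rw [hpar w, Nat.odd_iff]
      omega
    rw [if_pos hp]
    split_ifs with h3
    · exact_mod_cast distL_two hev hne
    · have : (4 : ℕ∞) ≤ (halfGraph V S).edist a b := by
        apply distL_four hev hne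
        intro u h1 h2
        by_cases hx30 : x % 3 = 0
        · exact distL_nocommon hV hS3 ha hb (by omega) hx6 (by omega) (by omega)
            (hSn _ (by omega) hy1) (hSn _ (by omega) hy2) h1 h2.symm
        · exact distL_nocommon hV hS3 hb ha (by omega) hy6 (by omega) (by omega)
            (hSn _ (by omega) hx1) (hSn _ (by omega) hx2) h2.symm h1
      exact_mod_cast this
  · have hod : ∀ w : (halfGraph V S).Walk a b, Odd w.length := by
      intro w
      rw [hpar w, Nat.odd_iff]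
      omega
    have h3' : (3 : ℕ∞) ≤ (halfGraph V S).edist a b := distL_three hod hnadj
    rw [if_neg hp]
    split_ifs with h3 h5 h6
    · have : (5 : ℕ∞) ≤ (halfGraph V S).edist a b := by
        apply five_le_of_good' hV hS1 hS3 hS5 ha hb (by omega) h5.1 hx6
          (hSn _ (by omega) hx1) (hSn _ (by omega) hx2) (hSn _ (by omega) hx3)
          (hSn _ (by omega) hx4) (hSn _ (by omega) hx7) (by omega) h5.2 hy6
          (hSn _ (by omega) hy1) (hSn _ (by omega) hy2) (hSn _ (by omega) hy3)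
          (hSn _ (by omega) hy4) (hSn _ (by omega) hy7) (Nat.odd_iff.mpr (by omega))
      exact_mod_cast this
    · exact_mod_cast h3'
    · have : (5 : ℕ∞) ≤ (halfGraph V S).edist a b := by
        apply five_le_of_good hV hS1 hS3 ha hb (by omega) (by omega)
          (hSn _ (by omega) hx1) (hSn _ (by omega) hx2) (fun _ => hSn _ (by omega) hx5)
          (by omega) (by omega) (hSn _ (by omega) hy1) (hSn _ (by omega) hy2)
          (fun _ => hSn _ (by omega) hy5) (Nat.odd_iff.mpr (by omega))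
      exact_mod_cast this
    · exact_mod_cast h3'

/-- the number of exceptional pairs -/
theorem distL_count {V S : Set ℕ} {n : ℕ} (hV : ∀ a ∈ V, Even a ∧ a ≤ 2 * n)
    (hS : ∀ m ∈ S, m = 1 ∨ (m.Prime ∧ Odd m)) :
    {p : V × V | (halfGraph V S).edist p.1 p.2 < (dd ((p.1 : ℕ) / 2) ((p.2 : ℕ) / 2) : ℕ∞)}.ncard ≤
      2 * (n + 1) * ((Finset.range (n + 1)).filter Bad).card + (n + 1) +
      (n + 1) * ((Finset.range (2 * n + 1)).filter Bad).card := by
  set R := Finset.range (n + 1) with hR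
  set B : Finset (ℕ × ℕ) := ((R.filter Bad) ×ˢ R ∪ R ×ˢ (R.filter Bad)) ∪
    ((R ×ˢ R).filter (fun q => q.1 = q.2) ∪ (R ×ˢ R).filter (fun q => (q.1 + q.2).Prime)) with hB
  have : Finite V := (Set.finite_Iic (2 * n)).subset fun a ha => (hV a ha).2
  have h6 : {p : V × V | (halfGraph V S).edist p.1 p.2 <
      (dd ((p.1 : ℕ) / 2) ((p.2 : ℕ) / 2) : ℕ∞)}.ncard ≤ B.card := by
    rw [← Set.ncard_coe_finset]
    apply Set.ncard_le_ncard_of_injOn (fun p : V × V => ((p.1 : ℕ) / 2, (p.2 : ℕ) / 2))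
    · rintro ⟨⟨a, ha⟩, ⟨b, hb⟩⟩ hab
      obtain ⟨⟨x, hx⟩, han⟩ := hV a ha
      obtain ⟨⟨y, hy⟩, hbn⟩ := hV b hb
      have hax : a = 2 * x := by omega
      have hby : b = 2 * y := by omega
      subst hax hby
      simp only [Set.mem_ofPred_eq] at hab
      simp only [Nat.mul_div_cancel_left _ (by norm_num : 0 < 2)] at hab ⊢
      rw [Finset.mem_coe, hB]
      have hxR : x ∈ R := by rw [hR, Finset.mem_range]; omega
      have hyR : y ∈ R := by rw [hR, Finset.mem_range]; omega
      simp only [Finset.mem_union, Finset.mem_filter, Finset.mem_product]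
      by_contra hcon
      have h1 : ¬ Bad x := fun h => hcon (Or.inl (Or.inl ⟨⟨hxR, h⟩, hyR⟩))
      have h2 : ¬ Bad y := fun h => hcon (Or.inl (Or.inr ⟨hxR, ⟨hyR, h⟩⟩))
      have h3 : x ≠ y := fun h => hcon (Or.inr (Or.inl ⟨⟨hxR, hyR⟩, h⟩))
      have h4 : ¬ (x + y).Prime := fun h => hcon (Or.inr (Or.inr ⟨⟨hxR, hyR⟩, h⟩))
      exact absurd (distL_point (fun a ha => (hV a ha).1) hS (a := ⟨2 * x, ha⟩) (b := ⟨2 * y, hb⟩)
        rfl rfl h1 h2 h3 h4) (not_le.mpr hab)
    · rintro ⟨⟨a, ha⟩, ⟨b, hb⟩⟩ - ⟨⟨a', ha'⟩, ⟨b', hb'⟩⟩ - hab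
      have h1 := (hV a ha).1
      have h2 := (hV b hb).1
      have h3 := (hV a' ha').1
      have h4 := (hV b' hb').1
      simp only [Prod.mk.injEq] at hab
      obtain ⟨k1, e1⟩ := h1
      obtain ⟨k2, e2⟩ := h2
      obtain ⟨k3, e3⟩ := h3
      obtain ⟨k4, e4⟩ := h4
      ext
      · simp only
        omega
      · simp only
        omega
  refine h6.trans ?_
  have hRc : R.card = n + 1 := Finset.card_range _
  have c1 : ((R.filter Bad) ×ˢ R ∪ R ×ˢ (R.filter Bad)).card ≤ 2 * (n + 1) * (R.filter Bad).card := by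
    refine (Finset.card_union_le _ _).trans ?_
    rw [Finset.card_product, Finset.card_product, hRc]
    apply le_of_eq
    ring
  have c2 : ((R ×ˢ R).filter (fun q => q.1 = q.2)).card ≤ n + 1 := by
    rw [← hRc]
    apply Finset.card_le_card_of_injOn (fun q => q.1)
    · intro q hq
      simp only [Finset.coe_filter, Finset.mem_product, Set.mem_ofPred_eq] at hq
      exact hq.1.1
    · rintro ⟨q1, q2⟩ hq ⟨q3, q4⟩ hq' h
      simp only [Finset.coe_filter, Finset.mem_product, Set.mem_ofPred_eq] at hq hq' h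
      simp only [Prod.mk.injEq]
      omega
  have c3 : ((R ×ˢ R).filter (fun q => (q.1 + q.2).Prime)).card ≤
      (n + 1) * ((Finset.range (2 * n + 1)).filter Bad).card := by
    rw [← hRc, ← Finset.card_product]
    apply Finset.card_le_card_of_injOn (fun q => (q.1, q.1 + q.2))
    · intro q hq
      simp only [Finset.coe_filter, Finset.mem_product, Set.mem_ofPred_eq, hR, Finset.mem_range] at hq
      simp only [Finset.coe_product, Set.mem_prod, Finset.mem_coe, Finset.mem_filter, hR,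
        Finset.mem_range]
      refine ⟨hq.1.1, by omega, ?_⟩
      unfold Bad
      tauto
    · rintro ⟨q1, q2⟩ hq ⟨q3, q4⟩ hq' h
      simp only [Prod.mk.injEq] at h ⊢
      omega
  calc B.card ≤ ((R.filter Bad) ×ˢ R ∪ R ×ˢ (R.filter Bad)).card +
        (((R ×ˢ R).filter (fun q => q.1 = q.2)).card +
        ((R ×ˢ R).filter (fun q => (q.1 + q.2).Prime)).card) :=
        (Finset.card_union_le _ _).trans (Nat.add_le_add_left (Finset.card_union_le _ _) _)
    _ ≤ _ := by omega

/-- Chunk DISTL. In both Goldbach graphs almost all pairs are at distance at least `dd`: the vertices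
`x` for which one of a few numbers (`2 x ± 3`, `x ± 1`, `x ± 3`, ... see `Bad` in
`Pool.Agent.Lib.Goldbach.Count`) is prime, and the adjacent pairs, are few (`bad_isLittle`;
the pairs with `x + y` prime are `O(n^2 / log n)`, e.g. by `bad_isLittle` or Chebyshev).
Distance `5`: `five_le_of_good`, `five_le_of_good'` in `Pool.Agent.Lib.Goldbach`. Distance `4` (same
parity, exactly one divisible by `3`): the distance is even (parity of walks), the vertices are
different, and a common neighbour `u` would have (mod `3`) `|y - u|` or `y + u` or `|x - u|` or `x + u`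
in `{1, 3}`, impossible for good vertices. Distance `3`: odd, not adjacent. Distance `2`: even, different.
`V`, `S` as in `main` of `AlmostAllVertices.lean`. -/
theorem dist_lower (ε : ℝ) (hε : 0 < ε) : ∃ n0 : ℕ, ∀ n ≥ n0, ∀ V S : Set ℕ,
    (∀ a ∈ V, Even a ∧ a ≤ 2 * n) → (∀ m ∈ S, m = 1 ∨ (m.Prime ∧ Odd m)) →
    ({p : V × V | (halfGraph V S).edist p.1 p.2 < (dd ((p.1 : ℕ) / 2) ((p.2 : ℕ) / 2) : ℕ∞)}.ncard :
      ℝ) ≤ ε * n ^ 2 := by
  obtain ⟨n1, h1⟩ := bad_isLittle (δ := ε / 32) (by positivity)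
  obtain ⟨n2, h2⟩ := exists_nat_gt (8 / ε)
  refine ⟨max n1 (max n2 1), fun n hn V S hV hS => ?_⟩
  have hn1 : n1 ≤ n := le_trans (le_max_left _ _) hn
  have hn2 : n2 ≤ n := le_trans (le_max_left _ _) (le_trans (le_max_right _ _) hn)
  have hn3 : 1 ≤ n := le_trans (le_max_right _ _) (le_trans (le_max_right _ _) hn)
  have h3 := h1 (n + 1) (by omega)
  have h4 := h1 (2 * n + 1) (by omega)
  have h5 := distL_count hV hS
  set b1 := ((Finset.range (n + 1)).filter Bad).card
  set b2 := ((Finset.range (2 * n + 1)).filter Bad).card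
  have h6 : ({p : V × V | (halfGraph V S).edist p.1 p.2 <
      (dd ((p.1 : ℕ) / 2) ((p.2 : ℕ) / 2) : ℕ∞)}.ncard : ℝ) ≤
      2 * ((n : ℝ) + 1) * b1 + (n + 1) + (n + 1) * b2 := by
    exact_mod_cast h5
  refine h6.trans ?_
  have h9 : (1 : ℝ) ≤ n := by exact_mod_cast hn3
  have h10 : 8 < ε * n := by
    have : 8 / ε < (n : ℝ) := lt_of_lt_of_le h2 (by exact_mod_cast hn2)
    rw [div_lt_iff₀ hε] at this
    linarith
  push_cast at h3 h4
  have e1 : 2 * ((n : ℝ) + 1) * b1 ≤ ε / 4 * n ^ 2 := by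
    calc 2 * ((n : ℝ) + 1) * b1 ≤ 2 * ((n : ℝ) + 1) * (ε / 32 * (n + 1)) := by gcongr
      _ ≤ 2 * ((n : ℝ) + n) * (ε / 32 * (n + n)) := by gcongr
      _ = ε / 4 * n ^ 2 := by ring
  have e2 : (n : ℝ) + 1 ≤ ε / 4 * n ^ 2 := by nlinarith
  have e3 : ((n : ℝ) + 1) * b2 ≤ ε / 4 * n ^ 2 := by
    calc ((n : ℝ) + 1) * b2 ≤ ((n : ℝ) + 1) * (ε / 32 * (2 * n + 1)) := by gcongr
      _ ≤ ((n : ℝ) + n) * (ε / 32 * (2 * n + 2 * n)) := by gcongr; linarith
      _ = ε / 4 * n ^ 2 := by ring
  have : 0 ≤ ε / 4 * (n : ℝ) ^ 2 := by positivity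
  linarith

end Pool.Agent.Lib.H18GB
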