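import Pool.Agent.Lib.H18GB2.Cod
import Pool.Agent.Lib.H18GB2.Res
import Pool.Agent.Lib.H18GB.TY3
import Pool.Agent.Lib.H18GB2.DD

/-!
# Project GB2: DISTU (typical distances, upper bounds)
-/

namespace Pool.Agent.Lib.H18GB

open Finset Pool.Agent.Lib.Sieve Pool.Agent.Lib.GoldbachGraph

namespace DISTU

open Classical in
/-- same parity, same divisibility by `3` -/
theorem distu_two (ε : ℝ) (hε : 0 < ε) : ∃ w0 : ℕ, ∀ w W : ℕ, w0 ≤ w → IsW w W →
    ∃ N0 : ℕ, ∀ N : ℕ, N0 ≤ N → ∀ n : ℕ, W * N ≤ n → ∀ x0 x0' : ℕ, x0 < W → x0' < W →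
    (x0 : ℤ) % 2 = (x0' : ℤ) % 2 → ((3 : ℤ) ∣ (x0 : ℤ) ↔ (3 : ℤ) ∣ (x0' : ℤ)) →
    (((Finset.Ico 1 N ×ˢ Finset.Ico 1 N).filter fun q =>
      ¬ (HG n).edist (x0 + W * q.1) (x0' + W * q.2) ≤ 2).card : ℝ) ≤ ε * N ^ 2 := by
  obtain ⟨w1, h1⟩ := cod1 ε hε
  refine ⟨w1 + 3, fun w W hw hW => ?_⟩
  obtain ⟨N1, h1⟩ := h1 w W (by omega) hW
  refine ⟨N1, fun N hN n hn x0 x0' hx0 hx0' hpar h3 => ?_⟩
  obtain ⟨y0, hy0, hy1, hy2⟩ := comp_common (by omega : 3 ≤ w) hW (x0 : ℤ) (x0' : ℤ) hpar h3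
  refine le_trans ?_ (h1 N hN x0 x0' y0 hx0 hx0' hy0 hy1 hy2)
  have : ((Finset.Ico 1 N ×ˢ Finset.Ico 1 N).filter fun q =>
      ¬ (HG n).edist (x0 + W * q.1) (x0' + W * q.2) ≤ 2) ⊆
      ((Finset.Ico 1 N ×ˢ Finset.Ico 1 N).filter fun q => ¬ ∃ y ∈ Finset.Ico 1 N,
      hadj (x0 + W * q.1) (y0 + W * y) ∧ hadj (x0' + W * q.2) (y0 + W * y)) := by
    intro q hq
    rw [Finset.mem_filter] at hq ⊢
    refine ⟨hq.1, fun hcon => hq.2 ?_⟩
    obtain ⟨y, hy, ha, hb⟩ := hcon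
    have hq1 := Finset.mem_product.mp hq.1
    have m1 := ty3_mem hn hx0 hq1.1
    have m2 := ty3_mem hn hx0' hq1.2
    have m3 := ty3_mem hn hy0 hy
    have s1 := ty3_adj ha m1 m3
    have s2 := ty3_step s1 ((hadj_comm _ _).mp hb) m3 m2
    refine s2.trans ?_
    norm_num
  exact_mod_cast Finset.card_le_card this

open Classical in
/-- both divisible by `3`, opposite parities, not both `± 2` modulo `5` -/
theorem distu_three_link (ε : ℝ) (hε : 0 < ε) : ∃ w0 : ℕ, ∀ w W : ℕ, w0 ≤ w → IsW w W →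
    ∃ N0 : ℕ, ∀ N : ℕ, N0 ≤ N → ∀ n : ℕ, W * N ≤ n → ∀ x0 x0' : ℕ, x0 < W → x0' < W →
    (3 : ℤ) ∣ (x0 : ℤ) → (3 : ℤ) ∣ (x0' : ℤ) → (x0 : ℤ) % 2 ≠ (x0' : ℤ) % 2 →
    ¬ (((x0 : ℤ) % 5 = 2 ∨ (x0 : ℤ) % 5 = 3) ∧ ((x0' : ℤ) % 5 = 2 ∨ (x0' : ℤ) % 5 = 3)) →
    (((Finset.Ico 1 N ×ˢ Finset.Ico 1 N).filter fun q =>
      ¬ (HG n).edist (x0 + W * q.1) (x0' + W * q.2) ≤ 3).card : ℝ) ≤ ε * N ^ 2 := by
  obtain ⟨w1, h1⟩ := cod2 ε hε
  refine ⟨w1 + 11, fun w W hw hW => ?_⟩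
  obtain ⟨N1, h1⟩ := h1 w W (by omega) hW
  refine ⟨N1, fun N hN n hn x0 x0' hx0 hx0' h3 h3' hpar h5 => ?_⟩
  obtain ⟨v0, hv0, hv1, hv2, hv3⟩ := link_both (by omega : 11 ≤ w) hW (x0 : ℤ) (x0' : ℤ) h3 h3' hpar h5
  refine le_trans ?_ (h1 N hN x0 x0' v0 hx0 hx0' hv0 hv1 hv2 hv3)
  have : ((Finset.Ico 1 N ×ˢ Finset.Ico 1 N).filter fun q =>
      ¬ (HG n).edist (x0 + W * q.1) (x0' + W * q.2) ≤ 3) ⊆
      ((Finset.Ico 1 N ×ˢ Finset.Ico 1 N).filter fun q => ¬ ∃ v ∈ Finset.Ico 1 N,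
      (2 * (v0 + W * v) + 3).Prime ∧ hadj (x0 + W * q.1) (v0 + W * v) ∧
      hadj (x0' + W * q.2) (v0 + 3 + W * v)) := by
    intro q hq
    rw [Finset.mem_filter] at hq ⊢
    refine ⟨hq.1, fun hcon => hq.2 ?_⟩
    obtain ⟨v, hv, hp, ha, hb⟩ := hcon
    have hq1 := Finset.mem_product.mp hq.1
    have m1 := ty3_mem hn hx0 hq1.1
    have m2 := ty3_mem hn hx0' hq1.2
    have m3 := ty3_mem hn (by omega : v0 < W) hv
    have m4 := ty3_mem hn hv0 hv
    have s1 := ty3_adj ha m1 m3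
    have e5 : v0 + 3 + W * v = v0 + W * v + 3 := by ring
    have s2 := ty3_step s1 (ty3_link hp) m3 (by rw [← e5]; exact m4)
    rw [← e5] at s2
    have s3 := ty3_step s2 ((hadj_comm _ _).mp hb) m4 m2
    refine s3.trans ?_
    norm_num
  exact_mod_cast Finset.card_le_card this

open Classical in
/-- Markov: if few pairs are bad, few first coordinates have many bad partners -/
theorem distu_markov {N : ℕ} (P : ℕ → ℕ → Prop) {δ : ℝ} (hδ : 0 < δ)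
    (h : (((Finset.Ico 1 N ×ˢ Finset.Ico 1 N).filter fun q => ¬ P q.1 q.2).card : ℝ) ≤ δ ^ 2 * N ^ 2) :
    ∃ E : Finset ℕ, (E.card : ℝ) ≤ δ * N ∧ ∀ x ∈ Finset.Ico 1 N, x ∉ E →
      (((Finset.Ico 1 N).filter fun z => ¬ P x z).card : ℝ) ≤ δ * N := by
  have h1 : ((Finset.Ico 1 N ×ˢ Finset.Ico 1 N).filter fun q => ¬ P q.1 q.2).card =
      ∑ x ∈ Finset.Ico 1 N, ((Finset.Ico 1 N).filter fun x' => ¬ P x x').card := by
    rw [Finset.card_filter, Finset.sum_product]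
    refine Finset.sum_congr rfl fun x _ => ?_
    rw [Finset.card_filter]
  rcases Nat.eq_zero_or_pos N with hN | hN
  · subst hN
    exact ⟨∅, by simp, fun x hx => by simp at hx⟩
  have hNr : (0 : ℝ) < N := by exact_mod_cast hN
  set E := (Finset.Ico 1 N).filter fun x =>
      δ * N < (((Finset.Ico 1 N).filter fun z => ¬ P x z).card : ℝ) with hE
  have h2 : (E.card : ℝ) * (δ * N) ≤ δ ^ 2 * N ^ 2 := by
    rw [h1] at h
    push_cast at h
    refine le_trans ?_ h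
    have h3 : (E.card : ℝ) * (δ * N) ≤
        ∑ x ∈ E, (((Finset.Ico 1 N).filter fun z => ¬ P x z).card : ℝ) := by
      rw [← nsmul_eq_mul]
      refine Finset.card_nsmul_le_sum _ _ _ fun x hx => ?_
      exact (Finset.mem_filter.mp hx).2.le
    refine h3.trans ?_
    refine Finset.sum_le_sum_of_subset_of_nonneg (Finset.filter_subset _ _) fun x _ _ => ?_
    exact Nat.cast_nonneg _
  have h4 : 0 < δ * N := by positivity
  have h5 : δ ^ 2 * (N : ℝ) ^ 2 = (δ * N) * (δ * N) := by ring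
  rw [h5] at h2
  refine ⟨E, le_of_mul_le_mul_right h2 h4, fun x hx hxE => ?_⟩
  by_contra hcon
  rw [not_le] at hcon
  exact hxE (Finset.mem_filter.mpr ⟨hx, hcon⟩)

open Classical in
/-- opposite parity, opposite divisibility by `3` -/
theorem distu_three (ε : ℝ) (hε : 0 < ε) : ∃ w0 : ℕ, ∀ w W : ℕ, w0 ≤ w → IsW w W →
    ∃ N0 : ℕ, ∀ N : ℕ, N0 ≤ N → ∀ n : ℕ, W * N ≤ n → ∀ x0 x0' : ℕ, x0 < W → x0' < W →
    (x0 : ℤ) % 2 ≠ (x0' : ℤ) % 2 → ((3 : ℤ) ∣ (x0 : ℤ) ↔ ¬ (3 : ℤ) ∣ (x0' : ℤ)) →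
    (((Finset.Ico 1 N ×ˢ Finset.Ico 1 N).filter fun q =>
      ¬ (HG n).edist (x0 + W * q.1) (x0' + W * q.2) ≤ 3).card : ℝ) ≤ ε * N ^ 2 := by
  obtain ⟨δ, hδd⟩ : ∃ δ : ℝ, δ = min (ε / 2) (1 / 4) := ⟨_, rfl⟩
  have hδ : 0 < δ := by rw [hδd]; positivity
  have hδ1 : δ ≤ ε / 2 := by rw [hδd]; exact min_le_left _ _
  have hδ2 : δ ≤ 1 / 4 := by rw [hδd]; exact min_le_right _ _
  obtain ⟨w1, h1⟩ := cod1 (δ ^ 2) (by positivity)
  obtain ⟨w2, h2⟩ := gr4 δ hδ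
  refine ⟨w1 + w2 + 3, fun w W hw hW => ?_⟩
  obtain ⟨N1, h1⟩ := h1 w W (by omega) hW
  obtain ⟨N2, h2⟩ := h2 w W (by omega) hW
  refine ⟨N1 + N2 + 2, fun N hN n hn x0 x0' hx0 hx0' hpar h3 => ?_⟩
  obtain ⟨z0, hz0, hz1, -⟩ := comp_common (by omega : 3 ≤ w) hW (x0' : ℤ) (x0' : ℤ) rfl Iff.rfl
  have p1 := comp_parity (by omega : 3 ≤ w) hW hz1
  obtain ⟨y0, hy0, hy1, hy2⟩ := comp_common (by omega : 3 ≤ w) hW (x0 : ℤ) (z0 : ℤ)
    (by omega) (h3.trans (by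
      rw [p1.2, not_not]))
  have hN0 : (2 : ℝ) ≤ N := by exact_mod_cast (by omega : 2 ≤ N)
  obtain ⟨E, hE, hEx⟩ := distu_markov (fun a b => ∃ y ∈ Finset.Ico 1 N,
    hadj (x0 + W * a) (y0 + W * y) ∧ hadj (z0 + W * b) (y0 + W * y)) hδ (by
      have := h1 N (by omega) x0 z0 y0 hx0 hz0 hy0 hy1 hy2
      convert this)
  have hkey := ty3_pairs (fun a b => (HG n).edist (x0 + W * a) (x0' + W * b) ≤ 3) E hE hδ.le ?_
  · have hfin : 2 * δ * (N : ℝ) ^ 2 ≤ ε * N ^ 2 := by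
      apply mul_le_mul_of_nonneg_right _ (by positivity)
      linarith
    refine le_trans (le_trans (le_of_eq ?_) hkey) hfin
    congr!
  intro x hx hxE
  set B : Finset ℕ := (Finset.Ico 1 N).filter (fun z => ∃ y ∈ Finset.Ico 1 N,
        hadj (x0 + W * x) (y0 + W * y) ∧ hadj (z0 + W * z) (y0 + W * y)) with hB
  have hBc : δ * N ≤ B.card := by
    have e0 : (((Finset.Ico 1 N).filter fun z => ¬ ∃ y ∈ Finset.Ico 1 N,
        hadj (x0 + W * x) (y0 + W * y) ∧ hadj (z0 + W * z) (y0 + W * y)).card : ℝ) ≤ δ * N := by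
      have := hEx x hx hxE
      convert this
    have e1 := Finset.card_filter_add_card_filter_not (s := Finset.Ico 1 N)
      (fun z => ∃ y ∈ Finset.Ico 1 N,
        hadj (x0 + W * x) (y0 + W * y) ∧ hadj (z0 + W * z) (y0 + W * y))
    rw [Nat.card_Ico] at e1
    have e2 : (B.card : ℝ) + (((Finset.Ico 1 N).filter fun z => ¬ ∃ y ∈ Finset.Ico 1 N,
        hadj (x0 + W * x) (y0 + W * y) ∧ hadj (z0 + W * z) (y0 + W * y)).card : ℝ) =
        ((N - 1 : ℕ) : ℝ) := by exact_mod_cast e1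
    rw [Nat.cast_sub (by omega : 1 ≤ N)] at e2
    push_cast at e2
    have e3 : δ * N ≤ 1 / 4 * N := mul_le_mul_of_nonneg_right hδ2 (by positivity)
    linarith
  by_contra hcon
  rw [not_le] at hcon
  obtain ⟨x', hx', z, hz, ha⟩ := h2 N (by omega) x0' z0 hx0' hz0 hz1
    ((Finset.Ico 1 N).filter fun x' => ¬ (HG n).edist (x0 + W * x) (x0' + W * x') ≤ 3) B
    (Finset.filter_subset _ _) (Finset.filter_subset _ _)
    (hcon.le.trans (le_of_eq (by congr!))) hBc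
  rw [Finset.mem_filter] at hx'
  apply hx'.2
  rw [hB, Finset.mem_filter] at hz
  obtain ⟨hz1', y, hy, hc1, hc2⟩ := hz
  have m0 := ty3_mem hn hx0 hx
  have m1 := ty3_mem hn hy0 hy
  have m2 := ty3_mem hn hz0 hz1'
  have m3 := ty3_mem hn hx0' hx'.1
  have s1 := ty3_adj hc1 m0 m1
  have s2 := ty3_step s1 ((hadj_comm _ _).mp hc2) m1 m2
  have s3 := ty3_step s2 ((hadj_comm _ _).mp ha) m2 m3
  refine s3.trans (le_of_eq ?_)
  norm_num

open Classical in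
/-- the first vertex prime to `3`, the second divisible by `3`, same parity (`ty3_three` with `4`) -/
theorem distu_four (ε : ℝ) (hε : 0 < ε) : ∃ w0 : ℕ, ∀ w W : ℕ, w0 ≤ w → IsW w W →
    ∃ N0 : ℕ, ∀ N : ℕ, N0 ≤ N → ∀ n : ℕ, W * N ≤ n → ∀ x0 x0' : ℕ, x0 < W → x0' < W →
    ¬ (3 : ℤ) ∣ (x0 : ℤ) → (3 : ℤ) ∣ (x0' : ℤ) → (x0 : ℤ) % 2 = (x0' : ℤ) % 2 →
    (((Finset.Ico 1 N ×ˢ Finset.Ico 1 N).filter fun q =>
      ¬ (HG n).edist (x0 + W * q.1) (x0' + W * q.2) ≤ 4).card : ℝ) ≤ ε * N ^ 2 := by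
  obtain ⟨c, hc, w1, h1⟩ := ty1 (ε / 2) (by positivity)
  obtain ⟨w2, h2⟩ := ty2 c (ε / 2) hc (by positivity)
  refine ⟨w1 + w2 + 7, fun w W hw hW => ?_⟩
  obtain ⟨N1, h1⟩ := h1 w W (by omega) hW
  obtain ⟨N2, h2⟩ := h2 w W (by omega) hW
  refine ⟨N1 + N2 + 2, fun N hN n hn x0 x0' hx0 hx0' hn3 h3' hpar => ?_⟩
  obtain ⟨v0, hv0, hv3, hvc, hcomp⟩ := exists_link_comp (by omega : 7 ≤ w) hW (x0' : ℤ) 0 (Or.inl rfl) h3'
  have p2 := comp_parity (by omega : 3 ≤ w) hW hcomp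
  obtain ⟨y1, hy1, hy2, hy3⟩ := comp_common (by omega : 3 ≤ w) hW (x0 : ℤ) (v0 + 3 : ℤ)
    (by omega) (by constructor <;> intro h <;> omega)
  have hE := h1 N (by omega) x0 y1 v0 3 hx0 hy1 hv0 (Or.inr rfl) hvc hy2 (by exact_mod_cast hy3)
  set E : Finset ℕ := (Finset.Ico 1 N).filter fun x =>
      ∑ v ∈ (Finset.Ico 1 N).filter (fun v => ∃ y ∈ Finset.Ico 1 N,
        hadj (x0 + W * x) (y1 + W * y) ∧ hadj (v0 + 3 + W * v) (y1 + W * y)), sg W v0 v < c * N with hEdef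
  have hkey := ty3_pairs (fun a b => (HG n).edist (x0 + W * a) (x0' + W * b) ≤ 4) E hE (by positivity) ?_
  · have hfin : 2 * (ε / 2) * (N : ℝ) ^ 2 = ε * N ^ 2 := by ring
    rw [hfin] at hkey
    convert hkey
  intro x hx hxE
  set Z : Finset ℕ := (Finset.Ico 1 N).filter (fun v => ∃ y ∈ Finset.Ico 1 N,
        hadj (x0 + W * x) (y1 + W * y) ∧ hadj (v0 + 3 + W * v) (y1 + W * y)) with hZ
  have hZm : c * N ≤ ∑ v ∈ Z, sg W v0 v := by
    by_contra hcon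
    push Not at hcon
    exact hxE (Finset.mem_filter.mpr ⟨hx, hcon⟩)
  have hB := h2 N (by omega) x0' v0 0 hx0' hv0 (Or.inl rfl) hvc
    (by simpa using hcomp) Z (Finset.filter_subset _ _) hZm
  refine le_trans ?_ hB
  have : ((Finset.Ico 1 N).filter fun x' => ¬ (HG n).edist (x0 + W * x) (x0' + W * x') ≤ 4) ⊆
      ((Finset.Ico 1 N).filter fun z => ¬ ∃ v ∈ Z, (2 * (v0 + W * v) + 3).Prime ∧
        hadj (v0 + 0 + W * v) (x0' + W * z)) := by
    intro x' hx'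
    rw [Finset.mem_filter] at hx' ⊢
    refine ⟨hx'.1, fun hcon => hx'.2 ?_⟩
    obtain ⟨v, hv, hp, hb⟩ := hcon
    rw [hZ, Finset.mem_filter] at hv
    obtain ⟨hv1, y, hy, hc1, hc2⟩ := hv
    have m0 := ty3_mem hn hx0 hx
    have m1 := ty3_mem hn hy1 hy
    have m3 := ty3_mem hn (by omega : v0 < W) hv1
    have m4 := ty3_mem hn hv0 hv1
    have m6 := ty3_mem hn hx0' hx'.1
    have s1 := ty3_adj hc1 m0 m1
    have s3 := ty3_step s1 ((hadj_comm _ _).mp hc2) m1 m4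
    have e5 : v0 + 3 + W * v = v0 + W * v + 3 := by ring
    rw [e5] at s3 m4
    have s4 := ty3_step s3 ((hadj_comm _ _).mp (ty3_link hp)) m4 m3
    rw [add_zero] at hb
    have s5 := ty3_step s4 hb m3 m6
    refine s5.trans (le_of_eq ?_)
    norm_num
  exact_mod_cast Finset.card_le_card this

theorem distu_dd_periodic {W : ℕ} (h2 : 2 ∣ W) (h3 : 3 ∣ W) (h5 : 5 ∣ W) (x0 x0' x x' : ℕ) :
    dd (x0 + W * x) (x0' + W * x') = dd x0 x0' := by
  have k2 : ∀ a b : ℕ, (a + W * b) % 2 = a % 2 := by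
    intro a b
    obtain ⟨k, hk⟩ := h2
    rw [hk, mul_assoc, Nat.add_mul_mod_self_left]
  have k3 : ∀ a b : ℕ, (a + W * b) % 3 = a % 3 := by
    intro a b
    obtain ⟨k, hk⟩ := h3
    rw [hk, mul_assoc, Nat.add_mul_mod_self_left]
  have k5 : ∀ a b : ℕ, (a + W * b) % 5 = a % 5 := by
    intro a b
    obtain ⟨k, hk⟩ := h5
    rw [hk, mul_assoc, Nat.add_mul_mod_self_left]
  unfold dd
  rw [k2, k2, k3, k3, k5, k5]

end DISTU

open Classical in
/-- Chunk DISTU. Class by class modulo `W = primorial w` (`ty3_count`; `dd` only depends on the classes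
since `30 ∣ W`):
* same parity, same divisibility by `3`: `comp_common`, `cod1`: `2`;
* opposite parity, opposite divisibility by `3`: `z0` (type of `X`, e.g. `z0 = x0`) ; for almost all
  `x` almost all the `z` of the class `z0` compatible with `x0'` are at distance `2` from `X` (`cod1`,
  Markov), and then almost all `x'` are adjacent to such a `z` (`gr4`): `3`. Take for `z0` a class
  compatible with `x0'` and `y0` compatible with `x0` and `z0` (`comp_common` twice: first a class `z0`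
  compatible with `x0'`, it has the type of `x0`);
* both divisible by `3`, opposite parity, not both `± 2` mod `5`: `link_both`, `cod2`, `ty3_link`: `3`;
* `3 ∤ x0`, `3 ∣ x0'`, same parity: the proof of `ty3_three` gives `4` (reprove it with `4` in place of
  `5`), and symmetrically;
* all the other cases have `dd = 5`: `ty3` (or its proof). -/
theorem dist_upper (ε : ℝ) (hε : 0 < ε) : ∃ n0 : ℕ, ∀ n : ℕ, n0 ≤ n →
    (((Finset.Icc 1 n ×ˢ Finset.Icc 1 n).filter fun q =>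
      ¬ (HG n).edist q.1 q.2 ≤ (dd q.1 q.2 : ℕ∞)).card : ℝ) ≤ ε * n ^ 2 := by
  obtain ⟨n5, h5⟩ := ty3 (ε / 2) (by positivity)
  obtain ⟨w1, h1⟩ := DISTU.distu_two (ε / 4) (by positivity)
  obtain ⟨w2, h2⟩ := DISTU.distu_three_link (ε / 4) (by positivity)
  obtain ⟨w3, h3⟩ := DISTU.distu_three (ε / 4) (by positivity)
  obtain ⟨w4, h4⟩ := DISTU.distu_four (ε / 4) (by positivity)
  obtain ⟨w, hw⟩ : ∃ w : ℕ, w = w1 + w2 + w3 + w4 + 5 := ⟨_, rfl⟩
  obtain ⟨W, hWd⟩ : ∃ W : ℕ, W = primorial w := ⟨_, rfl⟩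
  have hW : IsW w W := by rw [hWd]; exact isW_primorial
  have hW0 : 0 < W := hW.1
  obtain ⟨N1, h1⟩ := h1 w W (by omega) hW
  obtain ⟨N2, h2⟩ := h2 w W (by omega) hW
  obtain ⟨N3, h3⟩ := h3 w W (by omega) hW
  obtain ⟨N4, h4⟩ := h4 w W (by omega) hW
  have hWr : (0 : ℝ) < W := by exact_mod_cast hW0
  obtain ⟨n8, h8⟩ := exists_nat_gt (16 * W / ε)
  refine ⟨n5 + n8 + W * (N1 + N2 + N3 + N4 + 2), fun n hn => ?_⟩
  obtain ⟨N, hNd⟩ : ∃ N : ℕ, N = n / W := ⟨_, rfl⟩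
  have hNl : N1 + N2 + N3 + N4 + 2 ≤ N := by
    rw [hNd, Nat.le_div_iff_mul_le hW0, mul_comm]
    omega
  have hWN : W * N ≤ n := by rw [hNd]; exact Nat.mul_div_le _ _
  have hnW : n < W * N + W := by
    have := Nat.lt_mul_div_succ n hW0
    rw [hNd]
    linarith
  have h2W : 2 ∣ W := (hW.2 2 Nat.prime_two).mpr (by omega)
  have h3W : 3 ∣ W := (hW.2 3 Nat.prime_three).mpr (by omega)
  have h5W : 5 ∣ W := (hW.2 5 Nat.prime_five).mpr (by omega)
  have hN0 : (0 : ℝ) ≤ ε / 4 * (N : ℝ) ^ 2 := by positivity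
  have hall : ∀ x0 x0' : ℕ, x0 < W → x0' < W →
      (((Finset.Ico 1 N ×ˢ Finset.Ico 1 N).filter fun q =>
        ¬ (dd (x0 + W * q.1) (x0' + W * q.2) = 5 ∨ (HG n).edist (x0 + W * q.1) (x0' + W * q.2) ≤
          (dd (x0 + W * q.1) (x0' + W * q.2) : ℕ∞))).card : ℝ) ≤ ε / 4 * N ^ 2 := by
    intro x0 x0' hx0 hx0'
    simp only [DISTU.distu_dd_periodic h2W h3W h5W x0 x0']
    by_cases hd : dd x0 x0' = 5
    · rw [Finset.filter_false_of_mem]
      · simpa using hN0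
      · intro q _ hq
        exact hq (Or.inl hd)
    have hred : ∀ k : ℕ∞, (dd x0 x0' : ℕ∞) = k →
        (((Finset.Ico 1 N ×ˢ Finset.Ico 1 N).filter fun q =>
        ¬ (HG n).edist (x0 + W * q.1) (x0' + W * q.2) ≤ k).card : ℝ) ≤ ε / 4 * N ^ 2 →
        (((Finset.Ico 1 N ×ˢ Finset.Ico 1 N).filter fun q =>
        ¬ (dd x0 x0' = 5 ∨ (HG n).edist (x0 + W * q.1) (x0' + W * q.2) ≤
          (dd x0 x0' : ℕ∞))).card : ℝ) ≤ ε / 4 * N ^ 2 := by
      intro k hk h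
      refine le_trans ?_ h
      have : ((Finset.Ico 1 N ×ˢ Finset.Ico 1 N).filter fun q =>
        ¬ (dd x0 x0' = 5 ∨ (HG n).edist (x0 + W * q.1) (x0' + W * q.2) ≤
          (dd x0 x0' : ℕ∞))) ⊆ ((Finset.Ico 1 N ×ˢ Finset.Ico 1 N).filter fun q =>
        ¬ (HG n).edist (x0 + W * q.1) (x0' + W * q.2) ≤ k) := by
        intro q hq
        rw [Finset.mem_filter] at hq ⊢
        refine ⟨hq.1, fun h' => hq.2 (Or.inr ?_)⟩
        rw [hk]
        exact h'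
      exact_mod_cast Finset.card_le_card this
    by_cases hpar : x0 % 2 = x0' % 2
    · by_cases hthr : (x0 % 3 = 0 ↔ x0' % 3 = 0)
      · have hk : dd x0 x0' = 2 := by unfold dd; rw [if_pos hpar, if_pos hthr]
        refine hred 2 (by rw [hk]; rfl) ?_
        have := h1 N (by omega) n hWN x0 x0' hx0 hx0' (by omega) (by omega)
        convert this
      · have hk : dd x0 x0' = 4 := by unfold dd; rw [if_pos hpar, if_neg hthr]
        refine hred 4 (by rw [hk]; rfl) ?_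
        by_cases hx3 : x0 % 3 = 0
        · have hx3' : x0' % 3 ≠ 0 := fun h => hthr ⟨fun _ => h, fun _ => hx3⟩
          have := h4 N (by omega) n hWN x0' x0 hx0' hx0 (by omega) (by omega) (by omega)
          refine le_trans (le_of_eq ?_) this
          norm_cast
          refine Finset.card_bij (fun q _ => (q.2, q.1)) ?_ ?_ ?_
          · intro q hq
            rw [Finset.mem_filter, Finset.mem_product] at hq ⊢
            refine ⟨⟨hq.1.2, hq.1.1⟩, ?_⟩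
            rw [SimpleGraph.edist_comm]
            exact hq.2
          · intro q _ q' _ he
            simp only [Prod.mk.injEq] at he
            exact Prod.ext he.2 he.1
          · intro q hq
            refine ⟨(q.2, q.1), ?_, rfl⟩
            rw [Finset.mem_filter, Finset.mem_product] at hq ⊢
            refine ⟨⟨hq.1.2, hq.1.1⟩, ?_⟩
            rw [SimpleGraph.edist_comm]
            exact hq.2
        · have hx3' : x0' % 3 = 0 := by
            by_contra h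
            exact hthr ⟨fun h' => absurd h' hx3, fun h' => absurd h' h⟩
          have := h4 N (by omega) n hWN x0 x0' hx0 hx0' (by omega) (by omega) (by omega)
          convert this
    · by_cases hboth : x0 % 3 = 0 ∧ x0' % 3 = 0
      · by_cases hf : (x0 % 5 = 2 ∨ x0 % 5 = 3) ∧ (x0' % 5 = 2 ∨ x0' % 5 = 3)
        · exact absurd (by unfold dd; rw [if_neg hpar, if_pos hboth, if_pos hf]) hd
        · have hk : dd x0 x0' = 3 := by unfold dd; rw [if_neg hpar, if_pos hboth, if_neg hf]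
          refine hred 3 (by rw [hk]; rfl) ?_
          have := h2 N (by omega) n hWN x0 x0' hx0 hx0' (by omega) (by omega) (by omega)
            (by
              intro hc
              exact hf ⟨by omega, by omega⟩)
          convert this
      · by_cases hno : x0 % 3 ≠ 0 ∧ x0' % 3 ≠ 0
        · exact absurd (by unfold dd; rw [if_neg hpar, if_neg hboth, if_pos hno]) hd
        · have hk : dd x0 x0' = 3 := by unfold dd; rw [if_neg hpar, if_neg hboth, if_neg hno]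
          refine hred 3 (by rw [hk]; rfl) ?_
          have := h3 N (by omega) n hWN x0 x0' hx0 hx0' (by omega) (by omega)
          convert this
  have hcount := ty3_count hW0 hWN hnW
    (fun a b => dd a b = 5 ∨ (HG n).edist a b ≤ (dd a b : ℕ∞)) (ε := ε / 4) (by
    intro x0 x0' hx0 hx0'
    convert hall x0 x0' hx0 hx0')
  have e1 : (W : ℝ) ^ 2 * (ε / 4 * N ^ 2) ≤ ε / 4 * n ^ 2 := by
    have e2 : ((W : ℝ) * N) ≤ n := by exact_mod_cast hWN
    have e3 : ((W : ℝ) * N) ^ 2 ≤ n ^ 2 := pow_le_pow_left₀ (by positivity) e2 2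
    calc (W : ℝ) ^ 2 * (ε / 4 * N ^ 2) = ε / 4 * ((W : ℝ) * N) ^ 2 := by ring
      _ ≤ _ := by apply mul_le_mul_of_nonneg_left e3; positivity
  have e4 : 4 * (W : ℝ) * n ≤ ε / 4 * n ^ 2 := by
    have e5 : (n8 : ℝ) ≤ n := by exact_mod_cast (by omega : n8 ≤ n)
    have e6 : 16 * (W : ℝ) / ε < n := h8.trans_le e5
    rw [div_lt_iff₀ hε] at e6
    have e7 : (0 : ℝ) ≤ n := Nat.cast_nonneg _
    nlinarith
  have hsplit : ((Finset.Icc 1 n ×ˢ Finset.Icc 1 n).filter fun q =>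
      ¬ (HG n).edist q.1 q.2 ≤ (dd q.1 q.2 : ℕ∞)) ⊆
      ((Finset.Icc 1 n ×ˢ Finset.Icc 1 n).filter fun q => ¬ (HG n).edist q.1 q.2 ≤ 5) ∪
      ((Finset.Icc 1 n ×ˢ Finset.Icc 1 n).filter fun q =>
        ¬ (dd q.1 q.2 = 5 ∨ (HG n).edist q.1 q.2 ≤ (dd q.1 q.2 : ℕ∞))) := by
    intro q hq
    rw [Finset.mem_union, Finset.mem_filter, Finset.mem_filter]
    rw [Finset.mem_filter] at hq
    by_cases hd : dd q.1 q.2 = 5
    · left
      refine ⟨hq.1, ?_⟩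
      have := hq.2
      rw [hd] at this
      exact this
    · right
      refine ⟨hq.1, fun h => ?_⟩
      rcases h with h | h
      · exact hd h
      · exact hq.2 h
  have hc1 : (((Finset.Icc 1 n ×ˢ Finset.Icc 1 n).filter fun q =>
      ¬ (HG n).edist q.1 q.2 ≤ (dd q.1 q.2 : ℕ∞)).card : ℝ) ≤
      (((Finset.Icc 1 n ×ˢ Finset.Icc 1 n).filter fun q => ¬ (HG n).edist q.1 q.2 ≤ 5).card : ℝ) +
      (((Finset.Icc 1 n ×ˢ Finset.Icc 1 n).filter fun q =>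
        ¬ (dd q.1 q.2 = 5 ∨ (HG n).edist q.1 q.2 ≤ (dd q.1 q.2 : ℕ∞))).card : ℝ) := by
    exact_mod_cast (Finset.card_le_card hsplit).trans (Finset.card_union_le _ _)
  have hc2 := h5 n (by omega)
  have hc3 : (((Finset.Icc 1 n ×ˢ Finset.Icc 1 n).filter fun q =>
        ¬ (dd q.1 q.2 = 5 ∨ (HG n).edist q.1 q.2 ≤ (dd q.1 q.2 : ℕ∞))).card : ℝ) ≤
      (W : ℝ) ^ 2 * (ε / 4 * N ^ 2) + 4 * W * n := by
    refine le_trans (le_of_eq ?_) hcount
    congr!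
  have hc2' : (((Finset.Icc 1 n ×ˢ Finset.Icc 1 n).filter fun q =>
      ¬ (HG n).edist q.1 q.2 ≤ 5).card : ℝ) ≤ ε / 2 * n ^ 2 := by
    refine le_trans (le_of_eq ?_) hc2
    congr!
  linarith

end Pool.Agent.Lib.H18GB
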