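import Pool.Agent.Lib.H18GB.Transfer
import Pool.Agent.Lib.H18GB2.DistU
import Pool.Agent.Lib.H18GB2.DistL

/-!
# Project GB2: DIST (typical distances)
-/

namespace Pool.Agent.Lib.H18GB

open Finset Pool.Agent.Lib.Sieve Pool.Agent.Lib.GoldbachGraph Pool.Agent.Goldbach

/-- few pairs are at distance greater than `dd` -/
theorem distM_upper (ε : ℝ) (hε : 0 < ε) : ∃ n0 : ℕ, ∀ n ≥ n0, ∀ V S : Set ℕ,
    (∀ a ∈ V, Even a ∧ a ≤ 2 * n) → (∀ x ∈ Finset.Icc 1 n, 2 * x ∈ V) →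
    (∀ m, m.Prime → Odd m → m < 2 * n → m ∈ S) →
    ({p : V × V | (dd ((p.1 : ℕ) / 2) ((p.2 : ℕ) / 2) : ℕ∞) < (halfGraph V S).edist p.1 p.2}.ncard :
      ℝ) ≤ ε * n ^ 2 := by
  obtain ⟨n1, h3⟩ := dist_upper (ε / 2) (by positivity)
  obtain ⟨n2, h4⟩ := exists_nat_gt (8 / ε)
  refine ⟨max n1 (max n2 1), fun n hn V S hV hV2 hS => ?_⟩
  have hn1 : n1 ≤ n := le_trans (le_max_left _ _) hn
  have hn2 : n2 ≤ n := le_trans (le_max_left _ _) (le_trans (le_max_right _ _) hn)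
  have hn3 : 1 ≤ n := le_trans (le_max_right _ _) (le_trans (le_max_right _ _) hn)
  have h5 := h3 n hn1
  have : Finite V := finite_of_le hV
  classical
  set B : Finset (ℕ × ℕ) := ((Finset.Icc 1 n ×ˢ Finset.Icc 1 n).filter fun q =>
    ¬ (HG n).edist q.1 q.2 ≤ (dd q.1 q.2 : ℕ∞)) ∪
      (({0} ×ˢ Finset.range (n + 1)) ∪ (Finset.range (n + 1) ×ˢ {0}))
    with hB
  have h6 : {p : V × V | (dd ((p.1 : ℕ) / 2) ((p.2 : ℕ) / 2) : ℕ∞) <
      (halfGraph V S).edist p.1 p.2}.ncard ≤ B.card := by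
    rw [← Set.ncard_coe_finset]
    apply Set.ncard_le_ncard_of_injOn (fun p : V × V => ((p.1 : ℕ) / 2, (p.2 : ℕ) / 2))
    · rintro ⟨⟨a, ha⟩, ⟨b, hb⟩⟩ hab
      obtain ⟨⟨x, hx⟩, han⟩ := hV a ha
      obtain ⟨⟨y, hy⟩, hbn⟩ := hV b hb
      have hax : a = 2 * x := by omega
      have hby : b = 2 * y := by omega
      subst hax hby
      simp only [Set.mem_ofPred_eq] at hab
      simp only [Nat.mul_div_cancel_left _ (by norm_num : 0 < 2)] at hab ⊢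
      rw [Finset.mem_coe, hB]
      simp only [Finset.mem_union, Finset.mem_filter, Finset.mem_product, Finset.mem_singleton,
        Finset.mem_range]
      by_cases hx0 : x = 0
      · exact Or.inr (Or.inl ⟨hx0, by omega⟩)
      by_cases hy0 : y = 0
      · exact Or.inr (Or.inr ⟨by omega, hy0⟩)
      left
      have hx1 : x ∈ Finset.Icc 1 n := Finset.mem_Icc.mpr ⟨by omega, by omega⟩
      have hy1 : y ∈ Finset.Icc 1 n := Finset.mem_Icc.mpr ⟨by omega, by omega⟩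
      refine ⟨⟨hx1, hy1⟩, fun h7 => ?_⟩
      exact absurd (edist_transfer hV2 hS hx1 hy1 (k := dd x y) h7) (not_le.mpr hab)
    · rintro ⟨⟨a, ha⟩, ⟨b, hb⟩⟩ - ⟨⟨a', ha'⟩, ⟨b', hb'⟩⟩ - hab
      have h1 := (hV a ha).1
      have h2 := (hV b hb).1
      have h3 := (hV a' ha').1
      have h4 := (hV b' hb').1
      simp only [Prod.mk.injEq] at hab
      obtain ⟨k1, e1⟩ := h1
      obtain ⟨k2, e2⟩ := h2
      obtain ⟨k3, e3⟩ := h3
      obtain ⟨k4, e4⟩ := h4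
      ext
      · simp only
        omega
      · simp only
        omega
  have h7 : B.card ≤ ((Finset.Icc 1 n ×ˢ Finset.Icc 1 n).filter fun q =>
    ¬ (HG n).edist q.1 q.2 ≤ (dd q.1 q.2 : ℕ∞)).card + 2 * (n + 1) := by
    refine (Finset.card_union_le _ _).trans (Nat.add_le_add_left ?_ _)
    refine (Finset.card_union_le _ _).trans ?_
    rw [Finset.card_product, Finset.card_product, Finset.card_range, Finset.card_singleton]
    omega
  have h8 : ({p : V × V | (dd ((p.1 : ℕ) / 2) ((p.2 : ℕ) / 2) : ℕ∞) <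
      (halfGraph V S).edist p.1 p.2}.ncard : ℝ) ≤
      (((Finset.Icc 1 n ×ˢ Finset.Icc 1 n).filter fun q =>
        ¬ (HG n).edist q.1 q.2 ≤ (dd q.1 q.2 : ℕ∞)).card : ℝ) + 2 * (n + 1) := by
    exact_mod_cast h6.trans h7
  have h9 : (1 : ℝ) ≤ n := by exact_mod_cast hn3
  have h10 : 8 < ε * n := by
    have : 8 / ε < (n : ℝ) := lt_of_lt_of_le h4 (by exact_mod_cast hn2)
    rw [div_lt_iff₀ hε] at this
    linarith
  have h11 : 2 * ((n : ℝ) + 1) ≤ ε / 2 * n ^ 2 := by nlinarith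
  have h12 : (((Finset.Icc 1 n ×ˢ Finset.Icc 1 n).filter fun q =>
        ¬ (HG n).edist q.1 q.2 ≤ (dd q.1 q.2 : ℕ∞)).card : ℝ) ≤ ε / 2 * n ^ 2 := by
    convert h5
  linarith

/-- Chunk DIST: `dist_upper`, `edist_transfer`, `dist_lower` (compare `few_pairs` in
`TypicalDistanceFive.lean`). -/
theorem dist_main (ε : ℝ) (hε : 0 < ε) : ∃ n0 : ℕ, ∀ n ≥ n0, ∀ V S : Set ℕ,
    (∀ a ∈ V, Even a ∧ a ≤ 2 * n) → (∀ x ∈ Finset.Icc 1 n, 2 * x ∈ V) →
    (∀ m, m.Prime → Odd m → m < 2 * n → m ∈ S) → (∀ m ∈ S, m = 1 ∨ (m.Prime ∧ Odd m)) →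
    ({p : V × V | (halfGraph V S).edist p.1 p.2 ≠ (dd ((p.1 : ℕ) / 2) ((p.2 : ℕ) / 2) : ℕ∞)}.ncard :
      ℝ) ≤ ε * n ^ 2 := by
  obtain ⟨n1, h1⟩ := distM_upper (ε / 2) (by positivity)
  obtain ⟨n2, h2⟩ := dist_lower (ε / 2) (by positivity)
  refine ⟨max n1 n2, fun n hn V S hV hV2 hS hS' => ?_⟩
  have e1 := h1 n (le_trans (le_max_left _ _) hn) V S hV hV2 hS
  have e2 := h2 n (le_trans (le_max_right _ _) hn) V S hV hS'
  have : Finite V := finite_of_le hV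
  have h3 : {p : V × V | (halfGraph V S).edist p.1 p.2 ≠
      (dd ((p.1 : ℕ) / 2) ((p.2 : ℕ) / 2) : ℕ∞)} ⊆
      {p : V × V | (dd ((p.1 : ℕ) / 2) ((p.2 : ℕ) / 2) : ℕ∞) < (halfGraph V S).edist p.1 p.2} ∪
      {p : V × V | (halfGraph V S).edist p.1 p.2 < (dd ((p.1 : ℕ) / 2) ((p.2 : ℕ) / 2) : ℕ∞)} := by
    intro p hp
    rcases lt_or_gt_of_ne hp with h | h
    · exact Or.inr h
    · exact Or.inl h
  have h4 := (Set.ncard_le_ncard h3 (Set.toFinite _)).trans (Set.ncard_union_le _ _)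
  have h5 : ({p : V × V | (halfGraph V S).edist p.1 p.2 ≠
      (dd ((p.1 : ℕ) / 2) ((p.2 : ℕ) / 2) : ℕ∞)}.ncard : ℝ) ≤
      ({p : V × V | (dd ((p.1 : ℕ) / 2) ((p.2 : ℕ) / 2) : ℕ∞) <
        (halfGraph V S).edist p.1 p.2}.ncard : ℝ) +
      ({p : V × V | (halfGraph V S).edist p.1 p.2 <
        (dd ((p.1 : ℕ) / 2) ((p.2 : ℕ) / 2) : ℕ∞)}.ncard : ℝ) := by
    exact_mod_cast h4
  linarith

end Pool.Agent.Lib.H18GB
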